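import Pool.Agent.T6.H97.CS.Defs2

/-!
MP_f9dfcb_ag, project CS (helper97): module ADJ (helper41).
-/

set_option autoImplicit false

universe u

namespace Pool.Agent.T6.H97.CS

open Finset Matrix Module MvPolynomial

namespace ModADJ

variable {R : Type u} [CommRing R] {β μ : Type} [Fintype β] [Fintype μ] [DecidableEq β]
  [DecidableEq μ]

/-- The case of the identity. -/
theorem det_one1 (a : Matrix β β R) (b : Matrix β μ R) (b' : Matrix μ β R) (d : Matrix μ μ R) :
    (fromBlocks (fromBlocks a b b' d) (fromRows 1 0 : Matrix (β ⊕ μ) β R)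
      (fromCols 1 0 : Matrix β (β ⊕ μ) R) 0).det = (-1) ^ Fintype.card β * d.det := by
  have h1 : (fromBlocks (1 : Matrix (β ⊕ μ) (β ⊕ μ) R) 0 (fromCols 1 0 : Matrix β (β ⊕ μ) R)
      (1 : Matrix β β R)).det = 1 := by
    rw [det_fromBlocks_zero₁₂, det_one, det_one, one_mul]
  have h2 : (fromBlocks (1 : Matrix (β ⊕ μ) (β ⊕ μ) R) 0 (fromCols 1 0 : Matrix β (β ⊕ μ) R)
      (1 : Matrix β β R)) * (fromBlocks (fromBlocks a b b' d) (fromRows 1 0 : Matrix (β ⊕ μ) β R)
      (fromCols 1 0 : Matrix β (β ⊕ μ) R) 0) =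
      fromBlocks (fromBlocks a b b' d) (fromRows 1 0 : Matrix (β ⊕ μ) β R)
        (fromCols (a + 1) b) 1 := by
    rw [fromBlocks_multiply]
    congr 1
    · simp
    · simp
    · rw [fromCols_mul_fromBlocks]
      ext i j
      rcases j with j | j <;> simp
    · rw [fromCols_mul_fromRows]
      simp
  have h3 := congrArg Matrix.det h2
  rw [det_mul, h1, one_mul] at h3
  rw [h3, det_fromBlocks_one₂₂, fromRows_mul_fromCols]
  have h4 : fromBlocks a b b' d - fromBlocks ((1 : Matrix β β R) * (a + 1))
      ((1 : Matrix β β R) * b) ((0 : Matrix μ β R) * (a + 1)) ((0 : Matrix μ β R) * b) =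
      fromBlocks (-1) 0 b' d := by
    ext i j
    rcases i with i | i <;> rcases j with j | j <;> simp
  rw [h4, det_fromBlocks_zero₁₂, det_neg, det_one, mul_one]

theorem det_sq (a : Matrix β β R) (b : Matrix β μ R) (b' : Matrix μ β R) (d : Matrix μ μ R)
    (c : Matrix β β R) :
    (fromBlocks (fromBlocks a b b' d) (fromRows c 0 : Matrix (β ⊕ μ) β R)
      (fromCols cᵀ 0 : Matrix β (β ⊕ μ) R) 0).det =
      (-1) ^ Fintype.card β * d.det * c.det ^ 2 := by
  have h : (fromBlocks (fromBlocks a b b' d) (fromRows c 0 : Matrix (β ⊕ μ) β R)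
      (fromCols cᵀ 0 : Matrix β (β ⊕ μ) R) 0) =
      (fromBlocks (1 : Matrix (β ⊕ μ) (β ⊕ μ) R) 0 0 cᵀ) *
      (fromBlocks (fromBlocks a b b' d) (fromRows 1 0 : Matrix (β ⊕ μ) β R)
      (fromCols 1 0 : Matrix β (β ⊕ μ) R) 0) *
      (fromBlocks (1 : Matrix (β ⊕ μ) (β ⊕ μ) R) 0 0 c) := by
    rw [fromBlocks_multiply, fromBlocks_multiply]
    congr 1
    · simp
    · simp [fromRows_mul]
    · simp [mul_fromCols]
    · simp
  rw [h, det_mul, det_mul, det_one1, det_fromBlocks_zero₂₁, det_fromBlocks_zero₂₁, Matrix.det_one,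
    det_transpose]
  ring

/-- The square matrix with the rows of `c` and the unit vector. -/
def Nm (c : Matrix β (Option β) R) : Matrix (Option β) (Option β) R :=
  Matrix.of fun z : Option β => match z with
    | none => (Pi.single none 1 : Option β → R)
    | some a => c a

theorem kv_adj (c : Matrix β (Option β) R) (y : Option β) : kv c y = (Nm c).adjugate y none := by
  rw [adjugate_apply]
  unfold kv
  congr 1
  ext z w
  rcases z with _ | z
  · simp
  · simp [Nm]

theorem det_Nm (c : Matrix β (Option β) R) : (Nm c).det = kv c none := by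
  unfold kv Nm
  rfl

theorem Nm_kv (c : Matrix β (Option β) R) (z : Option β) :
    ((Nm c) *ᵥ (kv c)) z = if z = none then kv c none else 0 := by
  have h := congrFun (congrFun (mul_adjugate (Nm c)) z) none
  rw [Matrix.mul_apply] at h
  simp only [Matrix.mulVec, dotProduct, kv_adj]
  rw [h, Matrix.smul_apply, Matrix.one_apply, det_Nm]
  simp only [smul_eq_mul, mul_ite, mul_one, mul_zero, kv_adj]

theorem c_kv (c : Matrix β (Option β) R) : c *ᵥ (kv c) = 0 := by
  funext a
  have := Nm_kv c (some a)
  simpa [Nm, Matrix.mulVec] using this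

theorem prop_of (c : Matrix β (Option β) R) (x : Option β → R) (hx : c *ᵥ x = 0)
    (y : Option β) : kv c none * x y = x none * kv c y := by
  have h1 : (Nm c) *ᵥ x = Pi.single none (x none) := by
    funext z
    rcases z with _ | a
    · simp [Nm, Matrix.mulVec]
    · have := congrFun hx a
      simpa [Nm, Matrix.mulVec] using this
  have h2 : (Nm c).adjugate *ᵥ ((Nm c) *ᵥ x) = (Nm c).det • x := by
    rw [Matrix.mulVec_mulVec, adjugate_mul, Matrix.smul_mulVec, Matrix.one_mulVec]
  rw [h1] at h2
  have h3 := congrFun h2 y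
  rw [det_Nm] at h3
  simp only [Matrix.mulVec_single, Pi.smul_apply, smul_eq_mul] at h3
  rw [← h3, kv_adj]
  simp [mul_comm]

section Dom

variable [IsDomain R]

theorem ct_inj (c : Matrix β (Option β) R) (hc : kv c none ≠ 0) (x : β → R)
    (hx : ∀ y, ∑ a, c a y * x a = 0) : x = 0 := by
  have h1 : (Nm c)ᵀ *ᵥ (fun z : Option β => z.elim 0 x) = 0 := by
    funext y
    simp only [Matrix.mulVec, dotProduct, Fintype.sum_option, transpose_apply, Pi.zero_apply]
    simpa [Nm] using hx y
  have h2 : (Nm c)ᵀ.det ≠ 0 := by rwa [det_transpose, det_Nm]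
  have h3 := Matrix.eq_zero_of_mulVec_eq_zero h2 h1
  funext a
  exact congrFun h3 (some a)

variable (a : Matrix β β R) (b : Matrix β μ R) (c : Matrix β (Option β) R) (d : Matrix μ μ R)

theorem ker_blk (hd : d.det ≠ 0) (hc : kv c none ≠ 0)
    (x : β ⊕ (μ ⊕ Option β) → R) (hx : (blk a b c d 0 0) *ᵥ x = 0) :
    (∀ i, x (Sum.inl i) = 0) ∧ (∀ i, x (Sum.inr (Sum.inl i)) = 0) ∧
      c *ᵥ (fun y => x (Sum.inr (Sum.inr y))) = 0 := by
  have h1 : (fun i => x (Sum.inl i)) = 0 := by
    apply ct_inj c hc
    intro y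
    have := congrFun hx (Sum.inr (Sum.inr y))
    simpa [Matrix.mulVec, dotProduct, blk, Fintype.sum_sum_type] using this
  have h1' : ∀ i, x (Sum.inl i) = 0 := fun i => congrFun h1 i
  have h2 : (fun i => x (Sum.inr (Sum.inl i))) = 0 := by
    apply Matrix.eq_zero_of_mulVec_eq_zero hd
    funext j
    have := congrFun hx (Sum.inr (Sum.inl j))
    simp only [Matrix.mulVec, dotProduct, blk, Fintype.sum_sum_type, Matrix.of_apply, h1',
      Matrix.zero_apply, zero_mul, mul_zero, Finset.sum_const_zero, add_zero, zero_add,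
      Pi.zero_apply] at this
    simpa [Matrix.mulVec, dotProduct] using this
  have h2' : ∀ i, x (Sum.inr (Sum.inl i)) = 0 := fun i => congrFun h2 i
  refine ⟨h1', h2', ?_⟩
  funext i
  have := congrFun hx (Sum.inl i)
  simp only [Matrix.mulVec, dotProduct, blk, Fintype.sum_sum_type, Matrix.of_apply, h1', h2',
    mul_zero, Finset.sum_const_zero, add_zero, zero_add, Pi.zero_apply] at this
  simpa [Matrix.mulVec, dotProduct] using this

theorem det_blk (hc : kv c none ≠ 0) : (blk a b c d 0 0).det = 0 := by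
  rw [← Matrix.exists_mulVec_eq_zero_iff]
  refine ⟨Sum.elim 0 (Sum.elim 0 (kv c)), ?_, ?_⟩
  · intro h
    exact hc (congrFun h (Sum.inr (Sum.inr none)))
  · funext i
    rcases i with i | i | i
    · have := congrFun (c_kv c) i
      simpa [Matrix.mulVec, dotProduct, blk, Fintype.sum_sum_type] using this
    · simp [Matrix.mulVec, dotProduct, blk, Fintype.sum_sum_type]
    · simp [Matrix.mulVec, dotProduct, blk, Fintype.sum_sum_type]

omit [Fintype β] [Fintype μ] [DecidableEq β] [DecidableEq μ] [IsDomain R] in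
theorem blk_symm (ha : a.IsSymm) (hd : d.IsSymm) : (blk a b c d 0 0).IsSymm := by
  ext i j
  rcases i with i | i | i <;> rcases j with j | j | j <;>
    simp [blk, ha.apply, hd.apply]

end Dom

/-- removal of the index `none` -/
def eqN (β μ : Type) : ((β ⊕ μ) ⊕ β) ⊕ Unit ≃ β ⊕ (μ ⊕ Option β) where
  toFun := fun x => match x with
    | .inl (.inl (.inl a)) => .inl a
    | .inl (.inl (.inr j)) => .inr (.inl j)
    | .inl (.inr b) => .inr (.inr (some b))
    | .inr () => .inr (.inr none)
  invFun := fun x => match x with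
    | .inl a => .inl (.inl (.inl a))
    | .inr (.inl j) => .inl (.inl (.inr j))
    | .inr (.inr (some b)) => .inl (.inr b)
    | .inr (.inr none) => .inr ()
  left_inv := by
    rintro (((a | j) | b) | ⟨⟩) <;> rfl
  right_inv := by
    rintro (a | j | _ | b) <;> rfl

theorem minor (a : Matrix β β R) (b : Matrix β μ R) (c : Matrix β (Option β) R)
    (d : Matrix μ μ R) :
    ((blk a b c d 0 0).updateRow (Sum.inr (Sum.inr none))
      (Pi.single (Sum.inr (Sum.inr none)) 1)).det =
      (-1) ^ Fintype.card β * d.det * kv c none ^ 2 := by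
  have h1 : kv c none = (c.submatrix id some).det := by
    rw [← det_Nm, ← Matrix.det_submatrix_equiv_self (Equiv.optionEquivSumPUnit.{0, 0} β).symm (Nm c)]
    have : (Nm c).submatrix (Equiv.optionEquivSumPUnit.{0, 0} β).symm (Equiv.optionEquivSumPUnit.{0, 0} β).symm
        = fromBlocks (c.submatrix id some) (Matrix.of fun a _ => c a none) 0 1 := by
      ext i j
      rcases i with i | i <;> rcases j with j | j <;> simp [Nm]
    rw [this, det_fromBlocks_zero₂₁, Matrix.det_one, mul_one]
  rw [h1, ← det_sq a b bᵀ d (c.submatrix id some),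
    ← Matrix.det_submatrix_equiv_self (eqN β μ)]
  have h2 : ((blk a b c d 0 0).updateRow (Sum.inr (Sum.inr none))
      (Pi.single (Sum.inr (Sum.inr none)) 1)).submatrix (eqN β μ) (eqN β μ) =
      fromBlocks (fromBlocks (fromBlocks a b bᵀ d)
        (fromRows (c.submatrix id some) 0 : Matrix (β ⊕ μ) β R)
        (fromCols (c.submatrix id some)ᵀ 0 : Matrix β (β ⊕ μ) R) 0)
        (Matrix.of fun i _ => (blk a b c d 0 0) (eqN β μ (Sum.inl i)) (Sum.inr (Sum.inr none)))
        0 1 := by
    ext i j
    rcases i with ((i | i) | i) | i <;> rcases j with ((j | j) | j) | j <;>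
      simp [eqN, blk, Matrix.updateRow_apply]
  rw [h2, det_fromBlocks_zero₂₁, Matrix.det_one, mul_one]

end ModADJ

open ModADJ in
theorem adj : StmADJ := by
  intro R _ _ β μ _ _ _ _ a b c d ha hds hd hc
  have hdet := det_blk a b c d hc
  have hsym := blk_symm a b c d ha hds
  have hadjs : ∀ i j, (blk a b c d 0 0).adjugate i j = (blk a b c d 0 0).adjugate j i := by
    intro i j
    have := adjugate_transpose (blk a b c d 0 0)
    rw [hsym.eq] at this
    conv_rhs => rw [← this]
    rfl
  have hcol : ∀ j, (blk a b c d 0 0) *ᵥ (fun i => (blk a b c d 0 0).adjugate i j) = 0 := by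
    intro j
    have := mul_adjugate (blk a b c d 0 0)
    rw [hdet, zero_smul] at this
    funext i
    exact congrFun (congrFun this i) j
  have k := fun j => ker_blk a b c d hd hc _ (hcol j)
  have e1 : ∀ i j, (blk a b c d 0 0).adjugate (Sum.inl i) j = 0 := fun i j => (k j).1 i
  have e2 : ∀ i j, (blk a b c d 0 0).adjugate (Sum.inr (Sum.inl i)) j = 0 := fun i j => (k j).2.1 i
  refine ⟨e1, e2, fun i j => by rw [hadjs]; exact e1 i j, fun i j => by rw [hadjs]; exact e2 i j, ?_⟩
  intro y z
  set A := fun y z => (blk a b c d 0 0).adjugate (Sum.inr (Sum.inr y)) (Sum.inr (Sum.inr z)) with hA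
  have p : ∀ y z, kv c none * A y z = A none z * kv c y := fun y z =>
    prop_of c (fun y => A y z) (k (Sum.inr (Sum.inr z))).2.2 y
  have sA : ∀ y z, A y z = A z y := fun y z => hadjs _ _
  have m : A none none = (-1) ^ Fintype.card β * d.det * kv c none ^ 2 := by
    simp only [hA]
    rw [adjugate_apply, minor]
  have q : kv c none ^ 2 * A y z =
      kv c none ^ 2 * ((-1) ^ Fintype.card β * d.det * kv c y * kv c z) := by
    calc kv c none ^ 2 * A y z = kv c none * (kv c none * A y z) := by ring
      _ = kv c none * (A none z * kv c y) := by rw [p]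
      _ = (kv c none * A z none) * kv c y := by rw [sA none z]; ring
      _ = (A none none * kv c z) * kv c y := by rw [p z none]
      _ = _ := by rw [m]; ring
  exact mul_left_cancel₀ (pow_ne_zero 2 hc) q

end Pool.Agent.T6.H97.CS
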