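import Pool.Agent.T6.H97.CS.Defs2

/-!
MP_f9dfcb_ag. Module BAS: from the pair of subspaces to a basis.
-/

set_option autoImplicit false

universe u

namespace Pool.Agent.T6.H97.CS

open Finset Matrix Module

namespace BAS

/-- Linearly independent families with members in given subspaces. -/
theorem fam {Ω : Type u} [Field Ω] {E : Type*} [AddCommGroup E] [Module Ω E]
    [FiniteDimensional Ω E] (n : ℕ) (S : ℕ → Submodule Ω E)
    (hS : ∀ m < n, m < finrank Ω (S m)) (m : ℕ) (hm : m ≤ n) :
    ∃ w : Fin m → E, LinearIndependent Ω w ∧ ∀ i, w i ∈ S i.val := by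
  induction m with
  | zero => exact ⟨fun i => i.elim0, linearIndependent_empty_type, fun i => i.elim0⟩
  | succ m ih =>
    obtain ⟨w, hw, hwS⟩ := ih (by omega)
    have h1 : ¬ S m ≤ Submodule.span Ω (Set.range w) := by
      intro h
      have h2 := Submodule.finrank_mono h
      rw [finrank_span_eq_card hw, Fintype.card_fin] at h2
      have h3 := hS m (by omega)
      omega
    obtain ⟨x, hx, hx'⟩ := Set.not_subset.1 h1
    refine ⟨Fin.snoc w x, ?_, ?_⟩
    · exact hw.finSnoc hx'
    · intro i
      refine Fin.lastCases ?_ (fun j => ?_) i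
      · simpa using hx
      · simpa using hwS j

/-- The orthogonal space. -/
def orth {Ω : Type u} [Field Ω] {n : ℕ} (W : Submodule Ω (Fin n → Ω)) :
    Submodule Ω (Fin n → Ω) where
  carrier := {x | ∀ y ∈ W, x ⬝ᵥ y = 0}
  add_mem' := by
    intro a b ha hb y hy
    rw [add_dotProduct, ha y hy, hb y hy, add_zero]
  zero_mem' := by
    intro y _
    rw [zero_dotProduct]
  smul_mem' := by
    intro c x hx y hy
    rw [smul_dotProduct, hx y hy, smul_zero]

/-- The map to the dual. -/
def toDual {Ω : Type u} [Field Ω] {n : ℕ} (W : Submodule Ω (Fin n → Ω)) :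
    (Fin n → Ω) →ₗ[Ω] (W →ₗ[Ω] Ω) where
  toFun x :=
    { toFun := fun y => x ⬝ᵥ y.1
      map_add' := by
        intro a b
        simp [dotProduct_add]
      map_smul' := by
        intro c y
        simp [dotProduct_smul] }
  map_add' := by
    intro a b
    ext y
    simp [add_dotProduct]
  map_smul' := by
    intro c x
    ext y
    simp [smul_dotProduct]

theorem orth_finrank {Ω : Type u} [Field Ω] {n s : ℕ} (W : Submodule Ω (Fin n → Ω))
    (hW : finrank Ω W ≤ s) : n - s ≤ finrank Ω (orth W) := by
  have h1 : orth W = LinearMap.ker (toDual W) := by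
    ext x
    rw [LinearMap.mem_ker]
    constructor
    · intro hx
      ext y
      exact hx y.1 y.2
    · intro hx y hy
      exact LinearMap.congr_fun hx ⟨y, hy⟩
  have h2 := LinearMap.finrank_range_add_finrank_ker (toDual W)
  rw [← h1] at h2
  have h3 : finrank Ω (LinearMap.range (toDual W)) ≤ finrank Ω (W →ₗ[Ω] Ω) :=
    Submodule.finrank_le _
  have h4 : finrank Ω (W →ₗ[Ω] Ω) = finrank Ω W := Subspace.dual_finrank_eq
  rw [finrank_fintype_fun_eq_card, Fintype.card_fin] at h2
  omega

end BAS

open BAS in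
theorem bas : StmBAS.{u} := by
  intro Ω _ n r k s hr hrn hs M V W hM hV hW hMV hVW
  let S : ℕ → Submodule Ω (Fin n → Ω) := fun m =>
    if m < s + 1 + n - r then V else if m < n - s then orth W else ⊤
  have hSm : ∀ m, S m = if m < s + 1 + n - r then V else if m < n - s then orth W else ⊤ :=
    fun m => rfl
  clear_value S
  have hS : ∀ m < n, m < finrank Ω (S m) := by
    intro m hm
    by_cases h1 : m < s + 1 + n - r
    · rw [hSm, if_pos h1]
      omega
    · by_cases h2 : m < n - s
      · rw [hSm, if_neg h1, if_pos h2]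
        exact lt_of_lt_of_le h2 (orth_finrank W hW)
      · rw [hSm, if_neg h1, if_neg h2, finrank_top, finrank_fintype_fun_eq_card,
          Fintype.card_fin]
        exact hm
  obtain ⟨w, hw, hwS⟩ := fam n S hS n le_rfl
  have hV' : ∀ i : Fin n, i.val < s + 1 + n - r → w i ∈ V := by
    intro i hi
    have := hwS i
    rwa [hSm, if_pos hi] at this
  have hO' : ∀ i : Fin n, i.val < n - s → w i ∈ orth W := by
    intro i hi
    by_cases h1 : i.val < s + 1 + n - r
    · exact fun y hy => hVW _ (hV' i h1) y hy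
    · have := hwS i
      rwa [hSm, if_neg h1, if_pos hi] at this
  have hcol : ∀ (l : Fin (k + 1)) (i j : Fin n),
      ((Matrix.of fun a b : Fin n => w (Fin.rev b) a)ᵀ * M l *
        (Matrix.of fun a b : Fin n => w (Fin.rev b) a)) i j =
      w (Fin.rev i) ⬝ᵥ (M l *ᵥ w (Fin.rev j)) := by
    intro l i j
    rw [Matrix.mul_assoc, Matrix.mul_apply]
    rfl
  refine ⟨Matrix.of fun a b => w (Fin.rev b) a, ?_, ?_⟩
  · rw [← Matrix.isUnit_iff_isUnit_det, ← Matrix.linearIndependent_cols_iff_isUnit]
    exact hw.comp Fin.rev Fin.rev_injective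
  · intro l i j hij
    rw [hcol]
    rcases hij with ⟨h1, h2⟩ | ⟨h1, h2⟩
    · -- `i` is large
      have hx : M l *ᵥ w (Fin.rev i) ∈ W := hMV l _ (hV' _ (by
        have := i.2
        rw [Fin.val_rev]
        omega))
      have hy : w (Fin.rev j) ∈ orth W := hO' _ (by
        have := j.2
        rw [Fin.val_rev]
        omega)
      have h3 : w (Fin.rev i) ⬝ᵥ (M l *ᵥ w (Fin.rev j)) =
          w (Fin.rev j) ⬝ᵥ (M l *ᵥ w (Fin.rev i)) := by
        rw [Matrix.dotProduct_mulVec, ← Matrix.mulVec_transpose, (hM l).eq, dotProduct_comm]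
      rw [h3]
      exact hy _ hx
    · have hx : M l *ᵥ w (Fin.rev j) ∈ W := hMV l _ (hV' _ (by
        have := j.2
        rw [Fin.val_rev]
        omega))
      have hy : w (Fin.rev i) ∈ orth W := hO' _ (by
        have := i.2
        rw [Fin.val_rev]
        omega)
      exact hy _ hx

end Pool.Agent.T6.H97.CS
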