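import Pool.Agent.T6.H97.CS.Defs2

/-!
Module CHA: charts of the Grassmannian.
-/

set_option autoImplicit false

universe u

namespace Pool.Agent.T6.H97.CS

open Finset Matrix Module MvPolynomial

namespace ModCHA

variable {K : Type u} [Field K] {n r k : ℕ}

/-- change of basis -/
def act (G : Matrix (Fin (k + 1)) (Fin (k + 1)) K)
    (M : Fin (k + 1) → Matrix (Fin n) (Fin n) K) : Fin (k + 1) → Matrix (Fin n) (Fin n) K :=
  fun l => ∑ m, G l m • M m

theorem act_act (G H : Matrix (Fin (k + 1)) (Fin (k + 1)) K)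
    (M : Fin (k + 1) → Matrix (Fin n) (Fin n) K) : act G (act H M) = act (G * H) M := by
  funext l
  simp only [act, Finset.smul_sum, smul_smul, Matrix.mul_apply, Finset.sum_smul]
  rw [Finset.sum_comm]

theorem act_one (M : Fin (k + 1) → Matrix (Fin n) (Fin n) K) : act 1 M = M := by
  funext l
  simp [act, Matrix.one_apply]

/-- the coordinates of a tuple -/
def Pm (φ : Matrix (Fin n) (Fin n) K →ₗ[K] (Fin (k + 1) → K))
    (M : Fin (k + 1) → Matrix (Fin n) (Fin n) K) : Matrix (Fin (k + 1)) (Fin (k + 1)) K :=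
  Matrix.of fun l m => φ (M l) m

theorem Pm_act (φ : Matrix (Fin n) (Fin n) K →ₗ[K] (Fin (k + 1) → K))
    (G : Matrix (Fin (k + 1)) (Fin (k + 1)) K)
    (M : Fin (k + 1) → Matrix (Fin n) (Fin n) K) : Pm φ (act G M) = G * Pm φ M := by
  ext l m
  simp only [Pm, act, Matrix.of_apply, Matrix.mul_apply, map_sum, map_smul, Finset.sum_apply,
    Pi.smul_apply, smul_eq_mul]

theorem indep_of_det (φ : Matrix (Fin n) (Fin n) K →ₗ[K] (Fin (k + 1) → K))
    (M : Fin (k + 1) → Matrix (Fin n) (Fin n) K) (h : (Pm φ M).det ≠ 0) :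
    LinearIndependent K M := by
  rw [Fintype.linearIndependent_iff]
  intro x hx
  have h1 : x ᵥ* (Pm φ M) = 0 := by
    funext m
    have h2 := congrFun (congrArg φ hx) m
    simp only [map_sum, map_smul, Finset.sum_apply, Pi.smul_apply, smul_eq_mul, map_zero,
      Pi.zero_apply] at h2
    simpa [Matrix.vecMul, dotProduct, Pm] using h2
  exact fun i => congrFun (Matrix.eq_zero_of_vecMul_eq_zero h h1) i

theorem span_act_le (G : Matrix (Fin (k + 1)) (Fin (k + 1)) K)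
    (M : Fin (k + 1) → Matrix (Fin n) (Fin n) K) :
    Submodule.span K (Set.range (act G M)) ≤ Submodule.span K (Set.range M) := by
  rw [Submodule.span_le]
  rintro _ ⟨l, rfl⟩
  exact Submodule.sum_mem _ fun m _ => Submodule.smul_mem _ _ (Submodule.subset_span ⟨m, rfl⟩)

theorem span_act (G : Matrix (Fin (k + 1)) (Fin (k + 1)) K) (hG : IsUnit G.det)
    (M : Fin (k + 1) → Matrix (Fin n) (Fin n) K) :
    Submodule.span K (Set.range (act G M)) = Submodule.span K (Set.range M) := by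
  refine le_antisymm (span_act_le G M) ?_
  have h := span_act_le G⁻¹ (act G M)
  rwa [act_act, Matrix.nonsing_inv_mul _ hG, act_one] at h

theorem exists_act (M N : Fin (k + 1) → Matrix (Fin n) (Fin n) K)
    (h : Submodule.span K (Set.range N) ≤ Submodule.span K (Set.range M)) :
    ∃ G : Matrix (Fin (k + 1)) (Fin (k + 1)) K, N = act G M := by
  have h1 : ∀ l, ∃ x : Fin (k + 1) → K, ∑ i, x i • M i = N l := by
    intro l
    exact (Submodule.mem_span_range_iff_exists_fun K).1 (h (Submodule.subset_span ⟨l, rfl⟩))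
  choose x hx using h1
  refine ⟨Matrix.of x, ?_⟩
  funext l
  rw [← hx l]
  rfl

/-- the normalised frame -/
noncomputable def nrm (φ : Matrix (Fin n) (Fin n) K →ₗ[K] (Fin (k + 1) → K))
    (M : Fin (k + 1) → Matrix (Fin n) (Fin n) K) : Fin (k + 1) → Matrix (Fin n) (Fin n) K :=
  act (Pm φ M)⁻¹ M

theorem Pm_nrm (φ : Matrix (Fin n) (Fin n) K →ₗ[K] (Fin (k + 1) → K))
    (M : Fin (k + 1) → Matrix (Fin n) (Fin n) K) (h : (Pm φ M).det ≠ 0) :
    Pm φ (nrm φ M) = 1 := by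
  rw [nrm, Pm_act, Matrix.nonsing_inv_mul _ (isUnit_iff_ne_zero.2 h)]

/-- the normalised frame of a frame -/
noncomputable def nrmF (φ : Matrix (Fin n) (Fin n) K →ₗ[K] (Fin (k + 1) → K))
    (M : Frame K n r k) (h : (Pm φ M.1).det ≠ 0) : Frame K n r k :=
  ⟨nrm φ M.1, by
    apply indep_of_det φ
    rw [Pm_nrm φ M.1 h, Matrix.det_one]
    exact one_ne_zero, by
    intro x
    have h1 : ∑ i, x i • nrm φ M.1 i ∈ Submodule.span K (Set.range M.1) :=
      span_act_le (Pm φ M.1)⁻¹ M.1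
        (Submodule.sum_mem _ fun m _ => Submodule.smul_mem _ _ (Submodule.subset_span ⟨m, rfl⟩))
    obtain ⟨z, hz⟩ := (Submodule.mem_span_range_iff_exists_fun K).1 h1
    rw [← hz]
    exact M.2.2 z⟩

theorem nrmF_val (φ : Matrix (Fin n) (Fin n) K →ₗ[K] (Fin (k + 1) → K))
    (M : Frame K n r k) (h : (Pm φ M.1).det ≠ 0) : (nrmF φ M h).1 = nrm φ M.1 := rfl

theorem toFano_eq_iff (M N : Frame K n r k) : M.toFano = N.toFano ↔
    Submodule.span K (Set.range M.1) = Submodule.span K (Set.range N.1) := by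
  constructor
  · intro h
    exact congrArg Subtype.val h
  · intro h
    exact Subtype.ext h

theorem toFano_nrmF (φ : Matrix (Fin n) (Fin n) K →ₗ[K] (Fin (k + 1) → K))
    (M : Frame K n r k) (h : (Pm φ M.1).det ≠ 0) : (nrmF φ M h).toFano = M.toFano := by
  rw [toFano_eq_iff, nrmF_val, nrm, span_act]
  rw [isUnit_iff_ne_zero]
  intro h1
  have h2 : ((Pm φ M.1)⁻¹ * Pm φ M.1).det = 1 := by
    rw [Matrix.nonsing_inv_mul _ (isUnit_iff_ne_zero.2 h), Matrix.det_one]
  rw [Matrix.det_mul, h1, zero_mul] at h2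
  exact zero_ne_one h2

/-- a normalised frame with the same span is the normalised frame. -/
theorem eq_nrm (φ : Matrix (Fin n) (Fin n) K →ₗ[K] (Fin (k + 1) → K))
    (M y : Frame K n r k) (h : y.toFano = M.toFano) (hy : Pm φ y.1 = 1) :
    (Pm φ M.1).det ≠ 0 ∧ y.1 = nrm φ M.1 := by
  rw [toFano_eq_iff] at h
  obtain ⟨G, hG⟩ := exists_act M.1 y.1 h.le
  have h1 : G * Pm φ M.1 = 1 := by rw [← Pm_act, ← hG, hy]
  have h2 : (Pm φ M.1).det ≠ 0 := by
    intro h3
    have h4 := congrArg Matrix.det h1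
    rw [Matrix.det_mul, h3, mul_zero, Matrix.det_one] at h4
    exact zero_ne_one h4
  refine ⟨h2, ?_⟩
  have h5 : (Pm φ M.1)⁻¹ = G := Matrix.inv_eq_left_inv h1
  rw [nrm, h5, hG]

theorem eq_of_toFano (φ : Matrix (Fin n) (Fin n) K →ₗ[K] (Fin (k + 1) → K))
    (y z : Frame K n r k) (h : y.toFano = z.toFano) (hy : Pm φ y.1 = 1) (hz : Pm φ z.1 = 1) :
    y = z := by
  have h1 := (eq_nrm φ z y h hy).2
  have h2 := (eq_nrm φ z z rfl hz).2
  exact Subtype.ext (h1.trans h2.symm)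

/-- the matrix of coordinates as a matrix of polynomials -/
noncomputable def PP (φ : Matrix (Fin n) (Fin n) K →ₗ[K] (Fin (k + 1) → K)) :
    Matrix (Fin (k + 1)) (Fin (k + 1)) (MvPolynomial (Fin (k + 1) × Fin n × Fin n) K) :=
  Matrix.of fun l m => ∑ i, ∑ j, C (φ (Matrix.single i j 1) m) * X (l, i, j)

theorem ev_PP (φ : Matrix (Fin n) (Fin n) K →ₗ[K] (Fin (k + 1) → K))
    (M : Fin (k + 1) → Matrix (Fin n) (Fin n) K) (l m : Fin (k + 1)) :
    ev (PP φ l m) M = Pm φ M l m := by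
  unfold ev PP Pm
  simp only [Matrix.of_apply, map_sum, map_mul, eval_C, eval_X]
  conv_rhs => rw [Matrix.matrix_eq_sum_single (M l)]
  simp only [map_sum, Finset.sum_apply]
  refine Finset.sum_congr rfl fun i _ => Finset.sum_congr rfl fun j _ => ?_
  have h1 : Matrix.single i j (M l i j) = (M l i j) • Matrix.single i j (1 : K) := by
    rw [Matrix.smul_single, smul_eq_mul, mul_one]
  rw [h1, map_smul, Pi.smul_apply, smul_eq_mul, mul_comm]

/-- evaluation as a ring homomorphism -/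
noncomputable def evR (M : Fin (k + 1) → Matrix (Fin n) (Fin n) K) :
    MvPolynomial (Fin (k + 1) × Fin n × Fin n) K →+* K :=
  MvPolynomial.eval (fun t => M t.1 t.2.1 t.2.2)

theorem evR_apply (M : Fin (k + 1) → Matrix (Fin n) (Fin n) K)
    (p : MvPolynomial (Fin (k + 1) × Fin n × Fin n) K) : evR M p = ev p M := rfl

theorem ev_add (M : Fin (k + 1) → Matrix (Fin n) (Fin n) K)
    (p q : MvPolynomial (Fin (k + 1) × Fin n × Fin n) K) : ev (p + q) M = ev p M + ev q M := by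
  rw [ev, map_add]
  rfl

theorem ev_mul (M : Fin (k + 1) → Matrix (Fin n) (Fin n) K)
    (p q : MvPolynomial (Fin (k + 1) × Fin n × Fin n) K) : ev (p * q) M = ev p M * ev q M := by
  rw [ev, map_mul]
  rfl

theorem ev_pow (M : Fin (k + 1) → Matrix (Fin n) (Fin n) K)
    (p : MvPolynomial (Fin (k + 1) × Fin n × Fin n) K) (a : ℕ) : ev (p ^ a) M = ev p M ^ a := by
  rw [ev, map_pow]
  rfl

theorem map_PP (φ : Matrix (Fin n) (Fin n) K →ₗ[K] (Fin (k + 1) → K))
    (M : Fin (k + 1) → Matrix (Fin n) (Fin n) K) : (evR M).mapMatrix (PP φ) = Pm φ M := by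
  ext l m
  rw [RingHom.mapMatrix_apply, Matrix.map_apply, evR_apply, ev_PP]

theorem ev_det (φ : Matrix (Fin n) (Fin n) K →ₗ[K] (Fin (k + 1) → K))
    (M : Fin (k + 1) → Matrix (Fin n) (Fin n) K) : ev (PP φ).det M = (Pm φ M).det := by
  rw [← evR_apply, RingHom.map_det, map_PP]

theorem ev_adj (φ : Matrix (Fin n) (Fin n) K →ₗ[K] (Fin (k + 1) → K))
    (M : Fin (k + 1) → Matrix (Fin n) (Fin n) K) (l m : Fin (k + 1)) :
    ev ((PP φ).adjugate l m) M = (Pm φ M).adjugate l m := by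
  rw [← map_PP, ← RingHom.map_adjugate, RingHom.mapMatrix_apply, Matrix.map_apply, evR_apply]

/-- the entries of the normalised frame, multiplied by the determinant -/
noncomputable def PA (φ : Matrix (Fin n) (Fin n) K →ₗ[K] (Fin (k + 1) → K))
    (t : Fin (k + 1) × Fin n × Fin n) : MvPolynomial (Fin (k + 1) × Fin n × Fin n) K :=
  ∑ m, (PP φ).adjugate t.1 m * X (m, t.2.1, t.2.2)

theorem ev_PA (φ : Matrix (Fin n) (Fin n) K →ₗ[K] (Fin (k + 1) → K))
    (M : Fin (k + 1) → Matrix (Fin n) (Fin n) K) (h : (Pm φ M).det ≠ 0)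
    (t : Fin (k + 1) × Fin n × Fin n) :
    ev (PA φ t) M = (Pm φ M).det * nrm φ M t.1 t.2.1 t.2.2 := by
  have h0 : ev (PA φ t) M = ∑ m, (Pm φ M).adjugate t.1 m * M m t.2.1 t.2.2 := by
    rw [← evR_apply, PA, map_sum]
    refine Finset.sum_congr rfl fun m _ => ?_
    rw [map_mul, evR_apply, ev_adj]
    congr 1
    rw [evR_apply, ev, eval_X]
  rw [h0, nrm, act, Matrix.sum_apply, Finset.mul_sum]
  refine Finset.sum_congr rfl fun m _ => ?_
  rw [Matrix.smul_apply, smul_eq_mul, Matrix.inv_def, Matrix.smul_apply, smul_eq_mul,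
    Ring.inverse_eq_inv']
  field_simp

/-- pull back of a polynomial to all the frames. -/
theorem exists_pull (φ : Matrix (Fin n) (Fin n) K →ₗ[K] (Fin (k + 1) → K))
    (p : MvPolynomial (Fin (k + 1) × Fin n × Fin n) K) :
    ∃ (N : ℕ) (q : MvPolynomial (Fin (k + 1) × Fin n × Fin n) K),
      ∀ M : Fin (k + 1) → Matrix (Fin n) (Fin n) K, (Pm φ M).det ≠ 0 →
        ev q M = (Pm φ M).det ^ N * ev p (nrm φ M) := by
  induction p using MvPolynomial.induction_on with
  | C a =>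
    refine ⟨0, C a, fun M _ => ?_⟩
    rw [ev, ev, eval_C, eval_C, pow_zero, one_mul]
  | add p1 p2 h1 h2 =>
    obtain ⟨N1, q1, h1⟩ := h1
    obtain ⟨N2, q2, h2⟩ := h2
    refine ⟨N1 + N2, (PP φ).det ^ N2 * q1 + (PP φ).det ^ N1 * q2, fun M hM => ?_⟩
    rw [ev_add, ev_mul, ev_mul, ev_pow, ev_pow, ev_det, h1 M hM, h2 M hM, ev_add]
    ring
  | mul_X p1 t h1 =>
    obtain ⟨N1, q1, h1⟩ := h1
    refine ⟨N1 + 1, q1 * PA φ t, fun M hM => ?_⟩
    have h3 : ev (X t) (nrm φ M) = nrm φ M t.1 t.2.1 t.2.2 := by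
      rw [ev, eval_X]
    rw [ev_mul, h1 M hM, ev_PA φ M hM, ev_mul, h3]
    ring

/-- the open set of a polynomial in a chart -/
def U (φ : Matrix (Fin n) (Fin n) K →ₗ[K] (Fin (k + 1) → K))
    (p : MvPolynomial (Fin (k + 1) × Fin n × Fin n) K) : Set (Fano K n r k) :=
  {Q | ∃ y : Frame K n r k, y.toFano = Q ∧ Pm φ y.1 = 1 ∧ ev p y.1 ≠ 0}

theorem isOpen_U (φ : Matrix (Fin n) (Fin n) K →ₗ[K] (Fin (k + 1) → K))
    (p : MvPolynomial (Fin (k + 1) × Fin n × Fin n) K) :
    IsOpen (U φ p : Set (Fano K n r k)) := by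
  obtain ⟨N, q, hq⟩ := exists_pull φ p
  have h1 : (Frame.toFano ⁻¹' (U φ p : Set (Fano K n r k)) : Set (Frame K n r k)) =
      {M | ev (q * (PP φ).det) M.1 ≠ 0} := by
    ext M
    simp only [Set.mem_preimage]
    change (∃ y : Frame K n r k, y.toFano = M.toFano ∧ Pm φ y.1 = 1 ∧ ev p y.1 ≠ 0) ↔
      ev (q * (PP φ).det) M.1 ≠ 0
    have h2 : ev (q * (PP φ).det) M.1 = ev q M.1 * (Pm φ M.1).det := by
      rw [← evR_apply, map_mul, evR_apply, evR_apply, ev_det]
    rw [h2]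
    constructor
    · rintro ⟨y, hy1, hy2, hy3⟩
      obtain ⟨hd, he⟩ := eq_nrm φ M y hy1 hy2
      rw [hq M.1 hd, ← he]
      exact mul_ne_zero (mul_ne_zero (pow_ne_zero _ hd) hy3) hd
    · intro h3
      have hd : (Pm φ M.1).det ≠ 0 := right_ne_zero_of_mul h3
      have h4 := left_ne_zero_of_mul h3
      rw [hq M.1 hd] at h4
      exact ⟨nrmF φ M hd, toFano_nrmF φ M hd, Pm_nrm φ M.1 hd, right_ne_zero_of_mul h4⟩
  refine isOpen_coinduced.2 ?_
  rw [h1]
  exact TopologicalSpace.isOpen_generateFrom_of_mem ⟨_, rfl⟩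

/-- a frame of a point. -/
theorem exists_frame (Q : Fano K n r k) : ∃ M : Frame K n r k, M.toFano = Q := by
  obtain ⟨Q, hQ, hQ2⟩ := Q
  have : FiniteDimensional K Q := FiniteDimensional.finiteDimensional_submodule Q
  let b : Basis (Fin (k + 1)) K Q := finBasisOfFinrankEq K Q hQ
  have hb : LinearIndependent K (fun i => (b i : Matrix (Fin n) (Fin n) K)) :=
    b.linearIndependent.map' Q.subtype (Submodule.ker_subtype Q)
  have hs : Submodule.span K (Set.range fun i => (b i : Matrix (Fin n) (Fin n) K)) = Q := by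
    have h1 : (Set.range fun i => (b i : Matrix (Fin n) (Fin n) K)) =
        Q.subtype '' Set.range b := by
      rw [← Set.range_comp]
      rfl
    rw [h1, Submodule.span_image, b.span_eq, Submodule.map_top, Submodule.range_subtype]
  refine ⟨⟨fun i => (b i : Matrix (Fin n) (Fin n) K), hb, ?_⟩, ?_⟩
  · intro x
    exact hQ2 _ (Submodule.sum_mem _ fun i _ => Submodule.smul_mem _ _ (b i).2)
  · exact Subtype.ext hs

/-- a left inverse of a frame. -/
theorem exists_left (M : Frame K n r k) :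
    ∃ φ : Matrix (Fin n) (Fin n) K →ₗ[K] (Fin (k + 1) → K), Pm φ M.1 = 1 := by
  have h1 : LinearMap.ker (Fintype.linearCombination K M.1) = ⊥ := by
    rw [LinearMap.ker_eq_bot']
    intro x hx
    funext i
    exact (Fintype.linearIndependent_iff.1 M.2.1) x (by simpa [Fintype.linearCombination_apply] using hx) i
  obtain ⟨g, hg⟩ := LinearMap.exists_leftInverse_of_injective _ h1
  refine ⟨g, ?_⟩
  ext l m
  have h2 := congrFun (LinearMap.congr_fun hg (Pi.single l 1)) m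
  simp only [LinearMap.comp_apply, LinearMap.id_apply] at h2
  rw [Fintype.linearCombination_apply_single, one_smul] at h2
  rw [Pm, Matrix.of_apply, h2, Matrix.one_apply, Pi.single_apply]
  simp only [eq_comm]

/-- a common chart. -/
theorem exists_chart [Infinite K] (M N : Frame K n r k) :
    ∃ φ : Matrix (Fin n) (Fin n) K →ₗ[K] (Fin (k + 1) → K),
      (Pm φ M.1).det ≠ 0 ∧ (Pm φ N.1).det ≠ 0 := by
  obtain ⟨φ0, h0⟩ := exists_left M
  obtain ⟨φ1, h1⟩ := exists_left N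
  let D : Frame K n r k → Polynomial K := fun L =>
    Matrix.det (Matrix.of fun l m => Polynomial.C (φ0 (L.1 l) m) +
      Polynomial.X * Polynomial.C (φ1 (L.1 l) m - φ0 (L.1 l) m) :
        Matrix (Fin (k + 1)) (Fin (k + 1)) (Polynomial K))
  have hD : ∀ (L : Frame K n r k) (t : K), Polynomial.eval t (D L) =
      (Pm (φ0 + t • (φ1 - φ0)) L.1).det := by
    intro L t
    change Polynomial.evalRingHom t (D L) = _
    rw [RingHom.map_det]
    congr 1
    ext l m
    simp [Pm, Matrix.map_apply]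
  have hM : D M ≠ 0 := by
    intro h
    have h2 := hD M 0
    rw [h, Polynomial.eval_zero, zero_smul, add_zero, h0, Matrix.det_one] at h2
    exact zero_ne_one h2
  have hN : D N ≠ 0 := by
    intro h
    have h2 := hD N 1
    rw [h, Polynomial.eval_zero, one_smul, add_sub_cancel, h1, Matrix.det_one] at h2
    exact zero_ne_one h2
  have hMN : D M * D N ≠ 0 := mul_ne_zero hM hN
  obtain ⟨t, ht⟩ : ∃ t, Polynomial.eval t (D M * D N) ≠ 0 := by
    by_contra hcon
    push Not at hcon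
    exact hMN (Polynomial.funext fun t => by rw [hcon t, Polynomial.eval_zero])
  rw [Polynomial.eval_mul, hD, hD] at ht
  exact ⟨φ0 + t • (φ1 - φ0), left_ne_zero_of_mul ht, right_ne_zero_of_mul ht⟩

end ModCHA

open ModCHA in
theorem cha : StmCHA.{u} := by
  intro K _ _ n r k Z hZ Q0 hQ0 Q1 hQ1
  have : Infinite K := IsAlgClosed.instInfinite
  obtain ⟨M, hM⟩ := exists_frame Q0
  obtain ⟨N, hN⟩ := exists_frame Q1
  obtain ⟨φ, h0, h1⟩ := exists_chart M N
  refine ⟨{y | y.toFano ∈ Z ∧ Pm φ y.1 = 1}, fun y hy => hy.1, ⟨nrmF φ M h0, ⟨?_, ?_⟩, ?_⟩,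
    ⟨nrmF φ N h1, ⟨?_, ?_⟩, ?_⟩, ?_⟩
  · rw [toFano_nrmF, hM]
    exact hQ0
  · exact Pm_nrm φ M.1 h0
  · rw [toFano_nrmF, hM]
  · rw [toFano_nrmF, hN]
    exact hQ1
  · exact Pm_nrm φ N.1 h1
  · rw [toFano_nrmF, hN]
  · rintro p q ⟨y, hy, hyp⟩ ⟨z, hz, hzq⟩
    have h2 := hZ.2 (U φ p) (U φ q) (isOpen_U φ p) (isOpen_U φ q)
      ⟨y.toFano, hy.1, y, rfl, hy.2, hyp⟩ ⟨z.toFano, hz.1, z, rfl, hz.2, hzq⟩
    obtain ⟨Q, hQZ, ⟨y1, hy1, hy1P, hy1p⟩, ⟨y2, hy2, hy2P, hy2q⟩⟩ := h2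
    have h3 : y1 = y2 := eq_of_toFano φ y1 y2 (hy1.trans hy2.symm) hy1P hy2P
    subst h3
    exact ⟨y1, ⟨by rw [hy1]; exact hQZ, hy1P⟩, hy1p, hy2q⟩

end Pool.Agent.T6.H97.CS
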