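import Pool.Agent.T6.H97.CS.Defs2

set_option autoImplicit false

universe u

namespace Pool.Agent.T6.H97.CS

open Finset Matrix Module MvPolynomial

namespace ModDEF

/-- The inclusion of the smaller index set. -/
def emb {σ μ γ : Type} (ε : Type) (i : σ ⊕ (μ ⊕ γ)) : (σ ⊕ ε) ⊕ (μ ⊕ γ) := Sum.map Sum.inl id i

section pl

variable {Ω : Type u} [Field Ω] {σ ε μ γ : Type}

theorem plus_emb (M : Matrix (σ ⊕ (μ ⊕ γ)) (σ ⊕ (μ ⊕ γ)) Ω)
    (S : Matrix ((σ ⊕ ε) ⊕ (μ ⊕ γ)) ((σ ⊕ ε) ⊕ (μ ⊕ γ)) Ω) (i j : σ ⊕ (μ ⊕ γ)) :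
    plus M S (emb ε i) (emb ε j) = M i j := by
  rcases i with i | i <;> rcases j with j | j <;> rfl

theorem plus_symm (M : Matrix (σ ⊕ (μ ⊕ γ)) (σ ⊕ (μ ⊕ γ)) Ω)
    (S : Matrix ((σ ⊕ ε) ⊕ (μ ⊕ γ)) ((σ ⊕ ε) ⊕ (μ ⊕ γ)) Ω) (hM : M.IsSymm)
    (hS : ∀ e i, S (Sum.inl (Sum.inr e)) i = S i (Sum.inl (Sum.inr e))) : (plus M S).IsSymm := by
  apply Matrix.IsSymm.ext
  intro i j
  rcases i with (i | i) | i <;> rcases j with (j | j) | j
  · exact hM.apply _ _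
  · exact hS j _
  · exact hM.apply _ _
  · exact (hS i _).symm
  · exact hS j _
  · exact (hS i _).symm
  · exact hM.apply _ _
  · exact hS j _
  · exact hM.apply _ _

theorem plus_add (M M' : Matrix (σ ⊕ (μ ⊕ γ)) (σ ⊕ (μ ⊕ γ)) Ω)
    (S S' : Matrix ((σ ⊕ ε) ⊕ (μ ⊕ γ)) ((σ ⊕ ε) ⊕ (μ ⊕ γ)) Ω) :
    plus (M + M') (S + S') = plus M S + plus M' S' := by
  ext i j
  rcases i with (i | i) | i <;> rcases j with (j | j) | j <;> rfl

theorem plus_smul (t : Ω) (M : Matrix (σ ⊕ (μ ⊕ γ)) (σ ⊕ (μ ⊕ γ)) Ω)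
    (S : Matrix ((σ ⊕ ε) ⊕ (μ ⊕ γ)) ((σ ⊕ ε) ⊕ (μ ⊕ γ)) Ω) :
    plus (t • M) (t • S) = t • plus M S := by
  ext i j
  rcases i with (i | i) | i <;> rcases j with (j | j) | j <;> rfl

theorem plus_near {K : Type u} [Field K] [Algebra K Ω] {Γ : Type u}
    [LinearOrderedCommGroupWithZero Γ] (v : Valuation Ω Γ)
    (M : Matrix (σ ⊕ (μ ⊕ γ)) (σ ⊕ (μ ⊕ γ)) Ω)
    (N : Matrix ((σ ⊕ ε) ⊕ (μ ⊕ γ)) ((σ ⊕ ε) ⊕ (μ ⊕ γ)) K) (h : NearM v M (res N)) :
    NearM v (plus M (N.map (algebraMap K Ω))) N := by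
  have h0 : ∀ x : K, Near v (algebraMap K Ω x) x := by
    intro x
    unfold Near
    rw [sub_self, map_zero]
    exact zero_lt_one
  intro i j
  rcases i with (i | i) | i <;> rcases j with (j | j) | j
  · exact h (Sum.inl i) (Sum.inl j)
  · exact h0 _
  · exact h (Sum.inl i) (Sum.inr j)
  · exact h0 _
  · exact h0 _
  · exact h0 _
  · exact h (Sum.inr i) (Sum.inl j)
  · exact h0 _
  · exact h (Sum.inr i) (Sum.inr j)

variable [Fintype σ] [Fintype ε] [Fintype μ] [Fintype γ]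

theorem mulVec_emb (M : Matrix (σ ⊕ (μ ⊕ γ)) (σ ⊕ (μ ⊕ γ)) Ω)
    (S : Matrix ((σ ⊕ ε) ⊕ (μ ⊕ γ)) ((σ ⊕ ε) ⊕ (μ ⊕ γ)) Ω)
    (x : (σ ⊕ ε) ⊕ (μ ⊕ γ) → Ω) (hx : ∀ e, x (Sum.inl (Sum.inr e)) = 0)
    (i : σ ⊕ (μ ⊕ γ)) :
    (plus M S *ᵥ x) (emb ε i) = (M *ᵥ (fun i => x (emb ε i))) i := by
  have key : ∀ i j, plus M S (emb ε i) (Sum.inr j) = M i (Sum.inr j) := by
    intro i j
    rcases i with i | i <;> rfl
  have key' : ∀ i j, plus M S (emb ε i) (Sum.inl (Sum.inl j)) = M i (Sum.inl j) := by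
    intro i j
    rcases i with i | i <;> rfl
  simp only [Matrix.mulVec, dotProduct, Fintype.sum_sum_type, hx, mul_zero, Finset.sum_const_zero,
    add_zero, key, key']
  rfl

end pl

end ModDEF

open ModDEF

/-- Module DEF: the theorem on deformations, in blocks. -/
theorem deform (hD : StmDETS.{u}) (hLi : StmLIFT.{u}) (hP : StmPEN.{u}) (hL : StmLOW.{u})
    (hU : StmPLU.{u}) (hE : StmEONE.{u}) : StmDEF.{u} := by
  intro K Ω _ _ _ _ _ Γ _ v hT σ ε μ _ _ _ _ _ _ lam th M0 M1 hG hM0 hM1 hN0 hN1 hrk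
  obtain ⟨hlam, hlam0, hthi, hth0, hdis⟩ := hG
  have hG : Good lam th := ⟨hlam, hlam0, hthi, hth0, hdis⟩
  -- Step A
  set I : σ ⊕ (μ ⊕ σ) → σ ⊕ (μ ⊕ Option (σ ⊕ ε)) :=
    Sum.map id (Sum.map id (fun a => some (Sum.inl a))) with hI
  have hIinj : Function.Injective I := by
    apply Sum.map_injective.2 ⟨Function.injective_id, Sum.map_injective.2
      ⟨Function.injective_id, ?_⟩⟩
    intro a b h
    simpa using h
  have hcardI : Fintype.card (σ ⊕ (μ ⊕ σ)) = 2 * Fintype.card σ + Fintype.card μ := by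
    simp only [Fintype.card_sum]; ring
  have hdet : ∀ t : K, ((res (S0 lam th) + t • res (S1 K (σ ⊕ ε) μ)).submatrix I I).det =
      (-1) ^ Fintype.card σ * (∏ j, (t - th j ^ 2)) *
        (∏ a, (t - lam (some (Sum.inl a)))) ^ 2 := by
    intro t
    have := hD K σ μ (diagonal fun a => lam (some (Sum.inl a)) ^ 2)
      (fun a => t - lam (some (Sum.inl a))) (fun j => t - th j ^ 2)
    rw [← this]
    congr 1
    ext i j
    rcases i with i | i | i <;> rcases j with j | j | j <;>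
      simp [hI, res, S0, S1, blk, starC, Matrix.diagonal_apply, Matrix.one_apply] <;>
      (try split_ifs with h) <;> (try subst h) <;> (try simp_all) <;> (try ring)
  obtain ⟨htex, θ', hθ', hθ''⟩ := hLi K Ω Γ v hT (σ ⊕ (μ ⊕ Option (σ ⊕ ε))) (σ ⊕ (μ ⊕ σ)) σ μ I
    (res (S0 lam th)) (res (S1 K (σ ⊕ ε) μ)) M0 M1 ((-1) ^ Fintype.card σ)
    (fun a => lam (some (Sum.inl a))) (fun j => th j ^ 2) hIinj
    (pow_ne_zero _ (neg_ne_zero.2 one_ne_zero)) hthi (fun j a => hdis j _) hcardI hdet hM0 hM1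
    hN0 hN1 (fun t => by rw [hcardI]; exact hrk t)
  rw [hcardI] at htex
  have hcard : Fintype.card (σ ⊕ (μ ⊕ Option (σ ⊕ ε))) =
      2 * Fintype.card σ + Fintype.card μ + (Fintype.card ε + 1) := by
    simp only [Fintype.card_sum, Fintype.card_option]; ring
  have hinf : Infinite Ω := IsAlgClosed.instInfinite
  obtain ⟨pV, pW, piso⟩ := hP Ω (σ ⊕ (μ ⊕ Option (σ ⊕ ε))) μ
    (2 * Fintype.card σ + Fintype.card μ) (Fintype.card σ) M0 M1 hM0 hM1 rfl hrk htex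
    ⟨θ', hθ', fun j => by rw [← hcardI]; exact hθ'' j⟩
  rw [hcard, Nat.add_sub_cancel_left] at pV
  -- Step C
  set S0' : Matrix ((σ ⊕ ε) ⊕ (μ ⊕ Option (σ ⊕ ε))) ((σ ⊕ ε) ⊕ (μ ⊕ Option (σ ⊕ ε))) Ω :=
    (S0 lam th).map (algebraMap K Ω) with hS0
  set S1' : Matrix ((σ ⊕ ε) ⊕ (μ ⊕ Option (σ ⊕ ε))) ((σ ⊕ ε) ⊕ (μ ⊕ Option (σ ⊕ ε))) Ω :=
    (S1 K (σ ⊕ ε) μ).map (algebraMap K Ω) with hS1
  have blkSymm : ∀ (a : Matrix (σ ⊕ ε) (σ ⊕ ε) K) (b : Matrix (σ ⊕ ε) μ K)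
      (c : Matrix (σ ⊕ ε) (Option (σ ⊕ ε)) K) (d : Matrix μ μ K), a.IsSymm → d.IsSymm →
      (blk a b c d 0 0).IsSymm := by
    intro a b c d ha hd
    apply Matrix.IsSymm.ext
    intro i j
    rcases i with i | i | i <;> rcases j with j | j | j
    · exact ha.apply _ _
    · rfl
    · rfl
    · rfl
    · exact hd.apply _ _
    · rfl
    · rfl
    · rfl
    · rfl
  have hS0s : S0'.IsSymm := by
    have h1 : (S0 lam th).IsSymm := blkSymm _ _ _ _ (Matrix.isSymm_diagonal _)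
      (Matrix.isSymm_diagonal _)
    exact h1.map _
  have hS1s : S1'.IsSymm := by
    have h1 : (S1 K (σ ⊕ ε) μ).IsSymm := blkSymm _ _ _ _ Matrix.isSymm_zero Matrix.isSymm_one
    exact h1.map _
  have hP0 : NearM v (plus M0 S0') (S0 lam th) := plus_near v M0 _ hN0
  have hP1 : NearM v (plus M1 S1') (S1 K (σ ⊕ ε) μ) := plus_near v M1 _ hN1
  have hP0s : (plus M0 S0').IsSymm := plus_symm _ _ hM0 fun e i => (hS0s.apply _ _)
  have hP1s : (plus M1 S1').IsSymm := plus_symm _ _ hM1 fun e i => (hS1s.apply _ _)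
  have hβ : Fintype.card (σ ⊕ ε) = Fintype.card σ + Fintype.card ε := Fintype.card_sum
  have haff : ∀ t : Ω, plus M0 S0' + t • plus M1 S1' = plus (M0 + t • M1) (S0' + t • S1') := by
    intro t
    rw [plus_add, plus_smul]
  have hrkP : ∀ t : Ω, (plus M0 S0' + t • plus M1 S1').rank ≤
      2 * Fintype.card (σ ⊕ ε) + Fintype.card μ := by
    intro t
    rw [haff]
    have h1 := (hU Ω σ ε μ (Option (σ ⊕ ε)) (M0 + t • M1) (S0' + t • S1')).1
    have h2 := hrk t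
    rw [hβ]
    omega
  obtain ⟨lV, -⟩ := hL K Ω Γ v hT (σ ⊕ ε) μ lam th (plus M0 S0') (plus M1 S1') hG hP0 hP1 hrkP
  -- kernels
  have hker : ∀ t : Ω, (plus M0 S0' + t • plus M1 S1').rank =
      2 * Fintype.card (σ ⊕ ε) + Fintype.card μ →
      (M0 + t • M1).rank = 2 * Fintype.card σ + Fintype.card μ ∧
      ∀ x, (plus M0 S0' + t • plus M1 S1') *ᵥ x = 0 →
        (∀ e, x (Sum.inl (Sum.inr e)) = 0) ∧ (M0 + t • M1) *ᵥ (fun i => x (emb ε i)) = 0 := by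
    intro t ht
    rw [haff] at ht ⊢
    obtain ⟨h1, h2⟩ := hU Ω σ ε μ (Option (σ ⊕ ε)) (M0 + t • M1) (S0' + t • S1')
    have h3 := hrk t
    rw [hβ] at ht
    have hγ : Fintype.card (Option (σ ⊕ ε)) = Fintype.card σ + Fintype.card ε + 1 := by
      rw [Fintype.card_option, hβ]
    refine ⟨by omega, ?_⟩
    refine h2 ?_ ?_ (hM0.add (hM1.smul t)) (hS0s.add (hS1s.smul t)) ?_ ?_
    · intro e i
      simp [hS0, hS1, S0, S1, blk]
    · intro e j
      simp [hS0, hS1, S0, S1, blk]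
    · rw [ht, hγ]; ring
    · rw [hγ]; omega
  set VP' := VP (2 * Fintype.card (σ ⊕ ε) + Fintype.card μ) (plus M0 S0') (plus M1 S1') with hVP'
  set V := VP (2 * Fintype.card σ + Fintype.card μ) M0 M1 with hV
  set R : ((σ ⊕ ε) ⊕ (μ ⊕ Option (σ ⊕ ε)) → Ω) →ₗ[Ω] (σ ⊕ (μ ⊕ Option (σ ⊕ ε)) → Ω) :=
    LinearMap.funLeft Ω Ω (emb ε) with hR
  have hRapp : ∀ x i, R x i = x (emb ε i) := fun x i => rfl
  have hVle : VP' ≤ V.comap R := by
    rw [hVP']
    unfold VP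
    refine iSup_le fun t => iSup_le fun ht => ?_
    intro x hx
    rw [LinearMap.mem_ker, Matrix.mulVecLin_apply] at hx
    obtain ⟨h1, h2⟩ := hker t ht
    have h3 := (h2 x hx).2
    rw [Submodule.mem_comap, hV]
    unfold VP
    refine Submodule.mem_iSup_of_mem t (Submodule.mem_iSup_of_mem h1 ?_)
    rw [LinearMap.mem_ker, Matrix.mulVecLin_apply]
    exact h3
  have hzero : ∀ x ∈ VP', ∀ e, x (Sum.inl (Sum.inr e)) = 0 := by
    intro x hx e
    have hle : VP' ≤ LinearMap.ker (LinearMap.proj (R := Ω) (φ := fun _ => Ω)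
        (Sum.inl (Sum.inr e) : (σ ⊕ ε) ⊕ (μ ⊕ Option (σ ⊕ ε)))) := by
      rw [hVP']
      unfold VP
      refine iSup_le fun t => iSup_le fun ht => ?_
      intro x hx
      rw [LinearMap.mem_ker, Matrix.mulVecLin_apply] at hx
      obtain ⟨h1, h2⟩ := hker t ht
      rw [LinearMap.mem_ker, LinearMap.proj_apply]
      exact (h2 x hx).1 e
    have := hle hx
    rwa [LinearMap.mem_ker, LinearMap.proj_apply] at this
  have hinj : ∀ x ∈ VP', R x = 0 → x = 0 := by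
    intro x hx h0
    funext i
    rcases i with (i | i) | i
    · exact congrFun h0 (Sum.inl i)
    · exact hzero x hx i
    · exact congrFun h0 (Sum.inr i)
  have hmapfin : finrank Ω (VP'.map R) = finrank Ω VP' := by
    apply LinearEquiv.finrank_eq
    symm
    refine LinearEquiv.ofBijective (R.submoduleMap VP') ⟨?_, LinearMap.submoduleMap_surjective R VP'⟩
    rw [injective_iff_map_eq_zero]
    intro x hx
    have h1 : R x.1 = 0 := congrArg Subtype.val hx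
    exact Subtype.ext (hinj x.1 x.2 h1)
  have hmaple : VP'.map R ≤ V := Submodule.map_le_iff_le_comap.2 hVle
  have hle := Submodule.finrank_mono hmaple
  have hfinV : finrank Ω V = Fintype.card σ + Fintype.card ε + 1 := by
    rw [hβ] at lV
    omega
  have hmapeq : VP'.map R = V := by
    apply Submodule.eq_of_le_of_finrank_le hmaple
    rw [hmapfin, hfinV]
    rw [hβ] at lV
    exact lV
  have hmul : ∀ (M : Matrix (σ ⊕ (μ ⊕ Option (σ ⊕ ε))) (σ ⊕ (μ ⊕ Option (σ ⊕ ε))) Ω)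
      (S : Matrix ((σ ⊕ ε) ⊕ (μ ⊕ Option (σ ⊕ ε))) ((σ ⊕ ε) ⊕ (μ ⊕ Option (σ ⊕ ε))) Ω),
      ∀ x ∈ VP', R (plus M S *ᵥ x) = M *ᵥ R x := by
    intro M S x hx
    funext i
    exact mulVec_emb M S x (hzero x hx) i
  refine ⟨hfinV, pW, ?_, ?_⟩
  · intro x hx y hy
    have hle : WP (2 * Fintype.card σ + Fintype.card μ) M0 M1 ≤
        LinearMap.ker (dotProductBilin Ω Ω x) := by
      unfold WP
      refine sup_le ?_ ?_
      · rw [Submodule.map_le_iff_le_comap]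
        intro z hz
        rw [Submodule.mem_comap, LinearMap.mem_ker, Matrix.mulVecLin_apply]
        exact (piso x hx z hz).1
      · rw [Submodule.map_le_iff_le_comap]
        intro z hz
        rw [Submodule.mem_comap, LinearMap.mem_ker, Matrix.mulVecLin_apply]
        exact (piso x hx z hz).2
    exact hle hy
  · intro a b c d M2 hRig hM2 hN2 hrk2 x hx
    set ap : Matrix (σ ⊕ ε) (σ ⊕ ε) K := Matrix.fromBlocks a 0 0 0 with hap
    set N2 : Matrix ((σ ⊕ ε) ⊕ (μ ⊕ Option (σ ⊕ ε))) ((σ ⊕ ε) ⊕ (μ ⊕ Option (σ ⊕ ε))) K :=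
      blk ap (bp ε b) (cp lam c) d 0 0 with hN2d
    have hres : res N2 = blk a b c d 0 0 := by
      ext i j
      rcases i with i | i | i <;> rcases j with j | j | j <;> rfl
    set S2' := N2.map (algebraMap K Ω) with hS2
    have hP2 : NearM v (plus M2 S2') N2 := plus_near v M2 _ (by rw [hres]; exact hN2)
    have hP2s : (plus M2 S2').IsSymm := by
      apply plus_symm _ _ hM2
      intro e i
      rw [hS2, Matrix.map_apply, Matrix.map_apply]
      congr 1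
      rcases i with (i | i) | i | i <;> rfl
    have hrk2P : ∀ t w : Ω, (plus M0 S0' + t • plus M1 S1' + w • plus M2 S2').rank ≤
        2 * Fintype.card (σ ⊕ ε) + Fintype.card μ := by
      intro t w
      rw [haff, ← plus_smul, ← plus_add]
      have h1 := (hU Ω σ ε μ (Option (σ ⊕ ε)) (M0 + t • M1 + w • M2)
        (S0' + t • S1' + w • S2')).1
      have h2 := hrk2 t w
      rw [hβ]
      omega
    have hEE := hE K Ω Γ v hT (σ ⊕ ε) μ lam th ap (bp ε b) (cp lam c) d (plus M0 S0')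
      (plus M1 S1') (plus M2 S2') hG hRig hP0s hP1s hP2s hP0 hP1 hP2 hrk2P
    rw [← hmapeq] at hx
    obtain ⟨x', hx', rfl⟩ := hx
    have h1 := hEE x' hx'
    unfold WP at h1
    rw [Submodule.mem_sup] at h1
    obtain ⟨p, hp, q, hq, hpq⟩ := h1
    obtain ⟨y0, hy0, rfl⟩ := hp
    obtain ⟨y1, hy1, rfl⟩ := hq
    rw [Matrix.mulVecLin_apply, Matrix.mulVecLin_apply] at hpq
    have h2 := congrArg R hpq
    rw [map_add, hmul M0 S0' y0 hy0, hmul M1 S1' y1 hy1, hmul M2 S2' x' hx'] at h2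
    rw [← h2]
    unfold WP
    refine Submodule.add_mem_sup ?_ ?_
    · exact ⟨R y0, hVle hy0, by rw [Matrix.mulVecLin_apply]⟩
    · exact ⟨R y1, hVle hy1, by rw [Matrix.mulVecLin_apply]⟩

end Pool.Agent.T6.H97.CS
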