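import Mathlib

/-!
MP_f9dfcb_ag. Nested compression spaces in Fano schemes of symmetric matrices: definitions, and the
statements of the modules.
-/

set_option autoImplicit false

universe u

namespace Pool.Agent.T6.H97.CS

open Finset Matrix Module MvPolynomial

/-! ### The problem -/

/-- The standard nested `s`-compression space (indices `1, ..., n` of the problem are
`i.val + 1`). -/
def InL {K : Type*} [Zero K] {n : ℕ} (r s : ℕ) (M : Matrix (Fin n) (Fin n) K) : Prop :=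
  ∀ i j : Fin n, ((r - s ≤ i.val + 1 ∧ s + 1 ≤ j.val + 1) ∨
    (s + 1 ≤ i.val + 1 ∧ r - s ≤ j.val + 1)) → M i j = 0

/-- The number `κ(s)`. -/
def kap (n r s : ℕ) : ℕ :=
  s * (s + 1) / 2 + s * (n - s) + (r - 2 * s - 1) * (r - 2 * s) / 2 - 1

/-- The points of the Fano scheme: the linear subspaces of dimension `k + 1` of the space of the
symmetric matrices of size `n` all of whose elements have rank `< r`. -/
def Fano (K : Type u) [Field K] (n r k : ℕ) : Type u :=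
  {Q : Submodule K (Matrix (Fin n) (Fin n) K) //
    finrank K Q = k + 1 ∧ ∀ M ∈ Q, M.IsSymm ∧ M.rank < r}

/-- The bases of the points of the Fano scheme. -/
def Frame (K : Type u) [Field K] (n r k : ℕ) : Type u :=
  {M : Fin (k + 1) → Matrix (Fin n) (Fin n) K // LinearIndependent K M ∧
    ∀ x : Fin (k + 1) → K, (∑ i, x i • M i).IsSymm ∧ (∑ i, x i • M i).rank < r}

/-- The subspace with the given basis. -/
def Frame.toFano {K : Type u} [Field K] {n r k : ℕ} (M : Frame K n r k) : Fano K n r k :=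
  ⟨Submodule.span K (Set.range M.1), by
    rw [finrank_span_eq_card M.2.1, Fintype.card_fin], by
    intro A hA
    obtain ⟨x, rfl⟩ := (Submodule.mem_span_range_iff_exists_fun K).1 hA
    exact M.2.2 x⟩

/-- The value of a polynomial in the entries. -/
noncomputable def ev {K : Type u} [Field K] {n k : ℕ}
    (p : MvPolynomial (Fin (k + 1) × Fin n × Fin n) K)
    (M : Fin (k + 1) → Matrix (Fin n) (Fin n) K) : K :=
  MvPolynomial.eval (fun t => M t.1 t.2.1 t.2.2) p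

/-- The Zariski topology on the bases. -/
instance {K : Type u} [Field K] {n r k : ℕ} : TopologicalSpace (Frame K n r k) :=
  TopologicalSpace.generateFrom {U | ∃ p : MvPolynomial (Fin (k + 1) × Fin n × Fin n) K,
    U = {M | ev p M.1 ≠ 0}}

/-- The Zariski topology on the Fano scheme: the quotient topology. -/
instance {K : Type u} [Field K] {n r k : ℕ} : TopologicalSpace (Fano K n r k) :=
  TopologicalSpace.coinduced Frame.toFano inferInstance

/-- The nested `s`-compression spaces. -/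
def Comp (K : Type u) [Field K] (n r k s : ℕ) : Set (Fano K n r k) :=
  {Q | ∃ B : Matrix (Fin n) (Fin n) K, IsUnit B.det ∧ ∀ M ∈ Q.1, InL r s (B * M * Bᵀ)}

/-- The theorem. -/
def StmMAIN : Prop := ∀ (K : Type u) [Field K] [IsAlgClosed K] (n r k s : ℕ), 1 ≤ r → r ≤ n →
  s ≤ (r - 1) / 2 → 1 ≤ k → k ≤ kap n r s → Comp K n r k s ∈ irreducibleComponents (Fano K n r k)

/-! ### Valuations -/

section Val

variable {K Ω : Type u} [Field K] [Field Ω] [Algebra K Ω] {Γ : Type u}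
  [LinearOrderedCommGroupWithZero Γ]

/-- The valuation is trivial on `K`. -/
def Triv (K : Type u) [Field K] [Algebra K Ω] (v : Valuation Ω Γ) : Prop :=
  ∀ a : K, a ≠ 0 → v (algebraMap K Ω a) = 1

/-- `x` reduces to `a`. -/
def Near (v : Valuation Ω Γ) (x : Ω) (a : K) : Prop := v (x - algebraMap K Ω a) < 1

/-- `M` reduces to `M0`. -/
def NearM (v : Valuation Ω Γ) {ι ι' : Type} (M : Matrix ι ι' Ω) (M0 : Matrix ι ι' K) : Prop :=
  ∀ i j, Near v (M i j) (M0 i j)

end Val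

/-- Module VAL: the generic point of an irreducible set, and valuation rings centered at its
points. -/
def StmVAL : Prop := ∀ (K : Type u) [Field K] [IsAlgClosed K] (X : Type) [Finite X]
  (Y : Set (X → K)), Y.Nonempty →
  (∀ p q : MvPolynomial X K, (∃ y ∈ Y, eval y p ≠ 0) → (∃ y ∈ Y, eval y q ≠ 0) →
    ∃ y ∈ Y, eval y p ≠ 0 ∧ eval y q ≠ 0) →
  ∃ (Ω : Type u) (_ : Field Ω) (_ : IsAlgClosed Ω) (_ : Algebra K Ω) (η : X → Ω),
    (∀ p : MvPolynomial X K, aeval η p = 0 ↔ ∀ y ∈ Y, eval y p = 0) ∧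
    ∀ y ∈ Y, ∃ (Γ : Type u) (_ : LinearOrderedCommGroupWithZero Γ) (v : Valuation Ω Γ),
      Triv K v ∧ ∀ i, Near v (η i) (y i)

/-- Module IWA: integral bases adapted to a flag. -/
def StmIWA : Prop := ∀ (Ω : Type u) [Field Ω] (Γ : Type u) [LinearOrderedCommGroupWithZero Γ]
  (v : Valuation Ω Γ) (n : ℕ) (B : Matrix (Fin n) (Fin n) Ω), IsUnit B.det →
  ∃ T : Matrix (Fin n) (Fin n) Ω, (∀ i j, i < j → T i j = 0) ∧ IsUnit T.det ∧
    (∀ i j, v ((B * T) i j) ≤ 1) ∧ v (B * T).det = 1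

/-- Module NSS: solutions in an extension give solutions in `K`. -/
def StmNSS : Prop := ∀ (K κ : Type u) [Field K] [IsAlgClosed K] [Field κ] [Algebra K κ] (n k : ℕ)
  (M : Fin (k + 1) → Matrix (Fin n) (Fin n) K) (P : Fin n → Fin n → Prop)
  (B : Matrix (Fin n) (Fin n) κ), IsUnit B.det →
  (∀ l i j, P i j → (Bᵀ * (M l).map (algebraMap K κ) * B) i j = 0) →
  ∃ B0 : Matrix (Fin n) (Fin n) K, IsUnit B0.det ∧ ∀ l i j, P i j → (B0ᵀ * M l * B0) i j = 0

/-- Module SPE: specialisation of compression spaces. -/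
def StmSPE : Prop := ∀ (K Ω : Type u) [Field K] [IsAlgClosed K] [Field Ω] [Algebra K Ω] (Γ : Type u)
  [LinearOrderedCommGroupWithZero Γ] (v : Valuation Ω Γ), Triv K v → ∀ (n r k s : ℕ)
  (M : Fin (k + 1) → Matrix (Fin n) (Fin n) Ω) (M0 : Fin (k + 1) → Matrix (Fin n) (Fin n) K),
  (∀ l, NearM v (M l) (M0 l)) →
  (∃ B : Matrix (Fin n) (Fin n) Ω, IsUnit B.det ∧ ∀ l, InL r s (Bᵀ * M l * B)) →
  ∃ B0 : Matrix (Fin n) (Fin n) K, IsUnit B0.det ∧ ∀ l, InL r s (B0ᵀ * M0 l * B0)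

/-- The local theorem: a special basis, all of whose deformations are compression spaces. -/
def StmLOC : Prop := ∀ (K : Type u) [Field K] [IsAlgClosed K] (n r k s : ℕ), 1 ≤ r → r ≤ n →
  s ≤ (r - 1) / 2 → 1 ≤ k → k ≤ kap n r s →
  ∃ M0 : Fin (k + 1) → Matrix (Fin n) (Fin n) K, LinearIndependent K M0 ∧
    (∀ l, (M0 l).IsSymm ∧ InL r s (M0 l)) ∧
    ∀ (Ω : Type u) [Field Ω] [IsAlgClosed Ω] [Algebra K Ω] (Γ : Type u)
      [LinearOrderedCommGroupWithZero Γ] (v : Valuation Ω Γ), Triv K v →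
      ∀ M : Fin (k + 1) → Matrix (Fin n) (Fin n) Ω, (∀ l, (M l).IsSymm) →
      (∀ l, NearM v (M l) (M0 l)) →
      (∀ x : Fin (k + 1) → Ω, (∑ l, x l • M l).rank < r) →
      ∃ B : Matrix (Fin n) (Fin n) Ω, IsUnit B.det ∧ ∀ l, InL r s (Bᵀ * M l * B)

/-- Module RKL: the elements of the standard space have rank `< r`. -/
def StmRKL : Prop := ∀ (K : Type u) [Field K] (n r s : ℕ) (M : Matrix (Fin n) (Fin n) K),
  1 ≤ r → r ≤ n → s ≤ (r - 1) / 2 → InL r s M → M.rank < r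

/-- Module IRR: the compression spaces are an irreducible set. -/
def StmIRR : Prop := ∀ (K : Type u) [Field K] [IsAlgClosed K] (n r k s : ℕ), 1 ≤ r → r ≤ n →
  s ≤ (r - 1) / 2 →
  (∃ M0 : Fin (k + 1) → Matrix (Fin n) (Fin n) K, LinearIndependent K M0 ∧
    (∀ l, (M0 l).IsSymm ∧ InL r s (M0 l))) → IsIrreducible (Comp K n r k s)

/-- Module CHA: charts of the Grassmannian. For two points of an irreducible set there is an
irreducible set of bases through bases of these points. -/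
def StmCHA : Prop := ∀ (K : Type u) [Field K] [IsAlgClosed K] (n r k : ℕ)
  (Z : Set (Fano K n r k)), IsIrreducible Z → ∀ Q0 ∈ Z, ∀ Q1 ∈ Z,
  ∃ Y : Set (Frame K n r k), (∀ y ∈ Y, y.toFano ∈ Z) ∧ (∃ y ∈ Y, y.toFano = Q0) ∧
    (∃ y ∈ Y, y.toFano = Q1) ∧
    ∀ p q : MvPolynomial (Fin (k + 1) × Fin n × Fin n) K, (∃ y ∈ Y, ev p y.1 ≠ 0) →
      (∃ y ∈ Y, ev q y.1 ≠ 0) → ∃ y ∈ Y, ev p y.1 ≠ 0 ∧ ev q y.1 ≠ 0

/-- Module RKG: the rank of the generic point. -/
def StmRKG : Prop := ∀ (K Ω : Type u) [Field K] [Infinite K] [Field Ω] [Algebra K Ω] (n r k : ℕ)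
  (Y : Set (Fin (k + 1) × Fin n × Fin n → K)) (η : Fin (k + 1) × Fin n × Fin n → Ω),
  1 ≤ r →
  (∀ p : MvPolynomial (Fin (k + 1) × Fin n × Fin n) K, aeval η p = 0 ↔ ∀ y ∈ Y, eval y p = 0) →
  (∀ y ∈ Y, ∀ x : Fin (k + 1) → K,
    (∑ l, x l • Matrix.of (fun i j => y (l, i, j)) : Matrix (Fin n) (Fin n) K).rank < r) →
  ∀ x : Fin (k + 1) → Ω,
    (∑ l, x l • Matrix.of (fun i j => η (l, i, j)) : Matrix (Fin n) (Fin n) Ω).rank < r

end Pool.Agent.T6.H97.CS
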