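import Mathlib
import Pool.Agent.T6.H97.CS.Defs

/-!
MP_f9dfcb_ag. The local theory: definitions, and the statements of the modules.
-/

set_option autoImplicit false

universe u

namespace Pool.Agent.T6.H97.CS

open Finset Matrix Module MvPolynomial

/-! ### Block matrices -/

/-- The symmetric block matrix with the blocks `a, b, c / bᵀ, d, f / cᵀ, fᵀ, F`. -/
def blk {R : Type*} {β μ γ : Type} (a : Matrix β β R) (b : Matrix β μ R) (c : Matrix β γ R)
    (d : Matrix μ μ R) (f : Matrix μ γ R) (F : Matrix γ γ R) :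
    Matrix (β ⊕ (μ ⊕ γ)) (β ⊕ (μ ⊕ γ)) R :=
  Matrix.of fun i j => match i, j with
    | .inl i, .inl j => a i j
    | .inl i, .inr (.inl j) => b i j
    | .inl i, .inr (.inr j) => c i j
    | .inr (.inl i), .inl j => b j i
    | .inr (.inl i), .inr (.inl j) => d i j
    | .inr (.inl i), .inr (.inr j) => f i j
    | .inr (.inr i), .inl j => c j i
    | .inr (.inr i), .inr (.inl j) => f j i
    | .inr (.inr i), .inr (.inr j) => F i j

/-- The star matrix: the row `a` is `g a e_a - g none e_none`. -/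
def starC {R : Type*} [Zero R] [Neg R] {β : Type} [DecidableEq β] (g : Option β → R) :
    Matrix β (Option β) R :=
  Matrix.of fun a y => match y with
    | none => -g none
    | some b => if a = b then g (some b) else 0

section Std

variable {K : Type u} [Field K] {β μ : Type} [DecidableEq β] [DecidableEq μ]

/-- The standard pencil, first matrix. -/
def S0 (lam : Option β → K) (th : μ → K) :
    Matrix (β ⊕ (μ ⊕ Option β)) (β ⊕ (μ ⊕ Option β)) K :=
  blk (diagonal fun a => lam (some a) ^ 2) 0 (starC fun y => -lam y)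
    (diagonal fun j => -th j ^ 2) 0 0

/-- The standard pencil, second matrix. -/
def S1 (K : Type u) [Field K] (β μ : Type) [DecidableEq β] [DecidableEq μ] :
    Matrix (β ⊕ (μ ⊕ Option β)) (β ⊕ (μ ⊕ Option β)) K :=
  blk 0 0 (starC fun _ => 1) 1 0 0

/-- The third matrix of the standard net. -/
def S2 (lam : Option β → K) (th : μ → K) :
    Matrix (β ⊕ (μ ⊕ Option β)) (β ⊕ (μ ⊕ Option β)) K :=
  blk 0 0 (starC fun y => (lam y)⁻¹) (diagonal fun j => (th j ^ 2)⁻¹) 0 0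

/-- The conditions for the parameters: the numbers `lam y` and `th j ^ 2` are distinct and not
zero. -/
def Good (lam : Option β → K) (th : μ → K) : Prop :=
  Function.Injective lam ∧ (∀ y, lam y ≠ 0) ∧ Function.Injective (fun j => th j ^ 2) ∧
    (∀ j, th j ≠ 0) ∧ ∀ j y, th j ^ 2 ≠ lam y

end Std

/-! ### Rigidity -/

/-- The maximal minors (with signs) of a matrix with one more column than rows; they are a vector in
the kernel. -/
def kv {R : Type*} [CommRing R] {β : Type} [Fintype β] [DecidableEq β]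
    (c : Matrix β (Option β) R) (y : Option β) : R :=
  Matrix.det (Matrix.of fun z : Option β => match z with
    | none => (Pi.single y 1 : Option β → R)
    | some a => c a)

section Rig

variable {K : Type u} [Field K] {β μ : Type} [Fintype β] [Fintype μ] [DecidableEq β]
  [DecidableEq μ]

/-- The block `c` of the net (`X 0` is the parameter of the second matrix, `X 1` of the third). -/
noncomputable def cP (lam : Option β → K) (c : Matrix β (Option β) K) :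
    Matrix β (Option β) (MvPolynomial (Fin 2) K) :=
  Matrix.of fun a y => starC (fun y => (X 0 - C (lam y) : MvPolynomial (Fin 2) K)) a y +
    X 1 * C (c a y)

/-- The block `d` of the net. -/
noncomputable def dP (th : μ → K) (d : Matrix μ μ K) : Matrix μ μ (MvPolynomial (Fin 2) K) :=
  Matrix.of fun i j => (if i = j then X 0 - C (th j ^ 2) else 0) + X 1 * C (d i j)

/-- The kernel vector of the net. -/
noncomputable def u0 (lam : Option β → K) (c : Matrix β (Option β) K) :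
    β ⊕ (μ ⊕ Option β) → MvPolynomial (Fin 2) K
  | .inl _ => 0
  | .inr (.inl _) => 0
  | .inr (.inr y) => kv (cP lam c) y

/-- The third equation. -/
noncomputable def E3 (R : Type u) [CommRing R] [Algebra K R] (lam : Option β → K)
    (c : Matrix β (Option β) K) (F : Matrix (Option β) (Option β) R)
    (w1 : β → MvPolynomial (Fin 2) R) (y : Option β) : MvPolynomial (Fin 2) R :=
  ∑ a, map (algebraMap K R) (cP lam c a y) * w1 a +
    ∑ z, C (F y z) * map (algebraMap K R) (kv (cP lam c) z)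

/-- The second equation. -/
noncomputable def E2 (R : Type u) [CommRing R] [Algebra K R] (lam : Option β → K) (th : μ → K)
    (b : Matrix β μ K) (c : Matrix β (Option β) K) (d : Matrix μ μ K)
    (f : Matrix μ (Option β) R) (w1 : β → MvPolynomial (Fin 2) R)
    (w2 : μ → MvPolynomial (Fin 2) R) (j : μ) : MvPolynomial (Fin 2) R :=
  ∑ a, X 1 * C (algebraMap K R (b a j)) * w1 a +
    ∑ i, map (algebraMap K R) (dP th d j i) * w2 i +
    ∑ z, C (f j z) * map (algebraMap K R) (kv (cP lam c) z)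

/-- The fourth equation (used only in characteristic two). -/
noncomputable def E4 (R : Type u) [CommRing R] [Algebra K R] (lam : Option β → K) (th : μ → K)
    (w1 : β → MvPolynomial (Fin 2) R) (w2 : μ → MvPolynomial (Fin 2) R) :
    MvPolynomial (Fin 2) R :=
  ∑ a, C (algebraMap K R (lam (some a))) * w1 a + ∑ j, C (algebraMap K R (th j)) * w2 j

/-- The net with the blocks `b, c, d` of the third matrix is rigid. -/
def Rig (lam : Option β → K) (th : μ → K) (b : Matrix β μ K) (c : Matrix β (Option β) K)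
    (d : Matrix μ μ K) : Prop :=
  ∀ (F : Matrix (Option β) (Option β) K) (f : Matrix μ (Option β) K)
    (w1 : β → MvPolynomial (Fin 2) K) (w2 : μ → MvPolynomial (Fin 2) K), F.IsSymm →
    (∀ y, E3 K lam c F w1 y = 0) → (∀ j, E2 K lam th b c d f w1 w2 j = 0) →
    ((2 : K) = 0 → E4 K lam th w1 w2 = 0) → F = 0 ∧ f = 0

end Rig

/-- Module STAR: the standard net is rigid. -/
def StmSTAR : Prop := ∀ (K : Type u) [Field K] [Infinite K] (β μ : Type) [Fintype β] [Fintype μ]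
  [DecidableEq β] [DecidableEq μ] (lam : Option β → K) (th : μ → K), Good lam th →
  Rig lam th (0 : Matrix β μ K) (starC fun y => (lam y)⁻¹) (diagonal fun j => (th j ^ 2)⁻¹)

/-- Module LAM: rigidity is an open condition on lines. -/
def StmLAM : Prop := ∀ (K : Type u) [Field K] [Infinite K] (β μ : Type) [Fintype β] [Fintype μ]
  [DecidableEq β] [DecidableEq μ] (lam : Option β → K) (th : μ → K) (b b' : Matrix β μ K)
  (c c' : Matrix β (Option β) K) (d d' : Matrix μ μ K), Good lam th → Rig lam th b c d →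
  {x : K | ¬ Rig lam th (b + x • b') (c + x • c') (d + x • d')}.Finite

/-- Module TRF: the norm estimate which follows from rigidity. -/
def StmTRF : Prop := ∀ (K Ω : Type u) [Field K] [Field Ω] [Algebra K Ω] (Γ : Type u)
  [LinearOrderedCommGroupWithZero Γ] (v : Valuation Ω Γ), Triv K v →
  ∀ (β μ : Type) [Fintype β] [Fintype μ] [DecidableEq β] [DecidableEq μ] (lam : Option β → K)
  (th : μ → K) (b : Matrix β μ K) (c : Matrix β (Option β) K) (d : Matrix μ μ K),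
  Good lam th → Rig lam th b c d →
  ∀ (F : Matrix (Option β) (Option β) Ω) (f : Matrix μ (Option β) Ω)
    (w1 : β → MvPolynomial (Fin 2) Ω) (w2 : μ → MvPolynomial (Fin 2) Ω) (g : Γ), F.IsSymm →
    (∀ y m, v (coeff m (E3 Ω lam c F w1 y)) < g) →
    (∀ j m, v (coeff m (E2 Ω lam th b c d f w1 w2 j)) < g) →
    ((2 : K) = 0 → ∀ m, v (coeff m (E4 Ω lam th w1 w2)) < g) →
    (∀ y z, v (F y z) < g) ∧ (∀ j z, v (f j z) < g) ∧ (∀ a m, v (coeff m (w1 a)) < g) ∧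
      ∀ j m, v (coeff m (w2 j)) < g

/-- The matrices of a net annihilate the vector `w` of polynomials. -/
def Ann {R : Type u} [CommRing R] {ι : Type} [Fintype ι] (M0 M1 M2 : Matrix ι ι R)
    (w : ι → MvPolynomial (Fin 2) R) : Prop :=
  ∀ i, ∑ j, (C (M0 i j) + X 0 * C (M1 i j) + X 1 * C (M2 i j)) * w j = 0

/-- Module UFD: symmetric matrices of rank one over a factorial ring. -/
def StmUFD : Prop := ∀ (R : Type u) [CommRing R] [IsDomain R] [UniqueFactorizationMonoid R]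
  (ι : Type) [Fintype ι] (A : Matrix ι ι R), A.IsSymm →
  (∀ i j k l, A i j * A k l = A i l * A k j) → (∃ i, A i i ≠ 0) →
  ∃ (q : R) (w : ι → R), q ≠ 0 ∧ (∀ i j, A i j = q * w i * w j) ∧
    ∀ p : R, Prime p → ∃ i, ¬ p ∣ w i

/-- Module ADJ: an adjugate matrix. -/
def StmADJ : Prop := ∀ (R : Type u) [CommRing R] [IsDomain R] (β μ : Type) [Fintype β] [Fintype μ]
  [DecidableEq β] [DecidableEq μ] (a : Matrix β β R) (b : Matrix β μ R)
  (c : Matrix β (Option β) R) (d : Matrix μ μ R), a.IsSymm → d.IsSymm → d.det ≠ 0 →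
  kv c none ≠ 0 →
  (∀ i j, (blk a b c d 0 0).adjugate (Sum.inl i) j = 0) ∧
  (∀ i j, (blk a b c d 0 0).adjugate (Sum.inr (Sum.inl i)) j = 0) ∧
  (∀ i j, (blk a b c d 0 0).adjugate j (Sum.inl i) = 0) ∧
  (∀ i j, (blk a b c d 0 0).adjugate j (Sum.inr (Sum.inl i)) = 0) ∧
  ∀ y z, (blk a b c d 0 0).adjugate (Sum.inr (Sum.inr y)) (Sum.inr (Sum.inr z)) =
    (-1) ^ Fintype.card β * d.det * kv c y * kv c z

/-- Module SQF: the kernel vector of the net is primitive, and the determinant of the block `d` has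
no square factor. -/
def StmSQF : Prop := ∀ (K : Type u) [Field K] (β μ : Type) [Fintype β] [Fintype μ]
  [DecidableEq β] [DecidableEq μ] (lam : Option β → K) (th : μ → K)
  (c : Matrix β (Option β) K) (d : Matrix μ μ K), Good lam th →
  kv (cP lam c) none ≠ 0 ∧ (dP th d).det ≠ 0 ∧
  (∀ p : MvPolynomial (Fin 2) K, Prime p → ∃ y, ¬ p ∣ kv (cP lam c) y) ∧
  ∀ w : MvPolynomial (Fin 2) K, w * w ∣ (dP th d).det → IsUnit w

/-- Module QUU: the polynomial kernel vector of a net. -/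
def StmQUU : Prop := ∀ (K Ω : Type u) [Field K] [IsAlgClosed K] [Field Ω] [Algebra K Ω]
  (Γ : Type u) [LinearOrderedCommGroupWithZero Γ] (v : Valuation Ω Γ), Triv K v →
  ∀ (β μ : Type) [Fintype β] [Fintype μ] [DecidableEq β] [DecidableEq μ] (lam : Option β → K)
  (th : μ → K) (a : Matrix β β K) (b : Matrix β μ K) (c : Matrix β (Option β) K)
  (d : Matrix μ μ K) (M0 M1 M2 : Matrix (β ⊕ (μ ⊕ Option β)) (β ⊕ (μ ⊕ Option β)) Ω),
  Good lam th → a.IsSymm → d.IsSymm → M0.IsSymm → M1.IsSymm → M2.IsSymm →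
  NearM v M0 (S0 lam th) → NearM v M1 (S1 K β μ) → NearM v M2 (blk a b c d 0 0) →
  (∀ t w : Ω, (M0 + t • M1 + w • M2).det = 0) →
  ∃ w : β ⊕ (μ ⊕ Option β) → MvPolynomial (Fin 2) Ω, Ann M0 M1 M2 w ∧
    ∀ i m, Near v (coeff m (w i)) (coeff m (u0 lam c i))

/-- Module RGD: the deformations of a rigid net with a fixed pencil of compression spaces. -/
def StmRGD : Prop := ∀ (K Ω : Type u) [Field K] [IsAlgClosed K] [Field Ω] [Algebra K Ω]
  (Γ : Type u) [LinearOrderedCommGroupWithZero Γ] (v : Valuation Ω Γ), Triv K v →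
  ∀ (β μ : Type) [Fintype β] [Fintype μ] [DecidableEq β] [DecidableEq μ] (lam : Option β → K)
  (th : μ → K) (a : Matrix β β K) (b : Matrix β μ K) (c : Matrix β (Option β) K)
  (d : Matrix μ μ K) (a0 a1 a2 : Matrix β β Ω) (b0 b1 b2 : Matrix β μ Ω)
  (c0 c1 c2 : Matrix β (Option β) Ω) (d0 d1 d2 : Matrix μ μ Ω) (f : Matrix μ (Option β) Ω)
  (F : Matrix (Option β) (Option β) Ω), Good lam th → Rig lam th b c d →
  a0.IsSymm → a1.IsSymm → a2.IsSymm → d0.IsSymm → d1.IsSymm → d2.IsSymm → F.IsSymm →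
  NearM v (blk a0 b0 c0 d0 0 0) (S0 lam th) → NearM v (blk a1 b1 c1 d1 0 0) (S1 K β μ) →
  NearM v (blk a2 b2 c2 d2 f F) (blk a b c d 0 0) →
  ∀ w : β ⊕ (μ ⊕ Option β) → MvPolynomial (Fin 2) Ω,
    Ann (blk a0 b0 c0 d0 0 0) (blk a1 b1 c1 d1 0 0) (blk a2 b2 c2 d2 f F) w →
    (∀ i m, Near v (coeff m (w i)) (coeff m (u0 lam c i))) → f = 0 ∧ F = 0

/-! ### Pencils -/

/-- The span of the kernels of the matrices of a pencil which have rank `ρ`. -/
def VP {Ω : Type u} [Field Ω] {ι : Type} [Fintype ι] [DecidableEq ι] (ρ : ℕ)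
    (M0 M1 : Matrix ι ι Ω) : Submodule Ω (ι → Ω) :=
  ⨆ t : Ω, ⨆ _ : (M0 + t • M1).rank = ρ, LinearMap.ker (M0 + t • M1).mulVecLin

/-- The image of `VP`. -/
def WP {Ω : Type u} [Field Ω] {ι : Type} [Fintype ι] [DecidableEq ι] (ρ : ℕ)
    (M0 M1 : Matrix ι ι Ω) : Submodule Ω (ι → Ω) :=
  (VP ρ M0 M1).map M0.mulVecLin ⊔ (VP ρ M0 M1).map M1.mulVecLin

/-- Module PEN: pencils of symmetric matrices of bounded rank with `m` points of smaller rank. -/
def StmPEN : Prop := ∀ (Ω : Type u) [Field Ω] [Infinite Ω] (ι μ : Type) [Fintype ι] [Fintype μ]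
  [DecidableEq ι] (ρ s : ℕ) (M0 M1 : Matrix ι ι Ω), M0.IsSymm → M1.IsSymm →
  ρ = 2 * s + Fintype.card μ → (∀ t : Ω, (M0 + t • M1).rank ≤ ρ) →
  (∃ t : Ω, (M0 + t • M1).rank = ρ) →
  (∃ θ : μ → Ω, Function.Injective θ ∧ ∀ j, (M0 + θ j • M1).rank < ρ) →
  finrank Ω (VP ρ M0 M1) ≤ s + (Fintype.card ι - ρ) ∧ finrank Ω (WP ρ M0 M1) ≤ s ∧
  ∀ x ∈ VP ρ M0 M1, ∀ y ∈ VP ρ M0 M1, x ⬝ᵥ (M0 *ᵥ y) = 0 ∧ x ⬝ᵥ (M1 *ᵥ y) = 0

/-- Module LIFT: the points of smaller rank of a pencil persist. -/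
def StmLIFT : Prop := ∀ (K Ω : Type u) [Field K] [IsAlgClosed K] [Field Ω] [IsAlgClosed Ω]
  [Algebra K Ω] (Γ : Type u) [LinearOrderedCommGroupWithZero Γ] (v : Valuation Ω Γ), Triv K v →
  ∀ (ι ι' σ μ : Type) [Fintype ι] [Fintype ι'] [Fintype σ] [Fintype μ] [DecidableEq ι]
  [DecidableEq ι'] (I : ι' → ι) (N0 N1 : Matrix ι ι K) (M0 M1 : Matrix ι ι Ω) (g : K)
  (lam : σ → K) (θ : μ → K), Function.Injective I → g ≠ 0 → Function.Injective θ →
  (∀ j a, θ j ≠ lam a) → Fintype.card ι' = 2 * Fintype.card σ + Fintype.card μ →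
  (∀ t : K, ((N0 + t • N1).submatrix I I).det = g * (∏ j, (t - θ j)) * (∏ a, (t - lam a)) ^ 2) →
  M0.IsSymm → M1.IsSymm → NearM v M0 N0 → NearM v M1 N1 →
  (∀ t : Ω, (M0 + t • M1).rank ≤ Fintype.card ι') →
  (∃ t : Ω, (M0 + t • M1).rank = Fintype.card ι') ∧
  ∃ θ' : μ → Ω, Function.Injective θ' ∧ ∀ j, (M0 + θ' j • M1).rank < Fintype.card ι'

/-- Module DETS: a determinant. -/
def StmDETS : Prop := ∀ (R : Type u) [CommRing R] (σ μ : Type) [Fintype σ] [Fintype μ]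
  [DecidableEq σ] [DecidableEq μ] (a : Matrix σ σ R) (g : σ → R) (h : μ → R),
  (blk a 0 (diagonal g) (diagonal h) 0 0).det =
    (-1) ^ Fintype.card σ * (∏ j, h j) * (∏ i, g i) ^ 2

/-- Module LOW: the lower bound for the span of the kernels. -/
def StmLOW : Prop := ∀ (K Ω : Type u) [Field K] [IsAlgClosed K] [Field Ω] [Algebra K Ω]
  (Γ : Type u) [LinearOrderedCommGroupWithZero Γ] (v : Valuation Ω Γ), Triv K v →
  ∀ (β μ : Type) [Fintype β] [Fintype μ] [DecidableEq β] [DecidableEq μ] (lam : Option β → K)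
  (th : μ → K) (M0 M1 : Matrix (β ⊕ (μ ⊕ Option β)) (β ⊕ (μ ⊕ Option β)) Ω),
  Good lam th → NearM v M0 (S0 lam th) → NearM v M1 (S1 K β μ) →
  (∀ t : Ω, (M0 + t • M1).rank ≤ 2 * Fintype.card β + Fintype.card μ) →
  Fintype.card β + 1 ≤ finrank Ω (VP (2 * Fintype.card β + Fintype.card μ) M0 M1) ∧
  ∃ U : Option β → β ⊕ (μ ⊕ Option β) → Ω,
    (∀ z, U z ∈ VP (2 * Fintype.card β + Fintype.card μ) M0 M1) ∧
    ∀ z i, Near v (U z i) ((Pi.single (Sum.inr (Sum.inr z)) 1 : β ⊕ (μ ⊕ Option β) → K) i)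

/-- Module NRM: normal form of the pencil. -/
def StmNRM : Prop := ∀ (K Ω : Type u) [Field K] [IsAlgClosed K] [Field Ω] [Algebra K Ω]
  (Γ : Type u) [LinearOrderedCommGroupWithZero Γ] (v : Valuation Ω Γ), Triv K v →
  ∀ (β μ : Type) [Fintype β] [Fintype μ] [DecidableEq β] [DecidableEq μ] (lam : Option β → K)
  (th : μ → K) (M0 M1 : Matrix (β ⊕ (μ ⊕ Option β)) (β ⊕ (μ ⊕ Option β)) Ω),
  Good lam th → M0.IsSymm → M1.IsSymm → NearM v M0 (S0 lam th) → NearM v M1 (S1 K β μ) →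
  (∀ t : Ω, (M0 + t • M1).rank ≤ 2 * Fintype.card β + Fintype.card μ) →
  finrank Ω (VP (2 * Fintype.card β + Fintype.card μ) M0 M1) = Fintype.card β + 1 →
  finrank Ω (WP (2 * Fintype.card β + Fintype.card μ) M0 M1) ≤ Fintype.card β →
  (∀ x ∈ VP (2 * Fintype.card β + Fintype.card μ) M0 M1,
    ∀ y ∈ VP (2 * Fintype.card β + Fintype.card μ) M0 M1,
    x ⬝ᵥ (M0 *ᵥ y) = 0 ∧ x ⬝ᵥ (M1 *ᵥ y) = 0) →
  ∃ G : Matrix (β ⊕ (μ ⊕ Option β)) (β ⊕ (μ ⊕ Option β)) Ω, NearM v G (1 : Matrix _ _ K) ∧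
    (∃ (a0 a1 : Matrix β β Ω) (b0 b1 : Matrix β μ Ω) (c0 c1 : Matrix β (Option β) Ω)
      (d0 d1 : Matrix μ μ Ω), Gᵀ * M0 * G = blk a0 b0 c0 d0 0 0 ∧
      Gᵀ * M1 * G = blk a1 b1 c1 d1 0 0) ∧
    ∀ x, x ∈ VP (2 * Fintype.card β + Fintype.card μ) M0 M1 ↔
      ∃ z : Option β → Ω, x = G *ᵥ (Sum.elim 0 (Sum.elim 0 z))

/-- The theorem on nets, one-dimensional kernels. -/
def StmEONE : Prop := ∀ (K Ω : Type u) [Field K] [IsAlgClosed K] [Field Ω] [IsAlgClosed Ω]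
  [Algebra K Ω] (Γ : Type u) [LinearOrderedCommGroupWithZero Γ] (v : Valuation Ω Γ), Triv K v →
  ∀ (β μ : Type) [Fintype β] [Fintype μ] [DecidableEq β] [DecidableEq μ] (lam : Option β → K)
  (th : μ → K) (a : Matrix β β K) (b : Matrix β μ K) (c : Matrix β (Option β) K)
  (d : Matrix μ μ K) (M0 M1 M2 : Matrix (β ⊕ (μ ⊕ Option β)) (β ⊕ (μ ⊕ Option β)) Ω),
  Good lam th → Rig lam th b c d → M0.IsSymm → M1.IsSymm → M2.IsSymm →
  NearM v M0 (S0 lam th) → NearM v M1 (S1 K β μ) → NearM v M2 (blk a b c d 0 0) →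
  (∀ t w : Ω, (M0 + t • M1 + w • M2).rank ≤ 2 * Fintype.card β + Fintype.card μ) →
  ∀ x ∈ VP (2 * Fintype.card β + Fintype.card μ) M0 M1,
    M2 *ᵥ x ∈ WP (2 * Fintype.card β + Fintype.card μ) M0 M1

/-! ### Kernels of larger dimension -/

/-- The restriction to the smaller index set. -/
def res {R : Type*} {σ ε μ γ : Type} (M : Matrix ((σ ⊕ ε) ⊕ (μ ⊕ γ)) ((σ ⊕ ε) ⊕ (μ ⊕ γ)) R) :
    Matrix (σ ⊕ (μ ⊕ γ)) (σ ⊕ (μ ⊕ γ)) R :=
  M.submatrix (Sum.map Sum.inl id) (Sum.map Sum.inl id)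

/-- The larger matrix: `M` on the smaller index set, `S` elsewhere. -/
def plus {R : Type*} {σ ε μ γ : Type} (M : Matrix (σ ⊕ (μ ⊕ γ)) (σ ⊕ (μ ⊕ γ)) R)
    (S : Matrix ((σ ⊕ ε) ⊕ (μ ⊕ γ)) ((σ ⊕ ε) ⊕ (μ ⊕ γ)) R) :
    Matrix ((σ ⊕ ε) ⊕ (μ ⊕ γ)) ((σ ⊕ ε) ⊕ (μ ⊕ γ)) R :=
  Matrix.of fun i j => match i, j with
    | .inl (.inl i), .inl (.inl j) => M (.inl i) (.inl j)
    | .inl (.inl i), .inr j => M (.inl i) (.inr j)
    | .inr i, .inl (.inl j) => M (.inr i) (.inl j)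
    | .inr i, .inr j => M (.inr i) (.inr j)
    | i, j => S i j

/-- The larger block `b`. -/
def bp {R : Type*} [Zero R] {σ μ : Type} (ε : Type) (b : Matrix σ μ R) : Matrix (σ ⊕ ε) μ R :=
  Matrix.of (Sum.elim b fun _ => 0)

/-- The larger block `c`. -/
def cp {K : Type u} [Field K] {σ ε : Type} [DecidableEq σ] [DecidableEq ε]
    (lam : Option (σ ⊕ ε) → K) (c : Matrix σ (Option (σ ⊕ ε)) K) :
    Matrix (σ ⊕ ε) (Option (σ ⊕ ε)) K :=
  Matrix.of (Sum.elim c fun e => (starC fun y => (lam y)⁻¹ : Matrix (σ ⊕ ε) _ K) (Sum.inr e))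

/-- Module PLU: properties of the larger matrix. -/
def StmPLU : Prop := ∀ (Ω : Type u) [Field Ω] (σ ε μ γ : Type) [Fintype σ] [Fintype ε] [Fintype μ]
  [Fintype γ] [DecidableEq σ] [DecidableEq ε] [DecidableEq μ] [DecidableEq γ]
  (M : Matrix (σ ⊕ (μ ⊕ γ)) (σ ⊕ (μ ⊕ γ)) Ω)
  (S : Matrix ((σ ⊕ ε) ⊕ (μ ⊕ γ)) ((σ ⊕ ε) ⊕ (μ ⊕ γ)) Ω),
  (plus M S).rank ≤ M.rank + 2 * Fintype.card ε ∧
  ((∀ e i, S (Sum.inl (Sum.inr e)) (Sum.inl (Sum.inl i)) = 0) →
    (∀ e j, S (Sum.inl (Sum.inr e)) (Sum.inr (Sum.inl j)) = 0) → M.IsSymm → S.IsSymm →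
    (plus M S).rank + 1 = Fintype.card σ + Fintype.card ε + Fintype.card μ + Fintype.card γ →
    M.rank + Fintype.card ε + 1 ≤ Fintype.card σ + Fintype.card μ + Fintype.card γ →
    ∀ x : (σ ⊕ ε) ⊕ (μ ⊕ γ) → Ω, plus M S *ᵥ x = 0 →
      (∀ e, x (Sum.inl (Sum.inr e)) = 0) ∧
      M *ᵥ (fun i => x (Sum.map Sum.inl id i)) = 0)

/-- Module DIM: the standard space is large enough. -/
def StmDIM : Prop := ∀ (K : Type u) [Field K] [IsAlgClosed K] (σ ε μ : Type) [Fintype σ]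
  [Fintype ε] [Fintype μ] [DecidableEq σ] [DecidableEq ε] [DecidableEq μ]
  (lam : Option (σ ⊕ ε) → K) (th : μ → K) (N : ℕ), Good lam th →
  N + 2 ≤ Fintype.card σ * (Fintype.card σ + 1) / 2 +
    Fintype.card σ * (Fintype.card μ + (Fintype.card σ + Fintype.card ε + 1)) +
    Fintype.card μ * (Fintype.card μ + 1) / 2 →
  ∃ (a : Fin N → Matrix σ σ K) (b : Fin N → Matrix σ μ K)
    (c : Fin N → Matrix σ (Option (σ ⊕ ε)) K) (d : Fin N → Matrix μ μ K),
    (∀ j, (a j).IsSymm ∧ (d j).IsSymm) ∧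
    LinearIndependent K (Fin.cons (res (S0 lam th)) (Fin.cons (res (S1 K (σ ⊕ ε) μ))
      fun j => blk (a j) (b j) (c j) (d j) 0 0) :
      Fin (N + 1 + 1) → Matrix (σ ⊕ (μ ⊕ Option (σ ⊕ ε))) (σ ⊕ (μ ⊕ Option (σ ⊕ ε))) K)

/-- Module FAM: the special bases. -/
def StmFAM : Prop := ∀ (K : Type u) [Field K] [IsAlgClosed K] (σ ε μ : Type) [Fintype σ]
  [Fintype ε] [Fintype μ] [DecidableEq σ] [DecidableEq ε] [DecidableEq μ]
  (lam : Option (σ ⊕ ε) → K) (th : μ → K) (N : ℕ), Good lam th →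
  N + 2 ≤ Fintype.card σ * (Fintype.card σ + 1) / 2 +
    Fintype.card σ * (Fintype.card μ + (Fintype.card σ + Fintype.card ε + 1)) +
    Fintype.card μ * (Fintype.card μ + 1) / 2 →
  ∃ (a : Fin N → Matrix σ σ K) (b : Fin N → Matrix σ μ K)
    (c : Fin N → Matrix σ (Option (σ ⊕ ε)) K) (d : Fin N → Matrix μ μ K),
    (∀ j, (a j).IsSymm ∧ (d j).IsSymm ∧ Rig lam th (bp ε (b j)) (cp lam (c j)) (d j)) ∧
    LinearIndependent K (Fin.cons (res (S0 lam th)) (Fin.cons (res (S1 K (σ ⊕ ε) μ))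
      fun j => blk (a j) (b j) (c j) (d j) 0 0) :
      Fin (N + 1 + 1) → Matrix (σ ⊕ (μ ⊕ Option (σ ⊕ ε))) (σ ⊕ (μ ⊕ Option (σ ⊕ ε))) K)

/-- The theorem on deformations, in blocks. -/
def StmDEF : Prop := ∀ (K Ω : Type u) [Field K] [IsAlgClosed K] [Field Ω] [IsAlgClosed Ω]
  [Algebra K Ω] (Γ : Type u) [LinearOrderedCommGroupWithZero Γ] (v : Valuation Ω Γ), Triv K v →
  ∀ (σ ε μ : Type) [Fintype σ] [Fintype ε] [Fintype μ] [DecidableEq σ] [DecidableEq ε]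
  [DecidableEq μ] (lam : Option (σ ⊕ ε) → K) (th : μ → K)
  (M0 M1 : Matrix (σ ⊕ (μ ⊕ Option (σ ⊕ ε))) (σ ⊕ (μ ⊕ Option (σ ⊕ ε))) Ω),
  Good lam th → M0.IsSymm → M1.IsSymm → NearM v M0 (res (S0 lam th)) →
  NearM v M1 (res (S1 K (σ ⊕ ε) μ)) →
  (∀ t : Ω, (M0 + t • M1).rank ≤ 2 * Fintype.card σ + Fintype.card μ) →
  finrank Ω (VP (2 * Fintype.card σ + Fintype.card μ) M0 M1) =
    Fintype.card σ + Fintype.card ε + 1 ∧
  finrank Ω (WP (2 * Fintype.card σ + Fintype.card μ) M0 M1) ≤ Fintype.card σ ∧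
  (∀ x ∈ VP (2 * Fintype.card σ + Fintype.card μ) M0 M1,
    ∀ y ∈ WP (2 * Fintype.card σ + Fintype.card μ) M0 M1, x ⬝ᵥ y = 0) ∧
  ∀ (a : Matrix σ σ K) (b : Matrix σ μ K) (c : Matrix σ (Option (σ ⊕ ε)) K) (d : Matrix μ μ K)
    (M2 : Matrix (σ ⊕ (μ ⊕ Option (σ ⊕ ε))) (σ ⊕ (μ ⊕ Option (σ ⊕ ε))) Ω),
    Rig lam th (bp ε b) (cp lam c) d → M2.IsSymm → NearM v M2 (blk a b c d 0 0) →
    (∀ t w : Ω, (M0 + t • M1 + w • M2).rank ≤ 2 * Fintype.card σ + Fintype.card μ) →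
    ∀ x ∈ VP (2 * Fintype.card σ + Fintype.card μ) M0 M1,
      M2 *ᵥ x ∈ WP (2 * Fintype.card σ + Fintype.card μ) M0 M1

/-- Module BAS: from the pair of subspaces to a basis. -/
def StmBAS : Prop := ∀ (Ω : Type u) [Field Ω] (n r k s : ℕ), 1 ≤ r → r ≤ n → s ≤ (r - 1) / 2 →
  ∀ (M : Fin (k + 1) → Matrix (Fin n) (Fin n) Ω) (V W : Submodule Ω (Fin n → Ω)),
  (∀ l, (M l).IsSymm) → finrank Ω V = s + 1 + n - r → finrank Ω W ≤ s →
  (∀ l, ∀ x ∈ V, M l *ᵥ x ∈ W) → (∀ x ∈ V, ∀ y ∈ W, x ⬝ᵥ y = 0) →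
  ∃ B : Matrix (Fin n) (Fin n) Ω, IsUnit B.det ∧ ∀ l, InL r s (Bᵀ * M l * B)

/-- Module PAR: good parameters exist. -/
def StmPAR : Prop := ∀ (K : Type u) [Field K] [IsAlgClosed K] (β μ : Type) [Fintype β] [Fintype μ]
  [DecidableEq β] [DecidableEq μ], ∃ (lam : Option β → K) (th : μ → K), Good lam th

end Pool.Agent.T6.H97.CS
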