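import Pool.Agent.T6.H97.CS.Defs2

/-!
# Module DETS of project CS (MP_f9dfcb_ag): a determinant
-/

set_option autoImplicit false

universe u

namespace Pool.Agent.T6.H97.CS

open Finset Matrix

/-- Reordering of the blocks. -/
def dEquiv (σ μ : Type) : (σ ⊕ σ) ⊕ μ ≃ σ ⊕ (μ ⊕ σ) where
  toFun := fun x => match x with
    | .inl (.inl i) => .inl i
    | .inl (.inr i) => .inr (.inr i)
    | .inr j => .inr (.inl j)
  invFun := fun x => match x with
    | .inl i => .inl (.inl i)
    | .inr (.inr i) => .inl (.inr i)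
    | .inr (.inl j) => .inr j
  left_inv := by rintro ((i | i) | j) <;> rfl
  right_inv := by rintro (i | (j | i)) <;> rfl

theorem det_two {R : Type u} [CommRing R] {σ : Type} [Fintype σ] [DecidableEq σ]
    (a G : Matrix σ σ R) :
    (fromBlocks a G G 0).det = (-1) ^ Fintype.card σ * G.det * G.det := by
  have h1 : fromBlocks a G G 0 * fromBlocks (0 : Matrix σ σ R) (1 : Matrix σ σ R) (1 : Matrix σ σ R)
      (0 : Matrix σ σ R) = fromBlocks G a 0 G := by
    rw [fromBlocks_multiply]
    simp
  have h2 : (fromBlocks (0 : Matrix σ σ R) (1 : Matrix σ σ R) (1 : Matrix σ σ R)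
      (0 : Matrix σ σ R)).det = (-1) ^ Fintype.card σ := by
    have h3 : fromBlocks (0 : Matrix σ σ R) (1 : Matrix σ σ R) (1 : Matrix σ σ R)
        (0 : Matrix σ σ R) * fromBlocks (1 : Matrix σ σ R) (0 : Matrix σ σ R)
        (1 : Matrix σ σ R) (1 : Matrix σ σ R) =
        fromBlocks (1 : Matrix σ σ R) (1 : Matrix σ σ R) (1 : Matrix σ σ R) (0 : Matrix σ σ R) := by
      rw [fromBlocks_multiply]
      simp
    have h4 : (fromBlocks (1 : Matrix σ σ R) (0 : Matrix σ σ R) (1 : Matrix σ σ R)
        (1 : Matrix σ σ R)).det = 1 := by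
      rw [det_fromBlocks_zero₁₂]; simp
    have h5 : (fromBlocks (1 : Matrix σ σ R) (1 : Matrix σ σ R) (1 : Matrix σ σ R)
        (0 : Matrix σ σ R)).det = (-1) ^ Fintype.card σ := by
      rw [det_fromBlocks_one₁₁]
      simp [det_neg]
    have h6 := congrArg det h3
    rw [det_mul, h4, mul_one, h5] at h6
    exact h6
  have h7 := congrArg det h1
  rw [det_mul, h2, det_fromBlocks_zero₂₁] at h7
  have h8 : ((-1 : R) ^ Fintype.card σ) * (-1) ^ Fintype.card σ = 1 := by
    rw [← mul_pow]; simp
  calc (fromBlocks a G G 0).det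
      = (fromBlocks a G G 0).det * (((-1 : R) ^ Fintype.card σ) * (-1) ^ Fintype.card σ) := by
        rw [h8, mul_one]
    _ = (G.det * G.det) * (-1) ^ Fintype.card σ := by rw [← mul_assoc, h7]
    _ = (-1) ^ Fintype.card σ * G.det * G.det := by ring

/-- Module DETS: a determinant. -/
theorem dets : StmDETS := by
  intro R _ σ μ _ _ _ _ a g h
  have e : (blk a 0 (diagonal g) (diagonal h) 0 0).submatrix (dEquiv σ μ) (dEquiv σ μ) =
      fromBlocks (fromBlocks a (diagonal g) (diagonal g) 0) 0 0 (diagonal h) := by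
    ext i j
    rcases i with (i | i) | i <;> rcases j with (j | j) | j <;>
      simp [blk, dEquiv, Matrix.diagonal_apply]
    by_cases hij : i = j
    · subst hij; simp
    · rw [if_neg hij, if_neg (fun k => hij k.symm)]
  rw [← det_submatrix_equiv_self (dEquiv σ μ), e, det_fromBlocks_zero₂₁, det_two, det_diagonal,
    det_diagonal]
  ring

end Pool.Agent.T6.H97.CS
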