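import Pool.Agent.T6.H97.CS.Defs2

/-!
MP_f9dfcb_ag, module DIM (helper54): the standard space is large enough.
-/

set_option autoImplicit false

universe u

namespace Pool.Agent.T6.H97.CS

open Finset Matrix Module MvPolynomial

namespace ModDIM

/-- extending a linearly independent pair -/
theorem ext_fam {K : Type*} {V : Type*} [Field K] [AddCommGroup V] [Module K V]
    [FiniteDimensional K V] (x y : V) (h : LinearIndependent K ![x, y]) (N : ℕ)
    (hN : N + 2 ≤ finrank K V) :
    ∃ g : Fin N → V, LinearIndependent K (Fin.cons x (Fin.cons y g) : Fin (N + 1 + 1) → V) := by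
  induction N with
  | zero => exact ⟨![], h⟩
  | succ N ih =>
    obtain ⟨g, hg⟩ := ih (by omega)
    obtain ⟨z, hz⟩ := exists_linearIndependent_snoc_of_lt_finrank hg (by omega)
    refine ⟨Fin.snoc g z, ?_⟩
    rw [Fin.cons_snoc_eq_snoc_cons, Fin.cons_snoc_eq_snoc_cons]
    exact hz

/-- the index set of the parameters -/
abbrev Ix (σ ε μ : Type) : Type :=
  (Sym2 σ ⊕ (σ × μ)) ⊕ ((σ × Option (σ ⊕ ε)) ⊕ Sym2 μ)

section

variable {K : Type u} [Field K] {σ ε μ : Type}

/-- the matrix with the given parameters -/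
def ps : (Ix σ ε μ → K) →ₗ[K]
    Matrix (σ ⊕ (μ ⊕ Option (σ ⊕ ε))) (σ ⊕ (μ ⊕ Option (σ ⊕ ε))) K where
  toFun w := blk (Matrix.of fun i j => w (.inl (.inl s(i, j))))
    (Matrix.of fun i j => w (.inl (.inr (i, j))))
    (Matrix.of fun i j => w (.inr (.inl (i, j))))
    (Matrix.of fun i j => w (.inr (.inr s(i, j)))) 0 0
  map_add' w w' := by
    ext i j
    rcases i with i | i | i <;> rcases j with j | j | j <;> simp [blk]
  map_smul' c w := by
    ext i j
    rcases i with i | i | i <;> rcases j with j | j | j <;> simp [blk]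

theorem ps_inj : Function.Injective (ps : (Ix σ ε μ → K) →ₗ[K] _) := by
  intro w w' h
  funext z
  rcases z with (z | ⟨i, j⟩) | (⟨i, j⟩ | z)
  · induction z using Sym2.ind with
    | _ i j => exact congrFun (congrFun h (.inl i)) (.inl j)
  · exact congrFun (congrFun h (.inl i)) (.inr (.inl j))
  · exact congrFun (congrFun h (.inl i)) (.inr (.inr j))
  · induction z using Sym2.ind with
    | _ i j => exact congrFun (congrFun h (.inr (.inl i))) (.inr (.inl j))

theorem ps_surj (a : Matrix σ σ K) (b : Matrix σ μ K) (c : Matrix σ (Option (σ ⊕ ε)) K)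
    (d : Matrix μ μ K) (ha : a.IsSymm) (hd : d.IsSymm) : ∃ w : Ix σ ε μ → K,
    ps w = blk a b c d 0 0 := by
  refine ⟨Sum.elim (Sum.elim (Sym2.lift ⟨fun i j => a i j, fun i j => (ha.apply i j).symm⟩)
    fun p => b p.1 p.2) (Sum.elim (fun p => c p.1 p.2)
    (Sym2.lift ⟨fun i j => d i j, fun i j => (hd.apply i j).symm⟩)), ?_⟩
  ext i j
  rcases i with i | i | i <;> rcases j with j | j | j <;> simp [ps, blk]

theorem card_Ix [Fintype σ] [Fintype ε] [Fintype μ] [DecidableEq σ] [DecidableEq ε]
    [DecidableEq μ] :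
    finrank K (Ix σ ε μ → K) = Fintype.card σ * (Fintype.card σ + 1) / 2 +
    Fintype.card σ * (Fintype.card μ + (Fintype.card σ + Fintype.card ε + 1)) +
    Fintype.card μ * (Fintype.card μ + 1) / 2 := by
  have h : ∀ n : ℕ, (n + 1).choose 2 = n * (n + 1) / 2 := by
    intro n
    rw [Nat.choose_two_right, Nat.add_sub_cancel, mul_comm]
  rw [finrank_fintype_fun_eq_card, Fintype.card_sum, Fintype.card_sum, Fintype.card_sum,
    Sym2.card, Sym2.card, h, h, Fintype.card_prod, Fintype.card_prod, Fintype.card_option,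
    Fintype.card_sum]
  ring

theorem res_blk {R : Type*} [Zero R] (a : Matrix (σ ⊕ ε) (σ ⊕ ε) R) (b : Matrix (σ ⊕ ε) μ R)
    (c : Matrix (σ ⊕ ε) (Option (σ ⊕ ε)) R) (d : Matrix μ μ R) :
    res (blk a b c d 0 0) = blk (a.submatrix Sum.inl Sum.inl) (b.submatrix Sum.inl id)
      (c.submatrix Sum.inl id) d 0 0 := by
  ext i j
  rcases i with i | i | i <;> rcases j with j | j | j <;> rfl

end

end ModDIM

open ModDIM in
theorem dim : StmDIM.{u} := by
  intro K _ _ σ ε μ _ _ _ _ _ _ lam th N hG hN
  obtain ⟨hl, -, ht, -, -⟩ := hG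
  obtain ⟨w0, hw0⟩ : ∃ w : Ix σ ε μ → K, ps w = res (S0 lam th) := by
    obtain ⟨w, hw⟩ := ps_surj (ε := ε)
      ((diagonal fun a => lam (some a) ^ 2 : Matrix (σ ⊕ ε) (σ ⊕ ε) K).submatrix
        Sum.inl Sum.inl) ((0 : Matrix (σ ⊕ ε) μ K).submatrix Sum.inl id)
      ((starC fun y => -lam y : Matrix (σ ⊕ ε) _ K).submatrix Sum.inl id)
      (diagonal fun j => -th j ^ 2) (by
        ext i j
        simp only [Matrix.transpose_apply, Matrix.submatrix_apply, Matrix.diagonal_apply,
          Sum.inl.injEq]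
        split_ifs with h1 h2 h2
        · rw [h1]
        · exact absurd h1.symm h2
        · exact absurd h2.symm h1
        · rfl) (Matrix.isSymm_diagonal _)
    refine ⟨w, hw.trans ?_⟩
    unfold S0
    rw [res_blk]
  obtain ⟨w1, hw1⟩ : ∃ w : Ix σ ε μ → K, ps w = res (S1 K (σ ⊕ ε) μ) := by
    obtain ⟨w, hw⟩ := ps_surj (ε := ε)
      ((0 : Matrix (σ ⊕ ε) (σ ⊕ ε) K).submatrix
        Sum.inl Sum.inl) ((0 : Matrix (σ ⊕ ε) μ K).submatrix Sum.inl id)
      ((starC fun _ => 1 : Matrix (σ ⊕ ε) _ K).submatrix Sum.inl id)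
      (1 : Matrix μ μ K) (by
        ext i j
        simp) Matrix.isSymm_one
    refine ⟨w, hw.trans ?_⟩
    unfold S1
    rw [res_blk]
  have hli : LinearIndependent K ![w0, w1] := by
    rw [LinearIndependent.pair_iff]
    intro s t hst
    have h1 : s • res (S0 lam th) + t • res (S1 K (σ ⊕ ε) μ) = 0 := by
      rw [← hw0, ← hw1, ← map_smul, ← map_smul, ← map_add, hst, map_zero]
    by_cases hσ : Nonempty σ
    · obtain ⟨a⟩ := hσ
      have e1 := congrFun (congrFun h1 (.inl a)) (.inr (.inr (some (.inl a))))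
      have e2 := congrFun (congrFun h1 (.inl a)) (.inr (.inr none))
      simp only [Matrix.add_apply, Matrix.smul_apply, res, S0, S1, blk, Matrix.submatrix_apply,
        Sum.map_inl, Sum.map_inr, id, Matrix.of_apply, starC, if_true, Matrix.zero_apply,
        smul_eq_mul] at e1 e2
      have e3 : s * (lam none - lam (some (.inl a))) = 0 := by linear_combination e1 + e2
      rcases mul_eq_zero.1 e3 with h | h
      · refine ⟨h, ?_⟩
        rw [h] at e1
        linear_combination e1
      · exact absurd (hl (sub_eq_zero.1 h)) (by simp)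
    · have hc : Fintype.card σ = 0 := Fintype.card_eq_zero_iff.2 (not_nonempty_iff.1 hσ)
      have hμ : 1 < Fintype.card μ := by
        by_contra hcon
        rw [hc] at hN
        have : Fintype.card μ = 0 ∨ Fintype.card μ = 1 := by omega
        rcases this with h | h <;> rw [h] at hN <;> simp at hN
      obtain ⟨j, j', hjj⟩ := Fintype.one_lt_card_iff.1 hμ
      have e1 := congrFun (congrFun h1 (.inr (.inl j))) (.inr (.inl j))
      have e2 := congrFun (congrFun h1 (.inr (.inl j'))) (.inr (.inl j'))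
      simp only [Matrix.add_apply, Matrix.smul_apply, res, S0, S1, blk, Matrix.submatrix_apply,
        Sum.map_inr, id, Matrix.of_apply, Matrix.diagonal_apply_eq, Matrix.one_apply_eq,
        Matrix.zero_apply, smul_eq_mul] at e1 e2
      have e3 : s * (th j ^ 2 - th j' ^ 2) = 0 := by linear_combination e2 - e1
      rcases mul_eq_zero.1 e3 with h | h
      · refine ⟨h, ?_⟩
        rw [h] at e1
        linear_combination e1
      · exact absurd (ht (sub_eq_zero.1 h)) hjj
  obtain ⟨g, hg⟩ := ext_fam w0 w1 hli N (by rw [card_Ix]; exact hN)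
  have hg' := hg.map' ps (LinearMap.ker_eq_bot.2 ps_inj)
  refine ⟨fun j => Matrix.of fun i i' => g j (.inl (.inl s(i, i'))),
    fun j => Matrix.of fun i i' => g j (.inl (.inr (i, i'))),
    fun j => Matrix.of fun i i' => g j (.inr (.inl (i, i'))),
    fun j => Matrix.of fun i i' => g j (.inr (.inr s(i, i'))), ?_, ?_⟩
  · intro j
    constructor
    · ext i i'
      simp only [Matrix.transpose_apply, Matrix.of_apply, Sym2.eq_swap]
    · ext i i'
      simp only [Matrix.transpose_apply, Matrix.of_apply, Sym2.eq_swap]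
  · have he : (Fin.cons (res (S0 lam th)) (Fin.cons (res (S1 K (σ ⊕ ε) μ))
        fun j => blk (Matrix.of fun i i' => g j (.inl (.inl s(i, i'))))
          (Matrix.of fun i i' => g j (.inl (.inr (i, i'))))
          (Matrix.of fun i i' => g j (.inr (.inl (i, i'))))
          (Matrix.of fun i i' => g j (.inr (.inr s(i, i')))) 0 0) :
        Fin (N + 1 + 1) → Matrix (σ ⊕ (μ ⊕ Option (σ ⊕ ε))) (σ ⊕ (μ ⊕ Option (σ ⊕ ε))) K) =
        (ps : (Ix σ ε μ → K) →ₗ[K] _) ∘ (Fin.cons w0 (Fin.cons w1 g)) := by
      funext i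
      refine Fin.cases ?_ (fun i => ?_) i
      · simp only [Fin.cons_zero, Function.comp_apply]
        exact hw0.symm
      · refine Fin.cases ?_ (fun i => ?_) i
        · simp only [Fin.cons_zero, Fin.cons_succ, Function.comp_apply]
          exact hw1.symm
        · simp only [Fin.cons_succ, Function.comp_apply]
          rfl
    rw [he]
    exact hg'

end Pool.Agent.T6.H97.CS
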