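import Pool.Agent.T6.H97.CS.Nrm

/-!
Module EONE: the theorem on nets, one-dimensional kernels.
-/

set_option autoImplicit false

universe u

namespace Pool.Agent.T6.H97.CS

open Finset Matrix Module MvPolynomial

namespace ModEONE

open ModNRM

section

variable {K Ω : Type u} [Field K] [Field Ω] [Algebra K Ω] {Γ : Type u}
  [LinearOrderedCommGroupWithZero Γ] {v : Valuation Ω Γ}

theorem near_uniq (hv : Triv K v) {x : Ω} {a b : K} (h1 : Near v x a) (h2 : Near v x b) :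
    a = b := by
  by_contra hab
  have h3 := near_sub h1 h2
  rw [sub_self] at h3
  unfold Near at h3
  rw [zero_sub, Valuation.map_neg, hv _ (sub_ne_zero.2 hab)] at h3
  exact lt_irrefl _ h3

theorem blk_of_symm {β μ γ : Type} (M : Matrix (β ⊕ (μ ⊕ γ)) (β ⊕ (μ ⊕ γ)) Ω) (hM : M.IsSymm) :
    M = blk (Matrix.of fun i j => M (Sum.inl i) (Sum.inl j))
      (Matrix.of fun i j => M (Sum.inl i) (Sum.inr (Sum.inl j)))
      (Matrix.of fun i j => M (Sum.inl i) (Sum.inr (Sum.inr j)))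
      (Matrix.of fun i j => M (Sum.inr (Sum.inl i)) (Sum.inr (Sum.inl j)))
      (Matrix.of fun i j => M (Sum.inr (Sum.inl i)) (Sum.inr (Sum.inr j)))
      (Matrix.of fun i j => M (Sum.inr (Sum.inr i)) (Sum.inr (Sum.inr j))) := by
  ext x y
  rcases x with a | j | z <;> rcases y with a' | j' | z'
  · rfl
  · rfl
  · rfl
  · exact hM.apply _ _
  · rfl
  · rfl
  · exact hM.apply _ _
  · exact hM.apply _ _
  · rfl

theorem blk_last {β μ γ : Type} [Fintype β] [Fintype μ] [Fintype γ] (a : Matrix β β Ω)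
    (b : Matrix β μ Ω) (c : Matrix β γ Ω) (d : Matrix μ μ Ω) (z : γ → Ω) :
    blk a b c d 0 0 *ᵥ (Sum.elim 0 (Sum.elim 0 z)) = Sum.elim (c *ᵥ z) 0 := by
  funext i
  rw [Matrix.mulVec, dotProduct, Fintype.sum_sum_type, Fintype.sum_sum_type]
  rcases i with i | i | i
  · simp only [Sum.elim_inl, Sum.elim_inr, Pi.zero_apply, mul_zero, Finset.sum_const_zero,
      zero_add]
    rfl
  · simp [blk]
  · simp [blk]

end

end ModEONE

open ModNRM ModEONE in
/-- Module EONE. -/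
theorem eone (hD : StmDETS.{u}) (hLi : StmLIFT.{u}) (hP : StmPEN.{u}) (hL : StmLOW.{u})
    (hN : StmNRM.{u}) (hQ : StmQUU.{u}) (hR : StmRGD.{u}) : StmEONE.{u} := by
  intro K Ω _ _ _ _ _ Γ _ v hv β μ _ _ _ _ lam th a b c d M0 M1 M2 hG hRig hs0 hs1 hs2 hn0 hn1 hn2
    hrk x hx
  obtain ⟨hlam, hlam0, hthi, hth0, hdis⟩ := hG
  have hG : Good lam th := ⟨hlam, hlam0, hthi, hth0, hdis⟩
  -- a, d are symmetric
  have ha : a.IsSymm := by
    apply Matrix.IsSymm.ext
    intro i j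
    have h1 := hn2 (Sum.inl j) (Sum.inl i)
    have h2 := hn2 (Sum.inl i) (Sum.inl j)
    rw [hs2.apply] at h1
    exact near_uniq hv h1 h2
  have hd : d.IsSymm := by
    apply Matrix.IsSymm.ext
    intro i j
    have h1 := hn2 (Sum.inr (Sum.inl j)) (Sum.inr (Sum.inl i))
    have h2 := hn2 (Sum.inr (Sum.inl i)) (Sum.inr (Sum.inl j))
    rw [hs2.apply] at h1
    exact near_uniq hv h1 h2
  -- the pencil
  have hrk0 : ∀ t : Ω, (M0 + t • M1).rank ≤ 2 * Fintype.card β + Fintype.card μ := by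
    intro t
    have h1 := hrk t 0
    rwa [zero_smul, add_zero] at h1
  set I : β ⊕ (μ ⊕ β) → β ⊕ (μ ⊕ Option β) := Sum.map id (Sum.map id some) with hI
  have hIinj : Function.Injective I := by
    apply Sum.map_injective.2 ⟨Function.injective_id, Sum.map_injective.2
      ⟨Function.injective_id, ?_⟩⟩
    exact Option.some_injective _
  have hcardI : Fintype.card (β ⊕ (μ ⊕ β)) = 2 * Fintype.card β + Fintype.card μ := by
    simp only [Fintype.card_sum]; ring
  have hdet : ∀ t : K, ((S0 lam th + t • S1 K β μ).submatrix I I).det =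
      (-1) ^ Fintype.card β * (∏ j, (t - th j ^ 2)) *
        (∏ a, (t - lam (some a))) ^ 2 := by
    intro t
    have := hD K β μ (diagonal fun a => lam (some a) ^ 2)
      (fun a => t - lam (some a)) (fun j => t - th j ^ 2)
    rw [← this]
    congr 1
    ext i j
    rcases i with i | i | i <;> rcases j with j | j | j <;>
      simp [hI, S0, S1, blk, starC, Matrix.diagonal_apply, Matrix.one_apply] <;>
      (try split_ifs with h) <;> (try subst h) <;> (try simp_all) <;> (try ring)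
  obtain ⟨htex, θ', hθ', hθ''⟩ := hLi K Ω Γ v hv (β ⊕ (μ ⊕ Option β)) (β ⊕ (μ ⊕ β)) β μ I
    (S0 lam th) (S1 K β μ) M0 M1 ((-1) ^ Fintype.card β)
    (fun a => lam (some a)) (fun j => th j ^ 2) hIinj
    (pow_ne_zero _ (neg_ne_zero.2 one_ne_zero)) hthi (fun j a => hdis j _) hcardI hdet hs0 hs1
    hn0 hn1 (fun t => by rw [hcardI]; exact hrk0 t)
  rw [hcardI] at htex
  have hcard : Fintype.card (β ⊕ (μ ⊕ Option β)) =
      2 * Fintype.card β + Fintype.card μ + 1 := by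
    simp only [Fintype.card_sum, Fintype.card_option]; ring
  have hinf : Infinite Ω := IsAlgClosed.instInfinite
  obtain ⟨pV, pW, piso⟩ := hP Ω (β ⊕ (μ ⊕ Option β)) μ
    (2 * Fintype.card β + Fintype.card μ) (Fintype.card β) M0 M1 hs0 hs1 rfl hrk0 htex
    ⟨θ', hθ', fun j => by rw [← hcardI]; exact hθ'' j⟩
  rw [hcard, Nat.add_sub_cancel_left] at pV
  obtain ⟨lV, -⟩ := hL K Ω Γ v hv β μ lam th M0 M1 hG hn0 hn1 hrk0
  -- the normal form
  obtain ⟨G, hGn, ⟨a0, a1, b0, b1, c0, c1, d0, d1, h0, h1⟩, hVP⟩ := hN K Ω Γ v hv β μ lam th M0 M1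
    hG hs0 hs1 hn0 hn1 hrk0 (le_antisymm pV lV) pW piso
  obtain ⟨hGd, -⟩ := near_invM hv hGn (by rw [Matrix.det_one]; exact one_ne_zero)
  have hGT : NearM v Gᵀ (1 : Matrix (β ⊕ (μ ⊕ Option β)) (β ⊕ (μ ⊕ Option β)) K) := by
    intro i j
    have h2 := hGn j i
    rw [Matrix.transpose_apply]
    rwa [← Matrix.transpose_apply (1 : Matrix (β ⊕ (μ ⊕ Option β)) (β ⊕ (μ ⊕ Option β)) K),
      Matrix.transpose_one] at h2
  have hnear : ∀ (M : Matrix (β ⊕ (μ ⊕ Option β)) (β ⊕ (μ ⊕ Option β)) Ω)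
      (N : Matrix (β ⊕ (μ ⊕ Option β)) (β ⊕ (μ ⊕ Option β)) K), NearM v M N →
      NearM v (Gᵀ * M * G) N := by
    intro M N h
    have h2 := near_mulM hv (near_mulM hv hGT h) hGn
    rwa [Matrix.one_mul, Matrix.mul_one] at h2
  have hsym : ∀ (M : Matrix (β ⊕ (μ ⊕ Option β)) (β ⊕ (μ ⊕ Option β)) Ω), M.IsSymm →
      (Gᵀ * M * G).IsSymm := by
    intro M h
    unfold Matrix.IsSymm
    rw [Matrix.transpose_mul, Matrix.transpose_mul, Matrix.transpose_transpose, h,
      Matrix.mul_assoc]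
  have hn0' := hnear _ _ hn0
  have hn1' := hnear _ _ hn1
  have hn2' := hnear _ _ hn2
  have hs0' := hsym _ hs0
  have hs1' := hsym _ hs1
  have hs2' := hsym _ hs2
  have hdet0 : ∀ t w : Ω, (Gᵀ * M0 * G + t • (Gᵀ * M1 * G) + w • (Gᵀ * M2 * G)).det = 0 := by
    intro t w
    have h2 : Gᵀ * M0 * G + t • (Gᵀ * M1 * G) + w • (Gᵀ * M2 * G) =
        Gᵀ * (M0 + t • M1 + w • M2) * G := by
      rw [Matrix.mul_add, Matrix.mul_add, Matrix.add_mul, Matrix.add_mul, Matrix.mul_smul,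
        Matrix.mul_smul, Matrix.smul_mul, Matrix.smul_mul]
    rw [h2, Matrix.det_mul, Matrix.det_mul]
    have h3 : (M0 + t • M1 + w • M2).det = 0 := by
      by_contra hne
      have h4 := Matrix.rank_of_isUnit (M0 + t • M1 + w • M2)
        ((Matrix.isUnit_iff_isUnit_det _).2 (isUnit_iff_ne_zero.2 hne))
      have h5 := hrk t w
      rw [h4, hcard] at h5
      omega
    rw [h3, mul_zero, zero_mul]
  obtain ⟨w, hw1, hw2⟩ := hQ K Ω Γ v hv β μ lam th a b c d (Gᵀ * M0 * G) (Gᵀ * M1 * G)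
    (Gᵀ * M2 * G) hG ha hd hs0' hs1' hs2' hn0' hn1' hn2' hdet0
  -- blocks
  set a2 : Matrix β β Ω := Matrix.of fun i j => (Gᵀ * M2 * G) (Sum.inl i) (Sum.inl j) with ha2
  set b2 : Matrix β μ Ω := Matrix.of fun i j => (Gᵀ * M2 * G) (Sum.inl i) (Sum.inr (Sum.inl j))
    with hb2
  set c2 : Matrix β (Option β) Ω :=
    Matrix.of fun i j => (Gᵀ * M2 * G) (Sum.inl i) (Sum.inr (Sum.inr j)) with hc2
  set d2 : Matrix μ μ Ω :=
    Matrix.of fun i j => (Gᵀ * M2 * G) (Sum.inr (Sum.inl i)) (Sum.inr (Sum.inl j)) with hd2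
  set f : Matrix μ (Option β) Ω :=
    Matrix.of fun i j => (Gᵀ * M2 * G) (Sum.inr (Sum.inl i)) (Sum.inr (Sum.inr j)) with hf
  set F : Matrix (Option β) (Option β) Ω :=
    Matrix.of fun i j => (Gᵀ * M2 * G) (Sum.inr (Sum.inr i)) (Sum.inr (Sum.inr j)) with hF
  have h2 : Gᵀ * M2 * G = blk a2 b2 c2 d2 f F := blk_of_symm _ hs2'
  have hsa0 : a0.IsSymm := by
    apply Matrix.IsSymm.ext
    intro i j
    have := hs0'.apply (Sum.inl i) (Sum.inl j)
    rw [h0] at this
    exact this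
  have hsd0 : d0.IsSymm := by
    apply Matrix.IsSymm.ext
    intro i j
    have := hs0'.apply (Sum.inr (Sum.inl i)) (Sum.inr (Sum.inl j))
    rw [h0] at this
    exact this
  have hsa1 : a1.IsSymm := by
    apply Matrix.IsSymm.ext
    intro i j
    have := hs1'.apply (Sum.inl i) (Sum.inl j)
    rw [h1] at this
    exact this
  have hsd1 : d1.IsSymm := by
    apply Matrix.IsSymm.ext
    intro i j
    have := hs1'.apply (Sum.inr (Sum.inl i)) (Sum.inr (Sum.inl j))
    rw [h1] at this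
    exact this
  have hsa2 : a2.IsSymm := by
    apply Matrix.IsSymm.ext
    intro i j
    exact hs2'.apply (Sum.inl i) (Sum.inl j)
  have hsd2 : d2.IsSymm := by
    apply Matrix.IsSymm.ext
    intro i j
    exact hs2'.apply (Sum.inr (Sum.inl i)) (Sum.inr (Sum.inl j))
  have hsF : F.IsSymm := by
    apply Matrix.IsSymm.ext
    intro i j
    exact hs2'.apply (Sum.inr (Sum.inr i)) (Sum.inr (Sum.inr j))
  clear_value a2 b2 c2 d2 f F
  rw [h0] at hn0' hw1
  rw [h1] at hn1' hw1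
  rw [h2] at hn2' hw1
  obtain ⟨hf0, hF0⟩ := hR K Ω Γ v hv β μ lam th a b c d a0 a1 a2 b0 b1 b2 c0 c1 c2 d0 d1 d2 f F
    hG hRig hsa0 hsa1 hsa2 hsd0 hsd1 hsd2 hsF hn0' hn1' hn2' w hw1 hw2
  subst hf0 hF0
  -- the image
  obtain ⟨z, rfl⟩ := (hVP x).1 hx
  set t : K := lam none with ht
  set τ : Ω := algebraMap K Ω t with hτ
  let CJ : Matrix β β Ω := Matrix.of fun i j => c0 i (some j) + τ * c1 i (some j)
  have hCJ : NearM v CJ (diagonal fun a => t - lam (some a)) := by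
    intro i j
    have e0 := hn0' (Sum.inl i) (Sum.inr (Sum.inr (some j)))
    have e1 := hn1' (Sum.inl i) (Sum.inr (Sum.inr (some j)))
    have e2 := near_add e0 (near_mul hv (near_alg t) e1)
    have e3 : S0 lam th (Sum.inl i) (Sum.inr (Sum.inr (some j))) +
        t * S1 K β μ (Sum.inl i) (Sum.inr (Sum.inr (some j))) =
        (diagonal fun a => t - lam (some a) : Matrix β β K) i j := by
      rw [Matrix.diagonal_apply]
      simp only [S0, S1, blk, starC, Matrix.of_apply]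
      by_cases hab : i = j
      · subst hab
        simp only [if_true]
        ring
      · simp only [if_neg hab]
        ring
    rw [e3] at e2
    exact e2
  have hdd : (diagonal fun a => t - lam (some a) : Matrix β β K).det ≠ 0 := by
    rw [Matrix.det_diagonal, Finset.prod_ne_zero_iff]
    intro a _
    rw [sub_ne_zero]
    intro h
    have := hG.1 h
    simp at this
  obtain ⟨hCd, -⟩ := near_invM hv hCJ hdd
  have hCu : IsUnit CJ.det := isUnit_iff_ne_zero.2 hCd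
  set y : β → Ω := CJ⁻¹ *ᵥ (c2 *ᵥ z) with hy
  have hCy : CJ *ᵥ y = c2 *ᵥ z := by
    rw [hy, Matrix.mulVec_mulVec, Matrix.mul_nonsing_inv _ hCu, Matrix.one_mulVec]
  let z' : Option β → Ω := fun o => o.elim 0 y
  have hz' : c0 *ᵥ z' + τ • (c1 *ᵥ z') = c2 *ᵥ z := by
    rw [← hCy]
    funext i
    rw [Pi.add_apply, Pi.smul_apply]
    simp only [Matrix.mulVec, dotProduct, Fintype.sum_option, smul_eq_mul]
    show c0 i none * 0 + ∑ j, c0 i (some j) * y j + τ * (c1 i none * 0 + ∑ j, c1 i (some j) * y j) =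
      ∑ j, (c0 i (some j) + τ * c1 i (some j)) * y j
    rw [mul_zero, mul_zero, zero_add, zero_add, Finset.mul_sum, ← Finset.sum_add_distrib]
    refine Finset.sum_congr rfl fun j _ => ?_
    ring
  set x' := G *ᵥ (Sum.elim 0 (Sum.elim 0 z') : β ⊕ (μ ⊕ Option β) → Ω) with hx'
  have hx'V : x' ∈ VP (2 * Fintype.card β + Fintype.card μ) M0 M1 := (hVP x').2 ⟨z', rfl⟩
  have hmain : M2 *ᵥ (G *ᵥ (Sum.elim 0 (Sum.elim 0 z) : β ⊕ (μ ⊕ Option β) → Ω)) =
      M0 *ᵥ x' + M1 *ᵥ (τ • x') := by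
    have hGTd : (Gᵀ).det ≠ 0 := by rwa [Matrix.det_transpose]
    have e : Gᵀ *ᵥ (M2 *ᵥ (G *ᵥ (Sum.elim 0 (Sum.elim 0 z) : β ⊕ (μ ⊕ Option β) → Ω)) -
        (M0 *ᵥ x' + M1 *ᵥ (τ • x'))) = 0 := by
      rw [Matrix.mulVec_sub, Matrix.mulVec_add, Matrix.mulVec_smul, Matrix.mulVec_smul, hx']
      simp only [Matrix.mulVec_mulVec, ← Matrix.mul_assoc]
      rw [h0, h1, h2, blk_last, blk_last, blk_last, ← hz', sub_eq_zero]
      funext i
      rcases i with i | i
      · rfl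
      · simp
    exact sub_eq_zero.1 (Matrix.eq_zero_of_mulVec_eq_zero hGTd e)
  rw [hmain]
  unfold WP
  refine Submodule.add_mem_sup ?_ ?_
  · exact ⟨x', hx'V, by rw [Matrix.mulVecLin_apply]⟩
  · exact ⟨τ • x', Submodule.smul_mem _ _ hx'V, by rw [Matrix.mulVecLin_apply]⟩

end Pool.Agent.T6.H97.CS
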