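import Pool.Agent.T6.H97.CS.Defs2

/-!
MP_f9dfcb_ag, module FAM: the special bases.
-/

set_option autoImplicit false

universe u

namespace Pool.Agent.T6.H97.CS

open Finset Matrix Module MvPolynomial

namespace ModFAM

/-- perturbation of a linearly independent family by multiples of one vector -/
theorem li {K V ι : Type*} [Field K] [AddCommGroup V] [Module K V] [Fintype ι] (w : ι → V)
    (hw : LinearIndependent K w) (T : V) (e : ι → K) :
    ∃ τ : ι → K, ∀ m : ι → K, (∀ i, m i ≠ 0) → 1 + ∑ i, e i * τ i / m i ≠ 0 →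
      LinearIndependent K (fun i => e i • T + m i • w i) := by
  by_cases hT : T ∈ Submodule.span K (Set.range w)
  · obtain ⟨τ, hτ⟩ := (Submodule.mem_span_range_iff_exists_fun K).1 hT
    refine ⟨τ, fun m hm h1 => ?_⟩
    rw [Fintype.linearIndependent_iff] at hw ⊢
    intro g hg
    set G : K := ∑ i, g i * e i with hG
    have h2 : ∑ i, (G * τ i + g i * m i) • w i = 0 := by
      rw [← hg]
      simp only [add_smul, smul_add, Finset.sum_add_distrib, mul_smul]
      congr 1
      rw [← Finset.smul_sum, hτ]
      simp only [← mul_smul]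
      rw [← Finset.sum_smul]
    have h3 := hw _ h2
    have h4 : ∀ i, g i = -G * τ i / m i := by
      intro i
      rw [eq_div_iff (hm i)]
      have := h3 i
      linear_combination this
    have h5 : G * (1 + ∑ i, e i * τ i / m i) = 0 := by
      have : G = -G * ∑ i, e i * τ i / m i := by
        rw [Finset.mul_sum]
        nth_rw 1 [hG]
        refine Finset.sum_congr rfl fun i _ => ?_
        rw [h4 i]
        ring
      linear_combination this
    have h6 : G = 0 := by
      rcases mul_eq_zero.1 h5 with h | h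
      · exact h
      · exact absurd h h1
    intro i
    rw [h4 i, h6]
    simp
  · refine ⟨0, fun m hm _ => ?_⟩
    rw [Fintype.linearIndependent_iff] at hw ⊢
    intro g hg
    set G : K := ∑ i, g i * e i with hG
    have h2 : G • T + ∑ i, (g i * m i) • w i = 0 := by
      rw [← hg]
      simp only [smul_add, Finset.sum_add_distrib, ← mul_smul]
      rw [← Finset.sum_smul]
    have h6 : G = 0 := by
      by_contra h
      apply hT
      have h7 : T = (-G⁻¹) • ∑ i, (g i * m i) • w i := by
        have h8 : ∑ i, (g i * m i) • w i = -(G • T) := by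
          rw [eq_neg_iff_add_eq_zero, add_comm]; exact h2
        rw [h8, smul_neg, neg_smul, neg_neg, smul_smul, inv_mul_cancel₀ h, one_smul]
      rw [h7]
      refine Submodule.smul_mem _ _ (Submodule.sum_mem _ fun i _ => Submodule.smul_mem _ _ ?_)
      exact Submodule.subset_span ⟨i, rfl⟩
    rw [h6, zero_smul, zero_add] at h2
    intro i
    rcases mul_eq_zero.1 (hw _ h2 i) with h | h
    · exact h
    · exact absurd h (hm i)

theorem linearIndependent_congr {K V ι : Type*} [Field K] [AddCommGroup V] [Module K V]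
    {w w' : ι → V} (h : w = w') : LinearIndependent K w ↔ LinearIndependent K w' := by
  rw [h]

end ModFAM

open ModFAM in
theorem fam (hS : StmSTAR.{u}) (hL : StmLAM.{u}) (hD : StmDIM.{u}) : StmFAM.{u} := by
  intro K _ _ σ ε μ _ _ _ _ _ _ lam th N hgood hN
  have hinf : Infinite K := inferInstance
  obtain ⟨a, b, c, d, hsym, hli⟩ := hD K σ ε μ lam th N hgood hN
  set cs : Matrix (σ ⊕ ε) (Option (σ ⊕ ε)) K := starC fun y => (lam y)⁻¹ with hcs
  set ds : Matrix μ μ K := diagonal fun j => (th j ^ 2)⁻¹ with hds
  have hrig : Rig lam th (0 : Matrix (σ ⊕ ε) μ K) cs ds := hS K (σ ⊕ ε) μ lam th hgood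
  -- rows of the star matrix
  set c0 : Matrix σ (Option (σ ⊕ ε)) K := Matrix.of fun i y => cs (Sum.inl i) y with hc0
  have hfin : ∀ j, {x : K | ¬ Rig lam th (bp ε (x • b j)) (cp lam (c0 + x • c j))
      (ds + x • d j)}.Finite := by
    intro j
    have h := hL K (σ ⊕ ε) μ lam th 0 (bp ε (b j)) cs
      (Matrix.of (Sum.elim (c j) fun _ => 0)) ds (d j) hgood hrig
    convert h using 3
    rename_i x
    have e1 : bp ε (x • b j) = 0 + x • bp ε (b j) := by
      ext i l
      rcases i with i | i
      · change x * b j i l = 0 + x * b j i l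
        rw [zero_add]
      · change (0 : K) = 0 + x * 0
        rw [mul_zero, add_zero]
    have e2 : cp lam (c0 + x • c j) =
        cs + x • (Matrix.of (Sum.elim (c j) fun _ => 0) : Matrix (σ ⊕ ε) _ K) := by
      ext i l
      rcases i with i | i
      · rfl
      · change starC (fun y => (lam y)⁻¹) (Sum.inr i) l = cs (Sum.inr i) l + x * 0
        rw [mul_zero, add_zero]
    rw [e1, e2]
  set T : Matrix (σ ⊕ (μ ⊕ Option (σ ⊕ ε))) (σ ⊕ (μ ⊕ Option (σ ⊕ ε))) K :=
    blk 0 0 c0 ds 0 0 with hT
  set e : Fin (N + 1 + 1) → K := Fin.cons 0 (Fin.cons 0 fun _ => 1) with he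
  obtain ⟨τ, hτ⟩ := li _ hli T e
  have hbad : ({0} ∪ {-∑ j : Fin N, τ j.succ.succ} ∪ ⋃ j, {x : K | ¬ Rig lam th (bp ε (x • b j))
      (cp lam (c0 + x • c j)) (ds + x • d j)}).Finite :=
    ((Set.finite_singleton _).union (Set.finite_singleton _)).union (Set.finite_iUnion hfin)
  obtain ⟨x, hx⟩ := hbad.exists_notMem
  simp only [Set.mem_union, Set.mem_singleton_iff, Set.mem_iUnion, Set.mem_ofPred_eq, not_or,
    not_exists, not_not] at hx
  obtain ⟨⟨hx0, hx1⟩, hx2⟩ := hx
  refine ⟨fun j => x • a j, fun j => x • b j, fun j => c0 + x • c j, fun j => ds + x • d j,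
    fun j => ⟨?_, ?_, hx2 j⟩, ?_⟩
  · exact (hsym j).1.smul x
  · exact (Matrix.isSymm_diagonal _).add ((hsym j).2.smul x)
  · have h1 := hτ (Fin.cons 1 (Fin.cons 1 fun _ => x)) ?_ ?_
    · refine (linearIndependent_congr ?_).1 h1
      funext i
      refine Fin.cases ?_ (fun i => ?_) i
      · simp [he]
      refine Fin.cases ?_ (fun i => ?_) i
      · simp [he]
      · simp only [Fin.cons_succ, he, one_smul, hT]
        ext p q
        rcases p with p | p | p <;> rcases q with q | q | q <;> simp [blk]
    · intro i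
      refine Fin.cases ?_ (fun i => ?_) i
      · simp
      refine Fin.cases ?_ (fun i => ?_) i
      · simp
      · simpa using hx0
    · rw [Fin.sum_univ_succ, Fin.sum_univ_succ]
      simp only [he, Fin.cons_succ, Fin.cons_zero, zero_mul, zero_div, zero_add, one_mul]
      rw [← Finset.sum_div]
      intro h
      apply hx1
      have h2 : x + ∑ j : Fin N, τ j.succ.succ = 0 := by
        have h3 := congrArg (fun z => x * z) h
        simp only [mul_add, mul_one, mul_zero] at h3
        rw [mul_div_cancel₀ _ hx0] at h3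
        exact h3
      exact eq_neg_of_add_eq_zero_left h2

end Pool.Agent.T6.H97.CS
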