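import Pool.Agent.T6.H97.CS.Defs2

/-!
Module IRR: the compression spaces are an irreducible set.
-/

set_option autoImplicit false

universe u

namespace Pool.Agent.T6.H97.CS

open Finset Matrix Module MvPolynomial

namespace ModIRR

/-- the positions of the zeros -/
def Zp (r s : ℕ) {n : ℕ} (i j : Fin n) : Prop :=
  (r - s ≤ i.val + 1 ∧ s + 1 ≤ j.val + 1) ∨ (s + 1 ≤ i.val + 1 ∧ r - s ≤ j.val + 1)

instance (r s : ℕ) {n : ℕ} (i j : Fin n) : Decidable (Zp r s i j) := by
  unfold Zp
  infer_instance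

theorem Zp_symm {r s n : ℕ} {i j : Fin n} (h : Zp r s i j) : Zp r s j i := by
  unfold Zp at *
  tauto

/-- the parameters -/
abbrev Pr (n k : ℕ) : Type := (Fin n × Fin n) ⊕ (Fin (k + 1) × Fin n × Fin n)

variable {R : Type*} [CommRing R] {n k : ℕ}

def Am (x : Pr n k → R) : Matrix (Fin n) (Fin n) R := Matrix.of fun i j => x (Sum.inl (i, j))

def Nm (r s : ℕ) (x : Pr n k → R) (l : Fin (k + 1)) : Matrix (Fin n) (Fin n) R :=
  Matrix.of fun i j => if Zp r s i j then 0 else x (Sum.inr (l, min i j, max i j))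

def Mm (r s : ℕ) (x : Pr n k → R) (l : Fin (k + 1)) : Matrix (Fin n) (Fin n) R :=
  Am x * Nm r s x l * (Am x)ᵀ

theorem Nm_symm (r s : ℕ) (x : Pr n k → R) (l : Fin (k + 1)) : (Nm r s x l).IsSymm := by
  ext i j
  rw [Matrix.transpose_apply]
  unfold Nm
  rw [Matrix.of_apply, Matrix.of_apply]
  by_cases h : Zp r s i j
  · rw [if_pos h, if_pos (Zp_symm h)]
  · rw [if_neg h, if_neg (fun h' => h (Zp_symm h')), min_comm, max_comm]

theorem Nm_in (r s : ℕ) (x : Pr n k → R) (l : Fin (k + 1)) : InL r s (Nm r s x l) := by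
  intro i j h
  unfold Nm
  rw [Matrix.of_apply]
  exact if_pos h

theorem Mm_map {S : Type*} [CommRing S] (φ : R →+* S) (r s : ℕ) (x : Pr n k → R)
    (l : Fin (k + 1)) (i j : Fin n) : φ (Mm r s x l i j) = Mm r s (fun t => φ (x t)) l i j := by
  unfold Mm
  simp only [Matrix.mul_apply, map_sum, map_mul, Matrix.transpose_apply, Am, Nm, Matrix.of_apply]
  refine Finset.sum_congr rfl fun a _ => ?_
  congr 1
  refine Finset.sum_congr rfl fun b _ => ?_
  congr 1
  split_ifs
  · exact map_zero φ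
  · rfl

variable {K : Type u} [Field K]

/-- the pull-back of a polynomial to the parameters -/
noncomputable def pb (r s : ℕ) (p : MvPolynomial (Fin (k + 1) × Fin n × Fin n) K) :
    MvPolynomial (Pr n k) K :=
  aeval (fun t => Mm r s (X : Pr n k → MvPolynomial (Pr n k) K) t.1 t.2.1 t.2.2) p

theorem eval_pb (r s : ℕ) (p : MvPolynomial (Fin (k + 1) × Fin n × Fin n) K)
    (x : Pr n k → K) : eval x (pb r s p) = ev p (Mm r s x) := by
  unfold pb ev
  rw [MvPolynomial.map_aeval]
  have h1 : (eval x).comp (algebraMap K (MvPolynomial (Pr n k) K)) = RingHom.id K := by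
    ext a
    simp [MvPolynomial.algebraMap_eq]
  rw [h1]
  have h2 : (fun t : Fin (k + 1) × Fin n × Fin n =>
      (eval x) (Mm r s (X : Pr n k → MvPolynomial (Pr n k) K) t.1 t.2.1 t.2.2)) =
      fun t => Mm r s x t.1 t.2.1 t.2.2 := by
    funext t
    rw [Mm_map]
    simp only [eval_X]
  rw [h2]
  rfl

/-- a minor of linearly independent matrices -/
theorem exists_minor (M : Fin (k + 1) → Matrix (Fin n) (Fin n) K) (h : LinearIndependent K M) :
    ∃ I : Fin (k + 1) → Fin n × Fin n,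
      (Matrix.of fun (l m : Fin (k + 1)) => M l (I m).1 (I m).2).det ≠ 0 := by
  set A : Matrix (Fin (k + 1)) (Fin n × Fin n) K := Matrix.of fun l t => M l t.1 t.2 with hA
  have hrow : LinearIndependent K A.row := by
    rw [Fintype.linearIndependent_iff] at h ⊢
    intro g hg
    apply h g
    ext i j
    have := congrFun hg (i, j)
    rw [Finset.sum_apply] at this
    rw [Matrix.sum_apply]
    exact this
  have hrk : A.rank = k + 1 := by
    have := hrow.rank_matrix
    rwa [Fintype.card_fin] at this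
  obtain ⟨f, hf, -, hli⟩ := Submodule.exists_fun_fin_finrank_span_eq K (Set.range A.col)
  have hR1 : k + 1 = Module.finrank K (Submodule.span K (Set.range A.col)) := by
    rw [← Matrix.rank_eq_finrank_span_cols, hrk]
  choose J hJ using fun i : Fin (k + 1) => hf (Fin.cast hR1 i)
  refine ⟨J, ?_⟩
  have hliJ : LinearIndependent K (A.submatrix id J).col := by
    have h1 : (A.submatrix id J).col = f ∘ Fin.cast hR1 := funext fun i => hJ i
    rw [h1]
    exact hli.comp _ (Fin.cast_injective _)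
  have h5 := Matrix.linearIndependent_cols_iff_isUnit.1 hliJ
  rw [Matrix.isUnit_iff_isUnit_det] at h5
  exact h5.ne_zero

theorem li_of_minor (M : Fin (k + 1) → Matrix (Fin n) (Fin n) K)
    (I : Fin (k + 1) → Fin n × Fin n)
    (h : (Matrix.of fun (l m : Fin (k + 1)) => M l (I m).1 (I m).2).det ≠ 0) :
    LinearIndependent K M := by
  rw [Fintype.linearIndependent_iff]
  intro g hg l
  have h1 : g ᵥ* (Matrix.of fun (l m : Fin (k + 1)) => M l (I m).1 (I m).2) = 0 := by
    funext m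
    have h2 := congrFun (congrFun hg (I m).1) (I m).2
    rw [Matrix.sum_apply] at h2
    rw [Pi.zero_apply]
    exact h2
  exact congrFun (Matrix.eq_zero_of_vecMul_eq_zero h h1) l

/-- the polynomial of a minor -/
noncomputable def mp (K : Type u) [Field K] (I : Fin (k + 1) → Fin n × Fin n) :
    MvPolynomial (Fin (k + 1) × Fin n × Fin n) K :=
  (Matrix.of fun (l m : Fin (k + 1)) => (X (l, (I m).1, (I m).2) :
    MvPolynomial (Fin (k + 1) × Fin n × Fin n) K)).det

theorem ev_mp (I : Fin (k + 1) → Fin n × Fin n) (M : Fin (k + 1) → Matrix (Fin n) (Fin n) K) :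
    ev (mp K I) M = (Matrix.of fun (l m : Fin (k + 1)) => M l (I m).1 (I m).2).det := by
  unfold ev mp
  rw [RingHom.map_det]
  congr 1
  ext l m
  simp

/-- the distinguished open sets are a basis -/
theorem basis {r : ℕ} (U : Set (Frame K n r k)) (hU : IsOpen U) (M : Frame K n r k) (hM : M ∈ U) :
    ∃ p : MvPolynomial (Fin (k + 1) × Fin n × Fin n) K, ev p M.1 ≠ 0 ∧
      ∀ M' : Frame K n r k, ev p M'.1 ≠ 0 → M' ∈ U := by
  change TopologicalSpace.GenerateOpen {U | ∃ p : MvPolynomial (Fin (k + 1) × Fin n × Fin n) K,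
    U = {M : Frame K n r k | ev p M.1 ≠ 0}} U at hU
  induction hU with
  | basic U h =>
    obtain ⟨p, rfl⟩ := h
    exact ⟨p, hM, fun M' h => h⟩
  | univ => exact ⟨1, by simp [ev], fun _ _ => trivial⟩
  | inter U V _ _ ih1 ih2 =>
    obtain ⟨p, hp1, hp2⟩ := ih1 hM.1
    obtain ⟨q, hq1, hq2⟩ := ih2 hM.2
    refine ⟨p * q, ?_, fun M' h => ?_⟩
    · unfold ev at *
      rw [map_mul]
      exact mul_ne_zero hp1 hq1
    · unfold ev at h
      rw [map_mul] at h
      exact ⟨hp2 M' (left_ne_zero_of_mul h), hq2 M' (right_ne_zero_of_mul h)⟩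
  | sUnion S _ ih =>
    obtain ⟨V, hV, hMV⟩ := hM
    obtain ⟨p, hp1, hp2⟩ := ih V hV hMV
    exact ⟨p, hp1, fun M' h => ⟨V, hV, hp2 M' h⟩⟩

theorem exists_frame {r : ℕ} (Q : Fano K n r k) : ∃ M : Frame K n r k, M.toFano = Q := by
  obtain ⟨Q, hQ, hQ2⟩ := Q
  let b := Module.finBasisOfFinrankEq K Q hQ
  have hli : LinearIndependent K (fun i => (b i : Matrix (Fin n) (Fin n) K)) :=
    b.linearIndependent.map' Q.subtype (Submodule.ker_subtype Q)
  refine ⟨⟨fun i => (b i : Matrix (Fin n) (Fin n) K), hli, fun x => ?_⟩, ?_⟩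
  · exact hQ2 _ (Submodule.sum_mem _ fun i _ => Submodule.smul_mem _ _ (b i).2)
  · apply Subtype.ext
    show Submodule.span K (Set.range fun i => (b i : Matrix (Fin n) (Fin n) K)) = Q
    have h1 : (fun i => (b i : Matrix (Fin n) (Fin n) K)) = Q.subtype ∘ b := rfl
    rw [h1, Set.range_comp, ← Submodule.map_span, b.span_eq, Submodule.map_subtype_top]

theorem InL_sum {r s : ℕ} (N : Fin (k + 1) → Matrix (Fin n) (Fin n) K)
    (h : ∀ l, InL r s (N l)) (x : Fin (k + 1) → K) : InL r s (∑ l, x l • N l) := by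
  intro i j hij
  rw [Matrix.sum_apply]
  refine Finset.sum_eq_zero fun l _ => ?_
  rw [Matrix.smul_apply, h l i j hij, smul_zero]

theorem Mm_sum (r s : ℕ) (x : Pr n k → K) (c : Fin (k + 1) → K) :
    ∑ l, c l • Mm r s x l = Am x * (∑ l, c l • Nm r s x l) * (Am x)ᵀ := by
  unfold Mm
  rw [Matrix.mul_sum, Matrix.sum_mul]
  refine Finset.sum_congr rfl fun l _ => ?_
  rw [Matrix.mul_smul, Matrix.smul_mul]

/-- the frame of a point of the parameter space -/
theorem frame_of (hR : StmRKL.{u}) {r s : ℕ} (hr : 1 ≤ r) (hrn : r ≤ n) (hs : s ≤ (r - 1) / 2)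
    (x : Pr n k → K) (hdet : (Am x).det ≠ 0) (hli : LinearIndependent K (Mm r s x)) :
    ∃ M : Frame K n r k, M.1 = Mm r s x ∧ M.toFano ∈ Comp K n r k s := by
  have h1 : ∀ c : Fin (k + 1) → K, (∑ l, c l • Mm r s x l).IsSymm ∧
      (∑ l, c l • Mm r s x l).rank < r := by
    intro c
    rw [Mm_sum]
    have hs1 : (∑ l, c l • Nm r s x l).IsSymm := by
      unfold Matrix.IsSymm
      rw [Matrix.transpose_sum]
      refine Finset.sum_congr rfl fun l _ => ?_
      rw [Matrix.transpose_smul, Nm_symm]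
    refine ⟨?_, ?_⟩
    · unfold Matrix.IsSymm
      rw [Matrix.transpose_mul, Matrix.transpose_mul, Matrix.transpose_transpose, hs1,
        Matrix.mul_assoc]
    · have h2 := hR K n r s (∑ l, c l • Nm r s x l) hr hrn hs
        (InL_sum _ (fun l => Nm_in r s x l) c)
      exact lt_of_le_of_lt ((Matrix.rank_mul_le_left _ _).trans (Matrix.rank_mul_le_right _ _)) h2
  refine ⟨⟨Mm r s x, hli, h1⟩, rfl, ?_⟩
  refine ⟨(Am x)⁻¹, ?_, ?_⟩
  · rw [Matrix.det_nonsing_inv]
    exact (isUnit_iff_ne_zero.2 hdet).ringInverse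
  · intro M hM
    obtain ⟨c, rfl⟩ := (Submodule.mem_span_range_iff_exists_fun K).1 hM
    rw [Mm_sum]
    have hu : IsUnit (Am x).det := isUnit_iff_ne_zero.2 hdet
    have e1 : (Am x)⁻¹ * (Am x * (∑ l, c l • Nm r s x l) * (Am x)ᵀ) * ((Am x)⁻¹)ᵀ =
        ((Am x)⁻¹ * Am x) * (∑ l, c l • Nm r s x l) * ((Am x)⁻¹ * Am x)ᵀ := by
      rw [Matrix.transpose_mul]
      simp only [Matrix.mul_assoc]
    rw [e1, Matrix.nonsing_inv_mul _ hu, Matrix.transpose_one, Matrix.one_mul, Matrix.mul_one]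
    exact InL_sum _ (fun l => Nm_in r s x l) c

/-- the parameters of a frame -/
theorem exists_param {r s : ℕ} (M : Frame K n r k) (h : M.toFano ∈ Comp K n r k s) :
    ∃ x : Pr n k → K, (Am x).det ≠ 0 ∧ Mm r s x = M.1 := by
  obtain ⟨B, hB, hin⟩ := h
  have hmem : ∀ l, M.1 l ∈ M.toFano.1 := fun l => Submodule.subset_span ⟨l, rfl⟩
  have hsy : ∀ l, (M.1 l).IsSymm := by
    intro l
    have h1 := (M.2.2 (Pi.single l 1)).1
    have h2 : ∑ i, (Pi.single l 1 : Fin (k + 1) → K) i • M.1 i = M.1 l := by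
      rw [Finset.sum_eq_single l]
      · rw [Pi.single_eq_same, one_smul]
      · intro i _ hi
        rw [Pi.single_eq_of_ne hi, zero_smul]
      · intro h
        exact absurd (Finset.mem_univ _) h
    rwa [h2] at h1
  let x : Pr n k → K := Sum.elim (fun t => B⁻¹ t.1 t.2) (fun t => (B * M.1 t.1 * Bᵀ) t.2.1 t.2.2)
  have hA : Am x = B⁻¹ := by
    ext i j
    rfl
  have hN : ∀ l, Nm r s x l = B * M.1 l * Bᵀ := by
    intro l
    ext i j
    unfold Nm
    rw [Matrix.of_apply]
    have hsym : (B * M.1 l * Bᵀ).IsSymm := by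
      unfold Matrix.IsSymm
      rw [Matrix.transpose_mul, Matrix.transpose_mul, Matrix.transpose_transpose, hsy l,
        Matrix.mul_assoc]
    by_cases hz : Zp r s i j
    · rw [if_pos hz]
      exact (hin _ (hmem l) i j hz).symm
    · rw [if_neg hz]
      show (B * M.1 l * Bᵀ) (min i j) (max i j) = _
      rcases le_total i j with hij | hij
      · rw [min_eq_left hij, max_eq_right hij]
      · rw [min_eq_right hij, max_eq_left hij]
        exact congrFun (congrFun hsym i) j
  refine ⟨x, ?_, ?_⟩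
  · rw [hA, Matrix.det_nonsing_inv]
    exact hB.ringInverse.ne_zero
  · funext l
    unfold Mm
    rw [hA, hN]
    have e1 : B⁻¹ * (B * M.1 l * Bᵀ) * (B⁻¹)ᵀ = (B⁻¹ * B) * M.1 l * (B⁻¹ * B)ᵀ := by
      rw [Matrix.transpose_mul]
      simp only [Matrix.mul_assoc]
    rw [e1, Matrix.nonsing_inv_mul _ hB, Matrix.transpose_one, Matrix.one_mul, Matrix.mul_one]

end ModIRR

open ModIRR in
/-- Module IRR. -/
theorem irr (hR : StmRKL.{u}) : StmIRR.{u} := by
  intro K _ _ n r k s hr hrn hs hM0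
  refine ⟨?_, ?_⟩
  · obtain ⟨M0, hli, hM⟩ := hM0
    let F : Frame K n r k := ⟨M0, hli, fun x => ⟨by
      unfold Matrix.IsSymm
      rw [Matrix.transpose_sum]
      refine Finset.sum_congr rfl fun l _ => ?_
      rw [Matrix.transpose_smul, (hM l).1],
      hR K n r s _ hr hrn hs (InL_sum _ (fun l => (hM l).2) x)⟩⟩
    refine ⟨F.toFano, 1, by simp, ?_⟩
    intro M hM'
    obtain ⟨c, rfl⟩ := (Submodule.mem_span_range_iff_exists_fun K).1 hM'
    rw [Matrix.one_mul, Matrix.transpose_one, Matrix.mul_one]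
    exact InL_sum _ (fun l => (hM l).2) c
  · rintro U V hU hV ⟨QU, hQU, hQU'⟩ ⟨QV, hQV, hQV'⟩
    obtain ⟨FU, rfl⟩ := exists_frame QU
    obtain ⟨FV, rfl⟩ := exists_frame QV
    have hU' : IsOpen (Frame.toFano ⁻¹' U : Set (Frame K n r k)) := isOpen_coinduced.1 hU
    have hV' : IsOpen (Frame.toFano ⁻¹' V : Set (Frame K n r k)) := isOpen_coinduced.1 hV
    obtain ⟨pU, hpU, hpU'⟩ := basis _ hU' FU hQU'
    obtain ⟨pV, hpV, hpV'⟩ := basis _ hV' FV hQV'
    obtain ⟨xU, hxU, hxU'⟩ := exists_param FU hQU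
    obtain ⟨xV, hxV, hxV'⟩ := exists_param FV hQV
    obtain ⟨I, hI⟩ := exists_minor FU.1 FU.2.1
    have h1 : pb r s pU ≠ 0 := by
      intro h
      apply hpU
      rw [← hxU', ← eval_pb, h, map_zero]
    have h2 : pb r s pV ≠ 0 := by
      intro h
      apply hpV
      rw [← hxV', ← eval_pb, h, map_zero]
    have h3 : pb r s (mp K I) ≠ 0 := by
      intro h
      apply hI
      rw [← ev_mp, ← hxU', ← eval_pb, h, map_zero]
    have hdev : ∀ x : Pr n k → K, eval x (Am (X : Pr n k → MvPolynomial (Pr n k) K)).det =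
        (Am x).det := by
      intro x
      rw [RingHom.map_det]
      congr 1
      ext i j
      simp [Am]
    have h4 : (Am (X : Pr n k → MvPolynomial (Pr n k) K)).det ≠ 0 := by
      intro h
      apply hxU
      rw [← hdev, h, map_zero]
    have h5 : pb r s pU * pb r s pV * pb r s (mp K I) *
        (Am (X : Pr n k → MvPolynomial (Pr n k) K)).det ≠ 0 :=
      mul_ne_zero (mul_ne_zero (mul_ne_zero h1 h2) h3) h4
    have h6 : ∃ x : Pr n k → K, eval x (pb r s pU * pb r s pV * pb r s (mp K I) *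
        (Am (X : Pr n k → MvPolynomial (Pr n k) K)).det) ≠ 0 := by
      by_contra hcon
      push Not at hcon
      apply h5
      apply MvPolynomial.funext
      intro x
      rw [hcon x, map_zero]
    obtain ⟨x, hx⟩ := h6
    rw [map_mul, map_mul, map_mul, eval_pb, eval_pb, eval_pb, hdev, ev_mp] at hx
    have g4 := right_ne_zero_of_mul hx
    have hx := left_ne_zero_of_mul hx
    have g3 := right_ne_zero_of_mul hx
    have hx := left_ne_zero_of_mul hx
    have g2 := right_ne_zero_of_mul hx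
    have g1 := left_ne_zero_of_mul hx
    obtain ⟨M, hM1, hM2⟩ := frame_of hR hr hrn hs x g4 (li_of_minor _ I g3)
    refine ⟨M.toFano, hM2, ?_, ?_⟩
    · exact hpU' M (by rw [hM1]; exact g1)
    · exact hpV' M (by rw [hM1]; exact g2)

end Pool.Agent.T6.H97.CS
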