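import Pool.Agent.T6.H97.CS.Defs2

/-!
Module IWA (helper60): integral bases adapted to a flag.
-/

set_option autoImplicit false

universe u

namespace Pool.Agent.T6.H97.CS

open Finset Matrix Module

namespace ModIWA

variable {Ω : Type u} [Field Ω] {Γ : Type u} [LinearOrderedCommGroupWithZero Γ]

/-- the matrix `T` of the inductive step -/
noncomputable def TT {n : ℕ} (B : Matrix (Fin (n + 1)) (Fin (n + 1)) Ω)
    (T' : Matrix (Fin n) (Fin n) Ω) : Matrix (Fin (n + 1)) (Fin (n + 1)) Ω :=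
  Matrix.of fun i j =>
    Fin.lastCases (motive := fun _ => Ω)
      (Fin.lastCases (motive := fun _ => Ω) (B (Fin.last n) (Fin.last n))⁻¹
        (fun j => -(B (Fin.last n) (Fin.last n))⁻¹ *
          ∑ k : Fin n, B (Fin.last n) k.castSucc * T' k j) j)
      (fun i => Fin.lastCases (motive := fun _ => Ω) 0 (fun j => T' i j) j) i

theorem TT_ll {n : ℕ} (B : Matrix (Fin (n + 1)) (Fin (n + 1)) Ω)
    (T' : Matrix (Fin n) (Fin n) Ω) :
    TT B T' (Fin.last n) (Fin.last n) = (B (Fin.last n) (Fin.last n))⁻¹ := by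
  simp [TT]

theorem TT_lc {n : ℕ} (B : Matrix (Fin (n + 1)) (Fin (n + 1)) Ω)
    (T' : Matrix (Fin n) (Fin n) Ω) (j : Fin n) :
    TT B T' (Fin.last n) j.castSucc = -(B (Fin.last n) (Fin.last n))⁻¹ *
      ∑ k : Fin n, B (Fin.last n) k.castSucc * T' k j := by
  simp [TT]

theorem TT_cl {n : ℕ} (B : Matrix (Fin (n + 1)) (Fin (n + 1)) Ω)
    (T' : Matrix (Fin n) (Fin n) Ω) (i : Fin n) :
    TT B T' i.castSucc (Fin.last n) = 0 := by
  simp [TT]

theorem TT_cc {n : ℕ} (B : Matrix (Fin (n + 1)) (Fin (n + 1)) Ω)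
    (T' : Matrix (Fin n) (Fin n) Ω) (i j : Fin n) :
    TT B T' i.castSucc j.castSucc = T' i j := by
  simp [TT]

/-- the smaller matrix -/
noncomputable def BB {n : ℕ} (B : Matrix (Fin (n + 1)) (Fin (n + 1)) Ω) :
    Matrix (Fin n) (Fin n) Ω :=
  Matrix.of fun i j => B i.castSucc j.castSucc -
    B i.castSucc (Fin.last n) * (B (Fin.last n) (Fin.last n))⁻¹ * B (Fin.last n) j.castSucc

theorem mul_ll {n : ℕ} (B : Matrix (Fin (n + 1)) (Fin (n + 1)) Ω)
    (T' : Matrix (Fin n) (Fin n) Ω) (h0 : B (Fin.last n) (Fin.last n) ≠ 0) :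
    (B * TT B T') (Fin.last n) (Fin.last n) = 1 := by
  rw [Matrix.mul_apply, Fin.sum_univ_castSucc, TT_ll]
  simp only [TT_cl, mul_zero, Finset.sum_const_zero, zero_add]
  exact mul_inv_cancel₀ h0

theorem mul_cl {n : ℕ} (B : Matrix (Fin (n + 1)) (Fin (n + 1)) Ω)
    (T' : Matrix (Fin n) (Fin n) Ω) (i : Fin n) :
    (B * TT B T') i.castSucc (Fin.last n) =
      B i.castSucc (Fin.last n) * (B (Fin.last n) (Fin.last n))⁻¹ := by
  rw [Matrix.mul_apply, Fin.sum_univ_castSucc, TT_ll]
  simp only [TT_cl, mul_zero, Finset.sum_const_zero, zero_add]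

theorem mul_lc {n : ℕ} (B : Matrix (Fin (n + 1)) (Fin (n + 1)) Ω)
    (T' : Matrix (Fin n) (Fin n) Ω) (h0 : B (Fin.last n) (Fin.last n) ≠ 0) (j : Fin n) :
    (B * TT B T') (Fin.last n) j.castSucc = 0 := by
  rw [Matrix.mul_apply, Fin.sum_univ_castSucc, TT_lc]
  simp only [TT_cc]
  field_simp
  ring

theorem mul_cc {n : ℕ} (B : Matrix (Fin (n + 1)) (Fin (n + 1)) Ω)
    (T' : Matrix (Fin n) (Fin n) Ω) (i j : Fin n) :
    (B * TT B T') i.castSucc j.castSucc = (BB B * T') i j := by
  rw [Matrix.mul_apply, Fin.sum_univ_castSucc, TT_lc, Matrix.mul_apply]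
  simp only [TT_cc, BB, Matrix.of_apply, sub_mul, Finset.sum_sub_distrib]
  rw [sub_eq_add_neg, ← Finset.sum_neg_distrib]
  congr 1
  rw [Finset.mul_sum, Finset.mul_sum]
  refine Finset.sum_congr rfl fun k _ => ?_
  ring

theorem det_eq {n : ℕ} (B : Matrix (Fin (n + 1)) (Fin (n + 1)) Ω)
    (T' : Matrix (Fin n) (Fin n) Ω) (h0 : B (Fin.last n) (Fin.last n) ≠ 0) :
    (B * TT B T').det = (BB B * T').det := by
  rw [Matrix.det_succ_row _ (Fin.last n), Fin.sum_univ_castSucc]
  simp only [mul_lc B T' h0, mul_zero, zero_mul, Finset.sum_const_zero, zero_add]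
  rw [mul_ll B T' h0]
  have h1 : (B * TT B T').submatrix (Fin.last n).succAbove (Fin.last n).succAbove =
      BB B * T' := by
    ext i j
    rw [Matrix.submatrix_apply, Fin.succAbove_last]
    exact mul_cc B T' i j
  rw [h1]
  have h2 : (-1 : Ω) ^ ((Fin.last n : ℕ) + (Fin.last n : ℕ)) = 1 := by
    rw [← two_mul, pow_mul]
    simp
  rw [h2]
  ring

theorem det_TT {n : ℕ} (B : Matrix (Fin (n + 1)) (Fin (n + 1)) Ω) :
    (TT B (1 : Matrix (Fin n) (Fin n) Ω)).det = (B (Fin.last n) (Fin.last n))⁻¹ := by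
  rw [Matrix.det_succ_column _ (Fin.last n), Fin.sum_univ_castSucc]
  simp only [TT_cl, mul_zero, zero_mul, Finset.sum_const_zero, zero_add]
  rw [TT_ll]
  have h1 : (TT B (1 : Matrix (Fin n) (Fin n) Ω)).submatrix (Fin.last n).succAbove
      (Fin.last n).succAbove = 1 := by
    ext i j
    rw [Matrix.submatrix_apply, Fin.succAbove_last]
    exact TT_cc B 1 i j
  rw [h1, Matrix.det_one]
  have h2 : (-1 : Ω) ^ ((Fin.last n : ℕ) + (Fin.last n : ℕ)) = 1 := by
    rw [← two_mul, pow_mul]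
    simp
  rw [h2]
  ring

/-- the conclusion -/
def Ok (v : Valuation Ω Γ) {n : ℕ} (B : Matrix (Fin n) (Fin n) Ω) : Prop :=
  ∃ T : Matrix (Fin n) (Fin n) Ω, (∀ i j, i < j → T i j = 0) ∧ IsUnit T.det ∧
    (∀ i j, v ((B * T) i j) ≤ 1) ∧ v (B * T).det = 1

theorem ok_perm (v : Valuation Ω Γ) {n : ℕ} (B : Matrix (Fin n) (Fin n) Ω)
    (σ : Equiv.Perm (Fin n)) (h : Ok v (B.submatrix σ id)) : Ok v B := by
  obtain ⟨T, h1, h2, h3, h4⟩ := h
  have h5 : B.submatrix σ id * T = (B * T).submatrix σ id := by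
    ext i j
    rfl
  refine ⟨T, h1, h2, fun i j => ?_, ?_⟩
  · have h6 := h3 (σ.symm i) j
    rw [h5, Matrix.submatrix_apply, Equiv.apply_symm_apply] at h6
    exact h6
  · rw [h5, Matrix.det_permute, map_mul] at h4
    have h6 : v ((Equiv.Perm.sign σ : ℤ) : Ω) = 1 := by
      rcases Int.units_eq_one_or (Equiv.Perm.sign σ) with h | h
      · rw [h]
        simp
      · rw [h]
        simp
    rwa [h6, one_mul] at h4

theorem step (v : Valuation Ω Γ) {n : ℕ} (B : Matrix (Fin (n + 1)) (Fin (n + 1)) Ω)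
    (hB : IsUnit B.det) (h0 : B (Fin.last n) (Fin.last n) ≠ 0)
    (hmax : ∀ i, v (B i (Fin.last n)) ≤ v (B (Fin.last n) (Fin.last n)))
    (ih : ∀ B' : Matrix (Fin n) (Fin n) Ω, IsUnit B'.det → Ok v B') : Ok v B := by
  have hBB : IsUnit (BB B).det := by
    have h1 := det_eq B 1 h0
    rw [Matrix.mul_one, Matrix.det_mul, det_TT] at h1
    rw [← h1]
    exact hB.mul (isUnit_iff_ne_zero.2 (inv_ne_zero h0))
  obtain ⟨T', h1, h2, h3, h4⟩ := ih (BB B) hBB
  have hdet := det_eq B T' h0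
  refine ⟨TT B T', ?_, ?_, ?_, ?_⟩
  · intro i j hij
    refine Fin.lastCases ?_ (fun i' => ?_) i (motive := fun i => i < j → TT B T' i j = 0) hij
    · intro h
      exact absurd h (not_lt.2 (Fin.le_last j))
    · refine Fin.lastCases ?_ (fun j' => ?_) j
        (motive := fun j => i'.castSucc < j → TT B T' i'.castSucc j = 0)
      · intro _
        exact TT_cl B T' i'
      · intro h
        rw [TT_cc]
        exact h1 i' j' (Fin.castSucc_lt_castSucc_iff.1 h)
  · have h5 : (B * TT B T').det ≠ 0 := by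
      intro h
      rw [hdet] at h
      rw [h, map_zero] at h4
      exact zero_ne_one h4
    rw [Matrix.det_mul] at h5
    exact isUnit_iff_ne_zero.2 (right_ne_zero_of_mul h5)
  · intro i j
    refine Fin.lastCases ?_ (fun i' => ?_) i (motive := fun i => v ((B * TT B T') i j) ≤ 1)
    · refine Fin.lastCases ?_ (fun j' => ?_) j
        (motive := fun j => v ((B * TT B T') (Fin.last n) j) ≤ 1)
      · rw [mul_ll B T' h0, map_one]
      · rw [mul_lc B T' h0, map_zero]
        exact zero_le_one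
    · refine Fin.lastCases ?_ (fun j' => ?_) j
        (motive := fun j => v ((B * TT B T') i'.castSucc j) ≤ 1)
      · rw [mul_cl, map_mul, map_inv₀]
        have h6 : 0 < v (B (Fin.last n) (Fin.last n)) := by
          rw [zero_lt_iff]
          exact (Valuation.ne_zero_iff v).2 h0
        rw [← div_eq_mul_inv]
        exact (div_le_one₀ h6).2 (hmax _)
      · rw [mul_cc]
        exact h3 i' j'
  · rw [hdet]
    exact h4

theorem main (v : Valuation Ω Γ) : ∀ (n : ℕ) (B : Matrix (Fin n) (Fin n) Ω), IsUnit B.det →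
    Ok v B := by
  intro n
  induction n with
  | zero =>
    intro B _
    refine ⟨1, fun i => i.elim0, by rw [Matrix.det_one]; exact isUnit_one, fun i => i.elim0, ?_⟩
    rw [Matrix.mul_one, Matrix.det_fin_zero, map_one]
  | succ n ih =>
    intro B hB
    obtain ⟨i0, -, hi0⟩ := Finset.exists_max_image (Finset.univ : Finset (Fin (n + 1)))
      (fun i => v (B i (Fin.last n))) ⟨Fin.last n, Finset.mem_univ _⟩
    have hne : B i0 (Fin.last n) ≠ 0 := by
      intro h
      have h1 : ∀ i, B i (Fin.last n) = 0 := by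
        intro i
        have h2 := hi0 i (Finset.mem_univ i)
        simp only [h, map_zero] at h2
        exact (Valuation.zero_iff v).1 (le_zero_iff.1 h2)
      have h2 := Matrix.det_eq_zero_of_column_eq_zero (Fin.last n) h1
      rw [h2] at hB
      exact not_isUnit_zero hB
    set σ := Equiv.swap i0 (Fin.last n) with hσ
    have hσl : σ (Fin.last n) = i0 := Equiv.swap_apply_right _ _
    refine ok_perm v B σ (step v _ ?_ ?_ ?_ ih)
    · rw [Matrix.det_permute]
      refine IsUnit.mul ?_ hB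
      rcases Int.units_eq_one_or (Equiv.Perm.sign σ) with h | h
      · rw [h]
        simp
      · rw [h]
        simp
    · rw [Matrix.submatrix_apply, hσl]
      exact hne
    · intro i
      rw [Matrix.submatrix_apply, Matrix.submatrix_apply, hσl]
      exact hi0 (σ i) (Finset.mem_univ _)

end ModIWA

open ModIWA in
/-- Module IWA. -/
theorem iwa : StmIWA.{u} := by
  intro Ω _ Γ _ v n B hB
  exact main v n B hB

end Pool.Agent.T6.H97.CS
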