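import Pool.Agent.T6.H97.CS.Trf

/-!
MP_f9dfcb_ag. Module LAM: rigidity is an open condition on lines.
-/

set_option autoImplicit false

universe u

namespace Pool.Agent.T6.H97.CS

open Finset Matrix Module MvPolynomial

namespace ModLAM

open ModTRF

section Deg

variable {K : Type u} [Field K]

lemma td_det {ι : Type} [Fintype ι] [DecidableEq ι] (A : Matrix ι ι (MvPolynomial (Fin 2) K))
    (h : ∀ i j, (A i j).totalDegree ≤ 1) : A.det.totalDegree ≤ Fintype.card ι := by
  rw [Matrix.det_apply]
  refine totalDegree_finsetSum_le fun σ _ => ?_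
  refine (totalDegree_smul_le _ _).trans ?_
  refine (totalDegree_finset_prod _ _).trans ?_
  refine (Finset.sum_le_card_nsmul _ _ 1 fun i _ => h _ _).trans ?_
  simp

lemma td_adj {ι : Type} [Fintype ι] [DecidableEq ι] (A : Matrix ι ι (MvPolynomial (Fin 2) K))
    (h : ∀ i j, (A i j).totalDegree ≤ 1) (i j : ι) :
    (A.adjugate i j).totalDegree ≤ Fintype.card ι := by
  rw [Matrix.adjugate_apply]
  refine td_det _ fun k l => ?_
  rw [Matrix.updateRow_apply]
  split_ifs
  · by_cases hl : l = i
    · subst hl
      simp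
    · rw [Pi.single_eq_of_ne hl]
      simp
  · exact h k l

variable {β μ : Type} [Fintype β] [Fintype μ] [DecidableEq β] [DecidableEq μ]

lemma td_lin (a : K) : (X 0 - C a : MvPolynomial (Fin 2) K).totalDegree ≤ 1 := by
  refine (totalDegree_sub _ _).trans (max_le ?_ ?_)
  · exact (totalDegree_X _).le
  · rw [totalDegree_C]
    omega

lemma td_X1C (a : K) : (X 1 * C a : MvPolynomial (Fin 2) K).totalDegree ≤ 1 := by
  refine (totalDegree_mul _ _).trans ?_
  rw [totalDegree_C, totalDegree_X]

lemma td_cP (lam : Option β → K) (c : Matrix β (Option β) K) (a : β) (y : Option β) :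
    (cP lam c a y).totalDegree ≤ 1 := by
  rw [cP, Matrix.of_apply]
  refine (totalDegree_add _ _).trans (max_le ?_ (td_X1C _))
  cases y with
  | none =>
    simp only [starC, Matrix.of_apply]
    rw [totalDegree_neg]
    exact td_lin _
  | some b =>
    simp only [starC, Matrix.of_apply]
    split_ifs
    · exact td_lin _
    · simp

lemma td_dP (th : μ → K) (d : Matrix μ μ K) (i j : μ) : (dP th d i j).totalDegree ≤ 1 := by
  rw [dP, Matrix.of_apply]
  refine (totalDegree_add _ _).trans (max_le ?_ (td_X1C _))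
  split_ifs
  · exact td_lin _
  · simp

lemma td_kv (lam : Option β → K) (c : Matrix β (Option β) K) (y : Option β) :
    (kv (cP lam c) y).totalDegree ≤ Fintype.card β + 1 := by
  rw [kv, ← Fintype.card_option]
  refine td_det _ fun i j => ?_
  cases i with
  | none =>
    simp only [Matrix.of_apply]
    by_cases hj : j = y
    · subst hj
      simp
    · rw [Pi.single_eq_of_ne hj]
      simp
  | some a =>
    simp only [Matrix.of_apply]
    exact td_cP lam c a j

/-- Cramer's rule gives a bound for the degree. -/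
lemma td_cramer {ι : Type} [Fintype ι] [DecidableEq ι] (A : Matrix ι ι (MvPolynomial (Fin 2) K))
    (h : ∀ i j, (A i j).totalDegree ≤ 1) (hA : A.det ≠ 0) (w g : ι → MvPolynomial (Fin 2) K)
    (N : ℕ) (hg : ∀ i, (g i).totalDegree ≤ N) (hw : A *ᵥ w = g) (i : ι) :
    (w i).totalDegree ≤ Fintype.card ι + N := by
  have h1 : A.adjugate *ᵥ g = A.det • w := by
    rw [← hw, Matrix.mulVec_mulVec, Matrix.adjugate_mul, Matrix.smul_mulVec, Matrix.one_mulVec]
  have h2 : (A.det * w i).totalDegree ≤ Fintype.card ι + N := by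
    have h3 := congrFun h1 i
    rw [Pi.smul_apply, smul_eq_mul] at h3
    rw [← h3]
    simp only [Matrix.mulVec, dotProduct]
    refine totalDegree_finsetSum_le fun j _ => ?_
    exact (totalDegree_mul _ _).trans (add_le_add (td_adj A h i j) (hg j))
  by_cases hwi : w i = 0
  · rw [hwi]
    simp
  · rw [totalDegree_mul_of_isDomain hA hwi] at h2
    omega

lemma td_w1 (lam : Option β → K) (c : Matrix β (Option β) K)
    (F : Matrix (Option β) (Option β) K) (w1 : β → MvPolynomial (Fin 2) K)
    (h : ∀ y, E3 K lam c F w1 y = 0) (a : β) :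
    (w1 a).totalDegree ≤ Fintype.card β + (Fintype.card β + 1) := by
  refine td_cramer (cS lam c)ᵀ (fun i j => td_cP lam c _ _) ?_ w1
    (fun a' => -∑ z, C (F (some a') z) * kv (cP lam c) z) _ ?_ ?_ a
  · rw [Matrix.det_transpose]
    exact det_cS_ne lam c
  · intro i
    rw [totalDegree_neg]
    refine totalDegree_finsetSum_le fun z _ => ?_
    refine (totalDegree_mul _ _).trans ?_
    rw [totalDegree_C, zero_add]
    exact td_kv lam c z
  · funext a'
    have h1 := h (some a')
    rw [E3_self] at h1
    rw [← eq_neg_iff_add_eq_zero] at h1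
    rw [← h1]
    rfl

lemma td_w2 (lam : Option β → K) (th : μ → K) (b : Matrix β μ K) (c : Matrix β (Option β) K)
    (d : Matrix μ μ K) (F : Matrix (Option β) (Option β) K) (f : Matrix μ (Option β) K)
    (w1 : β → MvPolynomial (Fin 2) K) (w2 : μ → MvPolynomial (Fin 2) K)
    (h3 : ∀ y, E3 K lam c F w1 y = 0) (h2 : ∀ j, E2 K lam th b c d f w1 w2 j = 0) (j : μ) :
    (w2 j).totalDegree ≤ Fintype.card μ + (1 + (Fintype.card β + (Fintype.card β + 1))) := by
  refine td_cramer (dP th d) (fun i j => td_dP th d _ _) (det_dP_ne th d) w2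
    (fun j => -(∑ a, X 1 * C (b a j) * w1 a + ∑ z, C (f j z) * kv (cP lam c) z)) _ ?_ ?_ j
  · intro i
    rw [totalDegree_neg]
    refine (totalDegree_add _ _).trans (max_le ?_ ?_)
    · refine totalDegree_finsetSum_le fun a _ => ?_
      exact (totalDegree_mul _ _).trans (add_le_add (td_X1C _) (td_w1 lam c F w1 h3 a))
    · refine totalDegree_finsetSum_le fun z _ => ?_
      refine (totalDegree_mul _ _).trans ?_
      rw [totalDegree_C, zero_add]
      exact (td_kv lam c z).trans (by omega)
  · funext j
    have h1 := h2 j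
    rw [E2_self] at h1
    have h4 : ∑ i, dP th d j i * w2 i =
        -(∑ a, X 1 * C (b a j) * w1 a + ∑ z, C (f j z) * kv (cP lam c) z) := by
      linear_combination h1
    rw [← h4]
    rfl

end Deg

/-! ### Polynomial functions -/

section PF

variable {K : Type u} [Field K]

/-- The function is a polynomial function. -/
def IsPF (h : K → MvPolynomial (Fin 2) K) : Prop :=
  ∃ P : Polynomial (MvPolynomial (Fin 2) K), ∀ x, h x = P.eval (C x)

lemma IsPF.const (r : MvPolynomial (Fin 2) K) : IsPF (fun _ => r) :=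
  ⟨Polynomial.C r, fun x => by simp⟩

lemma IsPF.var : IsPF (fun x : K => (C x : MvPolynomial (Fin 2) K)) :=
  ⟨Polynomial.X, fun x => by simp⟩

lemma IsPF.add {h h' : K → MvPolynomial (Fin 2) K} (H : IsPF h) (H' : IsPF h') :
    IsPF (fun x => h x + h' x) := by
  obtain ⟨P, hP⟩ := H
  obtain ⟨P', hP'⟩ := H'
  exact ⟨P + P', fun x => by rw [Polynomial.eval_add, ← hP, ← hP']⟩

lemma IsPF.mul {h h' : K → MvPolynomial (Fin 2) K} (H : IsPF h) (H' : IsPF h') :
    IsPF (fun x => h x * h' x) := by
  obtain ⟨P, hP⟩ := H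
  obtain ⟨P', hP'⟩ := H'
  exact ⟨P * P', fun x => by rw [Polynomial.eval_mul, ← hP, ← hP']⟩

lemma IsPF.sum {ι : Type} (s : Finset ι) {h : ι → K → MvPolynomial (Fin 2) K}
    (H : ∀ i, IsPF (h i)) : IsPF (fun x => ∑ i ∈ s, h i x) := by
  choose P hP using H
  exact ⟨∑ i ∈ s, P i, fun x => by
    rw [Polynomial.eval_finset_sum]
    exact Finset.sum_congr rfl fun i _ => hP i x⟩

lemma IsPF.prod {ι : Type} (s : Finset ι) {h : ι → K → MvPolynomial (Fin 2) K}
    (H : ∀ i, IsPF (h i)) : IsPF (fun x => ∏ i ∈ s, h i x) := by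
  choose P hP using H
  exact ⟨∏ i ∈ s, P i, fun x => by
    rw [Polynomial.eval_prod]
    exact Finset.prod_congr rfl fun i _ => hP i x⟩

lemma IsPF.det {ι : Type} [Fintype ι] [DecidableEq ι] {A : K → Matrix ι ι (MvPolynomial (Fin 2) K)}
    (H : ∀ i j, IsPF (fun x => A x i j)) : IsPF (fun x => (A x).det) := by
  simp only [Matrix.det_apply']
  exact IsPF.sum _ fun σ => (IsPF.const _).mul (IsPF.prod _ fun i => H _ _)

lemma IsPF.fun {h : K → MvPolynomial (Fin 2) K} (H : IsPF h)
    (φ : MvPolynomial (Fin 2) K →ₗ[K] K) : ∃ p : Polynomial K, ∀ x, φ (h x) = p.eval x := by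
  obtain ⟨P, hP⟩ := H
  refine ⟨∑ i ∈ P.support, Polynomial.C (φ (P.coeff i)) * Polynomial.X ^ i, fun x => ?_⟩
  rw [hP, Polynomial.eval_eq_sum, Polynomial.sum, map_sum, Polynomial.eval_finset_sum]
  refine Finset.sum_congr rfl fun i _ => ?_
  rw [← map_pow, mul_comm, ← smul_eq_C_mul, map_smul, smul_eq_mul, Polynomial.eval_mul,
    Polynomial.eval_C, Polynomial.eval_pow, Polynomial.eval_X, mul_comm]

/-- The abstract lemma: injectivity is an open condition. -/
lemma fin_inj {J : Type} [Fintype J] [DecidableEq J] {V : Type u} [AddCommGroup V] [Module K V]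
    [FiniteDimensional K V] (T : K → V →ₗ[K] (J → MvPolynomial (Fin 2) K))
    (h0 : ∀ u, T 0 u = 0 → u = 0) (hp : ∀ u j, IsPF (fun x => T x u j)) :
    {x : K | ∃ u, u ≠ 0 ∧ T x u = 0}.Finite := by
  classical
  have hker : LinearMap.ker (T 0) = ⊥ := by
    rw [LinearMap.ker_eq_bot']
    exact h0
  obtain ⟨S, hS⟩ := LinearMap.exists_leftInverse_of_injective (T 0) hker
  let e := Module.finBasis K V
  have hent : ∀ i j, ∃ p : Polynomial K, ∀ x, e.repr (S (T x (e j))) i = p.eval x := by
    intro i j
    have h1 : ∀ j' : J, ∃ p : Polynomial K, ∀ x,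
        ((e.coord i) ∘ₗ S ∘ₗ (LinearMap.single K (fun _ => MvPolynomial (Fin 2) K) j'))
          (T x (e j) j') = p.eval x := fun j' => (hp (e j) j').fun _
    choose p hp' using h1
    refine ⟨∑ j', p j', fun x => ?_⟩
    rw [Polynomial.eval_finset_sum]
    have h2 : T x (e j) = ∑ j', LinearMap.single K (fun _ => MvPolynomial (Fin 2) K) j'
        (T x (e j) j') := by
      simp only [LinearMap.coe_single]
      exact (Finset.univ_sum_single _).symm
    calc e.repr (S (T x (e j))) i = e.coord i (S (T x (e j))) := rfl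
      _ = ∑ j', e.coord i (S (LinearMap.single K (fun _ => MvPolynomial (Fin 2) K) j'
            (T x (e j) j'))) := by
          conv_lhs => rw [h2]
          rw [map_sum, map_sum]
      _ = _ := Finset.sum_congr rfl fun j' _ => hp' j' x
  choose p hpe using hent
  let P : Matrix (Fin (finrank K V)) (Fin (finrank K V)) (Polynomial K) := Matrix.of p
  have hdet : ∀ x, P.det.eval x = (LinearMap.toMatrix e e (S ∘ₗ T x)).det := by
    intro x
    have h1 : P.det.eval x = Polynomial.evalRingHom x P.det := rfl
    rw [h1, RingHom.map_det]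
    congr 1
    ext1 i j
    rw [LinearMap.toMatrix_apply]
    exact (hpe i j x).symm
  have hP0 : P.det ≠ 0 := by
    intro h
    have h1 := hdet 0
    rw [h, hS, LinearMap.toMatrix_id, Matrix.det_one] at h1
    simp at h1
  refine (P.det.roots.toFinset.finite_toSet).subset ?_
  rintro x ⟨u, hu, hTu⟩
  rw [Finset.mem_coe, Multiset.mem_toFinset, Polynomial.mem_roots hP0, Polynomial.IsRoot.def,
    hdet]
  by_contra hne
  apply hu
  have h1 : LinearMap.toMatrix e e (S ∘ₗ T x) *ᵥ (e.repr u) = 0 := by
    rw [LinearMap.toMatrix_mulVec_repr, LinearMap.comp_apply, hTu, map_zero, map_zero]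
    rfl
  have h2 := Matrix.eq_zero_of_mulVec_eq_zero hne h1
  have h3 : e.repr u = 0 := by
    ext i
    exact congrFun h2 i
  exact e.repr.map_eq_zero_iff.1 h3

end PF

section Main

variable {K : Type u} [Field K] {β μ : Type} [Fintype β] [Fintype μ] [DecidableEq β]
  [DecidableEq μ]

lemma pf_cP (lam : Option β → K) (c c' : Matrix β (Option β) K) (a : β) (y : Option β) :
    IsPF (fun x => cP lam (c + x • c') a y) := by
  have h1 : (fun x => cP lam (c + x • c') a y) = fun x =>
      starC (fun y => (X 0 - C (lam y) : MvPolynomial (Fin 2) K)) a y +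
        X 1 * (C (c a y) + C x * C (c' a y)) := by
    funext x
    simp [cP, Matrix.of_apply]
  rw [h1]
  exact (IsPF.const _).add ((IsPF.const _).mul ((IsPF.const _).add (IsPF.var.mul (IsPF.const _))))

lemma pf_dP (th : μ → K) (d d' : Matrix μ μ K) (i j : μ) :
    IsPF (fun x => dP th (d + x • d') i j) := by
  have h1 : (fun x => dP th (d + x • d') i j) = fun x =>
      (if i = j then X 0 - C (th j ^ 2) else 0) +
        X 1 * (C (d i j) + C x * C (d' i j)) := by
    funext x
    simp [dP, Matrix.of_apply]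
  rw [h1]
  exact (IsPF.const _).add ((IsPF.const _).mul ((IsPF.const _).add (IsPF.var.mul (IsPF.const _))))

lemma pf_kv (lam : Option β → K) (c c' : Matrix β (Option β) K) (y : Option β) :
    IsPF (fun x => kv (cP lam (c + x • c')) y) := by
  unfold kv
  refine IsPF.det fun i j => ?_
  cases i with
  | none => exact IsPF.const _
  | some a => exact pf_cP lam c c' a j

lemma pf_E3 (lam : Option β → K) (c c' : Matrix β (Option β) K)
    (F : Matrix (Option β) (Option β) K) (w1 : β → MvPolynomial (Fin 2) K) (y : Option β) :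
    IsPF (fun x => E3 K lam (c + x • c') F w1 y) := by
  simp only [E3_self]
  exact (IsPF.sum _ fun a => (pf_cP lam c c' a y).mul (IsPF.const _)).add
    (IsPF.sum _ fun z => (IsPF.const _).mul (pf_kv lam c c' z))

lemma pf_E2 (lam : Option β → K) (th : μ → K) (b b' : Matrix β μ K)
    (c c' : Matrix β (Option β) K) (d d' : Matrix μ μ K) (f : Matrix μ (Option β) K)
    (w1 : β → MvPolynomial (Fin 2) K) (w2 : μ → MvPolynomial (Fin 2) K) (j : μ) :
    IsPF (fun x => E2 K lam th (b + x • b') (c + x • c') (d + x • d') f w1 w2 j) := by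
  simp only [E2_self]
  have h1 : ∀ a, IsPF (fun x => (X 1 * C ((b + x • b') a j) : MvPolynomial (Fin 2) K)) := by
    intro a
    have h2 : (fun x => (X 1 * C ((b + x • b') a j) : MvPolynomial (Fin 2) K)) = fun x =>
        X 1 * (C (b a j) + C x * C (b' a j)) := by
      funext x
      simp
    rw [h2]
    exact (IsPF.const _).mul ((IsPF.const _).add (IsPF.var.mul (IsPF.const _)))
  exact ((IsPF.sum _ fun a => (h1 a).mul (IsPF.const _)).add
    (IsPF.sum _ fun i => (pf_dP th d d' j i).mul (IsPF.const _))).add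
    (IsPF.sum _ fun z => (IsPF.const _).mul (pf_kv lam c c' z))

/-- The space of the unknowns of bounded degree. -/
abbrev VV (K : Type u) [Field K] (β μ : Type) (N : ℕ) : Type u :=
  Matrix (Option β) (Option β) K × Matrix μ (Option β) K ×
    (β → restrictTotalDegree (Fin 2) K N) × (μ → restrictTotalDegree (Fin 2) K N)

open Classical in
/-- The system. -/
noncomputable def TT (lam : Option β → K) (th : μ → K) (b : Matrix β μ K)
    (c : Matrix β (Option β) K) (d : Matrix μ μ K) (N : ℕ) :
    VV K β μ N →ₗ[K]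
      ((Option β ⊕ (μ ⊕ (Unit ⊕ (Option β × Option β)))) → MvPolynomial (Fin 2) K) where
  toFun u := fun t => match t with
    | .inl y => E3 K lam c u.1 (fun a => (u.2.2.1 a : MvPolynomial (Fin 2) K)) y
    | .inr (.inl j) => E2 K lam th b c d u.2.1 (fun a => (u.2.2.1 a : MvPolynomial (Fin 2) K))
        (fun a => (u.2.2.2 a : MvPolynomial (Fin 2) K)) j
    | .inr (.inr (.inl _)) => C (if (2 : K) = 0 then 1 else 0) *
        E4 K lam th (fun a => (u.2.2.1 a : MvPolynomial (Fin 2) K))
        (fun a => (u.2.2.2 a : MvPolynomial (Fin 2) K))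
    | .inr (.inr (.inr q)) => C (u.1 q.1 q.2 - u.1 q.2 q.1)
  map_add' u u' := by
    funext t
    rcases t with y | j | q | q
    · simp only [E3_self, Prod.fst_add, Prod.snd_add, Pi.add_apply, Matrix.add_apply,
        Submodule.coe_add, mul_add, map_add, add_mul, Finset.sum_add_distrib]
      ring
    · simp only [E2_self, Prod.fst_add, Prod.snd_add, Pi.add_apply, Matrix.add_apply,
        Submodule.coe_add, mul_add, map_add, add_mul, Finset.sum_add_distrib]
      ring
    · simp only [E4, Algebra.algebraMap_self, RingHom.id_apply, Prod.fst_add, Prod.snd_add,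
        Pi.add_apply, Matrix.add_apply,
        Submodule.coe_add, mul_add, map_add, add_mul, Finset.sum_add_distrib]
      ring
    · simp only [Prod.fst_add, Pi.add_apply, Matrix.add_apply, map_add, map_sub]
      ring
  map_smul' x u := by
    funext t
    rcases t with y | j | q | q
    · simp only [E3_self, Prod.smul_fst, Prod.smul_snd, Pi.smul_apply, Matrix.smul_apply,
        Submodule.coe_smul, smul_eq_mul, map_mul, smul_eq_C_mul, RingHom.id_apply, mul_add,
        Finset.mul_sum]
      refine congrArg₂ (· + ·) ?_ ?_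
      · exact Finset.sum_congr rfl fun _ _ => by ring
      · exact Finset.sum_congr rfl fun _ _ => by ring
    · simp only [E2_self, Prod.smul_fst, Prod.smul_snd, Pi.smul_apply, Matrix.smul_apply,
        Submodule.coe_smul, smul_eq_mul, map_mul, smul_eq_C_mul, RingHom.id_apply, mul_add,
        Finset.mul_sum]
      refine congrArg₂ (· + ·) (congrArg₂ (· + ·) ?_ ?_) ?_
      · exact Finset.sum_congr rfl fun _ _ => by ring
      · exact Finset.sum_congr rfl fun _ _ => by ring
      · exact Finset.sum_congr rfl fun _ _ => by ring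
    · simp only [E4, Algebra.algebraMap_self, Prod.smul_fst, Prod.smul_snd, Pi.smul_apply,
        Matrix.smul_apply,
        Submodule.coe_smul, smul_eq_mul, map_mul, smul_eq_C_mul, RingHom.id_apply, mul_add,
        Finset.mul_sum]
      refine congrArg₂ (· + ·) ?_ ?_
      · exact Finset.sum_congr rfl fun _ _ => by ring
      · exact Finset.sum_congr rfl fun _ _ => by ring
    · simp only [Prod.smul_fst, Pi.smul_apply, Matrix.smul_apply, smul_eq_mul, map_mul, map_sub,
        smul_eq_C_mul, RingHom.id_apply]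
      ring

end Main

end ModLAM

open ModLAM ModTRF in
theorem lam : StmLAM := by
  classical
  intro K _ _ β μ _ _ _ _ lam th b b' c c' d d' hG hR
  set N : ℕ := Fintype.card μ + (1 + (Fintype.card β + (Fintype.card β + 1))) with hN
  have hfin := fin_inj (K := K) (V := VV K β μ N)
    (fun x => TT lam th (b + x • b') (c + x • c') (d + x • d') N) ?_ ?_
  · refine hfin.subset ?_
    intro x hx
    rw [Set.mem_setOf_eq] at hx ⊢
    unfold Rig at hx
    push Not at hx
    obtain ⟨F, f, w1, w2, hF, h3, h2, h4, hne⟩ := hx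
    have hw1 : ∀ a, w1 a ∈ restrictTotalDegree (Fin 2) K N := fun a => by
      rw [mem_restrictTotalDegree]
      refine (td_w1 _ _ _ _ h3 a).trans ?_
      omega
    have hw2 : ∀ a, w2 a ∈ restrictTotalDegree (Fin 2) K N := fun a => by
      rw [mem_restrictTotalDegree]
      exact td_w2 _ _ _ _ _ _ _ _ _ h3 h2 a
    refine ⟨(F, f, fun a => ⟨w1 a, hw1 a⟩, fun a => ⟨w2 a, hw2 a⟩), ?_, ?_⟩
    · intro h
      have hF0 : F = 0 := congrArg (fun u : VV K β μ N => u.1) h
      have hf0 : f = 0 := congrArg (fun u : VV K β μ N => u.2.1) h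
      exact hne hF0 hf0
    · funext t
      rcases t with y | j | q | q
      · exact h3 y
      · exact h2 j
      · show C (if (2 : K) = 0 then 1 else 0) * E4 K lam th w1 w2 = 0
        by_cases h20 : (2 : K) = 0
        · rw [h4 h20, mul_zero]
        · rw [if_neg h20, map_zero, zero_mul]
      · show C (F q.1 q.2 - F q.2 q.1) = (0 : MvPolynomial (Fin 2) K)
        rw [hF.apply, sub_self, map_zero]
  · rintro ⟨F, f, w1, w2⟩ hu
    have h3 : ∀ y, E3 K lam c F (fun a => (w1 a : MvPolynomial (Fin 2) K)) y = 0 := by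
      intro y
      have := congrFun hu (Sum.inl y)
      simpa [TT] using this
    have h2 : ∀ j, E2 K lam th b c d f (fun a => (w1 a : MvPolynomial (Fin 2) K))
        (fun a => (w2 a : MvPolynomial (Fin 2) K)) j = 0 := by
      intro j
      have := congrFun hu (Sum.inr (Sum.inl j))
      simpa [TT] using this
    have h4 : (2 : K) = 0 → E4 K lam th (fun a => (w1 a : MvPolynomial (Fin 2) K))
        (fun a => (w2 a : MvPolynomial (Fin 2) K)) = 0 := by
      intro h20
      have := congrFun hu (Sum.inr (Sum.inr (Sum.inl ())))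
      simpa [TT, h20] using this
    have hF : F.IsSymm := by
      apply Matrix.IsSymm.ext
      intro y z
      have := congrFun hu (Sum.inr (Sum.inr (Sum.inr (z, y))))
      have h5 : (C (F z y - F y z) : MvPolynomial (Fin 2) K) = 0 := this
      rw [C_eq_zero, sub_eq_zero] at h5
      exact h5
    obtain ⟨hF0, hf0, hw1, hw2⟩ := rig_all hR hF h3 h2 h4
    have hw1' : w1 = 0 := by
      funext a
      exact Subtype.ext (congrFun hw1 a)
    have hw2' : w2 = 0 := by
      funext a
      exact Subtype.ext (congrFun hw2 a)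
    rw [hF0, hf0, hw1', hw2']
    rfl
  · rintro ⟨F, f, w1, w2⟩ t
    rcases t with y | j | q | q
    · exact pf_E3 lam c c' F _ y
    · exact pf_E2 lam th b b' c c' d d' f _ _ j
    · exact IsPF.const _
    · exact IsPF.const _

end Pool.Agent.T6.H97.CS
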