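import Pool.Agent.T6.H97.CS.Defs2

/-!
MP_f9dfcb_ag (project CS of helper97), module LIFT: the points of smaller rank of a pencil persist.
(helper46)
-/

set_option autoImplicit false

universe u

namespace Pool.Agent.T6.H97.CS

open Finset Matrix Module

namespace ModLIFT

section Rank

variable {F : Type u} [Field F] {ι ι' : Type} [Fintype ι] [Fintype ι'] [DecidableEq ι]
  [DecidableEq ι']

omit [DecidableEq ι'] in
theorem det_ne_of_rank [DecidableEq ι'] {A : Matrix ι' ι' F} (h : A.rank = Fintype.card ι') :
    A.det ≠ 0 := by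
  rw [rank_eq_finrank_span_row] at h
  have h1 : LinearIndependent F A.row := linearIndependent_iff_card_eq_finrank_span.2 h.symm
  rw [linearIndependent_rows_iff_isUnit, isUnit_iff_isUnit_det] at h1
  exact h1.ne_zero

/-- rank factorisation -/
theorem factor (A : Matrix ι ι F) (h : A.rank = Fintype.card ι') :
    ∃ (X : Matrix ι ι' F) (Y : Matrix ι' ι F), A = X * Y := by
  have e : LinearMap.range A.mulVecLin ≃ₗ[F] (ι' → F) := LinearEquiv.ofFinrankEq _ _ (by
    rw [Module.finrank_fintype_fun_eq_card]; exact h)
  refine ⟨LinearMap.toMatrix' ((LinearMap.range A.mulVecLin).subtype ∘ₗ e.symm.toLinearMap),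
    LinearMap.toMatrix' (e.toLinearMap ∘ₗ A.mulVecLin.rangeRestrict), ?_⟩
  rw [← LinearMap.toMatrix'_comp]
  have h1 : ((LinearMap.range A.mulVecLin).subtype ∘ₗ e.symm.toLinearMap) ∘ₗ
      (e.toLinearMap ∘ₗ A.mulVecLin.rangeRestrict) = A.mulVecLin := by
    apply LinearMap.ext
    intro x
    simp
  rw [h1]
  exact (LinearMap.toMatrix'_toLin' A).symm

/-- the identity for the minors of a matrix of bounded rank -/
theorem minors (A : Matrix ι ι F) (h : A.rank ≤ Fintype.card ι') (I J : ι' → ι) :
    (A.submatrix I I).det * (A.submatrix J J).det =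
      (A.submatrix I J).det * (A.submatrix J I).det := by
  rcases h.lt_or_eq with h | h
  · have h0 : ∀ I J : ι' → ι, (A.submatrix I J).det = 0 := by
      intro I J
      by_contra hne
      have h1 := rank_of_det_ne_zero hne
      have h2 := rank_submatrix_le A I J
      omega
    rw [h0, h0 I J, zero_mul, zero_mul]
  · obtain ⟨X, Y, rfl⟩ := factor A h
    rw [submatrix_mul X Y I id I Function.bijective_id,
      submatrix_mul X Y J id J Function.bijective_id,
      submatrix_mul X Y I id J Function.bijective_id,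
      submatrix_mul X Y J id I Function.bijective_id, det_mul, det_mul, det_mul, det_mul]
    ring

/-- symmetric matrices have nonzero principal minors of the size of the rank -/
theorem exists_minor (A : Matrix ι ι F) (hs : A.IsSymm) (h : A.rank = Fintype.card ι') :
    ∃ J : ι' → ι, (A.submatrix J J).det ≠ 0 := by
  classical
  obtain ⟨κ, a, ha, hspan, hli⟩ := exists_linearIndependent' F A.row
  have : Fintype κ := Fintype.ofInjective a ha
  have hc : Fintype.card κ = Fintype.card ι' := by
    rw [← finrank_span_eq_card hli, hspan, ← rank_eq_finrank_span_row, h]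
  let e : ι' ≃ κ := Fintype.equivOfCardEq hc.symm
  refine ⟨a ∘ e, ?_⟩
  obtain ⟨X, Y, hXY⟩ := factor A h
  have r1 : (A.submatrix (a ∘ e) id).rank = Fintype.card ι' := by
    have h1 : LinearIndependent F (A.submatrix (a ∘ e) id).row := hli.comp e e.injective
    exact h1.rank_matrix
  have r2 : (A.submatrix id (a ∘ e)).rank = Fintype.card ι' := by
    rw [← rank_transpose, transpose_submatrix, hs.eq]
    exact r1
  have hX : (X.submatrix (a ∘ e) id).det ≠ 0 := by
    refine det_ne_of_rank (le_antisymm (rank_le_card_width _) ?_)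
    rw [← r1, hXY, submatrix_mul X Y (a ∘ e) id id Function.bijective_id]
    exact rank_mul_le_left _ _
  have hY : (Y.submatrix id (a ∘ e)).det ≠ 0 := by
    refine det_ne_of_rank (le_antisymm (rank_le_card_width _) ?_)
    rw [← r2, hXY, submatrix_mul X Y id id (a ∘ e) Function.bijective_id]
    exact rank_mul_le_right _ _
  rw [hXY, submatrix_mul X Y (a ∘ e) id (a ∘ e) Function.bijective_id, det_mul]
  exact mul_ne_zero hX hY

end Rank

section PP

open Polynomial

variable {R R' : Type*} [CommRing R] [CommRing R'] {ι ι' : Type} [Fintype ι'] [DecidableEq ι']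

/-- the minor of a pencil, as a polynomial -/
noncomputable def PP (A0 A1 : Matrix ι ι R) (I J : ι' → ι) : R[X] :=
  (Matrix.of fun i j => C (A0 (I i) (J j)) + X * C (A1 (I i) (J j)) : Matrix ι' ι' R[X]).det

theorem eval_PP (A0 A1 : Matrix ι ι R) (I J : ι' → ι) (t : R) :
    (PP A0 A1 I J).eval t = ((A0 + t • A1).submatrix I J).det := by
  unfold PP
  rw [← coe_evalRingHom, RingHom.map_det]
  congr 1
  ext i j
  simp only [RingHom.mapMatrix_apply, Matrix.map_apply, of_apply, coe_evalRingHom, eval_add, eval_C,
    eval_mul, eval_X, submatrix_apply, Matrix.add_apply, Matrix.smul_apply, smul_eq_mul]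

theorem map_PP (φ : R →+* R') (A0 A1 : Matrix ι ι R) (I J : ι' → ι) :
    (PP A0 A1 I J).map φ = PP (A0.map φ) (A1.map φ) I J := by
  unfold PP
  rw [← coe_mapRingHom, RingHom.map_det]
  congr 1
  ext1 i j
  simp

end PP

section Near

variable {K Ω : Type u} [Field K] [Field Ω] [Algebra K Ω] {Γ : Type u}
  [LinearOrderedCommGroupWithZero Γ] {v : Valuation Ω Γ}

theorem v_le (hv : Triv K v) (a : K) : v (algebraMap K Ω a) ≤ 1 := by
  by_cases h : a = 0
  · rw [h, map_zero, map_zero]; exact zero_le_one
  · exact (hv a h).le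

theorem near_le (hv : Triv K v) {x : Ω} {a : K} (h : Near v x a) : v x ≤ 1 := by
  have h1 : x = (x - algebraMap K Ω a) + algebraMap K Ω a := by ring
  rw [h1]
  exact v.map_add_le h.le (v_le hv a)

theorem near_ne (hv : Triv K v) {x : Ω} {a : K} (h : Near v x a) (ha : a ≠ 0) : v x = 1 := by
  apply le_antisymm (near_le hv h)
  by_contra hlt
  push Not at hlt
  have h1 : algebraMap K Ω a = x - (x - algebraMap K Ω a) := by ring
  have h2 : v (algebraMap K Ω a) < 1 := by
    rw [h1]
    exact v.map_sub_lt hlt h
  rw [hv a ha] at h2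
  exact lt_irrefl _ h2

/-- the pairs of elements which are near -/
def S (v : Valuation Ω Γ) (hv : Triv K v) : Subring (Ω × K) where
  carrier := {p | Near v p.1 p.2}
  zero_mem' := by
    show v _ < 1
    simp
  one_mem' := by
    show v _ < 1
    simp
  add_mem' := by
    intro p q hp hq
    show v _ < 1
    have h1 : (p + q).1 - algebraMap K Ω (p + q).2 =
        (p.1 - algebraMap K Ω p.2) + (q.1 - algebraMap K Ω q.2) := by
      simp; ring
    rw [h1]
    exact v.map_add_lt hp hq
  neg_mem' := by
    intro p hp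
    show v _ < 1
    have h1 : (-p).1 - algebraMap K Ω (-p).2 = -(p.1 - algebraMap K Ω p.2) := by
      simp; ring
    rw [h1, Valuation.map_neg]
    exact hp
  mul_mem' := by
    intro p q hp hq
    show v _ < 1
    have h1 : (p * q).1 - algebraMap K Ω (p * q).2 =
        (p.1 - algebraMap K Ω p.2) * q.1 +
          algebraMap K Ω p.2 * (q.1 - algebraMap K Ω q.2) := by
      simp; ring
    rw [h1]
    apply v.map_add_lt
    · rw [map_mul]
      exact lt_of_le_of_lt (mul_le_of_le_one_right' (near_le hv hq)) hp
    · rw [map_mul]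
      exact lt_of_le_of_lt (mul_le_of_le_one_left' (v_le hv _)) hq

/-- first projection -/
def φ (v : Valuation Ω Γ) (hv : Triv K v) : S v hv →+* Ω := (RingHom.fst Ω K).comp (S v hv).subtype

/-- second projection -/
def ψ (v : Valuation Ω Γ) (hv : Triv K v) : S v hv →+* K := (RingHom.snd Ω K).comp (S v hv).subtype

open Polynomial in
theorem near_eval (hv : Triv K v) (Q : (S v hv)[X]) {x : Ω} {a : K} (h : Near v x a) :
    Near v ((Q.map (φ v hv)).eval x) ((Q.map (ψ v hv)).eval a) := by
  have h1 := (Q.eval (⟨(x, a), h⟩ : S v hv)).2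
  have h2 : (Q.map (φ v hv)).eval x = φ v hv (Q.eval (⟨(x, a), h⟩ : S v hv)) := by
    rw [← eval₂_hom, eval_map]; rfl
  have h3 : (Q.map (ψ v hv)).eval a = ψ v hv (Q.eval (⟨(x, a), h⟩ : S v hv)) := by
    rw [← eval₂_hom, eval_map]; rfl
  rw [h2, h3]
  exact h1

theorem multiset_le (m : Multiset Ω) (h : ∀ x ∈ m, v x ≤ 1) : v m.sum ≤ 1 := by
  induction m using Multiset.induction_on with
  | empty => simp
  | cons a s ih =>
    rw [Multiset.sum_cons]
    exact v.map_add_le (h a (Multiset.mem_cons_self a s))
      (ih fun x hx => h x (Multiset.mem_cons_of_mem hx))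

end Near

end ModLIFT

open ModLIFT Polynomial in
theorem lift : StmLIFT := by
  intro K Ω _ _ _ _ _ Γ _ v hv ι ι' σ μ _ _ _ _ _ _ I N0 N1 M0 M1 g lam θ hI hg hθ hθl hcard hdet
    hs0 hs1 hn0 hn1 hrank
  classical
  let A0 : Matrix ι ι (S v hv) := Matrix.of fun i j => ⟨(M0 i j, N0 i j), hn0 i j⟩
  let A1 : Matrix ι ι (S v hv) := Matrix.of fun i j => ⟨(M1 i j, N1 i j), hn1 i j⟩
  have hP : (PP A0 A1 I I).map (φ v hv) = PP M0 M1 I I := by rw [map_PP]; rfl
  have hP0 : (PP A0 A1 I I).map (ψ v hv) = PP N0 N1 I I := by rw [map_PP]; rfl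
  have hprod : PP N0 N1 I I = C g * (∏ j, (X - C (θ j))) * (∏ a, (X - C (lam a))) ^ 2 := by
    apply Polynomial.funext
    intro t
    rw [eval_PP, hdet]
    simp [eval_prod]
  -- evaluation
  have nev : ∀ {x : Ω} {a : K}, Near v x a →
      Near v ((PP M0 M1 I I).eval x) ((PP N0 N1 I I).eval a) := by
    intro x a h
    have := near_eval hv (PP A0 A1 I I) h
    rwa [hP, hP0] at this
  have nevd : ∀ {x : Ω} {a : K}, Near v x a →
      Near v ((derivative (PP M0 M1 I I)).eval x) ((derivative (PP N0 N1 I I)).eval a) := by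
    intro x a h
    have := near_eval hv (derivative (PP A0 A1 I I)) h
    rwa [← derivative_map, ← derivative_map, hP, hP0] at this
  have hself : ∀ a : K, Near v (algebraMap K Ω a) a := by
    intro a
    show v _ < 1
    simp
  -- the derivative
  have hder : ∀ j, (derivative (PP N0 N1 I I)).eval (θ j) ≠ 0 := by
    intro j
    have h1 : PP N0 N1 I I = (X - C (θ j)) * (C g * (∏ i ∈ univ.erase j, (X - C (θ i))) *
        (∏ a, (X - C (lam a))) ^ 2) := by
      rw [hprod, ← mul_prod_erase univ _ (mem_univ j)]
      ring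
    have key : ∀ R : K[X], (derivative ((X - C (θ j)) * R)).eval (θ j) = R.eval (θ j) := by
      intro R
      rw [derivative_mul, derivative_X_sub_C]
      simp
    rw [h1, key, eval_mul, eval_mul, eval_C, eval_pow, eval_prod, eval_prod]
    refine mul_ne_zero (mul_ne_zero hg (prod_ne_zero_iff.2 fun i hi => ?_))
      (pow_ne_zero 2 (prod_ne_zero_iff.2 fun a _ => ?_))
    · rw [eval_sub, eval_X, eval_C]
      exact sub_ne_zero.2 fun e => (mem_erase.1 hi).1 (hθ e).symm
    · rw [eval_sub, eval_X, eval_C]
      exact sub_ne_zero.2 (hθl j a)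
  have hvne : ∀ {x : Ω}, v x = 1 → x ≠ 0 := by
    intro x h e
    rw [e, map_zero] at h
    exact zero_ne_one h
  constructor
  · have hne : PP N0 N1 I I ≠ 0 := by
      rw [hprod]
      refine mul_ne_zero (mul_ne_zero (C_ne_zero.2 hg) (prod_ne_zero_iff.2 fun i _ => ?_))
        (pow_ne_zero 2 (prod_ne_zero_iff.2 fun a _ => ?_))
      · exact X_sub_C_ne_zero _
      · exact X_sub_C_ne_zero _
    have hex : ∃ t, (PP N0 N1 I I).eval t ≠ 0 := by
      by_contra hcon
      push Not at hcon
      apply hne
      apply Polynomial.funext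
      intro t
      rw [hcon, eval_zero]
    obtain ⟨t, ht⟩ := hex
    refine ⟨algebraMap K Ω t, le_antisymm (hrank _) ?_⟩
    have h1 := hvne (near_ne hv (nev (hself t)) ht)
    rw [eval_PP] at h1
    rw [← rank_of_det_ne_zero h1]
    exact rank_submatrix_le _ _ _
  · have hroot : ∀ j, ∃ r : Ω, (PP M0 M1 I I).eval r = 0 ∧ Near v r (θ j) := by
      intro j
      by_cases h0 : (PP M0 M1 I I).eval (algebraMap K Ω (θ j)) = 0
      · exact ⟨_, h0, hself _⟩
      have h1 := (IsAlgClosed.splits (PP M0 M1 I I)).eval_derivative_div_eval_of_ne_zero h0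
      by_contra hcon
      push Not at hcon
      have hne : PP M0 M1 I I ≠ 0 := by
        intro e
        rw [e, eval_zero] at h0
        exact h0 rfl
      have h2 : v (Multiset.map (fun z => 1 / (algebraMap K Ω (θ j) - z))
          (PP M0 M1 I I).roots).sum ≤ 1 := by
        apply multiset_le
        intro x hx
        rw [Multiset.mem_map] at hx
        obtain ⟨z, hz, rfl⟩ := hx
        have hz0 := (mem_roots hne).1 hz
        have h3 := hcon z hz0
        unfold Near at h3
        rw [not_lt] at h3
        rw [one_div, map_inv₀, Valuation.map_sub_swap]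
        exact inv_le_one_of_one_le₀ h3
      rw [← h1, map_div₀, near_ne hv (nevd (hself (θ j))) (hder j)] at h2
      have h4 := nev (hself (θ j))
      have h5 : (PP N0 N1 I I).eval (θ j) = 0 := by
        rw [hprod, eval_mul, eval_mul, eval_prod, prod_eq_zero (mem_univ j), mul_zero, zero_mul]
        rw [eval_sub, eval_X, eval_C, sub_self]
      rw [h5] at h4
      unfold Near at h4
      rw [map_zero, sub_zero] at h4
      have h6 : 0 < v ((PP M0 M1 I I).eval (algebraMap K Ω (θ j))) := by
        rw [zero_lt_iff]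
        exact (Valuation.ne_zero_iff v).2 h0
      rw [div_le_one₀ h6] at h2
      exact absurd h4 (not_lt.2 h2)
    choose θ' h0 hn using hroot
    refine ⟨θ', ?_, ?_⟩
    · intro j l hjl
      by_contra hne
      have h1 : v (algebraMap K Ω (θ j - θ l)) < 1 := by
        have h2 : algebraMap K Ω (θ j - θ l) =
            (θ' l - algebraMap K Ω (θ l)) - (θ' j - algebraMap K Ω (θ j)) := by
          rw [map_sub, hjl]; ring
        rw [h2]
        exact v.map_sub_lt (hn l) (hn j)
      rw [hv _ (sub_ne_zero.2 fun e => hne (hθ e))] at h1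
      exact lt_irrefl _ h1
    · intro j
      refine lt_of_le_of_ne (hrank _) fun hr => ?_
      have hsym : ∀ t : Ω, (M0 + t • M1).IsSymm := fun t => hs0.add (hs1.smul t)
      obtain ⟨J, hJ⟩ := exists_minor _ (hsym (θ' j)) hr
      have hid : PP M0 M1 I I * PP M0 M1 J J = PP M0 M1 I J ^ 2 := by
        apply Polynomial.funext
        intro t
        rw [eval_mul, eval_pow, eval_PP, eval_PP, eval_PP, minors _ (hrank t) I J, sq]
        congr 1
        rw [← det_transpose, transpose_submatrix, (hsym t).eq]
      have h1 : (PP M0 M1 I J).eval (θ' j) = 0 := by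
        have h2 := congrArg (fun p => Polynomial.eval (θ' j) p) hid
        simp only [eval_mul, eval_pow, h0 j, zero_mul] at h2
        exact pow_eq_zero_iff (two_ne_zero) |>.1 h2.symm
      have h3 := congrArg (fun p => (derivative p).eval (θ' j)) hid
      simp only [derivative_mul, derivative_pow, eval_add, eval_mul, eval_pow, h0 j, h1, zero_mul,
        add_zero] at h3
      rw [eval_PP M0 M1 J J] at h3
      have h4 : (derivative (PP M0 M1 I I)).eval (θ' j) * ((M0 + θ' j • M1).submatrix J J).det = 0 := by
        rw [h3]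
        simp
      rcases mul_eq_zero.1 h4 with h | h
      · exact hvne (near_ne hv (nevd (hn j)) (hder j)) h
      · exact hJ h

end Pool.Agent.T6.H97.CS
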