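import Mathlib
import Pool.Agent.T6.H97.CS.Defs2

/-!
MP_f9dfcb_ag. The local theorem from the theorem on deformations in blocks.
-/

set_option autoImplicit false

universe u

namespace Pool.Agent.T6.H97.CS

open Finset Matrix Module MvPolynomial

namespace ModLOC

/-- The order of the indices. -/
noncomputable def eq (s m p : ℕ) : Fin (s + (m + (s + p + 1))) ≃
    Fin s ⊕ (Fin m ⊕ Option (Fin s ⊕ Fin p)) :=
  finSumFinEquiv.symm.trans (Equiv.sumCongr (Equiv.refl _)
    (finSumFinEquiv.symm.trans (Equiv.sumCongr (Equiv.refl _)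
      (Fintype.equivFinOfCardEq (by simp)).symm)))

theorem eq_ge {s m p : ℕ} (i : Fin (s + (m + (s + p + 1)))) (h : s ≤ i.val) :
    ∃ z, eq s m p i = Sum.inr z := by
  obtain ⟨j, rfl⟩ := (finSumFinEquiv (m := s) (n := m + (s + p + 1))).surjective i
  rcases j with j | j
  · exfalso
    have := j.2
    simp at h
    omega
  · refine ⟨?_, ?_⟩
    rotate_left
    · unfold eq
      simp only [Equiv.trans_apply, Equiv.symm_apply_apply, Equiv.sumCongr_apply, Sum.map_inr]
      rfl

theorem eq_ge2 {s m p : ℕ} (i : Fin (s + (m + (s + p + 1)))) (h : s + m ≤ i.val) :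
    ∃ z, eq s m p i = Sum.inr (Sum.inr z) := by
  obtain ⟨j, rfl⟩ := (finSumFinEquiv (m := s) (n := m + (s + p + 1))).surjective i
  rcases j with j | j
  · exfalso
    have := j.2
    simp at h
    omega
  · obtain ⟨l, rfl⟩ := (finSumFinEquiv (m := m) (n := s + p + 1)).surjective j
    rcases l with l | l
    · exfalso
      have := l.2
      simp at h
      omega
    · refine ⟨?_, ?_⟩
      rotate_left
      · unfold eq
        simp only [Equiv.trans_apply, Equiv.symm_apply_apply, Equiv.sumCongr_apply, Sum.map_inr]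
        rfl

theorem blk_zero {R : Type*} [Zero R] {β μ γ : Type} (a : Matrix β β R) (b : Matrix β μ R)
    (c : Matrix β γ R) (d : Matrix μ μ R) (i : γ) (j : μ ⊕ γ) :
    blk a b c d 0 0 (Sum.inr (Sum.inr i)) (Sum.inr j) = 0 ∧
      blk a b c d 0 0 (Sum.inr j) (Sum.inr (Sum.inr i)) = 0 := by
  rcases j with j | j
  · exact ⟨rfl, rfl⟩
  · exact ⟨rfl, rfl⟩

theorem inL_blk {K : Type u} [Field K] {n r s p m : ℕ} (hn : n = s + (m + (s + p + 1)))
    (hm : r = s + m + s + 1) (a : Matrix (Fin s) (Fin s) K) (b : Matrix (Fin s) (Fin m) K)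
    (c : Matrix (Fin s) (Option (Fin s ⊕ Fin p)) K) (d : Matrix (Fin m) (Fin m) K) :
    InL r s ((blk a b c d 0 0).submatrix ((finCongr hn).trans (eq s m p))
      ((finCongr hn).trans (eq s m p))) := by
  subst hn
  intro i j hij
  rw [Matrix.submatrix_apply]
  rcases hij with ⟨h1, h2⟩ | ⟨h1, h2⟩
  · obtain ⟨z, hz⟩ := eq_ge2 (s := s) (m := m) (p := p) i (by omega)
    obtain ⟨z', hz'⟩ := eq_ge (s := s) (m := m) (p := p) j (by omega)
    have e1 : ((finCongr rfl).trans (eq s m p)) i = Sum.inr (Sum.inr z) := hz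
    have e2 : ((finCongr rfl).trans (eq s m p)) j = Sum.inr z' := hz'
    rw [e1, e2]
    exact (blk_zero a b c d z z').1
  · obtain ⟨z, hz⟩ := eq_ge2 (s := s) (m := m) (p := p) j (by omega)
    obtain ⟨z', hz'⟩ := eq_ge (s := s) (m := m) (p := p) i (by omega)
    have e1 : ((finCongr rfl).trans (eq s m p)) j = Sum.inr (Sum.inr z) := hz
    have e2 : ((finCongr rfl).trans (eq s m p)) i = Sum.inr z' := hz'
    rw [e1, e2]
    exact (blk_zero a b c d z z').2

theorem blk_symm {R : Type*} {β μ γ : Type} {a : Matrix β β R} {b : Matrix β μ R}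
    {c : Matrix β γ R} {d : Matrix μ μ R} {f : Matrix μ γ R} {F : Matrix γ γ R}
    (ha : a.IsSymm) (hd : d.IsSymm) (hF : F.IsSymm) : (blk a b c d f F).IsSymm := by
  ext i j
  rw [Matrix.transpose_apply]
  rcases i with i | i | i <;> rcases j with j | j | j
  · exact ha.apply i j
  · rfl
  · rfl
  · rfl
  · exact hd.apply i j
  · rfl
  · rfl
  · rfl
  · exact hF.apply i j

theorem res_blk {R : Type*} {σ ε μ γ : Type} (a : Matrix (σ ⊕ ε) (σ ⊕ ε) R)
    (b : Matrix (σ ⊕ ε) μ R) (c : Matrix (σ ⊕ ε) γ R) (d : Matrix μ μ R) (f : Matrix μ γ R)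
    (F : Matrix γ γ R) :
    res (blk a b c d f F) = blk (a.submatrix Sum.inl Sum.inl) (b.submatrix Sum.inl id)
      (c.submatrix Sum.inl id) d f F := by
  ext i j
  rcases i with i | i | i <;> rcases j with j | j | j <;> rfl

end ModLOC

open ModLOC in
theorem loc (hD : StmDEF.{u}) (hF : StmFAM.{u}) (hB : StmBAS.{u}) (hP : StmPAR.{u}) :
    StmLOC.{u} := by
  intro K _ _ n r k s h1 h2 h3 h4 h5
  obtain ⟨N, rfl⟩ : ∃ N, k = N + 1 := ⟨k - 1, by omega⟩
  obtain ⟨m, hm⟩ : ∃ m, r = s + m + s + 1 := ⟨r - 2 * s - 1, by omega⟩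
  obtain ⟨p, hp⟩ : ∃ p, n = r + p := ⟨n - r, by omega⟩
  have hn : n = s + (m + (s + p + 1)) := by omega
  obtain ⟨lam, th, hgood⟩ := hP K (Fin s ⊕ Fin p) (Fin m)
  have hdim : N + 2 ≤ Fintype.card (Fin s) * (Fintype.card (Fin s) + 1) / 2 +
      Fintype.card (Fin s) * (Fintype.card (Fin m) + (Fintype.card (Fin s) +
        Fintype.card (Fin p) + 1)) + Fintype.card (Fin m) * (Fintype.card (Fin m) + 1) / 2 := by
    simp only [Fintype.card_fin]
    unfold kap at h5
    have e1 : n - s = m + (s + p + 1) := by omega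
    have e2 : r - 2 * s - 1 = m := by omega
    have e3 : r - 2 * s = m + 1 := by omega
    rw [e1, e2, e3] at h5
    omega
  obtain ⟨a, b, c, d, habcd, hli⟩ := hF K (Fin s) (Fin p) (Fin m) lam th N hgood hdim
  let e : Fin n ≃ Fin s ⊕ (Fin m ⊕ Option (Fin s ⊕ Fin p)) := (finCongr hn).trans (eq s m p)
  let X : Fin (N + 1 + 1) → Matrix (Fin s ⊕ (Fin m ⊕ Option (Fin s ⊕ Fin p)))
      (Fin s ⊕ (Fin m ⊕ Option (Fin s ⊕ Fin p))) K :=
    Fin.cons (res (S0 lam th)) (Fin.cons (res (S1 K (Fin s ⊕ Fin p) (Fin m)))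
      fun j => blk (a j) (b j) (c j) (d j) 0 0)
  have hX : ∀ l, ∃ (a' : Matrix (Fin s) (Fin s) K) (b' : Matrix (Fin s) (Fin m) K)
      (c' : Matrix (Fin s) (Option (Fin s ⊕ Fin p)) K) (d' : Matrix (Fin m) (Fin m) K),
      a'.IsSymm ∧ d'.IsSymm ∧ X l = blk a' b' c' d' 0 0 := by
    intro l
    refine Fin.cases ?_ (fun l => Fin.cases ?_ (fun j => ?_) l) l
    · refine ⟨_, _, _, _, ?_, ?_, res_blk _ _ _ _ _ _⟩
      · exact (Matrix.isSymm_diagonal _).submatrix _
      · exact Matrix.isSymm_diagonal _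
    · refine ⟨_, _, _, _, ?_, ?_, res_blk _ _ _ _ _ _⟩
      · exact (Matrix.isSymm_zero).submatrix _
      · exact Matrix.isSymm_one
    · exact ⟨_, _, _, _, (habcd j).1, (habcd j).2.1, rfl⟩
  refine ⟨fun l => (X l).submatrix e e, ?_, ?_, ?_⟩
  · have := hli.map' (Matrix.reindexLinearEquiv K K e.symm e.symm).toLinearMap
      (LinearEquiv.ker _)
    exact this
  · intro l
    obtain ⟨a', b', c', d', ha', hd', hl⟩ := hX l
    show ((X l).submatrix e e).IsSymm ∧ InL r s ((X l).submatrix e e)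
    rw [hl]
    exact ⟨(blk_symm ha' hd' Matrix.isSymm_zero).submatrix _, inL_blk hn hm a' b' c' d'⟩
  · intro Ω _ _ _ Γ _ v hv M hMs hMn hrk
    let M' : Fin (N + 1 + 1) → Matrix (Fin s ⊕ (Fin m ⊕ Option (Fin s ⊕ Fin p)))
      (Fin s ⊕ (Fin m ⊕ Option (Fin s ⊕ Fin p))) Ω := fun l => (M l).submatrix e.symm e.symm
    have hM's : ∀ l, (M' l).IsSymm := fun l => (hMs l).submatrix _
    have hM'n : ∀ l, NearM v (M' l) (X l) := by
      intro l i j
      have : Near v (M l (e.symm i) (e.symm j)) (((X l).submatrix e e) (e.symm i) (e.symm j)) :=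
        hMn l (e.symm i) (e.symm j)
      rw [Matrix.submatrix_apply, Equiv.apply_symm_apply, Equiv.apply_symm_apply] at this
      exact this
    have hM'rk : ∀ x : Fin (N + 1 + 1) → Ω,
        (∑ l, x l • M' l).rank ≤ 2 * Fintype.card (Fin s) + Fintype.card (Fin m) := by
      intro x
      have e1 : ∑ l, x l • M' l = (∑ l, x l • M l).submatrix e.symm e.symm := by
        ext i j
        simp only [Matrix.sum_apply, Matrix.smul_apply, Matrix.submatrix_apply, M']
      rw [e1, Matrix.rank_submatrix]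
      have := hrk x
      simp only [Fintype.card_fin]
      omega
    have two : ∀ t : Ω, (M' 0 + t • M' 1).rank ≤
        2 * Fintype.card (Fin s) + Fintype.card (Fin m) := by
      intro t
      have := hM'rk (Pi.single 0 1 + Pi.single 1 t)
      simp only [Pi.add_apply, add_smul, Finset.sum_add_distrib] at this
      rw [Finset.sum_eq_single (0 : Fin (N + 1 + 1)), Finset.sum_eq_single (1 : Fin (N + 1 + 1)),
        Pi.single_eq_same, Pi.single_eq_same, one_smul] at this
      · exact this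
      · intro b _ hb
        rw [Pi.single_eq_of_ne hb, zero_smul]
      · intro h
        exact absurd (Finset.mem_univ _) h
      · intro b _ hb
        rw [Pi.single_eq_of_ne hb, zero_smul]
      · intro h
        exact absurd (Finset.mem_univ _) h
    have three : ∀ (l : Fin (N + 1 + 1)) (t w : Ω), (M' 0 + t • M' 1 + w • M' l).rank ≤
        2 * Fintype.card (Fin s) + Fintype.card (Fin m) := by
      intro l t w
      have := hM'rk (Pi.single 0 1 + Pi.single 1 t + Pi.single l w)
      simp only [Pi.add_apply, add_smul, Finset.sum_add_distrib] at this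
      rw [Finset.sum_eq_single (0 : Fin (N + 1 + 1)), Finset.sum_eq_single (1 : Fin (N + 1 + 1)),
        Finset.sum_eq_single l,
        Pi.single_eq_same, Pi.single_eq_same, Pi.single_eq_same, one_smul] at this
      · exact this
      · intro b _ hb
        rw [Pi.single_eq_of_ne hb, zero_smul]
      · intro h
        exact absurd (Finset.mem_univ _) h
      · intro b _ hb
        rw [Pi.single_eq_of_ne hb, zero_smul]
      · intro h
        exact absurd (Finset.mem_univ _) h
      · intro b _ hb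
        rw [Pi.single_eq_of_ne hb, zero_smul]
      · intro h
        exact absurd (Finset.mem_univ _) h
    obtain ⟨f1, f2, f3, f4⟩ := hD K Ω Γ v hv (Fin s) (Fin p) (Fin m) lam th (M' 0) (M' 1) hgood
      (hM's 0) (hM's 1) (hM'n 0) (hM'n 1) two
    set ρ := 2 * Fintype.card (Fin s) + Fintype.card (Fin m) with hρ
    have key : ∀ l, ∀ x ∈ VP ρ (M' 0) (M' 1), M' l *ᵥ x ∈ WP ρ (M' 0) (M' 1) := by
      intro l x hx
      refine Fin.cases ?_ (fun l => Fin.cases ?_ (fun j => ?_) l) l
      · exact Submodule.mem_sup_left ⟨x, hx, rfl⟩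
      · exact Submodule.mem_sup_right ⟨x, hx, rfl⟩
      · exact f4 (a j) (b j) (c j) (d j) (M' (Fin.succ (Fin.succ j))) (habcd j).2.2 (hM's _)
          (hM'n _) (three _) x hx
    let L : (Fin s ⊕ (Fin m ⊕ Option (Fin s ⊕ Fin p)) → Ω) ≃ₗ[Ω] (Fin n → Ω) :=
      LinearEquiv.funCongrLeft Ω Ω e
    apply hB Ω n r (N + 1) s h1 h2 h3 M ((VP ρ (M' 0) (M' 1)).map L.toLinearMap)
      ((WP ρ (M' 0) (M' 1)).map L.toLinearMap) hMs
    · rw [LinearEquiv.finrank_map_eq, f1]
      simp only [Fintype.card_fin]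
      omega
    · rw [LinearEquiv.finrank_map_eq]
      refine f2.trans ?_
      rw [Fintype.card_fin]
    · rintro l _ ⟨x, hx, rfl⟩
      refine ⟨M' l *ᵥ x, key l x hx, ?_⟩
      show (M' l *ᵥ x) ∘ e = M l *ᵥ (x ∘ e)
      have e1 : M l = (M' l).submatrix e e := by
        ext i j
        show M l i j = M l (e.symm (e i)) (e.symm (e j))
        rw [Equiv.symm_apply_apply, Equiv.symm_apply_apply]
      have e2 : (M' l).submatrix e e *ᵥ (x ∘ e) = (M' l *ᵥ ((x ∘ e) ∘ e.symm)) ∘ e :=
        Matrix.submatrix_mulVec_equiv (M' l) (x ∘ e) e e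
      have e3 : (x ∘ e) ∘ e.symm = x := by
        rw [Function.comp_assoc, Equiv.self_comp_symm, Function.comp_id]
      rw [e1, e2, e3]
    · rintro _ ⟨x, hx, rfl⟩ _ ⟨y, hy, rfl⟩
      have e2 : L.toLinearMap x = x ∘ e := rfl
      have e3 : L.toLinearMap y = y ∘ e := rfl
      rw [e2, e3, comp_equiv_dotProduct_comp_equiv]
      exact f3 x hx y hy

end Pool.Agent.T6.H97.CS
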