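import Pool.Agent.T6.H97.CS.Adj

/-!
MP_f9dfcb_ag, project CS (helper97): module LOW (helper41).
-/

set_option autoImplicit false

universe u

namespace Pool.Agent.T6.H97.CS

open Finset Matrix Module MvPolynomial

namespace ModLOW

section Near

variable {K Ω : Type u} [Field K] [Field Ω] [Algebra K Ω] {Γ : Type u}
  [LinearOrderedCommGroupWithZero Γ] {v : Valuation Ω Γ}

theorem near_of (a : K) : Near v (algebraMap K Ω a) a := by
  unfold Near
  rw [sub_self, map_zero]
  exact zero_lt_one

theorem near_add {x y : Ω} {a b : K} (hx : Near v x a) (hy : Near v y b) :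
    Near v (x + y) (a + b) := by
  unfold Near at *
  rw [map_add, add_sub_add_comm]
  exact v.map_add_lt hx hy

theorem val_le (hv : Triv K v) (a : K) : v (algebraMap K Ω a) ≤ 1 := by
  by_cases h : a = 0
  · rw [h, map_zero, map_zero]
    exact zero_le_one
  · exact (hv a h).le

theorem near_le (hv : Triv K v) {x : Ω} {a : K} (hx : Near v x a) : v x ≤ 1 := by
  have e : x = (x - algebraMap K Ω a) + algebraMap K Ω a := by ring
  rw [e]
  exact v.map_add_le (le_of_lt hx) (val_le hv a)

theorem near_mul (hv : Triv K v) {x y : Ω} {a b : K} (hx : Near v x a) (hy : Near v y b) :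
    Near v (x * y) (a * b) := by
  unfold Near at *
  have e : x * y - algebraMap K Ω (a * b) = x * (y - algebraMap K Ω b) +
      (x - algebraMap K Ω a) * algebraMap K Ω b := by
    rw [map_mul]
    ring
  rw [e]
  apply v.map_add_lt
  · rw [map_mul]
    exact (mul_le_mul' (near_le hv hx) le_rfl).trans_lt (by rwa [one_mul])
  · rw [map_mul]
    exact (mul_le_mul' le_rfl (val_le hv b)).trans_lt (by rwa [mul_one])

theorem near_sum {ι : Type} (s : Finset ι) {f : ι → Ω} {g : ι → K} (h : ∀ i ∈ s, Near v (f i) (g i)) :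
    Near v (∑ i ∈ s, f i) (∑ i ∈ s, g i) := by
  classical
  induction s using Finset.induction_on with
  | empty => simpa using near_of (v := v) (0 : K)
  | insert i s hi ih =>
    rw [Finset.sum_insert hi, Finset.sum_insert hi]
    exact near_add (h i (Finset.mem_insert_self i s))
      (ih (fun j hj => h j (Finset.mem_insert_of_mem hj)))

theorem near_prod (hv : Triv K v) {ι : Type} (s : Finset ι) {f : ι → Ω} {g : ι → K}
    (h : ∀ i ∈ s, Near v (f i) (g i)) : Near v (∏ i ∈ s, f i) (∏ i ∈ s, g i) := by
  classical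
  induction s using Finset.induction_on with
  | empty => simpa using near_of (v := v) (1 : K)
  | insert i s hi ih =>
    rw [Finset.prod_insert hi, Finset.prod_insert hi]
    exact near_mul hv (h i (Finset.mem_insert_self i s))
      (ih (fun j hj => h j (Finset.mem_insert_of_mem hj)))

theorem near_det (hv : Triv K v) {ι : Type} [Fintype ι] [DecidableEq ι] {M : Matrix ι ι Ω}
    {N : Matrix ι ι K} (h : NearM v M N) : Near v M.det N.det := by
  rw [det_apply', det_apply']
  apply near_sum
  intro σ _
  apply near_mul hv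
  · have := near_of (v := v) (((Equiv.Perm.sign σ : ℤˣ) : ℤ) : K)
    simpa using this
  · exact near_prod hv _ (fun i _ => h _ _)

theorem near_adj (hv : Triv K v) {ι : Type} [Fintype ι] [DecidableEq ι] {M : Matrix ι ι Ω}
    {N : Matrix ι ι K} (h : NearM v M N) : NearM v M.adjugate N.adjugate := by
  intro i j
  rw [adjugate_apply, adjugate_apply]
  apply near_det hv
  intro a b
  by_cases ha : a = j
  · subst ha
    rw [updateRow_self, updateRow_self]
    by_cases hb : b = i
    · subst hb
      simpa using near_of (v := v) (1 : K)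
    · simpa [Pi.single_eq_of_ne hb] using near_of (v := v) (0 : K)
  · rw [updateRow_ne ha, updateRow_ne ha]
    exact h a b

theorem ne_zero_of_near (hv : Triv K v) {x : Ω} {a : K} (hx : Near v x a) (ha : a ≠ 0) :
    x ≠ 0 := by
  intro h
  unfold Near at hx
  rw [h, zero_sub, Valuation.map_neg, hv a ha] at hx
  exact lt_irrefl _ hx

end Near

section Std

variable {K : Type u} [Field K] {β μ : Type} [Fintype β] [Fintype μ] [DecidableEq β]
  [DecidableEq μ]

theorem kv_none (c : Matrix β (Option β) K) : kv c none = (c.submatrix id some).det := by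
  rw [← ModADJ.det_Nm, ← Matrix.det_submatrix_equiv_self (Equiv.optionEquivSumPUnit.{0, 0} β).symm
    (ModADJ.Nm c)]
  have : (ModADJ.Nm c).submatrix (Equiv.optionEquivSumPUnit.{0, 0} β).symm
      (Equiv.optionEquivSumPUnit.{0, 0} β).symm
      = fromBlocks (c.submatrix id some) (Matrix.of fun a _ => c a none) 0 1 := by
    ext i j
    rcases i with i | i <;> rcases j with j | j <;> simp [ModADJ.Nm]
  rw [this, det_fromBlocks_zero₂₁, Matrix.det_one, mul_one]

/-- the kernel vector -/
def zt (lam : Option β → K) (t : K) (y : Option β) : K := ∏ w ∈ univ.erase y, (t - lam w)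

theorem kv_star_none (lam : Option β → K) (t : K) :
    kv (starC fun y => t - lam y) none = ∏ a, (t - lam (some a)) := by
  rw [kv_none]
  have : (starC fun y => t - lam y).submatrix id some = diagonal (fun a => t - lam (some a)) := by
    ext a b
    simp only [starC, submatrix_apply, Matrix.of_apply, diagonal_apply, id]
    split_ifs with h
    · rw [h]
    · rfl
  rw [this, det_diagonal]

theorem c_zt (lam : Option β → K) (t : K) : (starC fun y => t - lam y) *ᵥ (zt lam t) = 0 := by
  funext a
  simp only [Matrix.mulVec, dotProduct, Fintype.sum_option, starC, Matrix.of_apply, Pi.zero_apply,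
    ite_mul, zero_mul, Finset.sum_ite_eq, Finset.mem_univ, if_true]
  unfold zt
  have e1 := Finset.mul_prod_erase univ (fun w => t - lam w) (Finset.mem_univ (none : Option β))
  have e2 := Finset.mul_prod_erase univ (fun w => t - lam w) (Finset.mem_univ (some a))
  rw [neg_mul, e1, e2]
  ring

theorem kv_star (lam : Option β → K) (t : K) (ht : ∀ y, t ≠ lam y) (y : Option β) :
    kv (starC fun y => t - lam y) y = zt lam t y := by
  have h1 := ModADJ.prop_of (starC fun y => t - lam y) (zt lam t) (c_zt lam t) y
  have h2 : zt lam t none = ∏ a, (t - lam (some a)) := by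
    have e1 := Finset.mul_prod_erase univ (fun w => t - lam w) (Finset.mem_univ (none : Option β))
    have e2 := Fintype.prod_option (fun w => t - lam w)
    rw [e2] at e1
    exact mul_left_cancel₀ (sub_ne_zero.2 (ht none)) e1
  rw [h2, kv_star_none] at h1
  exact (mul_left_cancel₀ (Finset.prod_ne_zero_iff.2 (fun a _ => sub_ne_zero.2 (ht (some a)))) h1).symm

omit [Fintype β] [Fintype μ] in
theorem S_eq (lam : Option β → K) (th : μ → K) (t : K) : S0 lam th + t • S1 K β μ =
    blk (diagonal fun a => lam (some a) ^ 2) 0 (starC fun y => t - lam y)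
      (diagonal fun j => t - th j ^ 2) 0 0 := by
  ext i j
  rcases i with i | i | i <;> rcases j with j | j | j
  · simp [S0, S1, blk]
  · simp [S0, S1, blk]
  · rcases j with _ | j
    · simp [S0, S1, blk, starC]
      ring
    · by_cases h : i = j
      · simp [S0, S1, blk, starC, h]
        ring
      · simp [S0, S1, blk, starC, h]
  · simp [S0, S1, blk]
  · by_cases h : i = j
    · simp [S0, S1, blk, h]
      ring
    · simp [S0, S1, blk, h]
  · simp [S0, S1, blk]
  · rcases i with _ | i
    · simp [S0, S1, blk, starC]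
      ring
    · by_cases h : j = i
      · simp [S0, S1, blk, starC, h]
        ring
      · simp [S0, S1, blk, starC, h]
  · simp [S0, S1, blk]
  · simp [S0, S1, blk]

/-- the scalar factor -/
def gt (lam : Option β → K) (th : μ → K) (t : K) : K :=
  (-1) ^ Fintype.card β * (∏ j, (t - th j ^ 2)) * ∏ a, (t - lam (some a))

omit [DecidableEq β] [DecidableEq μ] in
theorem gt_ne (lam : Option β → K) (th : μ → K) (t : K) (ht : ∀ y, t ≠ lam y)
    (ht' : ∀ j, t ≠ th j ^ 2) : gt lam th t ≠ 0 := by
  unfold gt
  refine mul_ne_zero (mul_ne_zero (pow_ne_zero _ (by simp)) ?_) ?_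
  · exact Finset.prod_ne_zero_iff.2 (fun j _ => sub_ne_zero.2 (ht' j))
  · exact Finset.prod_ne_zero_iff.2 (fun a _ => sub_ne_zero.2 (ht (some a)))

/-- the adjugate of the standard pencil -/
theorem adj_S (lam : Option β → K) (th : μ → K) (t : K) (ht : ∀ y, t ≠ lam y)
    (ht' : ∀ j, t ≠ th j ^ 2) :
    (∀ i j, (S0 lam th + t • S1 K β μ).adjugate (Sum.inl i) j = 0) ∧
    (∀ i j, (S0 lam th + t • S1 K β μ).adjugate (Sum.inr (Sum.inl i)) j = 0) ∧
    ∀ y, (S0 lam th + t • S1 K β μ).adjugate (Sum.inr (Sum.inr y)) (Sum.inr (Sum.inr none)) =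
      gt lam th t * zt lam t y := by
  have hd : (diagonal fun j => t - th j ^ 2).det ≠ 0 := by
    rw [det_diagonal]
    exact Finset.prod_ne_zero_iff.2 (fun j _ => sub_ne_zero.2 (ht' j))
  have hc : kv (starC fun y => t - lam y) none ≠ 0 := by
    rw [kv_star_none]
    exact Finset.prod_ne_zero_iff.2 (fun a _ => sub_ne_zero.2 (ht (some a)))
  have h := adj K β μ (diagonal fun a => lam (some a) ^ 2) 0 (starC fun y => t - lam y)
    (diagonal fun j => t - th j ^ 2) (isSymm_diagonal _) (isSymm_diagonal _) hd hc
  rw [S_eq]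
  refine ⟨h.1, h.2.1, fun y => ?_⟩
  rw [h.2.2.2.2, det_diagonal, kv_star lam t ht, kv_star_none]
  unfold gt
  ring

/-- the restricted determinant of the standard pencil -/
def In (β μ : Type) : β ⊕ (μ ⊕ β) → β ⊕ (μ ⊕ Option β) := Sum.map id (Sum.map id some)

theorem det_In (lam : Option β → K) (th : μ → K) (t : K) (ht : ∀ y, t ≠ lam y)
    (ht' : ∀ j, t ≠ th j ^ 2) :
    ((S0 lam th + t • S1 K β μ).submatrix (In β μ) (In β μ)).det ≠ 0 := by
  rw [S_eq]
  have e : (blk (diagonal fun a => lam (some a) ^ 2) 0 (starC fun y => t - lam y)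
      (diagonal fun j => t - th j ^ 2) 0 0).submatrix (In β μ) (In β μ) =
      (fromBlocks (fromBlocks (diagonal fun a => lam (some a) ^ 2) 0 0
        (diagonal fun j => t - th j ^ 2))
        (fromRows (diagonal fun a => t - lam (some a)) 0 : Matrix (β ⊕ μ) β K)
        (fromCols (diagonal fun a => t - lam (some a))ᵀ 0 : Matrix β (β ⊕ μ) K) 0).submatrix
        (Equiv.sumAssoc β μ β).symm (Equiv.sumAssoc β μ β).symm := by
    ext i j
    rcases i with i | i | i <;> rcases j with j | j | j <;>
      simp [blk, In, starC, diagonal_apply, eq_comm]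
    split_ifs with h
    · rw [h]
    · rfl
  rw [e, Matrix.det_submatrix_equiv_self, ModADJ.det_sq, det_diagonal, det_diagonal]
  refine mul_ne_zero (mul_ne_zero (pow_ne_zero _ (by simp)) ?_) (pow_ne_zero _ ?_)
  · exact Finset.prod_ne_zero_iff.2 (fun j _ => sub_ne_zero.2 (ht' j))
  · exact Finset.prod_ne_zero_iff.2 (fun a _ => sub_ne_zero.2 (ht (some a)))

/-- the interpolation matrix -/
theorem interp (lam : Option β → K) (hlam : Function.Injective lam) (t : Option β → K)
    (ht : Function.Injective t) (k : Option β → K)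
    (h : ∀ i, ∑ y, zt lam (t i) y * k y = 0) : k = 0 := by
  classical
  set p : Polynomial K := ∑ y, Polynomial.C (k y) *
    ∏ w ∈ univ.erase y, (Polynomial.X - Polynomial.C (lam w)) with hp
  have hev : ∀ x, p.eval x = ∑ y, zt lam x y * k y := by
    intro x
    rw [hp, Polynomial.eval_finsetSum]
    refine Finset.sum_congr rfl (fun y _ => ?_)
    rw [Polynomial.eval_mul, Polynomial.eval_C, Polynomial.eval_prod, mul_comm]
    simp [zt]
  have hdeg : p.natDegree < Fintype.card (Option β) := by
    rw [Fintype.card_option, Nat.lt_succ_iff]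
    apply Polynomial.natDegree_sum_le_of_forall_le
    intro y _
    refine (Polynomial.natDegree_C_mul_le _ _).trans ?_
    refine (Polynomial.natDegree_prod_le _ _).trans ?_
    refine (Finset.sum_le_card_nsmul _ _ 1 (fun w _ => ?_)).trans ?_
    · exact (Polynomial.natDegree_X_sub_C_le _)
    · rw [Finset.card_erase_of_mem (Finset.mem_univ y), Finset.card_univ, Fintype.card_option]
      simp
  have hz : p = 0 := Polynomial.eq_zero_of_natDegree_lt_card_of_eval_eq_zero p ht
    (fun i => by rw [hev, h i]) hdeg
  funext y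
  have h1 := hev (lam y)
  rw [hz, Polynomial.eval_zero] at h1
  have h2 : ∑ z, zt lam (lam y) z * k z = zt lam (lam y) y * k y := by
    apply Finset.sum_eq_single y
    · intro z _ hzy
      have : zt lam (lam y) z = 0 := by
        unfold zt
        exact Finset.prod_eq_zero (Finset.mem_erase.2 ⟨Ne.symm hzy, Finset.mem_univ y⟩) (sub_self _)
      rw [this, zero_mul]
    · intro hy
      exact absurd (Finset.mem_univ y) hy
  rw [h2] at h1
  have h3 : zt lam (lam y) y ≠ 0 := by
    unfold zt
    refine Finset.prod_ne_zero_iff.2 (fun w hw => sub_ne_zero.2 (fun hc => ?_))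
    exact (Finset.mem_erase.1 hw).1 (hlam hc).symm
  exact (mul_eq_zero.1 h1.symm).resolve_left h3

end Std

section Pts

variable {K : Type u} [Field K] [Infinite K] {β μ : Type} [Fintype β] [Fintype μ]

theorem exists_pts (lam : Option β → K) (th : μ → K) : ∃ t : Option β → K,
    Function.Injective t ∧ (∀ i y, t i ≠ lam y) ∧ ∀ i j, t i ≠ th j ^ 2 := by
  classical
  have hfin : (Set.range lam ∪ Set.range (fun j => th j ^ 2)).Finite :=
    (Set.finite_range lam).union (Set.finite_range _)
  have hinf := hfin.infinite_compl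
  refine ⟨fun i => (hinf.natEmbedding _ (Fintype.equivFin (Option β) i)).1, ?_, ?_, ?_⟩
  · intro i j hij
    have h1 := (hinf.natEmbedding _).injective (Subtype.ext hij)
    exact (Fintype.equivFin (Option β)).injective (Fin.ext h1)
  · intro i y h
    apply (hinf.natEmbedding _ (Fintype.equivFin (Option β) i)).2
    exact Or.inl ⟨y, h.symm⟩
  · intro i j h
    apply (hinf.natEmbedding _ (Fintype.equivFin (Option β) i)).2
    exact Or.inr ⟨j, h.symm⟩

end Pts

section Rank

variable {Ω : Type u} [Field Ω] {β μ : Type} [Fintype β] [Fintype μ] [DecidableEq β]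
  [DecidableEq μ]

/-- a lower bound of the rank by a minor -/
theorem rank_ge (M : Matrix (β ⊕ (μ ⊕ Option β)) (β ⊕ (μ ⊕ Option β)) Ω)
    (h : (M.submatrix (In β μ) (In β μ)).det ≠ 0) :
    2 * Fintype.card β + Fintype.card μ ≤ M.rank := by
  have h1 : (M.submatrix (In β μ) (In β μ)).rank = Fintype.card (β ⊕ (μ ⊕ β)) :=
    Matrix.rank_of_isUnit _ ((Matrix.isUnit_iff_isUnit_det _).2 (isUnit_iff_ne_zero.2 h))
  have h2 : Fintype.card (β ⊕ (μ ⊕ β)) = 2 * Fintype.card β + Fintype.card μ := by
    simp only [Fintype.card_sum]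
    ring
  rw [← h2, ← h1]
  exact Matrix.rank_submatrix_le M _ _

end Rank

end ModLOW

open ModLOW in
theorem low : StmLOW := by
  classical
  intro K Ω _ _ _ _ Γ _ v hv β μ _ _ _ _ lam th M0 M1 hg h0 h1 hrk
  have : Infinite K := IsAlgClosed.instInfinite
  obtain ⟨t, tinj, tl, tt⟩ := exists_pts lam th
  set ρ := 2 * Fintype.card β + Fintype.card μ with hρ
  let M : Option β → Matrix (β ⊕ (μ ⊕ Option β)) (β ⊕ (μ ⊕ Option β)) Ω :=
    fun i => M0 + (algebraMap K Ω (t i)) • M1
  let S : Option β → Matrix (β ⊕ (μ ⊕ Option β)) (β ⊕ (μ ⊕ Option β)) K :=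
    fun i => S0 lam th + t i • S1 K β μ
  have hMS : ∀ i, NearM v (M i) (S i) := by
    intro i a b
    exact near_add (h0 a b) (near_mul hv (near_of _) (h1 a b))
  have hrank : ∀ i, (M i).rank = ρ := by
    intro i
    apply le_antisymm (hrk _)
    apply rank_ge
    have hn : NearM v ((M i).submatrix (In β μ) (In β μ)) ((S i).submatrix (In β μ) (In β μ)) :=
      fun a b => hMS i _ _
    exact ne_zero_of_near hv (near_det hv hn) (det_In lam th (t i) (tl i) (tt i))
  have hdet : ∀ i, (M i).det = 0 := by
    intro i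
    by_contra h
    have h2 := Matrix.rank_of_isUnit (M i)
      ((Matrix.isUnit_iff_isUnit_det _).2 (isUnit_iff_ne_zero.2 h))
    rw [hrank i] at h2
    simp only [Fintype.card_sum, Fintype.card_option, hρ] at h2
    omega
  let x : Option β → (β ⊕ (μ ⊕ Option β)) → Ω := fun i j =>
    (M i).adjugate j (Sum.inr (Sum.inr none))
  have hker : ∀ i, (M i) *ᵥ (x i) = 0 := by
    intro i
    have h2 := mul_adjugate (M i)
    rw [hdet i, zero_smul] at h2
    funext a
    exact congrFun (congrFun h2 a) _
  have hxn : ∀ i j, Near v (x i j) ((S i).adjugate j (Sum.inr (Sum.inr none))) := fun i j =>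
    near_adj hv (hMS i) _ _
  have hadj := fun i => adj_S lam th (t i) (tl i) (tt i)
  -- the matrix
  let A : Matrix (Option β) (Option β) K := Matrix.of fun i y => gt lam th (t i) * zt lam (t i) y
  have hA : IsUnit A.det := by
    rw [isUnit_iff_ne_zero]
    intro hA0
    obtain ⟨k, hk, hk0⟩ := Matrix.exists_mulVec_eq_zero_iff.2 hA0
    apply hk
    apply interp lam hg.1 t tinj
    intro i
    have h2 := congrFun hk0 i
    simp only [Matrix.mulVec, dotProduct, A, Matrix.of_apply, mul_assoc, ← Finset.mul_sum,
      Pi.zero_apply] at h2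
    exact (mul_eq_zero.1 h2).resolve_left (gt_ne lam th (t i) (tl i) (tt i))
  let U : Option β → β ⊕ (μ ⊕ Option β) → Ω := fun z =>
    ∑ i, algebraMap K Ω (A⁻¹ z i) • x i
  have hUV : ∀ z, U z ∈ VP ρ M0 M1 := by
    intro z
    apply Submodule.sum_mem
    intro i _
    apply Submodule.smul_mem
    refine Submodule.mem_iSup_of_mem (algebraMap K Ω (t i)) ?_
    refine Submodule.mem_iSup_of_mem (hrank i) ?_
    rw [LinearMap.mem_ker]
    exact hker i
  have hUn : ∀ z i, Near v (U z i)
      ((Pi.single (Sum.inr (Sum.inr z)) 1 : β ⊕ (μ ⊕ Option β) → K) i) := by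
    intro z j
    have e1 : U z j = ∑ i, algebraMap K Ω (A⁻¹ z i) * x i j := by
      show (∑ i, algebraMap K Ω (A⁻¹ z i) • x i) j = _
      rw [Finset.sum_apply]
      rfl
    have e2 : (Pi.single (Sum.inr (Sum.inr z)) 1 : β ⊕ (μ ⊕ Option β) → K) j =
        ∑ i, A⁻¹ z i * (S i).adjugate j (Sum.inr (Sum.inr none)) := by
      rcases j with j | j | y
      · have : ∀ i, (S i).adjugate (Sum.inl j) (Sum.inr (Sum.inr none)) = 0 :=
          fun i => (hadj i).1 _ _
        simp [this]
      · have : ∀ i, (S i).adjugate (Sum.inr (Sum.inl j)) (Sum.inr (Sum.inr none)) = 0 :=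
          fun i => (hadj i).2.1 _ _
        simp [this]
      · have h2 : ∀ i, (S i).adjugate (Sum.inr (Sum.inr y)) (Sum.inr (Sum.inr none)) = A i y :=
          fun i => (hadj i).2.2 y
        simp only [h2]
        rw [← Matrix.mul_apply, Matrix.nonsing_inv_mul A hA, Matrix.one_apply, Pi.single_apply]
        by_cases hzy : z = y
        · simp [hzy]
        · simp [hzy, Ne.symm hzy]
    rw [e1, e2]
    exact near_sum _ (fun i _ => near_mul hv (near_of _) (hxn i j))
  refine ⟨?_, U, hUV, hUn⟩
  -- independence
  have hQ : (Matrix.of fun z y => U z (Sum.inr (Sum.inr y)) :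
      Matrix (Option β) (Option β) Ω).det ≠ 0 := by
    have hn : NearM v (Matrix.of fun z y => U z (Sum.inr (Sum.inr y)) :
        Matrix (Option β) (Option β) Ω) (1 : Matrix (Option β) (Option β) K) := by
      intro z y
      have := hUn z (Sum.inr (Sum.inr y))
      have e : (Pi.single (Sum.inr (Sum.inr z)) 1 : β ⊕ (μ ⊕ Option β) → K) (Sum.inr (Sum.inr y))
          = (1 : Matrix (Option β) (Option β) K) z y := by
        rw [Matrix.one_apply, Pi.single_apply]
        by_cases hzy : z = y
        · simp [hzy]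
        · simp [hzy, Ne.symm hzy]
      rw [e] at this
      exact this
    exact ne_zero_of_near hv (near_det hv hn) (by rw [Matrix.det_one]; exact one_ne_zero)
  have hli : LinearIndependent Ω U := by
    let pr : (β ⊕ (μ ⊕ Option β) → Ω) →ₗ[Ω] (Option β → Ω) :=
      LinearMap.funLeft Ω Ω (fun y => Sum.inr (Sum.inr y))
    apply LinearIndependent.of_comp pr
    have h2 := Matrix.linearIndependent_rows_iff_isUnit.2
      ((Matrix.isUnit_iff_isUnit_det _).2 (isUnit_iff_ne_zero.2 hQ))
    exact h2
  have hli' : LinearIndependent Ω (fun z => (⟨U z, hUV z⟩ : VP ρ M0 M1)) :=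
    LinearIndependent.of_comp (VP ρ M0 M1).subtype hli
  have := hli'.fintype_card_le_finrank
  rwa [Fintype.card_option] at this

end Pool.Agent.T6.H97.CS
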