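import Pool.Agent.T6.H97.CS.Defs2

/-!
Module NRM: normal form of the pencil.
-/

set_option autoImplicit false

universe u

namespace Pool.Agent.T6.H97.CS

open Finset Matrix Module MvPolynomial

namespace ModNRM

section Near

variable {K Ω : Type u} [Field K] [Field Ω] [Algebra K Ω] {Γ : Type u}
  [LinearOrderedCommGroupWithZero Γ] {v : Valuation Ω Γ}

theorem v_alg_le (hv : Triv K v) (a : K) : v (algebraMap K Ω a) ≤ 1 := by
  by_cases h : a = 0
  · rw [h, map_zero, map_zero]
    exact zero_le_one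
  · exact (hv a h).le

theorem near_le (hv : Triv K v) {x : Ω} {a : K} (h : Near v x a) : v x ≤ 1 := by
  have h1 : x = (x - algebraMap K Ω a) + algebraMap K Ω a := by ring
  rw [h1]
  exact v.map_add_le (le_of_lt h) (v_alg_le hv a)

theorem near_alg (a : K) : Near v (algebraMap K Ω a) a := by
  unfold Near
  rw [sub_self, map_zero]
  exact zero_lt_one

theorem near_zero : Near v (0 : Ω) (0 : K) := by
  have := near_alg (v := v) (0 : K)
  rwa [map_zero] at this

theorem near_one : Near v (1 : Ω) (1 : K) := by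
  have := near_alg (v := v) (1 : K)
  rwa [map_one] at this

theorem near_add {x y : Ω} {a b : K} (h1 : Near v x a) (h2 : Near v y b) :
    Near v (x + y) (a + b) := by
  unfold Near at *
  have e : x + y - algebraMap K Ω (a + b) = (x - algebraMap K Ω a) + (y - algebraMap K Ω b) := by
    rw [map_add]
    ring
  rw [e]
  exact v.map_add_lt h1 h2

theorem near_neg {x : Ω} {a : K} (h1 : Near v x a) : Near v (-x) (-a) := by
  unfold Near at *
  have e : -x - algebraMap K Ω (-a) = -(x - algebraMap K Ω a) := by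
    rw [map_neg]
    ring
  rw [e, Valuation.map_neg]
  exact h1

theorem near_sub {x y : Ω} {a b : K} (h1 : Near v x a) (h2 : Near v y b) :
    Near v (x - y) (a - b) := by
  rw [sub_eq_add_neg, sub_eq_add_neg]
  exact near_add h1 (near_neg h2)

theorem near_mul (hv : Triv K v) {x y : Ω} {a b : K} (h1 : Near v x a) (h2 : Near v y b) :
    Near v (x * y) (a * b) := by
  have hy := near_le hv h2
  have ha := v_alg_le hv a
  unfold Near at *
  have e : x * y - algebraMap K Ω (a * b) = (x - algebraMap K Ω a) * y +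
      algebraMap K Ω a * (y - algebraMap K Ω b) := by
    rw [map_mul]
    ring
  rw [e]
  apply v.map_add_lt
  · rw [map_mul]
    calc v (x - algebraMap K Ω a) * v y ≤ v (x - algebraMap K Ω a) * 1 :=
          mul_le_mul_right hy _
      _ < 1 := by rw [mul_one]; exact h1
  · rw [map_mul]
    calc v (algebraMap K Ω a) * v (y - algebraMap K Ω b) ≤ 1 * v (y - algebraMap K Ω b) :=
          mul_le_mul_left ha _
      _ < 1 := by rw [one_mul]; exact h2

theorem near_sum {ι : Type*} (s : Finset ι) (f : ι → Ω) (g : ι → K)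
    (h : ∀ i ∈ s, Near v (f i) (g i)) : Near v (∑ i ∈ s, f i) (∑ i ∈ s, g i) := by
  classical
  induction s using Finset.induction_on with
  | empty =>
    rw [Finset.sum_empty, Finset.sum_empty]
    exact near_zero
  | insert i s hi ih =>
    rw [Finset.sum_insert hi, Finset.sum_insert hi]
    exact near_add (h i (Finset.mem_insert_self i s))
      (ih fun j hj => h j (Finset.mem_insert_of_mem hj))

theorem near_prod (hv : Triv K v) {ι : Type*} (s : Finset ι) (f : ι → Ω) (g : ι → K)
    (h : ∀ i ∈ s, Near v (f i) (g i)) : Near v (∏ i ∈ s, f i) (∏ i ∈ s, g i) := by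
  classical
  induction s using Finset.induction_on with
  | empty =>
    rw [Finset.prod_empty, Finset.prod_empty]
    exact near_one
  | insert i s hi ih =>
    rw [Finset.prod_insert hi, Finset.prod_insert hi]
    exact near_mul hv (h i (Finset.mem_insert_self i s))
      (ih fun j hj => h j (Finset.mem_insert_of_mem hj))

theorem near_det (hv : Triv K v) {ι : Type} [Fintype ι] [DecidableEq ι] {M : Matrix ι ι Ω}
    {M0 : Matrix ι ι K} (h : NearM v M M0) : Near v M.det M0.det := by
  rw [Matrix.det_apply', Matrix.det_apply']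
  refine near_sum _ _ _ fun σ _ => near_mul hv ?_ (near_prod hv _ _ _ fun i _ => h _ _)
  have := near_alg (v := v) (((Equiv.Perm.sign σ : ℤˣ) : ℤ) : K)
  rwa [map_intCast] at this

theorem near_inv (hv : Triv K v) {x : Ω} {a : K} (h : Near v x a) (ha : a ≠ 0) :
    v x = 1 ∧ Near v x⁻¹ a⁻¹ := by
  have h1 : v x = 1 := by
    have e : x = (x - algebraMap K Ω a) + algebraMap K Ω a := by ring
    rw [e, v.map_add_eq_of_lt_right, hv a ha]
    rw [hv a ha]
    exact h
  refine ⟨h1, ?_⟩
  have hx : x ≠ 0 := by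
    intro h0
    rw [h0, map_zero] at h1
    exact zero_ne_one h1
  have ha' : algebraMap K Ω a ≠ 0 := by
    intro h0
    exact ha ((map_eq_zero _).1 h0)
  unfold Near at *
  have e : x⁻¹ - algebraMap K Ω a⁻¹ = -(x - algebraMap K Ω a) * (x * algebraMap K Ω a)⁻¹ := by
    rw [map_inv₀]
    field_simp
    ring
  rw [e, map_mul, Valuation.map_neg, map_inv₀, map_mul, h1, hv a ha, mul_one, inv_one, mul_one]
  exact h

theorem near_invM (hv : Triv K v) {ι : Type} [Fintype ι] [DecidableEq ι] {M : Matrix ι ι Ω}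
    {M0 : Matrix ι ι K} (h : NearM v M M0) (hd : M0.det ≠ 0) :
    M.det ≠ 0 ∧ NearM v M⁻¹ M0⁻¹ := by
  obtain ⟨h1, h2⟩ := near_inv hv (near_det hv h) hd
  refine ⟨?_, ?_⟩
  · intro h0
    rw [h0, map_zero] at h1
    exact zero_ne_one h1
  · intro i j
    rw [Matrix.inv_def, Matrix.inv_def, Ring.inverse_eq_inv', Ring.inverse_eq_inv',
      Matrix.smul_apply, Matrix.smul_apply, smul_eq_mul, smul_eq_mul]
    refine near_mul hv h2 ?_
    rw [Matrix.adjugate_apply, Matrix.adjugate_apply]
    apply near_det hv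
    intro a b
    by_cases hab : a = j
    · subst hab
      rw [Matrix.updateRow_self, Matrix.updateRow_self]
      by_cases hb : b = i
      · subst hb
        rw [Pi.single_eq_same, Pi.single_eq_same]
        exact near_one
      · rw [Pi.single_eq_of_ne hb, Pi.single_eq_of_ne hb]
        exact near_zero
    · rw [Matrix.updateRow_ne hab, Matrix.updateRow_ne hab]
      exact h a b

theorem near_mulM (hv : Triv K v) {ι ι' ι'' : Type} [Fintype ι'] {M : Matrix ι ι' Ω}
    {M0 : Matrix ι ι' K} {N : Matrix ι' ι'' Ω} {N0 : Matrix ι' ι'' K} (h : NearM v M M0)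
    (h' : NearM v N N0) : NearM v (M * N) (M0 * N0) := by
  intro i j
  rw [Matrix.mul_apply, Matrix.mul_apply]
  exact near_sum _ _ _ fun a _ => near_mul hv (h i a) (h' a j)

theorem near_mulVec (hv : Triv K v) {ι ι' : Type} [Fintype ι'] {M : Matrix ι ι' Ω}
    {M0 : Matrix ι ι' K} {x : ι' → Ω} {x0 : ι' → K} (h : NearM v M M0)
    (h' : ∀ i, Near v (x i) (x0 i)) (i : ι) : Near v ((M *ᵥ x) i) ((M0 *ᵥ x0) i) :=
  near_sum _ _ _ fun a _ => near_mul hv (h i a) (h' a)

end Near

end ModNRM

open ModNRM in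
/-- Module NRM. -/
theorem nrm (hL : StmLOW.{u}) : StmNRM.{u} := by
  intro K Ω _ _ _ _ Γ _ v hv β μ _ _ _ _ lam th M0 M1 hG hs0 hs1 hn0 hn1 hrk hfV hfW hiso
  set ρ := 2 * Fintype.card β + Fintype.card μ with hρ
  obtain ⟨-, U, hUV, hUn⟩ := hL K Ω Γ v hv β μ lam th M0 M1 hG hn0 hn1 hrk
  -- the third block of U
  let U3 : Matrix (Option β) (Option β) Ω := Matrix.of fun y z => U z (Sum.inr (Sum.inr y))
  have hU3 : NearM v U3 (1 : Matrix (Option β) (Option β) K) := by
    intro y z
    have h1 := hUn z (Sum.inr (Sum.inr y))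
    have h2 : (Pi.single (Sum.inr (Sum.inr z)) 1 : β ⊕ (μ ⊕ Option β) → K)
        (Sum.inr (Sum.inr y)) = (1 : Matrix (Option β) (Option β) K) y z := by
      rw [Matrix.one_apply, Pi.single_apply]
      simp
    rw [h2] at h1
    exact h1
  obtain ⟨hU3d, hU3i⟩ := near_invM hv hU3 (by rw [Matrix.det_one]; exact one_ne_zero)
  rw [inv_one] at hU3i
  let U' : Option β → β ⊕ (μ ⊕ Option β) → Ω := fun z => ∑ y, U3⁻¹ y z • U y
  have hU'V : ∀ z, U' z ∈ VP ρ M0 M1 := fun z =>
    Submodule.sum_mem _ fun y _ => Submodule.smul_mem _ _ (hUV y)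
  have hU'3 : ∀ z y, U' z (Sum.inr (Sum.inr y)) = if y = z then 1 else 0 := by
    intro z y
    have h1 : U' z (Sum.inr (Sum.inr y)) = (U3 * U3⁻¹) y z := by
      rw [Matrix.mul_apply]
      simp only [U', Finset.sum_apply, Pi.smul_apply, smul_eq_mul]
      refine Finset.sum_congr rfl fun w _ => ?_
      rw [mul_comm]
      rfl
    rw [h1, Matrix.mul_nonsing_inv _ (isUnit_iff_ne_zero.2 hU3d), Matrix.one_apply]
  have hU'n : ∀ z i, Near v (U' z i)
      ((Pi.single (Sum.inr (Sum.inr z)) 1 : β ⊕ (μ ⊕ Option β) → K) i) := by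
    intro z i
    have h1 : Near v (∑ y, U3⁻¹ y z * U y i) (∑ y, (1 : Matrix (Option β) (Option β) K) y z *
        (Pi.single (Sum.inr (Sum.inr y)) 1 : β ⊕ (μ ⊕ Option β) → K) i) :=
      near_sum _ _ _ fun y _ => near_mul hv (hU3i y z) (hUn y i)
    have h2 : U' z i = ∑ y, U3⁻¹ y z * U y i := by
      simp only [U', Finset.sum_apply, Pi.smul_apply, smul_eq_mul]
    have h3 : ∑ y, (1 : Matrix (Option β) (Option β) K) y z *
        (Pi.single (Sum.inr (Sum.inr y)) 1 : β ⊕ (μ ⊕ Option β) → K) i =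
        (Pi.single (Sum.inr (Sum.inr z)) 1 : β ⊕ (μ ⊕ Option β) → K) i := by
      rw [Finset.sum_eq_single z]
      · rw [Matrix.one_apply_eq, one_mul]
      · intro y _ hy
        rw [Matrix.one_apply_ne hy, zero_mul]
      · intro h
        exact absurd (Finset.mem_univ _) h
    rw [h2, ← h3]
    exact h1
  -- U' is a basis of VP
  have hU'li : LinearIndependent Ω U' := by
    rw [Fintype.linearIndependent_iff]
    intro g hg y
    have h1 := congrFun hg (Sum.inr (Sum.inr y))
    rw [Finset.sum_apply] at h1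
    simp only [Pi.smul_apply, hU'3, smul_eq_mul, mul_ite, mul_one, mul_zero, Pi.zero_apply,
      Finset.sum_ite_eq, Finset.mem_univ, if_true] at h1
    exact h1
  have hspan : Submodule.span Ω (Set.range U') = VP ρ M0 M1 := by
    apply Submodule.eq_of_le_of_finrank_eq
    · rw [Submodule.span_le]
      rintro _ ⟨z, rfl⟩
      exact hU'V z
    · rw [finrank_span_eq_card hU'li, hfV, Fintype.card_option]
  -- the images
  have hW0 : ∀ x ∈ VP ρ M0 M1, M0 *ᵥ x ∈ WP ρ M0 M1 := fun x hx =>
    Submodule.mem_sup_left (Submodule.mem_map_of_mem hx)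
  have hW1 : ∀ x ∈ VP ρ M0 M1, M1 *ᵥ x ∈ WP ρ M0 M1 := fun x hx =>
    Submodule.mem_sup_right (Submodule.mem_map_of_mem hx)
  -- the unit minor
  set t : K := lam none with ht
  set τ : Ω := algebraMap K Ω t with hτ
  let mv : β → β ⊕ (μ ⊕ Option β) → Ω := fun b => M0 *ᵥ U' (some b) + τ • (M1 *ᵥ U' (some b))
  have hmW : ∀ b, mv b ∈ WP ρ M0 M1 := fun b =>
    Submodule.add_mem _ (hW0 _ (hU'V _)) (Submodule.smul_mem _ _ (hW1 _ (hU'V _)))
  have hmn : ∀ b i, Near v (mv b i) (S0 lam th i (Sum.inr (Sum.inr (some b))) +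
      t * S1 K β μ i (Sum.inr (Sum.inr (some b)))) := by
    intro b i
    have e0 : ∀ (N : Matrix (β ⊕ (μ ⊕ Option β)) (β ⊕ (μ ⊕ Option β)) K),
        (N *ᵥ (Pi.single (Sum.inr (Sum.inr (some b))) 1)) i = N i (Sum.inr (Sum.inr (some b))) := by
      intro N
      rw [Matrix.mulVec_single_one]
      rfl
    have h0 := near_mulVec hv hn0 (hU'n (some b)) i
    have h1 := near_mulVec hv hn1 (hU'n (some b)) i
    rw [e0] at h0 h1
    exact near_add h0 (near_mul hv (near_alg t) h1)
  let CJ : Matrix β β Ω := Matrix.of fun a b => mv b (Sum.inl a)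
  let FJ : Matrix μ β Ω := Matrix.of fun j b => mv b (Sum.inr (Sum.inl j))
  have hCJ : NearM v CJ (diagonal fun a => t - lam (some a)) := by
    intro a b
    have h1 := hmn b (Sum.inl a)
    have h2 : S0 lam th (Sum.inl a) (Sum.inr (Sum.inr (some b))) +
        t * S1 K β μ (Sum.inl a) (Sum.inr (Sum.inr (some b))) =
        (diagonal fun a => t - lam (some a) : Matrix β β K) a b := by
      rw [Matrix.diagonal_apply]
      simp only [S0, S1, blk, starC, Matrix.of_apply]
      by_cases hab : a = b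
      · subst hab
        simp only [if_true]
        ring
      · simp only [if_neg hab]
        ring
    rw [h2] at h1
    exact h1
  have hFJ : NearM v FJ (0 : Matrix μ β K) := by
    intro j b
    have h1 := hmn b (Sum.inr (Sum.inl j))
    have h2 : S0 lam th (Sum.inr (Sum.inl j)) (Sum.inr (Sum.inr (some b))) +
        t * S1 K β μ (Sum.inr (Sum.inl j)) (Sum.inr (Sum.inr (some b))) =
        (0 : Matrix μ β K) j b := by
      simp only [S0, S1, blk, Matrix.of_apply, Matrix.zero_apply, mul_zero, add_zero]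
    rw [h2] at h1
    exact h1
  have hdd : (diagonal fun a => t - lam (some a) : Matrix β β K).det ≠ 0 := by
    rw [Matrix.det_diagonal, Finset.prod_ne_zero_iff]
    intro a _
    rw [sub_ne_zero]
    intro h
    have := hG.1 h
    simp at this
  obtain ⟨hCd, hCi⟩ := near_invM hv hCJ hdd
  have hCu : IsUnit CJ.det := isUnit_iff_ne_zero.2 hCd
  let B : Matrix μ β Ω := FJ * CJ⁻¹
  have hBn : NearM v B (0 : Matrix μ β K) := by
    have := near_mulM hv hFJ hCi
    rwa [Matrix.zero_mul] at this
  have hBC : B * CJ = FJ := by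
    show FJ * CJ⁻¹ * CJ = FJ
    rw [Matrix.mul_assoc, Matrix.nonsing_inv_mul _ hCu, Matrix.mul_one]
  have hmli : LinearIndependent Ω mv := by
    rw [Fintype.linearIndependent_iff]
    intro g hg b
    have h1 : CJ *ᵥ g = 0 := by
      funext a
      have h2 := congrFun hg (Sum.inl a)
      rw [Finset.sum_apply] at h2
      refine Eq.trans ?_ h2
      show ∑ b, CJ a b * g b = _
      refine Finset.sum_congr rfl fun b _ => ?_
      rw [Pi.smul_apply, smul_eq_mul, mul_comm]
      rfl
    exact congrFun (Matrix.eq_zero_of_mulVec_eq_zero hCd h1) b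
  have hmspan : Submodule.span Ω (Set.range mv) = WP ρ M0 M1 := by
    apply Submodule.eq_of_le_of_finrank_le
    · rw [Submodule.span_le]
      rintro _ ⟨z, rfl⟩
      exact hmW z
    · rw [finrank_span_eq_card hmli]
      exact hfW
  have hrel : ∀ w ∈ WP ρ M0 M1, ∀ j, w (Sum.inr (Sum.inl j)) = ∑ a, B j a * w (Sum.inl a) := by
    intro w hw j
    rw [← hmspan] at hw
    induction hw using Submodule.span_induction with
    | mem x hx =>
      obtain ⟨b, rfl⟩ := hx
      have h1 := congrFun (congrFun hBC j) b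
      rw [Matrix.mul_apply] at h1
      exact h1.symm
    | zero => simp
    | add x y _ _ ihx ihy =>
      rw [Pi.add_apply, ihx, ihy, ← Finset.sum_add_distrib]
      refine Finset.sum_congr rfl fun a _ => ?_
      rw [Pi.add_apply]
      ring
    | smul c x _ ih =>
      rw [Pi.smul_apply, ih, smul_eq_mul, Finset.mul_sum]
      refine Finset.sum_congr rfl fun a _ => ?_
      rw [Pi.smul_apply, smul_eq_mul]
      ring
  -- the matrix G
  let G : Matrix (β ⊕ (μ ⊕ Option β)) (β ⊕ (μ ⊕ Option β)) Ω := Matrix.of fun i x =>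
    match x with
    | .inl a => if i = Sum.inl a then 1 else 0
    | .inr (.inl j) => (if i = Sum.inr (Sum.inl j) then 1 else 0) -
        (Sum.elim (fun a => B j a) (fun _ => 0) i)
    | .inr (.inr z) => U' z i
  have hGn : NearM v G (1 : Matrix (β ⊕ (μ ⊕ Option β)) (β ⊕ (μ ⊕ Option β)) K) := by
    intro i x
    rcases x with a | j | z
    · show Near v (if i = Sum.inl a then 1 else 0) _
      rw [Matrix.one_apply]
      split_ifs
      · exact near_one
      · exact near_zero
    · show Near v ((if i = Sum.inr (Sum.inl j) then 1 else 0) -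
        (Sum.elim (fun a => B j a) (fun _ => 0) i)) _
      have h1 : (1 : Matrix (β ⊕ (μ ⊕ Option β)) (β ⊕ (μ ⊕ Option β)) K) i (Sum.inr (Sum.inl j)) =
          (if i = Sum.inr (Sum.inl j) then 1 else 0) - 0 := by
        rw [Matrix.one_apply, sub_zero]
      rw [h1]
      apply near_sub
      · split_ifs
        · exact near_one
        · exact near_zero
      · rcases i with a | i
        · exact hBn j a
        · exact near_zero
    · have h1 := hU'n z i
      rw [Pi.single_apply] at h1
      rw [Matrix.one_apply]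
      exact h1
  have hgen : ∀ (N : Matrix (β ⊕ (μ ⊕ Option β)) (β ⊕ (μ ⊕ Option β)) Ω), N.IsSymm →
      (∀ x ∈ VP ρ M0 M1, N *ᵥ x ∈ WP ρ M0 M1) →
      (∀ x ∈ VP ρ M0 M1, ∀ y ∈ VP ρ M0 M1, x ⬝ᵥ (N *ᵥ y) = 0) →
      ∃ (a : Matrix β β Ω) (b : Matrix β μ Ω) (c : Matrix β (Option β) Ω) (d : Matrix μ μ Ω),
        Gᵀ * N * G = blk a b c d 0 0 := by
    intro N hN hNW hNi
    have hsy : (Gᵀ * N * G).IsSymm := by
      unfold Matrix.IsSymm
      rw [Matrix.transpose_mul, Matrix.transpose_mul, Matrix.transpose_transpose, hN,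
        Matrix.mul_assoc]
    have hsy' : ∀ i j, (Gᵀ * N * G) i j = (Gᵀ * N * G) j i := fun i j =>
      (congrFun (congrFun hsy i) j).symm
    have hcol : ∀ x z, (Gᵀ * N * G) x (Sum.inr (Sum.inr z)) =
        ∑ i, G i x * (N *ᵥ U' z) i := by
      intro x z
      rw [Matrix.mul_assoc, Matrix.mul_apply]
      refine Finset.sum_congr rfl fun i _ => ?_
      rw [Matrix.transpose_apply]
      congr 1
    have hf : ∀ j z, (Gᵀ * N * G) (Sum.inr (Sum.inl j)) (Sum.inr (Sum.inr z)) = 0 := by
      intro j z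
      rw [hcol]
      have h1 := hrel _ (hNW _ (hU'V z)) j
      have h2 : ∀ i, G i (Sum.inr (Sum.inl j)) * (N *ᵥ U' z) i =
          (if i = Sum.inr (Sum.inl j) then (N *ᵥ U' z) i else 0) -
            (Sum.elim (fun a => B j a) (fun _ => 0) i) * (N *ᵥ U' z) i := by
        intro i
        show ((if i = Sum.inr (Sum.inl j) then 1 else 0) -
          (Sum.elim (fun a => B j a) (fun _ => 0) i)) * (N *ᵥ U' z) i = _
        split_ifs <;> ring
      rw [Finset.sum_congr rfl fun i _ => h2 i, Finset.sum_sub_distrib, Finset.sum_ite_eq',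
        if_pos (Finset.mem_univ _), h1, Fintype.sum_sum_type]
      simp only [Sum.elim_inl, Sum.elim_inr, zero_mul, Finset.sum_const_zero, add_zero, sub_self]
    have hF : ∀ y z, (Gᵀ * N * G) (Sum.inr (Sum.inr y)) (Sum.inr (Sum.inr z)) = 0 := by
      intro y z
      rw [hcol]
      exact hNi _ (hU'V y) _ (hU'V z)
    refine ⟨Matrix.of fun i j => (Gᵀ * N * G) (Sum.inl i) (Sum.inl j),
      Matrix.of fun i j => (Gᵀ * N * G) (Sum.inl i) (Sum.inr (Sum.inl j)),
      Matrix.of fun i j => (Gᵀ * N * G) (Sum.inl i) (Sum.inr (Sum.inr j)),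
      Matrix.of fun i j => (Gᵀ * N * G) (Sum.inr (Sum.inl i)) (Sum.inr (Sum.inl j)), ?_⟩
    ext x y
    rcases x with a | j | z <;> rcases y with a' | j' | z'
    · rfl
    · rfl
    · rfl
    · exact hsy' _ _
    · rfl
    · exact hf _ _
    · exact hsy' _ _
    · exact (hsy' _ _).trans (hf _ _)
    · exact hF _ _
  obtain ⟨a0, b0, c0, d0, h0⟩ := hgen M0 hs0 hW0 (fun x hx y hy => (hiso x hx y hy).1)
  obtain ⟨a1, b1, c1, d1, h1⟩ := hgen M1 hs1 hW1 (fun x hx y hy => (hiso x hx y hy).2)
  refine ⟨G, hGn, ⟨a0, a1, b0, b1, c0, c1, d0, d1, h0, h1⟩, fun x => ?_⟩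
  have hGz : ∀ z : Option β → Ω, G *ᵥ (Sum.elim 0 (Sum.elim 0 z)) = ∑ y, z y • U' y := by
    intro z
    funext i
    rw [Matrix.mulVec, dotProduct, Fintype.sum_sum_type, Fintype.sum_sum_type, Finset.sum_apply]
    simp only [Sum.elim_inl, Sum.elim_inr, Pi.zero_apply, mul_zero, Finset.sum_const_zero,
      zero_add, Pi.smul_apply, smul_eq_mul]
    refine Finset.sum_congr rfl fun y _ => ?_
    rw [mul_comm]
    rfl
  rw [← hspan, Submodule.mem_span_range_iff_exists_fun]
  constructor
  · rintro ⟨z, rfl⟩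
    exact ⟨z, (hGz z).symm⟩
  · rintro ⟨z, rfl⟩
    exact ⟨z, (hGz z).symm⟩

end Pool.Agent.T6.H97.CS
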