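import Pool.Agent.T6.H97.CS.Defs2

/-!
Module NSS: solutions in an extension give solutions in `K`.
-/

set_option autoImplicit false

universe u

namespace Pool.Agent.T6.H97.CS

open Finset Matrix Module MvPolynomial

namespace ModNSS

/-- a point over the algebraically closed field `K` which satisfies all polynomial equations over `K`
of a point over an extension -/
theorem exists_point (K κ : Type u) [Field K] [IsAlgClosed K] [Field κ] [Algebra K κ] (σ : Type)
    [Finite σ] (y : σ → κ) :
    ∃ x : σ → K, ∀ p : MvPolynomial σ K, aeval y p = 0 → eval x p = 0 := by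
  by_contra hcon
  push Not at hcon
  set I : Ideal (MvPolynomial σ K) := RingHom.ker (aeval y : MvPolynomial σ K →ₐ[K] κ) with hI
  have hne : I ≠ ⊤ := RingHom.ker_ne_top _
  have h0 : zeroLocus K I = ∅ := by
    rw [Set.eq_empty_iff_forall_notMem]
    intro x hx
    obtain ⟨p, hp, hpx⟩ := hcon x
    apply hpx
    have hpI : p ∈ I := hp
    exact hx p hpI
  have h1 := vanishingIdeal_zeroLocus_eq_radical (K := K) I
  rw [h0, vanishingIdeal_empty] at h1
  exact hne (Ideal.radical_eq_top.mp h1.symm)

end ModNSS

open ModNSS in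
theorem nss : StmNSS := by
  intro K κ _ _ _ _ n k M P B hB hP
  obtain ⟨x, hx⟩ := exists_point K κ (Option (Fin n × Fin n))
    (fun o => match o with
      | none => (B.det)⁻¹
      | some ij => B ij.1 ij.2)
  set y : Option (Fin n × Fin n) → κ := (fun o => match o with
      | none => (B.det)⁻¹
      | some ij => B ij.1 ij.2) with hy
  -- the generic matrix
  set Z : Matrix (Fin n) (Fin n) (MvPolynomial (Option (Fin n × Fin n)) K) :=
    Matrix.of fun i j => X (some (i, j)) with hZ
  set B0 : Matrix (Fin n) (Fin n) K := Matrix.of fun i j => x (some (i, j)) with hB0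
  have hZy : Z.map (aeval y : MvPolynomial (Option (Fin n × Fin n)) K →ₐ[K] κ) = B := by
    ext i j
    simp [hZ, hy]
  have hZx : Z.map (eval x) = B0 := by
    ext i j
    simp [hZ, hB0]
  have hdet : B0.det ≠ 0 := by
    have h1 := hx (X none * Z.det - 1) (by
      rw [map_sub, map_mul, aeval_X, map_one]
      have h2 : (aeval y : MvPolynomial (Option (Fin n × Fin n)) K →ₐ[K] κ) Z.det = B.det := by
        rw [← hZy]
        exact AlgHom.map_det _ Z
      rw [h2]
      show (B.det)⁻¹ * B.det - 1 = 0
      rw [inv_mul_cancel₀ hB.ne_zero, sub_self])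
    intro h0
    rw [map_sub, map_mul, eval_X, map_one] at h1
    have h3 : eval x Z.det = B0.det := by
      rw [← hZx]
      exact RingHom.map_det _ Z
    rw [h3, h0, mul_zero, zero_sub] at h1
    exact one_ne_zero (neg_eq_zero.mp h1)
  refine ⟨B0, isUnit_iff_ne_zero.mpr hdet, fun l i j hij => ?_⟩
  set N : Matrix (Fin n) (Fin n) (MvPolynomial (Option (Fin n × Fin n)) K) :=
    Matrix.of fun i j => C (M l i j) with hN
  have h1 := hx ((Zᵀ * N * Z) i j) (by
    have h2 : (aeval y : MvPolynomial (Option (Fin n × Fin n)) K →ₐ[K] κ)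
        ((Zᵀ * N * Z) i j) = (Bᵀ * (M l).map (algebraMap K κ) * B) i j := by
      rw [← hZy]
      simp only [hN, Matrix.mul_apply, map_sum, map_mul, Matrix.transpose_apply, Matrix.map_apply,
        Matrix.of_apply, aeval_C]
    rw [h2]
    exact hP l i j hij)
  have h3 : eval x ((Zᵀ * N * Z) i j) = (B0ᵀ * M l * B0) i j := by
    rw [← hZx]
    simp only [hN, Matrix.mul_apply, map_sum, map_mul, Matrix.transpose_apply, Matrix.map_apply,
      Matrix.of_apply, eval_C]
  rw [← h3]
  exact h1

end Pool.Agent.T6.H97.CS
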