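import Pool.Agent.T6.H97.CS.Defs2

set_option autoImplicit false
set_option linter.unusedSectionVars false

universe u

namespace Pool.Agent.T6.H97.CS

open Finset Matrix Module

namespace ModPEN

section

variable {Ω : Type u} [Field Ω] {ι : Type} [Fintype ι] [DecidableEq ι]

theorem factor {M : Matrix ι ι Ω} {ρ : ℕ} (h : M.rank = ρ) :
    ∃ (X : Matrix ι (Fin ρ) Ω) (Y : Matrix (Fin ρ) ι Ω), M = X * Y := by
  have hb : finrank Ω (LinearMap.range M.mulVecLin) = ρ := h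
  let b := Module.finBasisOfFinrankEq Ω (LinearMap.range M.mulVecLin) hb
  refine ⟨Matrix.of fun i j => (b j : ι → Ω) i,
    Matrix.of fun j i => b.repr ⟨M.mulVecLin (Pi.single i 1), LinearMap.mem_range_self _ _⟩ j, ?_⟩
  ext i i'
  have h1 := b.sum_repr ⟨M.mulVecLin (Pi.single i' 1), LinearMap.mem_range_self _ _⟩
  have h2 := congrArg (fun z : LinearMap.range M.mulVecLin => (z : ι → Ω) i) h1
  simp only [Submodule.coe_sum, Submodule.coe_smul, Finset.sum_apply, Pi.smul_apply,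
    smul_eq_mul] at h2
  rw [Matrix.mul_apply]
  simp only [Matrix.of_apply]
  have h3 : M.mulVecLin (Pi.single i' 1) i = M i i' := by
    rw [Matrix.mulVecLin_apply, Matrix.mulVec_single_one]; rfl
  rw [← h3, ← h2]
  exact Finset.sum_congr rfl fun j _ => mul_comm _ _

theorem det_low {M : Matrix ι ι Ω} {κ : Type} [Fintype κ] [DecidableEq κ] (A B : Matrix ι κ Ω)
    (h : M.rank < Fintype.card κ) : (Aᵀ * M * B).det = 0 := by
  by_contra h0
  have h1 := Matrix.rank_of_det_ne_zero h0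
  have h2 : (Aᵀ * M * B).rank ≤ M.rank :=
    (Matrix.rank_mul_le_left _ _).trans (Matrix.rank_mul_le_right _ _)
  omega

theorem detA {M : Matrix ι ι Ω} {ρ : ℕ} (hM : M.IsSymm) (h : M.rank ≤ ρ)
    (B B' : Matrix ι (Fin ρ) Ω) :
    (Bᵀ * M * B).det * (B'ᵀ * M * B').det = (Bᵀ * M * B').det ^ 2 := by
  rcases h.lt_or_eq with h | h
  · rw [det_low B B (by rw [Fintype.card_fin]; exact h),
      det_low B B' (by rw [Fintype.card_fin]; exact h)]
    simp
  · have e4 : (Bᵀ * M * B').det = (B'ᵀ * M * B).det := by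
      rw [← Matrix.det_transpose]
      simp only [Matrix.transpose_mul, Matrix.transpose_transpose, hM.eq, Matrix.mul_assoc]
    have e5 : (Bᵀ * M * B').det ^ 2 = (Bᵀ * M * B').det * (B'ᵀ * M * B).det := by
      rw [← e4, sq]
    rw [e5]
    obtain ⟨X, Y, rfl⟩ := factor h
    have e : ∀ A A' : Matrix ι (Fin ρ) Ω, (Aᵀ * (X * Y) * A').det =
        (Aᵀ * X).det * (Y * A').det := by
      intro A A'
      rw [← Matrix.det_mul]
      simp only [Matrix.mul_assoc]
    rw [e, e, e, e]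
    ring

theorem det_ne {M : Matrix ι ι Ω} {ρ : ℕ} (hM : M.IsSymm) (hr : M.rank = ρ)
    (B : Matrix ι (Fin ρ) Ω) (hB : ∀ c : Fin ρ → Ω, M *ᵥ (B *ᵥ c) = 0 → c = 0) :
    (Bᵀ * M * B).det ≠ 0 := by
  intro h0
  obtain ⟨c, hc, hc0⟩ := Matrix.exists_vecMul_eq_zero_iff.2 h0
  have hinj : Function.Injective (M * B).mulVecLin := by
    rw [← LinearMap.ker_eq_bot, LinearMap.ker_eq_bot']
    intro z hz
    apply hB
    rw [Matrix.mulVec_mulVec]
    exact hz
  have hrank : finrank Ω (LinearMap.range (M * B).mulVecLin) = ρ := by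
    rw [LinearMap.finrank_range_of_inj hinj, Module.finrank_fintype_fun_eq_card,
      Fintype.card_fin]
  have hle : LinearMap.range (M * B).mulVecLin ≤ LinearMap.range M.mulVecLin := by
    rintro _ ⟨z, rfl⟩
    exact ⟨B *ᵥ z, by rw [Matrix.mulVecLin_apply, Matrix.mulVecLin_apply, Matrix.mulVec_mulVec]⟩
  have heq := Submodule.eq_of_le_of_finrank_eq hle (by rw [hrank]; exact hr.symm)
  have h1 : ∀ z, (B *ᵥ c) ⬝ᵥ (M *ᵥ z) = 0 := by
    intro z
    have hz : M.mulVecLin z ∈ LinearMap.range (M * B).mulVecLin := by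
      rw [heq]; exact LinearMap.mem_range_self _ z
    obtain ⟨c', hc'⟩ := hz
    rw [Matrix.mulVecLin_apply, Matrix.mulVecLin_apply] at hc'
    rw [← hc', Matrix.dotProduct_mulVec]
    have h2 : (B *ᵥ c) ᵥ* (M * B) = 0 := by
      rw [← Matrix.vecMul_transpose, Matrix.vecMul_vecMul, ← Matrix.mul_assoc]
      exact hc0
    rw [h2, zero_dotProduct]
  apply hc
  apply hB
  have h3 : (B *ᵥ c) ᵥ* M = 0 := by
    funext i
    have := h1 (Pi.single i 1)
    rw [Matrix.dotProduct_mulVec, dotProduct_single, mul_one] at this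
    exact this
  rw [← hM.eq, Matrix.mulVec_transpose]
  exact h3

theorem det_zero_of {M : Matrix ι ι Ω} {ρ : ℕ} (B : Matrix ι (Fin ρ) Ω) {c : Fin ρ → Ω}
    (hc : c ≠ 0) (h : M *ᵥ (B *ᵥ c) = 0) : (Bᵀ * M * B).det = 0 :=
  Matrix.exists_mulVec_eq_zero_iff.1 ⟨c, hc, by
    rw [← Matrix.mulVec_mulVec, ← Matrix.mulVec_mulVec, h, Matrix.mulVec_zero]⟩

theorem exB {ρ : ℕ} (S K' : Submodule Ω (ι → Ω)) (h : Disjoint S K')
    (hf : finrank Ω K' + ρ = Fintype.card ι) :
    ∃ B : Matrix ι (Fin ρ) Ω, (∀ c, B *ᵥ c ∈ K' → c = 0) ∧ ∀ v ∈ S, ∃ c, B *ᵥ c = v := by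
  obtain ⟨Q, hSQ, hQ⟩ := h.exists_isCompl
  have hfQ : finrank Ω Q = ρ := by
    have := Submodule.finrank_add_eq_of_isCompl hQ
    rw [Module.finrank_fintype_fun_eq_card] at this
    omega
  let b := Module.finBasisOfFinrankEq Ω Q hfQ
  have key : ∀ c : Fin ρ → Ω, (Matrix.of fun i j => (b j : ι → Ω) i) *ᵥ c =
      ((∑ j, c j • b j : Q) : ι → Ω) := by
    intro c
    funext i
    simp only [Matrix.mulVec, dotProduct, Matrix.of_apply, Submodule.coe_sum, Submodule.coe_smul,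
      Finset.sum_apply, Pi.smul_apply, smul_eq_mul]
    exact Finset.sum_congr rfl fun j _ => mul_comm _ _
  refine ⟨Matrix.of fun i j => (b j : ι → Ω) i, ?_, ?_⟩
  · intro c hc
    rw [key] at hc
    have h1 : ((∑ j, c j • b j : Q) : ι → Ω) = 0 := by
      have := hQ.disjoint.le_bot ⟨(∑ j, c j • b j : Q).2, hc⟩
      simpa using this
    have h2 : ∑ j, c j • b j = 0 := Subtype.ext h1
    exact funext (Fintype.linearIndependent_iff.1 b.linearIndependent c h2)
  · intro v hv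
    refine ⟨b.repr ⟨v, hSQ hv⟩, ?_⟩
    rw [key, b.sum_repr]

/-- the determinant of a pencil -/
noncomputable def DP {κ : Type} [Fintype κ] [DecidableEq κ] (M0 M1 : Matrix κ κ Ω) :
    Polynomial Ω :=
  Matrix.det ((Polynomial.X : Polynomial Ω) • M1.map Polynomial.C + M0.map Polynomial.C)

theorem DP_eval {κ : Type} [Fintype κ] [DecidableEq κ] (M0 M1 : Matrix κ κ Ω) (t : Ω) :
    (DP M0 M1).eval t = (M0 + t • M1).det := by
  unfold DP
  rw [← Polynomial.coe_evalRingHom, RingHom.map_det]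
  congr 1
  ext i j
  simp only [RingHom.mapMatrix_apply, Matrix.map_apply, Matrix.add_apply, Matrix.smul_apply,
    smul_eq_mul, Polynomial.coe_evalRingHom, Polynomial.eval_add, Polynomial.eval_mul,
    Polynomial.eval_X, Polynomial.eval_C]
  exact add_comm _ _

theorem DP_deg {κ : Type} [Fintype κ] [DecidableEq κ] (M0 M1 : Matrix κ κ Ω) :
    (DP M0 M1).natDegree ≤ Fintype.card κ := Polynomial.natDegree_det_X_add_C_le M1 M0

/-- the minor of the pencil given by `B`, `B'` -/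
noncomputable def DB {ρ : ℕ} (M0 M1 : Matrix ι ι Ω) (B B' : Matrix ι (Fin ρ) Ω) : Polynomial Ω :=
  DP (Bᵀ * M0 * B') (Bᵀ * M1 * B')

theorem DB_eval {ρ : ℕ} (M0 M1 : Matrix ι ι Ω) (B B' : Matrix ι (Fin ρ) Ω) (t : Ω) :
    (DB M0 M1 B B').eval t = (Bᵀ * (M0 + t • M1) * B').det := by
  unfold DB
  rw [DP_eval]
  congr 1
  rw [Matrix.mul_add, Matrix.add_mul, Matrix.mul_smul, Matrix.smul_mul]

theorem symm_pencil {M0 M1 : Matrix ι ι Ω} (h0 : M0.IsSymm) (h1 : M1.IsSymm) (t : Ω) :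
    (M0 + t • M1).IsSymm := h0.add (h1.smul t)

theorem finrank_ker (M : Matrix ι ι Ω) :
    finrank Ω (LinearMap.ker M.mulVecLin) + M.rank = Fintype.card ι := by
  have := LinearMap.finrank_range_add_finrank_ker M.mulVecLin
  rw [Module.finrank_fintype_fun_eq_card] at this
  have h2 : M.rank = finrank Ω (LinearMap.range M.mulVecLin) := rfl
  omega

theorem exists_B {M : Matrix ι ι Ω} {ρ : ℕ} (hM : M.IsSymm) (hr : M.rank = ρ) :
    ∃ B : Matrix ι (Fin ρ) Ω, (Bᵀ * M * B).det ≠ 0 := by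
  obtain ⟨B, hB, -⟩ := exB (ρ := ρ) ⊥ (LinearMap.ker M.mulVecLin) disjoint_bot_left (by
    have := finrank_ker M; omega)
  exact ⟨B, det_ne hM hr B fun c hc => hB c hc⟩

variable {ρ : ℕ} {M0 M1 : Matrix ι ι Ω}

theorem DB_mul [Infinite Ω] (h0 : M0.IsSymm) (h1 : M1.IsSymm)
    (hr : ∀ t : Ω, (M0 + t • M1).rank ≤ ρ) (B B' : Matrix ι (Fin ρ) Ω) :
    DB M0 M1 B B * DB M0 M1 B' B' = DB M0 M1 B B' ^ 2 := by
  apply Polynomial.funext
  intro t
  rw [Polynomial.eval_mul, Polynomial.eval_pow, DB_eval, DB_eval, DB_eval]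
  exact detA (symm_pencil h0 h1 t) (hr t) B B'

theorem sq_dvd [Infinite Ω] (h0 : M0.IsSymm) (h1 : M1.IsSymm)
    (hr : ∀ t : Ω, (M0 + t • M1).rank ≤ ρ) (B : Matrix ι (Fin ρ) Ω) {t : Ω}
    (ht : (M0 + t • M1).rank = ρ) (hz : (DB M0 M1 B B).eval t = 0) :
    (Polynomial.X - Polynomial.C t) ^ 2 ∣ DB M0 M1 B B := by
  obtain ⟨B', hB'⟩ := exists_B (symm_pencil h0 h1 t) ht
  rw [← DB_eval] at hB'
  have e := DB_mul h0 h1 hr B B'
  have h2 : (DB M0 M1 B B').eval t = 0 := by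
    have := congrArg (Polynomial.eval t) e
    rw [Polynomial.eval_mul, hz, zero_mul, Polynomial.eval_pow] at this
    exact pow_eq_zero_iff (two_ne_zero) |>.1 this.symm
  have h3 : (Polynomial.X - Polynomial.C t) ∣ DB M0 M1 B B' := Polynomial.dvd_iff_isRoot.2 h2
  have h4 : (Polynomial.X - Polynomial.C t) ^ 2 ∣ DB M0 M1 B B * DB M0 M1 B' B' := by
    rw [e]; exact pow_dvd_pow_of_dvd h3 2
  have h5 : IsCoprime ((Polynomial.X - Polynomial.C t) ^ 2) (DB M0 M1 B' B') := by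
    apply IsCoprime.pow_left
    rw [(Polynomial.irreducible_X_sub_C t).coprime_iff_not_dvd]
    intro h6
    exact hB' (Polynomial.dvd_iff_isRoot.1 h6)
  exact h5.dvd_of_dvd_mul_right h4

/-- the minor vanishes if it vanishes at `s + 1` points of maximal rank -/
theorem DB_zero [Infinite Ω] {μ : Type} [Fintype μ] {s : ℕ} (h0 : M0.IsSymm) (h1 : M1.IsSymm)
    (hρ : ρ = 2 * s + Fintype.card μ) (hr : ∀ t : Ω, (M0 + t • M1).rank ≤ ρ)
    {θ : μ → Ω} (hθ : Function.Injective θ) (hθr : ∀ j, (M0 + θ j • M1).rank < ρ)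
    (B : Matrix ι (Fin ρ) Ω) {p : Fin (s + 1) → Ω} (hp : Function.Injective p)
    (hpr : ∀ i, (M0 + p i • M1).rank = ρ) (hz : ∀ i, (DB M0 M1 B B).eval (p i) = 0) :
    DB M0 M1 B B = 0 := by
  by_contra hne
  let q : Fin (s + 1) ⊕ μ → Ω := Sum.elim p θ
  have hq : Function.Injective q := by
    rintro (i | i) (j | j) hij
    · exact congrArg _ (hp hij)
    · exfalso
      have h2 : p i = θ j := hij
      have h3 := hθr j
      rw [← h2, hpr i] at h3
      exact lt_irrefl _ h3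
    · exfalso
      have h2 : θ i = p j := hij
      have h3 := hθr i
      rw [h2, hpr j] at h3
      exact lt_irrefl _ h3
    · exact congrArg _ (hθ hij)
  let e : Fin (s + 1) ⊕ μ → ℕ := Sum.elim (fun _ => 2) (fun _ => 1)
  have hd : (∏ x, (Polynomial.X - Polynomial.C (q x)) ^ e x) ∣ DB M0 M1 B B := by
    apply Fintype.prod_dvd_of_coprime
    · intro x y hxy
      exact IsCoprime.pow (Polynomial.pairwise_coprime_X_sub_C hq hxy)
    · rintro (i | j)
      · exact sq_dvd h0 h1 hr B (hpr i) (hz i)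
      · show (Polynomial.X - Polynomial.C (θ j)) ^ 1 ∣ _
        rw [pow_one]
        apply Polynomial.dvd_iff_isRoot.2
        show (DB M0 M1 B B).eval (θ j) = 0
        rw [DB_eval]
        exact det_low B B (by rw [Fintype.card_fin]; exact hθr j)
  have h2 := Polynomial.natDegree_le_of_dvd hd hne
  rw [Polynomial.natDegree_prod_of_monic _ _ fun x _ => (Polynomial.monic_X_sub_C _).pow _] at h2
  simp only [Polynomial.natDegree_pow, Polynomial.natDegree_X_sub_C, mul_one] at h2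
  rw [Fintype.sum_sum_type] at h2
  have h3 : ∑ a : Fin (s + 1), e (Sum.inl a) = 2 * (s + 1) := by
    show ∑ a : Fin (s + 1), 2 = _
    rw [Finset.sum_const, Finset.card_univ, Fintype.card_fin, smul_eq_mul, mul_comm]
  have h4 : ∑ a : μ, e (Sum.inr a) = Fintype.card μ := by
    show ∑ a : μ, 1 = _
    rw [Finset.sum_const, Finset.card_univ, smul_eq_mul, mul_one]
  rw [h3, h4] at h2
  have h5 := DP_deg (Bᵀ * M0 * B) (Bᵀ * M1 * B)
  rw [Fintype.card_fin] at h5
  have h6 : (DB M0 M1 B B).natDegree ≤ ρ := h5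
  omega

theorem infinite_good [Infinite Ω] (h0 : M0.IsSymm) (h1 : M1.IsSymm)
    (hr : ∀ t : Ω, (M0 + t • M1).rank ≤ ρ) (hg : ∃ t : Ω, (M0 + t • M1).rank = ρ)
    (S : Set Ω) (hS : S.Finite) : {t : Ω | (M0 + t • M1).rank = ρ ∧ t ∉ S}.Infinite := by
  obtain ⟨t1, ht1⟩ := hg
  obtain ⟨B, hB⟩ := exists_B (symm_pencil h0 h1 t1) ht1
  rw [← DB_eval] at hB
  have hne : DB M0 M1 B B ≠ 0 := by
    intro h; rw [h] at hB; exact hB (Polynomial.eval_zero)
  have hf : {t : Ω | (DB M0 M1 B B).IsRoot t}.Finite := Polynomial.finite_setOfPred_isRoot hne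
  have hsub : {t : Ω | (M0 + t • M1).rank = ρ ∧ t ∉ S}ᶜ ⊆ {t : Ω | (DB M0 M1 B B).IsRoot t} ∪ S := by
    intro t ht
    by_cases hts : t ∈ S
    · exact Or.inr hts
    · left
      have h2 : (M0 + t • M1).rank ≠ ρ := fun h => ht ⟨h, hts⟩
      show (DB M0 M1 B B).eval t = 0
      rw [DB_eval]
      exact det_low B B (by rw [Fintype.card_fin]; exact lt_of_le_of_ne (hr t) h2)
  have hfin := (hf.union hS).subset hsub
  intro hfin2
  have := hfin2.union hfin
  rw [Set.union_compl_self] at this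
  exact Set.infinite_univ this

/-- the bordered minor -/
def Qm (B : Matrix ι (Fin ρ) Ω) (x φ : ι → Ω) (M : Matrix ι ι Ω) :
    Matrix (Fin ρ ⊕ Unit) (Fin ρ ⊕ Unit) Ω :=
  Matrix.fromBlocks (Bᵀ * M * B) (Matrix.of fun i _ => ((Bᵀ * M) *ᵥ x) i)
    (Matrix.of fun _ j => (φ ᵥ* B) j) (Matrix.of fun _ _ => φ ⬝ᵥ x)

/-- the bordered minor, linear part -/
def Qm1 (B : Matrix ι (Fin ρ) Ω) (x : ι → Ω) (M : Matrix ι ι Ω) :
    Matrix (Fin ρ ⊕ Unit) (Fin ρ ⊕ Unit) Ω :=
  Matrix.fromBlocks (Bᵀ * M * B) (Matrix.of fun i _ => ((Bᵀ * M) *ᵥ x) i) 0 0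

theorem Qm_add (B : Matrix ι (Fin ρ) Ω) (x φ : ι → Ω) (t : Ω) :
    Qm B x φ M0 + t • Qm1 B x M1 = Qm B x φ (M0 + t • M1) := by
  unfold Qm Qm1
  rw [Matrix.fromBlocks_smul, Matrix.fromBlocks_add, smul_zero, smul_zero, add_zero, add_zero]
  congr 1
  · rw [Matrix.mul_add, Matrix.add_mul, Matrix.mul_smul, Matrix.smul_mul]
  · ext i j
    simp only [Matrix.add_apply, Matrix.smul_apply, Matrix.of_apply, Matrix.mul_add,
      Matrix.add_mulVec, Matrix.mul_smul, Matrix.smul_mulVec, Pi.add_apply, Pi.smul_apply]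

theorem Qm_det_zero (B : Matrix ι (Fin ρ) Ω) (x y : ι → Ω) {M : Matrix ι ι Ω}
    (h : M.rank ≤ ρ) : (Qm B x (y ᵥ* M) M).det = 0 := by
  let A : Matrix ι (Fin ρ ⊕ Unit) Ω := Matrix.of fun i => Sum.elim (B i) fun _ => y i
  let A' : Matrix ι (Fin ρ ⊕ Unit) Ω := Matrix.of fun i => Sum.elim (B i) fun _ => x i
  have e : Qm B x (y ᵥ* M) M = Aᵀ * M * A' := by
    ext (i | i) (j | j)
    · rfl
    · rfl
    · rfl
    · rfl
  rw [e]
  apply det_low
  rw [Fintype.card_sum, Fintype.card_fin, Fintype.card_unit]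
  omega

theorem Qm_det (B : Matrix ι (Fin ρ) Ω) (x φ : ι → Ω) {M : Matrix ι ι Ω} (h : M *ᵥ x = 0) :
    (Qm B x φ M).det = (Bᵀ * M * B).det * (φ ⬝ᵥ x) := by
  unfold Qm
  have e : (Matrix.of fun (i : Fin ρ) (_ : Unit) => ((Bᵀ * M) *ᵥ x) i) = 0 := by
    ext i j
    rw [Matrix.of_apply, ← Matrix.mulVec_mulVec, h, Matrix.mulVec_zero]
    rfl
  rw [e, Matrix.det_fromBlocks_zero₁₂]
  congr 1
  rw [Matrix.det_unique]
  rfl

theorem dual_eq (f : Module.Dual Ω (ι → Ω)) (v : ι → Ω) :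
    f v = (fun i => f (Pi.single i 1)) ⬝ᵥ v := by
  rw [LinearMap.pi_apply_eq_sum_univ f v]
  simp only [dotProduct, smul_eq_mul]
  refine Finset.sum_congr rfl fun i _ => ?_
  rw [mul_comm]
  congr 2
  funext j
  rw [Pi.single_apply]
  simp only [eq_comm]

/-- the span of the kernels at the points outside of `S` -/
def VS (ρ : ℕ) (M0 M1 : Matrix ι ι Ω) (S : Set Ω) : Submodule Ω (ι → Ω) :=
  ⨆ t : Ω, ⨆ _ : (M0 + t • M1).rank = ρ ∧ t ∉ S, LinearMap.ker (M0 + t • M1).mulVecLin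

theorem ker_le_VS [Infinite Ω] (h0 : M0.IsSymm) (h1 : M1.IsSymm)
    (hr : ∀ t : Ω, (M0 + t • M1).rank ≤ ρ) {t1 : Ω} (ht1 : (M0 + t1 • M1).rank = ρ)
    (S : Set Ω) (hS : S.Finite) :
    LinearMap.ker (M0 + t1 • M1).mulVecLin ≤ VS ρ M0 M1 S := by
  intro x hx
  by_contra hxV
  obtain ⟨f, hf, hfV⟩ := Submodule.exists_dual_map_eq_bot_of_notMem hxV inferInstance
  set φ : ι → Ω := fun i => f (Pi.single i 1) with hφ
  have hfφ : ∀ v, f v = φ ⬝ᵥ v := dual_eq f
  have hfK : ∀ t : Ω, (M0 + t • M1).rank = ρ → t ∉ S →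
      ∀ v ∈ LinearMap.ker (M0 + t • M1).mulVecLin, f v = 0 := by
    intro t ht htS v hv
    have h2 : v ∈ VS ρ M0 M1 S := by
      refine (le_iSup₂_of_le (f := fun (t : Ω) (_ : (M0 + t • M1).rank = ρ ∧ t ∉ S) =>
        LinearMap.ker (M0 + t • M1).mulVecLin) t ⟨ht, htS⟩ le_rfl) hv
    have h3 : f v ∈ (VS ρ M0 M1 S).map f := Submodule.mem_map_of_mem h2
    rw [hfV] at h3
    exact (Submodule.mem_bot Ω).1 h3
  obtain ⟨B, hB⟩ := exists_B (symm_pencil h0 h1 t1) ht1
  have hP : DP (Qm B x φ M0) (Qm1 B x M1) = 0 := by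
    apply Polynomial.eq_zero_of_infinite_isRoot
    refine (infinite_good h0 h1 hr ⟨t1, ht1⟩ S hS).mono ?_
    rintro t ⟨ht, htS⟩
    show (DP (Qm B x φ M0) (Qm1 B x M1)).eval t = 0
    rw [DP_eval, Qm_add]
    have h4 : f ∈ (LinearMap.ker (M0 + t • M1).mulVecLin).dualAnnihilator :=
      (Submodule.mem_dualAnnihilator f).2 fun v hv => hfK t ht htS v hv
    rw [← LinearMap.range_dualMap_eq_dualAnnihilator_ker] at h4
    obtain ⟨g, hg⟩ := h4
    set y : ι → Ω := fun i => g (Pi.single i 1) with hy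
    have hgy : ∀ v, g v = y ⬝ᵥ v := dual_eq g
    have h5 : φ = y ᵥ* (M0 + t • M1) := by
      funext i
      have h6 : f (Pi.single i 1) = g ((M0 + t • M1).mulVecLin (Pi.single i 1)) := by
        rw [← hg]; rfl
      show f (Pi.single i 1) = _
      rw [h6, hgy, Matrix.mulVecLin_apply, Matrix.dotProduct_mulVec, dotProduct_single, mul_one]
    rw [h5]
    exact Qm_det_zero B x y (hr t)
  have h7 : (DP (Qm B x φ M0) (Qm1 B x M1)).eval t1 = 0 := by rw [hP, Polynomial.eval_zero]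
  rw [DP_eval, Qm_add, Qm_det B x φ (show (M0 + t1 • M1) *ᵥ x = 0 from hx)] at h7
  rcases mul_eq_zero.1 h7 with h8 | h8
  · exact hB h8
  · exact hf (by rw [hfφ]; exact h8)

theorem VP_le_VS [Infinite Ω] (h0 : M0.IsSymm) (h1 : M1.IsSymm)
    (hr : ∀ t : Ω, (M0 + t • M1).rank ≤ ρ) (S : Set Ω) (hS : S.Finite) :
    VP ρ M0 M1 ≤ VS ρ M0 M1 S :=
  iSup₂_le fun _ ht => ker_le_VS h0 h1 hr ht S hS

theorem VS_le {S : Set Ω} {N : Submodule Ω (ι → Ω)} (h : ∀ t : Ω, (M0 + t • M1).rank = ρ → t ∉ S →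
    ∀ v : ι → Ω, (M0 + t • M1) *ᵥ v = 0 → v ∈ N) : VS ρ M0 M1 S ≤ N :=
  iSup₂_le fun t ht v hv => h t ht.1 ht.2 v hv

/-- independent configurations -/
def Conf (ρ : ℕ) (M0 M1 : Matrix ι ι Ω) (j : ℕ) : Prop :=
  ∃ (p : Fin j → Ω) (v : Fin j → ι → Ω) (q : Ω), Function.Injective p ∧
    (∀ i, (M0 + p i • M1).rank = ρ) ∧ (M0 + q • M1).rank = ρ ∧
    (∀ i, (M0 + p i • M1) *ᵥ v i = 0) ∧ (∀ i, v i ≠ 0) ∧
    Disjoint (Submodule.span Ω (Set.range v)) (LinearMap.ker (M0 + q • M1).mulVecLin)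

theorem not_conf [Infinite Ω] {μ : Type} [Fintype μ] {s : ℕ} (h0 : M0.IsSymm) (h1 : M1.IsSymm)
    (hρ : ρ = 2 * s + Fintype.card μ) (hr : ∀ t : Ω, (M0 + t • M1).rank ≤ ρ)
    {θ : μ → Ω} (hθ : Function.Injective θ) (hθr : ∀ j, (M0 + θ j • M1).rank < ρ) :
    ¬ Conf ρ M0 M1 (s + 1) := by
  rintro ⟨p, v, q, hp, hpr, hq, hv, hv0, hd⟩
  obtain ⟨B, hB1, hB2⟩ := exB (ρ := ρ) _ _ hd (by
    have := finrank_ker (M0 + q • M1); omega)
  have hz : DB M0 M1 B B = 0 := by
    apply DB_zero h0 h1 hρ hr hθ hθr B hp hpr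
    intro i
    obtain ⟨c, hc⟩ := hB2 (v i) (Submodule.subset_span ⟨i, rfl⟩)
    rw [DB_eval]
    apply det_zero_of B (c := c)
    · intro h
      rw [h, Matrix.mulVec_zero] at hc
      exact hv0 i hc.symm
    · rw [hc]; exact hv i
  have h2 := det_ne (symm_pencil h0 h1 q) hq B fun c hc => hB1 c hc
  rw [← DB_eval, hz] at h2
  exact h2 Polynomial.eval_zero

end

end ModPEN

open ModPEN

theorem pen : StmPEN.{u} := by
  intro Ω _ _ ι μ _ _ _ ρ s M0 M1 h0 h1 hρ hr hg ⟨θ, hθ, hθr⟩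
  -- the maximal configuration
  have hc0 : Conf ρ M0 M1 0 := by
    obtain ⟨q, hq⟩ := hg
    refine ⟨Fin.elim0, Fin.elim0, q, fun i => i.elim0, fun i => i.elim0, hq, fun i => i.elim0,
      fun i => i.elim0, ?_⟩
    rw [Set.range_eq_empty, Submodule.span_empty]
    exact disjoint_bot_left
  have hcs := not_conf h0 h1 hρ hr hθ hθr
  obtain ⟨j, hjs, hj, hj1⟩ : ∃ j ≤ s, Conf ρ M0 M1 j ∧ ¬ Conf ρ M0 M1 (j + 1) := by
    by_contra hcon
    push Not at hcon
    have : ∀ j ≤ s + 1, Conf ρ M0 M1 j := by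
      intro j
      induction j with
      | zero => intro _; exact hc0
      | succ j ih => intro hj; exact hcon j (by omega) (ih (by omega))
    exact hcs (this (s + 1) le_rfl)
  obtain ⟨p, v, q, hp, hpr, hq, hv, hv0, hd⟩ := hj
  set U := Submodule.span Ω (Set.range v) with hU
  set Kq := LinearMap.ker (M0 + q • M1).mulVecLin with hKq
  -- all kernels are contained in `U ⊔ Kq`
  have hVS : VS ρ M0 M1 (Set.range p) ≤ U ⊔ Kq := by
    apply VS_le
    intro t ht htp w hw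
    by_contra hwU
    apply hj1
    refine ⟨Fin.cons t p, Fin.cons w v, q, ?_, ?_, hq, ?_, ?_, ?_⟩
    · exact Fin.cons_injective_iff.2 ⟨htp, hp⟩
    · intro i
      refine Fin.cases ?_ (fun i => ?_) i
      · exact ht
      · exact hpr i
    · intro i
      refine Fin.cases ?_ (fun i => ?_) i
      · exact hw
      · exact hv i
    · intro i
      refine Fin.cases ?_ (fun i => ?_) i
      · intro h
        have h2 : w = 0 := h
        exact hwU (by rw [h2]; exact Submodule.zero_mem _)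
      · exact hv0 i
    · rw [Fin.range_cons, Submodule.disjoint_def]
      intro z hz hzq
      rw [Submodule.mem_span_insert] at hz
      obtain ⟨a, z', hz', rfl⟩ := hz
      by_cases ha : a = 0
      · rw [ha, zero_smul, zero_add] at hzq ⊢
        exact (Submodule.disjoint_def.1 hd) z' hz' hzq
      · exfalso
        apply hwU
        have h2 : w = a⁻¹ • ((a • w + z') - z') := by
          rw [add_sub_cancel_right, smul_smul, inv_mul_cancel₀ ha, one_smul]
        rw [h2]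
        apply Submodule.smul_mem
        apply Submodule.sub_mem
        · exact Submodule.mem_sup_right hzq
        · exact Submodule.mem_sup_left hz'
  have hVU : VP ρ M0 M1 ≤ U ⊔ Kq := (VP_le_VS h0 h1 hr _ (Set.finite_range p)).trans hVS
  have hUj : finrank Ω U ≤ j := by
    have := finrank_range_le_card (R := Ω) v
    rw [Fintype.card_fin] at this
    exact this
  have hKf : finrank Ω Kq + ρ = Fintype.card ι := by
    have := finrank_ker (M0 + q • M1)
    rw [hq] at this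
    exact this
  refine ⟨?_, ?_, ?_⟩
  · have h2 := Submodule.finrank_mono hVU
    have h3 := Submodule.finrank_add_le_finrank_add_finrank U Kq
    omega
  · -- the image
    have h2 : WP ρ M0 M1 ≤ (VP ρ M0 M1).map (M0 + q • M1).mulVecLin := by
      have h3 : ∀ t : Ω, (M0 + t • M1).rank = ρ → t ∉ ({q} : Set Ω) → ∀ w : ι → Ω,
          (M0 + t • M1) *ᵥ w = 0 → M1 *ᵥ w ∈ (VP ρ M0 M1).map (M0 + q • M1).mulVecLin := by
        intro t ht htq w hw
        have hne : q - t ≠ 0 := sub_ne_zero.2 fun h => htq (by rw [h]; rfl)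
        have hwV : w ∈ VP ρ M0 M1 :=
          (le_iSup₂_of_le (f := fun (t : Ω) (_ : (M0 + t • M1).rank = ρ) =>
            LinearMap.ker (M0 + t • M1).mulVecLin) t ht le_rfl) hw
        have e : (M0 + q • M1) *ᵥ w = (q - t) • (M1 *ᵥ w) := by
          rw [Matrix.add_mulVec, Matrix.smul_mulVec] at hw ⊢
          rw [sub_smul]
          have : M0 *ᵥ w = -(t • M1 *ᵥ w) := eq_neg_of_add_eq_zero_left hw
          rw [this]
          abel
        refine ⟨(q - t)⁻¹ • w, Submodule.smul_mem _ _ hwV, ?_⟩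
        rw [Matrix.mulVecLin_apply, Matrix.mulVec_smul, e, smul_smul, inv_mul_cancel₀ hne,
          one_smul]
      have hV := VP_le_VS h0 h1 hr ({q} : Set Ω) (Set.finite_singleton q)
      unfold WP
      refine sup_le ?_ ?_
      · rw [Submodule.map_le_iff_le_comap]
        refine hV.trans (VS_le fun t ht htq w hw => ?_)
        rw [Submodule.mem_comap, Matrix.mulVecLin_apply]
        have e : M0 *ᵥ w = -(t • M1 *ᵥ w) := by
          rw [Matrix.add_mulVec, Matrix.smul_mulVec] at hw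
          exact eq_neg_of_add_eq_zero_left hw
        rw [e]
        exact Submodule.neg_mem _ (Submodule.smul_mem _ _ (h3 t ht htq w hw))
      · rw [Submodule.map_le_iff_le_comap]
        refine hV.trans (VS_le fun t ht htq w hw => ?_)
        rw [Submodule.mem_comap, Matrix.mulVecLin_apply]
        exact h3 t ht htq w hw
    have h4 : (VP ρ M0 M1).map (M0 + q • M1).mulVecLin ≤ U.map (M0 + q • M1).mulVecLin := by
      refine (Submodule.map_mono hVU).trans ?_
      rw [Submodule.map_sup]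
      refine sup_le le_rfl ?_
      rw [Submodule.map_le_iff_le_comap]
      intro w hw
      rw [Submodule.mem_comap]
      have : (M0 + q • M1).mulVecLin w = 0 := hw
      rw [this]
      exact Submodule.zero_mem _
    have h5 := Submodule.finrank_mono (h2.trans h4)
    have h6 := Submodule.finrank_map_le (M0 + q • M1).mulVecLin U
    omega
  · -- isotropy
    intro x hx y hy
    have hsym : ∀ (M : Matrix ι ι Ω), M.IsSymm → ∀ a b : ι → Ω, a ⬝ᵥ (M *ᵥ b) = (M *ᵥ a) ⬝ᵥ b := by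
      intro M hM a b
      rw [Matrix.dotProduct_mulVec, ← Matrix.mulVec_transpose, hM.eq]
    let N : (ι → Ω) → Submodule Ω (ι → Ω) := fun a =>
      { carrier := {b | a ⬝ᵥ (M0 *ᵥ b) = 0 ∧ a ⬝ᵥ (M1 *ᵥ b) = 0}
        add_mem' := by
          rintro b b' ⟨h2, h3⟩ ⟨h4, h5⟩
          refine ⟨?_, ?_⟩
          · rw [Matrix.mulVec_add, dotProduct_add, h2, h4, add_zero]
          · rw [Matrix.mulVec_add, dotProduct_add, h3, h5, add_zero]
        zero_mem' := by
          refine ⟨?_, ?_⟩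
          · rw [Matrix.mulVec_zero, dotProduct_zero]
          · rw [Matrix.mulVec_zero, dotProduct_zero]
        smul_mem' := by
          rintro c b ⟨h2, h3⟩
          refine ⟨?_, ?_⟩
          · rw [Matrix.mulVec_smul, dotProduct_smul, h2, smul_zero]
          · rw [Matrix.mulVec_smul, dotProduct_smul, h3, smul_zero] }
    have hN : ∀ a b, b ∈ N a ↔ a ⬝ᵥ (M0 *ᵥ b) = 0 ∧ a ⬝ᵥ (M1 *ᵥ b) = 0 := fun a b => Iff.rfl
    have hNs : ∀ a b, b ∈ N a → a ∈ N b := by
      intro a b h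
      rw [hN] at h ⊢
      rw [hsym M0 h0, dotProduct_comm, hsym M1 h1, dotProduct_comm (M1 *ᵥ b)]
      exact h
    have key : ∀ t : Ω, (M0 + t • M1).rank = ρ → ∀ a : ι → Ω, (M0 + t • M1) *ᵥ a = 0 →
        VP ρ M0 M1 ≤ N a := by
      intro t ht a ha
      refine (VP_le_VS h0 h1 hr ({t} : Set Ω) (Set.finite_singleton t)).trans
        (VS_le fun t' ht' htt b hb => ?_)
      have hne : t - t' ≠ 0 := sub_ne_zero.2 fun h => htt (by rw [h]; rfl)
      have e1 : a ⬝ᵥ ((M0 + t • M1) *ᵥ b) = 0 := by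
        rw [hsym _ (symm_pencil h0 h1 t), ha, zero_dotProduct]
      have e2 : a ⬝ᵥ ((M0 + t' • M1) *ᵥ b) = 0 := by rw [hb, dotProduct_zero]
      rw [Matrix.add_mulVec, Matrix.smul_mulVec, dotProduct_add, dotProduct_smul,
        smul_eq_mul] at e1 e2
      have e3 : (t - t') * (a ⬝ᵥ (M1 *ᵥ b)) = 0 := by linear_combination e1 - e2
      have e4 : a ⬝ᵥ (M1 *ᵥ b) = 0 := (mul_eq_zero.1 e3).resolve_left hne
      rw [e4, mul_zero, add_zero] at e1
      exact ⟨e1, e4⟩
    have hfin : VP ρ M0 M1 ≤ N y := by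
      refine iSup₂_le fun t ht a ha => ?_
      exact hNs _ _ (key t ht a ha hy)
    have h9 : x ∈ N y := hfin hx
    exact (hN x y).1 (hNs _ _ h9)

end Pool.Agent.T6.H97.CS
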