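import Pool.Agent.T6.H97.CS.Defs2

/-!
MP_f9dfcb_ag. Module PLU: properties of the larger matrix (helper42).
-/

set_option autoImplicit false

universe u

namespace Pool.Agent.T6.H97.CS

open Finset Matrix Module

namespace ModPlu

variable {Ω : Type u} [Field Ω] {σ ε μ γ : Type}

/-- extension by zero -/
def ext0 (Ω : Type u) [Field Ω] (σ ε μ γ : Type) :
    (σ ⊕ (μ ⊕ γ) → Ω) →ₗ[Ω] ((σ ⊕ ε) ⊕ (μ ⊕ γ) → Ω) where
  toFun z := Sum.elim (Sum.elim (fun i => z (.inl i)) (fun _ => 0)) (fun j => z (.inr j))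
  map_add' x y := by
    funext i
    rcases i with (i | i) | i <;> simp
  map_smul' c x := by
    funext i
    rcases i with (i | i) | i <;> simp

lemma ext0_inj : Function.Injective (ext0 Ω σ ε μ γ) := by
  intro x y h
  funext i
  rcases i with i | i
  · have := congrFun h (.inl (.inl i))
    simpa [ext0] using this
  · have := congrFun h (.inr i)
    simpa [ext0] using this

variable [Fintype σ] [Fintype ε] [Fintype μ] [Fintype γ]

/-- the other rows -/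
def oth (S : Matrix ((σ ⊕ ε) ⊕ (μ ⊕ γ)) ((σ ⊕ ε) ⊕ (μ ⊕ γ)) Ω) :
    Matrix ε (σ ⊕ (μ ⊕ γ)) Ω :=
  Matrix.of fun e j => S (.inl (.inr e)) (Sum.map Sum.inl id j)

lemma plus_ext0 (M : Matrix (σ ⊕ (μ ⊕ γ)) (σ ⊕ (μ ⊕ γ)) Ω)
    (S : Matrix ((σ ⊕ ε) ⊕ (μ ⊕ γ)) ((σ ⊕ ε) ⊕ (μ ⊕ γ)) Ω) (z : σ ⊕ (μ ⊕ γ) → Ω)
    (h1 : M *ᵥ z = 0) (h2 : oth S *ᵥ z = 0) : plus M S *ᵥ (ext0 Ω σ ε μ γ z) = 0 := by
  funext i
  rcases i with (i | i) | i
  · have e := congrFun h1 (.inl i)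
    simp only [Matrix.mulVec, dotProduct, Fintype.sum_sum_type, Pi.zero_apply] at e
    simp only [Matrix.mulVec, dotProduct, Fintype.sum_sum_type, Pi.zero_apply, plus, ext0,
      LinearMap.coe_mk, AddHom.coe_mk, Matrix.of_apply, Sum.elim_inl, Sum.elim_inr, mul_zero,
      Finset.sum_const_zero, add_zero]
    exact e
  · have e := congrFun h2 i
    simp only [Matrix.mulVec, dotProduct, Fintype.sum_sum_type, Pi.zero_apply, oth,
      Matrix.of_apply, Sum.map_inl, Sum.map_inr, id] at e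
    simp only [Matrix.mulVec, dotProduct, Fintype.sum_sum_type, Pi.zero_apply, plus, ext0,
      LinearMap.coe_mk, AddHom.coe_mk, Matrix.of_apply, Sum.elim_inl, Sum.elim_inr, mul_zero,
      Finset.sum_const_zero, add_zero]
    exact e
  · have e := congrFun h1 (.inr i)
    simp only [Matrix.mulVec, dotProduct, Fintype.sum_sum_type, Pi.zero_apply] at e
    simp only [Matrix.mulVec, dotProduct, Fintype.sum_sum_type, Pi.zero_apply, plus, ext0,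
      LinearMap.coe_mk, AddHom.coe_mk, Matrix.of_apply, Sum.elim_inl, Sum.elim_inr, mul_zero,
      Finset.sum_const_zero, add_zero]
    exact e

/-- both conditions -/
def phi (M : Matrix (σ ⊕ (μ ⊕ γ)) (σ ⊕ (μ ⊕ γ)) Ω)
    (S : Matrix ((σ ⊕ ε) ⊕ (μ ⊕ γ)) ((σ ⊕ ε) ⊕ (μ ⊕ γ)) Ω) :
    (σ ⊕ (μ ⊕ γ) → Ω) →ₗ[Ω] (σ ⊕ (μ ⊕ γ) → Ω) × (ε → Ω) :=
  M.mulVecLin.prod (oth S).mulVecLin

lemma fr_phi (M : Matrix (σ ⊕ (μ ⊕ γ)) (σ ⊕ (μ ⊕ γ)) Ω)
    (S : Matrix ((σ ⊕ ε) ⊕ (μ ⊕ γ)) ((σ ⊕ ε) ⊕ (μ ⊕ γ)) Ω) :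
    Fintype.card σ + Fintype.card μ + Fintype.card γ ≤
      finrank Ω (LinearMap.ker (phi M S)) + M.rank + Fintype.card ε := by
  have h1 := LinearMap.finrank_range_add_finrank_ker (phi M S)
  have h2 : finrank Ω (LinearMap.range (phi M S)) ≤ M.rank + Fintype.card ε := by
    have h3 : LinearMap.range (phi M S) ≤
        LinearMap.range ((LinearMap.range M.mulVecLin).subtype.prodMap
          (LinearMap.id : (ε → Ω) →ₗ[Ω] (ε → Ω))) := by
      rintro _ ⟨z, rfl⟩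
      exact ⟨(⟨M.mulVecLin z, ⟨z, rfl⟩⟩, (oth S).mulVecLin z), rfl⟩
    refine (Submodule.finrank_mono h3).trans ?_
    refine (LinearMap.finrank_range_le _).trans ?_
    rw [Module.finrank_prod, Module.finrank_fintype_fun_eq_card]
    exact le_rfl
  rw [Module.finrank_fintype_fun_eq_card, Fintype.card_sum, Fintype.card_sum] at h1
  omega

lemma fr_plus (M : Matrix (σ ⊕ (μ ⊕ γ)) (σ ⊕ (μ ⊕ γ)) Ω)
    (S : Matrix ((σ ⊕ ε) ⊕ (μ ⊕ γ)) ((σ ⊕ ε) ⊕ (μ ⊕ γ)) Ω) :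
    (plus M S).rank + finrank Ω (LinearMap.ker (plus M S).mulVecLin) =
      Fintype.card σ + Fintype.card ε + Fintype.card μ + Fintype.card γ := by
  have h1 := LinearMap.finrank_range_add_finrank_ker (plus M S).mulVecLin
  rw [Module.finrank_fintype_fun_eq_card, Fintype.card_sum, Fintype.card_sum,
    Fintype.card_sum] at h1
  have h2 : (plus M S).rank = finrank Ω (LinearMap.range (plus M S).mulVecLin) := rfl
  omega

lemma map_le (M : Matrix (σ ⊕ (μ ⊕ γ)) (σ ⊕ (μ ⊕ γ)) Ω)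
    (S : Matrix ((σ ⊕ ε) ⊕ (μ ⊕ γ)) ((σ ⊕ ε) ⊕ (μ ⊕ γ)) Ω) :
    (LinearMap.ker (phi M S)).map (ext0 Ω σ ε μ γ) ≤ LinearMap.ker (plus M S).mulVecLin := by
  rintro _ ⟨z, hz, rfl⟩
  have hz1 : phi M S z = 0 := hz
  have h1 : M *ᵥ z = 0 := congrArg Prod.fst hz1
  have h2 : oth S *ᵥ z = 0 := congrArg Prod.snd hz1
  exact plus_ext0 M S z h1 h2

lemma fr_map (M : Matrix (σ ⊕ (μ ⊕ γ)) (σ ⊕ (μ ⊕ γ)) Ω)
    (S : Matrix ((σ ⊕ ε) ⊕ (μ ⊕ γ)) ((σ ⊕ ε) ⊕ (μ ⊕ γ)) Ω) :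
    finrank Ω ((LinearMap.ker (phi M S)).map (ext0 Ω σ ε μ γ)) =
      finrank Ω (LinearMap.ker (phi M S)) :=
  (Submodule.equivMapOfInjective _ ext0_inj _).finrank_eq.symm

end ModPlu

open ModPlu in
/-- Module PLU -/
theorem plu : StmPLU.{u} := by
  intro Ω _ σ ε μ γ _ _ _ _ _ _ _ _ M S
  have h1 := fr_phi M S
  have h2 := fr_plus M S
  have h3 := Submodule.finrank_mono (map_le M S)
  rw [fr_map] at h3
  refine ⟨by omega, ?_⟩
  intro _ _ _ _ hr hM x hx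
  have h4 : (LinearMap.ker (phi M S)).map (ext0 Ω σ ε μ γ) =
      LinearMap.ker (plus M S).mulVecLin :=
    Submodule.eq_of_le_of_finrank_le (map_le M S) (by rw [fr_map]; omega)
  have h5 : x ∈ LinearMap.ker (plus M S).mulVecLin := hx
  rw [← h4] at h5
  obtain ⟨z, hz, rfl⟩ := h5
  have hz1 : phi M S z = 0 := hz
  have h6 : M *ᵥ z = 0 := congrArg Prod.fst hz1
  refine ⟨fun e => rfl, ?_⟩
  have h7 : (fun i => ext0 Ω σ ε μ γ z (Sum.map Sum.inl id i)) = z := by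
    funext i
    rcases i with i | i <;> rfl
  rw [h7]
  exact h6

end Pool.Agent.T6.H97.CS
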