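import Mathlib
import Pool.Agent.T6.H97.CS.Defs2

/-!
MP_f9dfcb_ag. Module QUU: the polynomial kernel vector of a net.
-/

set_option autoImplicit false

universe u

namespace Pool.Agent.T6.H97.CS

open Finset Matrix Module MvPolynomial

namespace ModQUU

/-- The adjugate of a singular matrix has rank at most one. -/
theorem adj_rank_one {R : Type*} [CommRing R] [IsDomain R] {N : Type*} [Fintype N] [DecidableEq N]
    (M : Matrix N N R) (h : M.det = 0) (i j k l : N) :
    M.adjugate i j * M.adjugate k l = M.adjugate i l * M.adjugate k j := by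
  by_cases h0 : ∃ j0, M.adjugate i j0 ≠ 0
  · obtain ⟨j0, hj0⟩ := h0
    rw [Matrix.adjugate_apply] at hj0
    have hz : M * M.adjugate = 0 := by rw [Matrix.mul_adjugate, h, zero_smul]
    have hcol : ∀ m l, ∑ k, M m k * M.adjugate k l = 0 := fun m l => by
      have := congrFun (congrFun hz m) l
      simpa [Matrix.mul_apply] using this
    have key := Matrix.eq_zero_of_mulVec_eq_zero hj0
      (v := fun k => M.adjugate i j * M.adjugate k l - M.adjugate i l * M.adjugate k j) (by
        funext m
        by_cases hm : m = j0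
        · subst hm
          simp only [Matrix.mulVec, Matrix.updateRow_self, single_dotProduct, Pi.zero_apply]
          ring
        · simp only [Matrix.mulVec, dotProduct, Matrix.updateRow_ne hm, Pi.zero_apply]
          calc ∑ k, M m k * (M.adjugate i j * M.adjugate k l - M.adjugate i l * M.adjugate k j)
              = M.adjugate i j * ∑ k, M m k * M.adjugate k l -
                M.adjugate i l * ∑ k, M m k * M.adjugate k j := by
                rw [Finset.mul_sum, Finset.mul_sum, ← Finset.sum_sub_distrib]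
                exact Finset.sum_congr rfl fun k _ => by ring
            _ = 0 := by rw [hcol, hcol]; ring)
    exact sub_eq_zero.1 (congrFun key k)
  · push Not at h0
    rw [h0, h0]; simp

/-- Division by a non zero element which divides all multiples by a primitive family. -/
theorem prim_dvd {R : Type*} [CommRing R] [IsDomain R] [UniqueFactorizationMonoid R] {ι : Type*}
    (u : ι → R) (hu : ∀ p, Prime p → ∃ i, ¬ p ∣ u i) (a : R) :
    a ≠ 0 → ∀ b, (∀ i, a ∣ b * u i) → a ∣ b := by
  induction a using UniqueFactorizationMonoid.induction_on_prime with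
  | h₁ => intro ha; exact absurd rfl ha
  | h₂ x hx => intro _ b _; exact hx.dvd
  | h₃ a p ha0 hp ih =>
    intro _ b hb
    obtain ⟨i, hi⟩ := hu p hp
    have hpb : p ∣ b := (hp.dvd_or_dvd ((dvd_mul_right p a).trans (hb i))).resolve_right hi
    obtain ⟨b', rfl⟩ := hpb
    have := ih ha0 b' (fun i => by
      have := hb i
      rw [mul_assoc] at this
      exact (mul_dvd_mul_iff_left hp.ne_zero).1 this)
    exact mul_dvd_mul_left p this

/-- The matrix of linear polynomials of a net. -/
noncomputable def net {R : Type*} [CommRing R] {ι : Type*} (M0 M1 M2 : Matrix ι ι R) :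
    Matrix ι ι (MvPolynomial (Fin 2) R) :=
  Matrix.of fun i j => C (M0 i j) + X 0 * C (M1 i j) + X 1 * C (M2 i j)

theorem net_map {R S : Type*} [CommRing R] [CommRing S] (f : R →+* S) {ι : Type*}
    (M0 M1 M2 : Matrix ι ι R) :
    (net M0 M1 M2).map (MvPolynomial.map f) = net (M0.map f) (M1.map f) (M2.map f) := by
  ext1 i j
  simp [net]

/-- The determinant of a net of singular matrices. -/
theorem net_det {F : Type*} [Field F] [Infinite F] {ι : Type*} [Fintype ι] [DecidableEq ι]
    (M0 M1 M2 : Matrix ι ι F) (h : ∀ t w : F, (M0 + t • M1 + w • M2).det = 0) :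
    (net M0 M1 M2).det = 0 := by
  apply MvPolynomial.funext
  intro x
  rw [map_zero, RingHom.map_det, ← h (x 0) (x 1)]
  congr 1
  ext i j
  simp [net]

/-- The kernel vector and ring homomorphisms. -/
theorem kv_map {R S : Type*} [CommRing R] [CommRing S] (f : R →+* S) {β : Type} [Fintype β]
    [DecidableEq β] (c : Matrix β (Option β) R) (y : Option β) :
    f (kv c y) = kv (c.map f) y := by
  unfold kv
  rw [RingHom.map_det]
  congr 1
  ext z x
  cases z with
  | none =>
    simp only [RingHom.mapMatrix_apply, Matrix.map_apply, Matrix.of_apply, Pi.single_apply]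
    split_ifs <;> simp
  | some a => simp

theorem starC_map {R S : Type*} [CommRing R] [CommRing S] (f : R →+* S) {β : Type}
    [DecidableEq β] (g : Option β → R) (a : β) (y : Option β) :
    f (starC g a y) = starC (fun y => f (g y)) a y := by
  cases y with
  | none => simp [starC]
  | some b =>
    simp only [starC, Matrix.of_apply]
    split_ifs <;> simp

/-- The block `c` of the net and ring homomorphisms. -/
theorem cP_map {K κ : Type u} [Field K] [Field κ] (f : K →+* κ) {β : Type} [DecidableEq β]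
    (lam : Option β → K) (c : Matrix β (Option β) K) :
    (cP lam c).map (MvPolynomial.map f) = cP (fun y => f (lam y)) (c.map f) := by
  ext1 a y
  simp only [cP, Matrix.map_apply, Matrix.of_apply, map_add, map_mul, MvPolynomial.map_X,
    MvPolynomial.map_C, starC_map, map_sub]

theorem good_map {K κ : Type u} [Field K] [Field κ] (f : K →+* κ) {β μ : Type}
    (lam : Option β → K) (th : μ → K) (h : Good lam th) :
    Good (fun y => f (lam y)) (fun j => f (th j)) := by
  obtain ⟨h1, h2, h3, h4, h5⟩ := h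
  refine ⟨fun x y hxy => h1 (f.injective hxy), fun y => (map_ne_zero f).2 (h2 y),
    fun x y hxy => h3 (f.injective (by simpa using hxy)), fun j => (map_ne_zero f).2 (h4 j),
    fun j y hjy => h5 j y (f.injective (by simpa using hjy))⟩

/-- The reduction of the net. -/
theorem net_blk {K κ : Type u} [Field K] [Field κ] (f : K →+* κ) {β μ : Type} [DecidableEq β]
    [DecidableEq μ] (lam : Option β → K) (th : μ → K) (a : Matrix β β K) (b : Matrix β μ K)
    (c : Matrix β (Option β) K) (d : Matrix μ μ K) :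
    net ((S0 lam th).map f) ((S1 K β μ).map f) ((blk a b c d 0 0).map f) =
      blk (Matrix.of fun i j => C (f ((diagonal fun a => lam (some a) ^ 2 : Matrix β β K) i j)) +
          X 1 * C (f (a i j)) : Matrix β β (MvPolynomial (Fin 2) κ))
        (Matrix.of fun i j => X 1 * C (f (b i j)))
        (cP (fun y => f (lam y)) (c.map f)) (dP (fun j => f (th j)) (d.map f)) 0 0 := by
  have hc : ∀ (i : β) (y : Option β), (C (f (starC (fun y => -lam y) i y)) +
      X 0 * C (f (starC (fun _ => 1) i y)) + X 1 * C (f (c i y)) : MvPolynomial (Fin 2) κ) =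
      cP (fun y => f (lam y)) (c.map f) i y := by
    intro i y
    cases y with
    | none => simp [cP, starC]; ring
    | some b =>
      simp only [cP, starC, Matrix.of_apply, Matrix.map_apply]
      split_ifs
      · simp; ring
      · simp
  have hd : ∀ (i j : μ), (C (f ((diagonal fun j => -th j ^ 2 : Matrix μ μ K) i j)) +
      X 0 * C (f ((1 : Matrix μ μ K) i j)) + X 1 * C (f (d i j)) : MvPolynomial (Fin 2) κ) =
      dP (fun j => f (th j)) (d.map f) i j := by
    intro i j
    simp only [dP, Matrix.of_apply, Matrix.map_apply, Matrix.diagonal_apply, Matrix.one_apply]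
    split_ifs with hij
    · subst hij; simp; ring
    · simp
  ext1 i j
  rcases i with i | i | i <;> rcases j with j | j | j
  · simp [net, blk, S0, S1]
  · simp [net, blk, S0, S1]
  · exact hc i j
  · simp [net, blk, S0, S1]
  · exact hd i j
  · simp [net, blk, S0, S1]
  · exact hc j i
  · simp [net, blk, S0, S1]
  · simp [net, blk, S0, S1]

/-! ### The valuation ring -/

section Val

variable {Ω : Type u} [Field Ω] {Γ : Type u} [LinearOrderedCommGroupWithZero Γ]
  (v : Valuation Ω Γ)

/-- The residue field. -/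
abbrev RF : Type u := IsLocalRing.ResidueField v.valuationSubring

/-- The residue map. -/
noncomputable abbrev rs : v.valuationSubring →+* RF v := IsLocalRing.residue v.valuationSubring

theorem rs_zero (x : v.valuationSubring) : rs v x = 0 ↔ v (x : Ω) < 1 := by
  rw [IsLocalRing.residue_eq_zero_iff, IsLocalRing.mem_maximalIdeal, mem_nonunits_iff]
  rw [(Valuation.valuationSubring.integers v).isUnit_iff_valuation_eq_one]
  have hx : v (x : Ω) ≤ 1 := x.2
  exact ⟨fun h => lt_of_le_of_ne hx h, fun h => h.ne⟩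

/-- Polynomials with integral coefficients. -/
theorem lift_poly (p : MvPolynomial (Fin 2) Ω) (h : ∀ m, v (coeff m p) ≤ 1) :
    ∃ p' : MvPolynomial (Fin 2) v.valuationSubring,
      MvPolynomial.map v.valuationSubring.subtype p' = p := by
  refine ⟨∑ m ∈ p.support, monomial m (⟨coeff m p, h m⟩ : v.valuationSubring), ?_⟩
  rw [map_sum]
  conv_rhs => rw [← MvPolynomial.support_sum_monomial_coeff p]
  refine Finset.sum_congr rfl fun m _ => ?_
  rw [MvPolynomial.map_monomial]
  rfl

/-- The content of a family of polynomials. -/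
theorem content {ι : Type*} [Finite ι] (w : ι → MvPolynomial (Fin 2) Ω) (hw : ∃ i, w i ≠ 0) :
    ∃ (x : Ω) (w' : ι → MvPolynomial (Fin 2) v.valuationSubring), x ≠ 0 ∧
      (∀ i, w i = C x * MvPolynomial.map v.valuationSubring.subtype (w' i)) ∧
      ∃ i, MvPolynomial.map (rs v) (w' i) ≠ 0 := by
  classical
  have := Fintype.ofFinite ι
  set T : Finset ((_ : ι) × (Fin 2 →₀ ℕ)) := Finset.univ.sigma fun i => (w i).support with hT
  have hne : T.Nonempty := by
    obtain ⟨i, hi⟩ := hw
    obtain ⟨m, hm⟩ := MvPolynomial.support_nonempty.2 hi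
    exact ⟨⟨i, m⟩, Finset.mem_sigma.2 ⟨Finset.mem_univ _, hm⟩⟩
  obtain ⟨⟨i0, m0⟩, h0, hmax⟩ := T.exists_max_image (fun im => v (coeff im.2 (w im.1))) hne
  set x := coeff m0 (w i0) with hx
  have hx0 : x ≠ 0 := by
    have := (Finset.mem_sigma.1 h0).2
    exact MvPolynomial.mem_support_iff.1 this
  have hv0 : v x ≠ 0 := (Valuation.ne_zero_iff v).2 hx0
  have hle : ∀ i m, v (coeff m (C x⁻¹ * w i)) ≤ 1 := by
    intro i m
    rw [MvPolynomial.coeff_C_mul, map_mul, map_inv₀]
    have h1 : v (coeff m (w i)) ≤ v x := by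
      by_cases hm : m ∈ (w i).support
      · exact hmax ⟨i, m⟩ (Finset.mem_sigma.2 ⟨Finset.mem_univ _, hm⟩)
      · rw [MvPolynomial.notMem_support_iff.1 hm, map_zero]; exact zero_le
    rw [inv_mul_le_iff₀ (zero_lt_iff.2 hv0), mul_one]
    exact h1
  choose w' hw' using fun i => lift_poly v (C x⁻¹ * w i) (hle i)
  refine ⟨x, w', hx0, fun i => ?_, i0, fun h => ?_⟩
  · rw [hw', ← mul_assoc, ← C_mul, mul_inv_cancel₀ hx0, C_1, one_mul]
  · have h2 := congrArg (coeff m0) h
    rw [MvPolynomial.coeff_map, coeff_zero, rs_zero] at h2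
    have h3 := congrArg (coeff m0) (hw' i0)
    rw [MvPolynomial.coeff_map, MvPolynomial.coeff_C_mul, ← hx, inv_mul_cancel₀ hx0] at h3
    have h4 : ((coeff m0 (w' i0) : v.valuationSubring) : Ω) = 1 := h3
    rw [h4, map_one] at h2
    exact lt_irrefl _ h2

variable {K : Type u} [Field K] [Algebra K Ω]

/-- The constants are integral. -/
noncomputable def iK (hv : Triv K v) : K →+* v.valuationSubring :=
  RingHom.codRestrict (algebraMap K Ω) v.valuationSubring.toSubring fun a => by
    by_cases ha : a = 0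
    · subst ha
      rw [map_zero]
      exact zero_mem _
    · exact (hv a ha).le

theorem iK_coe (hv : Triv K v) (a : K) : ((iK v hv a : v.valuationSubring) : Ω) =
    algebraMap K Ω a := rfl

/-- The residues of the constants. -/
noncomputable def fK (hv : Triv K v) : K →+* RF v := (rs v).comp (iK v hv)

theorem near_iff (hv : Triv K v) (x : v.valuationSubring) (a : K) :
    Near v (x : Ω) a ↔ rs v x = fK v hv a := by
  rw [← sub_eq_zero]
  have : rs v x - fK v hv a = rs v (x - iK v hv a) := by rw [map_sub]; rfl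
  rw [this, rs_zero]
  rfl

theorem near_int (hv : Triv K v) (x : Ω) (a : K) (h : Near v x a) : v x ≤ 1 := by
  have h1 : v (algebraMap K Ω a) ≤ 1 := (iK v hv a).2
  have : x = (x - algebraMap K Ω a) + algebraMap K Ω a := by ring
  rw [this]
  exact (Valuation.map_add_le v h.le h1)

/-- Integral lifts of matrices. -/
theorem lift_mat (hv : Triv K v) {ι : Type} (M : Matrix ι ι Ω) (M0 : Matrix ι ι K)
    (h : NearM v M M0) : ∃ N : Matrix ι ι v.valuationSubring,
      N.map v.valuationSubring.subtype = M ∧ N.map (rs v) = M0.map (fK v hv) := by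
  refine ⟨Matrix.of fun i j => ⟨M i j, near_int v hv _ _ (h i j)⟩, ?_, ?_⟩
  · ext i j; rfl
  · ext1 i j
    exact (near_iff v hv _ _).1 (h i j)

end Val

end ModQUU

open ModQUU in
/-- Module QUU. -/
theorem quu (hU : StmUFD.{u}) (hA : StmADJ.{u}) (hS : StmSQF.{u}) : StmQUU.{u} := by
  intro K Ω _ _ _ _ Γ _ v hv β μ _ _ _ _ lam th a b c d M0 M1 M2 hG ha hd hM0 hM1 hM2 hN0 hN1 hN2
    hdet
  have : Infinite Ω := Infinite.of_injective (algebraMap K Ω) (algebraMap K Ω).injective
  -- the net over `Ω` and its lift to the valuation ring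
  obtain ⟨N0, hN0a, hN0b⟩ := lift_mat v hv M0 _ hN0
  obtain ⟨N1, hN1a, hN1b⟩ := lift_mat v hv M1 _ hN1
  obtain ⟨N2, hN2a, hN2b⟩ := lift_mat v hv M2 _ hN2
  set ψ : MvPolynomial (Fin 2) v.valuationSubring →+* MvPolynomial (Fin 2) Ω :=
    MvPolynomial.map v.valuationSubring.subtype with hψ
  set π : MvPolynomial (Fin 2) v.valuationSubring →+* MvPolynomial (Fin 2) (RF v) :=
    MvPolynomial.map (rs v) with hπ
  set f := fK v hv with hf
  have hψi : Function.Injective ψ :=
    MvPolynomial.map_injective _ Subtype.val_injective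
  set AO := (net N0 N1 N2).adjugate with hAO
  set A := (net M0 M1 M2).adjugate with hAdef
  have hψA : ∀ i j, A i j = ψ (AO i j) := by
    intro i j
    have h1 : (net N0 N1 N2).map ψ = net M0 M1 M2 := by
      rw [hψ, net_map, hN0a, hN1a, hN2a]
    have h2 := RingHom.map_adjugate ψ (net N0 N1 N2)
    rw [RingHom.mapMatrix_apply, RingHom.mapMatrix_apply, h1] at h2
    rw [hAdef, ← h2]
    rfl
  -- the reduction
  set c' : Matrix β (Option β) (MvPolynomial (Fin 2) (RF v)) :=
    cP (fun y => f (lam y)) (c.map f) with hc'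
  set d' : Matrix μ μ (MvPolynomial (Fin 2) (RF v)) := dP (fun j => f (th j)) (d.map f) with hd'
  set a' : Matrix β β (MvPolynomial (Fin 2) (RF v)) :=
    Matrix.of fun i j => C (f ((diagonal fun a => lam (some a) ^ 2 : Matrix β β K) i j)) +
      X 1 * C (f (a i j)) with ha'
  set b' : Matrix β μ (MvPolynomial (Fin 2) (RF v)) :=
    Matrix.of fun i j => X 1 * C (f (b i j)) with hb'
  have hπA : ∀ i j, π (AO i j) = (blk a' b' c' d' 0 0).adjugate i j := by
    intro i j
    have h1 : (net N0 N1 N2).map π = blk a' b' c' d' 0 0 := by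
      rw [hπ, net_map, hN0b, hN1b, hN2b]
      exact net_blk f lam th a b c d
    have h2 := RingHom.map_adjugate π (net N0 N1 N2)
    rw [RingHom.mapMatrix_apply, RingHom.mapMatrix_apply, h1] at h2
    rw [← h2]
    rfl
  obtain ⟨hS1, hS2, hS3, hS4⟩ := hS (RF v) β μ (fun y => f (lam y)) (fun j => f (th j)) (c.map f)
    (d.map f) (good_map f lam th hG)
  rw [← hc'] at hS1
  rw [← hd'] at hS2 hS4
  have ha's : a'.IsSymm := by
    ext i j
    simp only [ha', Matrix.transpose_apply, Matrix.of_apply]
    rw [ha.apply]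
    congr 3
    exact congrArg f ((Matrix.isSymm_diagonal _).apply _ _)
  have hd's : d'.IsSymm := by
    ext i j
    simp only [hd', dP, Matrix.transpose_apply, Matrix.of_apply, Matrix.map_apply]
    rw [hd.apply]
    congr 1
    by_cases hij : i = j
    · subst hij; rfl
    · rw [if_neg hij, if_neg (Ne.symm hij)]
  obtain ⟨hA1, hA2, -, -, hA5⟩ := hA (MvPolynomial (Fin 2) (RF v)) β μ a' b' c' d' ha's hd's hS2 hS1
  set o : β ⊕ (μ ⊕ Option β) := Sum.inr (Sum.inr none) with ho
  set δ : MvPolynomial (Fin 2) (RF v) := (-1) ^ Fintype.card β * d'.det with hδ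
  have hone : ((-1 : MvPolynomial (Fin 2) (RF v)) ^ Fintype.card β) *
      (-1) ^ Fintype.card β = 1 := by
    rw [← mul_pow]; simp
  have hδ0 : δ ≠ 0 := mul_ne_zero (pow_ne_zero _ (neg_ne_zero.2 one_ne_zero)) hS2
  have hAoo : π (AO o o) ≠ 0 := by
    rw [hπA, hA5]
    exact mul_ne_zero (mul_ne_zero hδ0 hS1) hS1
  have hAoo' : A o o ≠ 0 := by
    rw [hψA]
    intro h
    rw [← map_zero ψ] at h
    exact hAoo (by rw [hψi h, map_zero])
  -- the determinant vanishes
  have hdet0 : (net M0 M1 M2).det = 0 := net_det M0 M1 M2 hdet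
  have hAs : A.IsSymm := by
    have h1 : (net M0 M1 M2)ᵀ = net M0 M1 M2 := by
      ext1 i j
      simp only [net, Matrix.transpose_apply, Matrix.of_apply]
      rw [hM0.apply, hM1.apply, hM2.apply]
    rw [hAdef]
    unfold Matrix.IsSymm
    rw [Matrix.adjugate_transpose, h1]
  obtain ⟨q, w, hq0, hqw, -⟩ := hU (MvPolynomial (Fin 2) Ω) (β ⊕ (μ ⊕ Option β)) A hAs
    (fun i j k l => adj_rank_one _ hdet0 i j k l) ⟨o, hAoo'⟩
  have hwo : w o ≠ 0 := by
    intro h
    apply hAoo'
    rw [hqw, h, mul_zero]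
  -- normalisation
  obtain ⟨x, w', hx0, hw', i0, hi0⟩ := content v w ⟨o, hwo⟩
  obtain ⟨xq, q', hxq0, hq', e0, hq'0⟩ := content v (fun _ : Unit => q) ⟨(), hq0⟩
  replace hq' := hq' e0
  generalize q' e0 = q1 at hq' hq'0
  rw [← hψ] at hq'
  rw [← hπ] at hq'0 hi0
  have hw'' : ∀ i, w i = C x * ψ (w' i) := hw'
  have hAz : ∀ i j, A i j = C (xq * x * x) * ψ (q1 * w' i * w' j) := by
    intro i j
    rw [hqw, hq', hw'' i, hw'' j]
    simp only [map_mul]
    ring
  have hz1 : v (xq * x * x) ≤ 1 := by
    have h1 : π (q1 * w' i0 * w' i0) ≠ 0 := by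
      rw [map_mul, map_mul]
      exact mul_ne_zero (mul_ne_zero hq'0 hi0) hi0
    obtain ⟨m, hm⟩ := MvPolynomial.ne_zero_iff.1 h1
    rw [hπ, MvPolynomial.coeff_map, Ne, rs_zero, not_lt] at hm
    have h2 := congrArg (coeff m) (hAz i0 i0)
    rw [hψA, MvPolynomial.coeff_C_mul, hψ, MvPolynomial.coeff_map, MvPolynomial.coeff_map] at h2
    have h3 : v ((coeff m (AO i0 i0) : v.valuationSubring) : Ω) ≤ 1 := (coeff m (AO i0 i0)).2
    have h4 : v ((coeff m (q1 * w' i0 * w' i0) : v.valuationSubring) : Ω) = 1 :=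
      le_antisymm (coeff m (q1 * w' i0 * w' i0)).2 hm
    have h5 := congrArg v h2
    rw [map_mul] at h5
    have h6 : v ((coeff m (AO i0 i0) : v.valuationSubring) : Ω) = v (xq * x * x) *
      v ((coeff m (q1 * w' i0 * w' i0) : v.valuationSubring) : Ω) := h5
    rw [h4, mul_one] at h6
    rw [← h6]
    exact h3
  have hAO : ∀ i j, AO i j = C (⟨xq * x * x, hz1⟩ : v.valuationSubring) *
      (q1 * w' i * w' j) := by
    intro i j
    apply hψi
    rw [← hψA, hAz, map_mul ψ (C (⟨xq * x * x, hz1⟩ : v.valuationSubring)) _]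
    congr 1
    rw [hψ, MvPolynomial.map_C]
    rfl
  set qb : MvPolynomial (Fin 2) (RF v) :=
    π (C (⟨xq * x * x, hz1⟩ : v.valuationSubring)) * π q1 with hqb
  set wb : β ⊕ (μ ⊕ Option β) → MvPolynomial (Fin 2) (RF v) := fun i => π (w' i) with hwb
  have hbar : ∀ i j, (blk a' b' c' d' 0 0).adjugate i j = qb * wb i * wb j := by
    intro i j
    rw [← hπA, hAO, map_mul, map_mul, map_mul, hqb]
    ring
  have hqwo : qb * wb o ≠ 0 := by
    intro h
    apply hAoo
    rw [hπA, hbar, h, zero_mul]
  have hwbo : wb o ≠ 0 := right_ne_zero_of_mul hqwo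
  have hw1 : ∀ i, wb (Sum.inl i) = 0 := by
    intro i
    have h := hA1 i o
    rw [hbar, mul_right_comm] at h
    exact (mul_eq_zero.1 h).resolve_left hqwo
  have hw2 : ∀ i, wb (Sum.inr (Sum.inl i)) = 0 := by
    intro i
    have h := hA2 i o
    rw [hbar, mul_right_comm] at h
    exact (mul_eq_zero.1 h).resolve_left hqwo
  have hw3 : ∀ y z, qb * wb (Sum.inr (Sum.inr y)) * wb (Sum.inr (Sum.inr z)) =
      δ * kv c' y * kv c' z := by
    intro y z
    rw [← hbar, hA5]
  have hw4 : ∀ y, wb (Sum.inr (Sum.inr y)) * kv c' none = wb o * kv c' y := by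
    intro y
    have h1 := hw3 y none
    have h2 := hw3 none none
    rw [← ho] at h1 h2
    apply mul_left_cancel₀ (mul_ne_zero hδ0 hS1)
    linear_combination (-wb (Sum.inr (Sum.inr y))) * h2 + wb o * h1
  obtain ⟨h, hh⟩ : kv c' none ∣ wb o := by
    refine prim_dvd (fun y => kv c' y) hS3 (kv c' none) hS1 (wb o) fun y => ?_
    exact ⟨wb (Sum.inr (Sum.inr y)), by rw [← hw4]; ring⟩
  have hw5 : ∀ y, wb (Sum.inr (Sum.inr y)) = h * kv c' y := by
    intro y
    have h1 := hw4 y
    rw [hh] at h1
    apply mul_right_cancel₀ hS1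
    linear_combination h1
  have hqh : qb * h * h = δ := by
    have h2 := hw3 none none
    rw [← ho, hh] at h2
    apply mul_right_cancel₀ (mul_ne_zero hS1 hS1)
    linear_combination h2
  have hhu : IsUnit h := by
    apply hS4
    refine ⟨(-1) ^ Fintype.card β * qb, ?_⟩
    calc d'.det = ((-1) ^ Fintype.card β * (-1) ^ Fintype.card β) * d'.det := by
          rw [hone, one_mul]
      _ = (-1) ^ Fintype.card β * δ := by rw [hδ]; ring
      _ = _ := by rw [← hqh]; ring
  obtain ⟨hc, hhc⟩ : ∃ hc : RF v, hc ≠ 0 ∧ h = C hc := by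
    rw [MvPolynomial.isUnit_iff_eq_C_of_isReduced] at hhu
    obtain ⟨r, hr, hr2⟩ := hhu
    exact ⟨r, hr.ne_zero, hr2⟩
  obtain ⟨hhc0, hhc⟩ := hhc
  obtain ⟨g, hg⟩ := IsLocalRing.residue_surjective (R := v.valuationSubring) hc⁻¹
  have hfin : ∀ i, π (C g * w' i) = MvPolynomial.map f (u0 lam c i) := by
    intro i
    rw [map_mul, hπ, MvPolynomial.map_C, hg, ← hπ]
    change C hc⁻¹ * wb i = _
    rcases i with i | i | y
    · rw [hw1, mul_zero]; simp [u0]
    · rw [hw2, mul_zero]; simp [u0]
    · rw [hw5, hhc, ← mul_assoc, ← C_mul, inv_mul_cancel₀ hhc0, C_1, one_mul, hc']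
      change _ = MvPolynomial.map f (kv (cP lam c) y)
      rw [kv_map, cP_map]
  refine ⟨fun i => ψ (C g * w' i), ?_, ?_⟩
  · -- annihilation
    intro i
    have h1 : ∑ j, net M0 M1 M2 i j * A j o = 0 := by
      have h2 : net M0 M1 M2 * A = 0 := by
        rw [hAdef, Matrix.mul_adjugate, hdet0, zero_smul]
      have h3 := congrFun (congrFun h2 i) o
      rwa [Matrix.mul_apply] at h3
    have h4 : (∑ j, net M0 M1 M2 i j * ψ (w' j)) * (C x * (q * w o)) = 0 := by
      rw [← h1, Finset.sum_mul]
      refine Finset.sum_congr rfl fun j _ => ?_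
      rw [hqw, hw'' j]
      ring
    have h5 : (∑ j, net M0 M1 M2 i j * ψ (w' j)) = 0 :=
      (mul_eq_zero.1 h4).resolve_right (mul_ne_zero (by simpa using hx0) (mul_ne_zero hq0 hwo))
    calc ∑ j, (C (M0 i j) + X 0 * C (M1 i j) + X 1 * C (M2 i j)) * ψ (C g * w' j)
        = ψ (C g) * ∑ j, net M0 M1 M2 i j * ψ (w' j) := by
          rw [Finset.mul_sum]
          refine Finset.sum_congr rfl fun j _ => ?_
          rw [map_mul]
          simp only [net, Matrix.of_apply]
          ring
      _ = 0 := by rw [h5, mul_zero]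
  · intro i m
    have h1 : coeff m (ψ (C g * w' i)) = ((coeff m (C g * w' i) : v.valuationSubring) : Ω) := by
      rw [hψ, MvPolynomial.coeff_map]; rfl
    rw [h1, near_iff v hv]
    have h2 := congrArg (coeff m) (hfin i)
    rw [hπ, MvPolynomial.coeff_map, MvPolynomial.coeff_map] at h2
    exact h2

end Pool.Agent.T6.H97.CS
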