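import Pool.Agent.T6.H97.CS.Defs2

/-!
MP_f9dfcb_ag. Module RGD: the deformations of a rigid net with a fixed pencil (helper61).
-/

set_option autoImplicit false

universe u

namespace Pool.Agent.T6.H97.CS

open Finset Matrix Module MvPolynomial

namespace Rgd

section Lt

variable {Ω : Type u} [Field Ω] {Γ : Type u} [LinearOrderedCommGroupWithZero Γ]
  {v : Valuation Ω Γ}

/-- all coefficients have valuation `< g` -/
def Lt (v : Valuation Ω Γ) (g : Γ) (p : MvPolynomial (Fin 2) Ω) : Prop := ∀ m, v (coeff m p) < g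

/-- all coefficients have valuation `≤ g` -/
def Le (v : Valuation Ω Γ) (g : Γ) (p : MvPolynomial (Fin 2) Ω) : Prop := ∀ m, v (coeff m p) ≤ g

lemma Lt.add {g : Γ} {p q : MvPolynomial (Fin 2) Ω} (hp : Lt v g p) (hq : Lt v g q) :
    Lt v g (p + q) := by
  intro m
  rw [coeff_add]
  exact v.map_add_lt (hp m) (hq m)

lemma Lt.neg {g : Γ} {p : MvPolynomial (Fin 2) Ω} (hp : Lt v g p) : Lt v g (-p) := by
  intro m
  rw [coeff_neg, Valuation.map_neg]
  exact hp m

lemma Lt.sum {ι : Type} {s : Finset ι} {f : ι → MvPolynomial (Fin 2) Ω} {g : Γ} (hg : g ≠ 0)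
    (h : ∀ i ∈ s, Lt v g (f i)) : Lt v g (∑ i ∈ s, f i) := by
  intro m
  rw [coeff_sum]
  exact v.map_sum_lt hg fun i hi => h i hi m

lemma Lt.C {g : Γ} (hg : g ≠ 0) {x : Ω} (hx : v x < g) : Lt v g (MvPolynomial.C x) := by
  intro m
  rw [coeff_C]
  split_ifs
  · exact hx
  · rw [map_zero]; exact zero_lt_iff.2 hg

lemma Le.C {g : Γ} {x : Ω} (hx : v x ≤ g) : Le v g (MvPolynomial.C x) := by
  intro m
  rw [coeff_C]
  split_ifs
  · exact hx
  · rw [map_zero]; exact zero_le

lemma Lt.X_mul {g : Γ} (hg : g ≠ 0) (i : Fin 2) {p : MvPolynomial (Fin 2) Ω} (hp : Lt v g p) :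
    Lt v g (X i * p) := by
  intro m
  rw [coeff_X_mul']
  split_ifs
  · exact hp _
  · rw [map_zero]; exact zero_lt_iff.2 hg

lemma Lt.pol {g : Γ} (hg : g ≠ 0) {x y z : Ω} (hx : v x < g) (hy : v y < g) (hz : v z < g) :
    Lt v g (MvPolynomial.C x + X 0 * MvPolynomial.C y + X 1 * MvPolynomial.C z) :=
  ((Lt.C hg hx).add ((Lt.C hg hy).X_mul hg 0)).add ((Lt.C hg hz).X_mul hg 1)

lemma Lt.mul {g : Γ} (hg : g ≠ 0) {p q : MvPolynomial (Fin 2) Ω} (hp : Lt v 1 p)
    (hq : Le v g q) : Lt v g (p * q) := by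
  intro m
  rw [coeff_mul]
  refine v.map_sum_lt hg fun x _ => ?_
  rw [map_mul]
  calc v (coeff x.1 p) * v (coeff x.2 q) ≤ v (coeff x.1 p) * g := mul_le_mul_right (hq _) _
    _ < 1 * g := mul_lt_mul_of_pos_right (hp _) (zero_lt_iff.2 hg)
    _ = g := one_mul g

end Lt

section Near

variable {K Ω : Type u} [Field K] [Field Ω] [Algebra K Ω] {Γ : Type u}
  [LinearOrderedCommGroupWithZero Γ] {v : Valuation Ω Γ}

lemma near_le (hT : Triv K v) (x : K) : v (algebraMap K Ω x) ≤ 1 := by
  by_cases h : x = 0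
  · rw [h, map_zero, map_zero]; exact zero_le
  · exact (hT x h).le

lemma near_val (hT : Triv K v) {x : Ω} {a : K} (h : Near v x a) : v x ≤ 1 := by
  have : x = (x - algebraMap K Ω a) + algebraMap K Ω a := by ring
  rw [this]
  exact v.map_add_le (le_of_lt h) (near_le hT a)

lemma near_add {x y : Ω} {a b : K} (hx : Near v x a) (hy : Near v y b) : Near v (x + y) (a + b) := by
  have : x + y - algebraMap K Ω (a + b) = (x - algebraMap K Ω a) + (y - algebraMap K Ω b) := by
    rw [map_add]; ring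
  unfold Near
  rw [this]
  exact v.map_add_lt hx hy

lemma near_neg {x : Ω} {a : K} (hx : Near v x a) : Near v (-x) (-a) := by
  have : -x - algebraMap K Ω (-a) = -(x - algebraMap K Ω a) := by
    rw [map_neg]; ring
  unfold Near
  rw [this, Valuation.map_neg]
  exact hx

lemma near_alg (a : K) : Near v (algebraMap K Ω a) a := by
  unfold Near
  rw [sub_self, map_zero]
  exact zero_lt_one

lemma near_mul (hT : Triv K v) {x y : Ω} {a b : K} (hx : Near v x a) (hy : Near v y b) :
    Near v (x * y) (a * b) := by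
  have : x * y - algebraMap K Ω (a * b) =
      (x - algebraMap K Ω a) * y + algebraMap K Ω a * (y - algebraMap K Ω b) := by
    rw [map_mul]; ring
  unfold Near
  rw [this]
  refine v.map_add_lt ?_ ?_
  · rw [map_mul]
    calc v (x - algebraMap K Ω a) * v y ≤ v (x - algebraMap K Ω a) * 1 :=
          mul_le_mul_right (near_val hT hy) _
      _ = v (x - algebraMap K Ω a) := mul_one _
      _ < 1 := hx
  · rw [map_mul]
    calc v (algebraMap K Ω a) * v (y - algebraMap K Ω b) ≤ 1 * v (y - algebraMap K Ω b) :=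
          mul_le_mul_left (near_le hT a) _
      _ = v (y - algebraMap K Ω b) := one_mul _
      _ < 1 := hy

lemma near_sum {ι : Type*} (s : Finset ι) {f : ι → Ω} {g : ι → K}
    (h : ∀ i ∈ s, Near v (f i) (g i)) : Near v (∑ i ∈ s, f i) (∑ i ∈ s, g i) := by
  unfold Near
  rw [map_sum, ← Finset.sum_sub_distrib]
  exact v.map_sum_lt one_ne_zero h

lemma near_prod (hT : Triv K v) {ι : Type*} (s : Finset ι) {f : ι → Ω} {g : ι → K}
    (h : ∀ i ∈ s, Near v (f i) (g i)) : Near v (∏ i ∈ s, f i) (∏ i ∈ s, g i) := by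
  classical
  induction s using Finset.induction_on with
  | empty =>
    simp only [Finset.prod_empty]
    have := near_alg (v := v) (1 : K)
    rwa [map_one] at this
  | insert a s ha ih =>
    rw [Finset.prod_insert ha, Finset.prod_insert ha]
    exact near_mul hT (h a (Finset.mem_insert_self a s))
      (ih fun i hi => h i (Finset.mem_insert_of_mem hi))

lemma near_det (hT : Triv K v) {ι : Type} [Fintype ι] [DecidableEq ι] {M : Matrix ι ι Ω}
    {N : Matrix ι ι K} (h : NearM v M N) : Near v M.det N.det := by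
  rw [Matrix.det_apply, Matrix.det_apply]
  refine near_sum _ fun σ _ => ?_
  have h1 := near_prod hT Finset.univ (f := fun i => M (σ i) i) (g := fun i => N (σ i) i)
    fun i _ => h _ _
  rcases Int.units_eq_one_or (Equiv.Perm.sign σ) with hs | hs
  · rw [hs, one_smul, one_smul]; exact h1
  · rw [hs, Units.neg_smul, Units.neg_smul, one_smul, one_smul]; exact near_neg h1

lemma near_ne_zero (hT : Triv K v) {x : Ω} {a : K} (h : Near v x a) (ha : a ≠ 0) : x ≠ 0 := by
  rintro rfl
  unfold Near at h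
  rw [zero_sub, Valuation.map_neg, hT a ha] at h
  exact lt_irrefl _ h

end Near

section Psi

variable {Ω : Type u} [Field Ω]

/-- put `X 1 = 0` -/
noncomputable def psi (Ω : Type u) [Field Ω] : MvPolynomial (Fin 2) Ω →+* MvPolynomial (Fin 2) Ω :=
  eval₂Hom C ![X 0, 0]

lemma psi_C (x : Ω) : psi Ω (C x) = C x := by simp [psi]

lemma psi_X0 : psi Ω (X 0) = X 0 := by simp [psi]

lemma psi_X1 : psi Ω (X 1) = 0 := by simp [psi]

lemma dvd_sub_psi (p : MvPolynomial (Fin 2) Ω) : X 1 ∣ p - psi Ω p := by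
  induction p using MvPolynomial.induction_on with
  | C a => rw [psi_C, sub_self]; exact dvd_zero _
  | add p q hp hq =>
    rw [map_add, add_sub_add_comm]
    exact dvd_add hp hq
  | mul_X p i hp =>
    have h1 : (X 1 : MvPolynomial (Fin 2) Ω) ∣ X i - psi Ω (X i) := by
      fin_cases i
      · change (X 1 : MvPolynomial (Fin 2) Ω) ∣ X 0 - psi Ω (X 0)
        rw [psi_X0, sub_self]; exact dvd_zero _
      · change (X 1 : MvPolynomial (Fin 2) Ω) ∣ X 1 - psi Ω (X 1)
        rw [psi_X1, sub_zero]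
    have h2 : p * X i - psi Ω (p * X i) = (p - psi Ω p) * X i + psi Ω p * (X i - psi Ω (X i)) := by
      rw [map_mul]; ring
    rw [h2]
    exact dvd_add (hp.mul_right _) (h1.mul_left _)

lemma dvd_of_psi {p : MvPolynomial (Fin 2) Ω} (h : psi Ω p = 0) : X 1 ∣ p := by
  have := dvd_sub_psi p
  rwa [h, sub_zero] at this

end Psi

section Char2

variable {Ω : Type u} [Field Ω]

lemma two_zero (h2 : (2 : Ω) = 0) : (2 : MvPolynomial (Fin 2) Ω) = 0 := by
  have h : (C (2 : Ω) : MvPolynomial (Fin 2) Ω) = 2 := map_ofNat C 2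
  rw [← h, h2, C_0]

lemma sq_coeff (h2 : (2 : Ω) = 0) (p : MvPolynomial (Fin 2) Ω) :
    (∀ m, coeff (2 • m) (p ^ 2) = (coeff m p) ^ 2) ∧
    ∀ n : Fin 2 →₀ ℕ, (∃ i, Odd (n i)) → coeff n (p ^ 2) = 0 := by
  induction p using MvPolynomial.induction_on' with
  | monomial s a =>
    rw [monomial_pow]
    refine ⟨fun m => ?_, fun n hn => ?_⟩
    · rw [coeff_monomial, coeff_monomial]
      by_cases h : s = m
      · rw [if_pos h, if_pos (by rw [h])]
      · rw [if_neg h, if_neg, zero_pow two_ne_zero]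
        intro h'
        apply h
        ext i
        have := DFunLike.congr_fun h' i
        simp only [Finsupp.smul_apply, smul_eq_mul] at this
        omega
    · rw [coeff_monomial, if_neg]
      rintro rfl
      obtain ⟨i, hi⟩ := hn
      simp only [Finsupp.smul_apply, smul_eq_mul] at hi
      rw [Nat.odd_iff] at hi
      omega
  | add p q hp hq =>
    have h : (p + q) ^ 2 = p ^ 2 + q ^ 2 := by
      have := two_zero h2
      linear_combination p * q * this
    rw [h]
    refine ⟨fun m => ?_, fun n hn => ?_⟩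
    · rw [coeff_add, hp.1, hq.1, coeff_add]
      linear_combination -(coeff m p * coeff m q) * h2
    · rw [coeff_add, hp.2 n hn, hq.2 n hn, add_zero]

lemma coeff_pol (h2 : (2 : Ω) = 0) (x y z : Ω) (q : MvPolynomial (Fin 2) Ω) (m : Fin 2 →₀ ℕ) :
    coeff (2 • m) ((C x + X 0 * C y + X 1 * C z) * q ^ 2) = x * (coeff m q) ^ 2 := by
  have h : (C x + X 0 * C y + X 1 * C z) * q ^ 2 =
      C x * q ^ 2 + X 0 * (C y * q ^ 2) + X 1 * (C z * q ^ 2) := by ring
  have h3 : ∀ (i : Fin 2) (t : Ω), coeff (2 • m) (X i * (C t * q ^ 2)) = 0 := by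
    intro i t
    rw [coeff_X_mul']
    split_ifs with hi
    · rw [coeff_C_mul, (sq_coeff h2 q).2, mul_zero]
      refine ⟨i, ?_⟩
      rw [Finsupp.mem_support_iff] at hi
      simp only [Finsupp.smul_apply, smul_eq_mul, Finsupp.tsub_apply, Finsupp.single_eq_same]
        at hi ⊢
      rw [Nat.odd_iff]
      omega
    · rfl
  rw [h, coeff_add, coeff_add, h3, h3, add_zero, add_zero, coeff_C_mul, (sq_coeff h2 q).1]

lemma sum_sym {R : Type u} [CommRing R] (h2 : (2 : R) = 0) {ι : Type} (s : Finset ι)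
    (G : ι → ι → R) (hG : ∀ i j, G i j = G j i) :
    ∑ i ∈ s, ∑ j ∈ s, G i j = ∑ i ∈ s, G i i := by
  classical
  induction s using Finset.induction_on with
  | empty => simp
  | insert a s ha ih =>
    rw [Finset.sum_insert ha, Finset.sum_insert ha, Finset.sum_insert ha]
    have h1 : ∑ i ∈ s, ∑ j ∈ insert a s, G i j = ∑ j ∈ s, G a j + ∑ i ∈ s, ∑ j ∈ s, G i j := by
      rw [← Finset.sum_add_distrib]
      refine Finset.sum_congr rfl fun i _ => ?_
      rw [Finset.sum_insert ha, hG i a]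
    rw [h1, ih]
    linear_combination (∑ j ∈ s, G a j) * h2

lemma sum_sq {R : Type u} [CommRing R] (h2 : (2 : R) = 0) {ι : Type} (s : Finset ι)
    (f : ι → R) : (∑ i ∈ s, f i) ^ 2 = ∑ i ∈ s, f i ^ 2 := by
  classical
  induction s using Finset.induction_on with
  | empty => simp
  | insert a s ha ih =>
    rw [Finset.sum_insert ha, Finset.sum_insert ha, ← ih]
    linear_combination (f a * ∑ i ∈ s, f i) * h2

end Char2

section Blocks

variable {K Ω : Type u} [Field K] [Field Ω] [Algebra K Ω] {β μ : Type} [DecidableEq β]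
  [DecidableEq μ]

lemma map_cP (lam : Option β → K) (c : Matrix β (Option β) K) (a : β) (y : Option β) :
    map (algebraMap K Ω) (cP lam c a y) =
      C (algebraMap K Ω (starC (fun y => -lam y) a y)) +
      X 0 * C (algebraMap K Ω (starC (fun _ => (1 : K)) a y)) +
      X 1 * C (algebraMap K Ω (c a y)) := by
  unfold cP starC
  cases y with
  | none =>
    simp only [Matrix.of_apply, map_add, map_neg, map_sub, map_X, map_C, map_mul, neg_neg, map_one,
      C_neg, C_1]
    ring
  | some b =>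
    simp only [Matrix.of_apply]
    split_ifs
    · simp only [map_add, map_neg, map_sub, map_X, map_C, map_mul, map_one, C_neg, C_1]
      ring
    · simp only [map_add, map_zero, map_X, map_C, map_mul, C_0]
      ring

lemma map_dP (th : μ → K) (d : Matrix μ μ K) (i j : μ) :
    map (algebraMap K Ω) (dP th d i j) =
      C (algebraMap K Ω ((diagonal fun j => -th j ^ 2) i j)) +
      X 0 * C (algebraMap K Ω ((1 : Matrix μ μ K) i j)) +
      X 1 * C (algebraMap K Ω (d i j)) := by
  unfold dP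
  by_cases h : i = j
  · subst h
    simp only [Matrix.of_apply, diagonal_apply_eq, one_apply_eq, if_true, map_add, map_neg, map_sub,
      map_X, map_C, map_mul, map_one, map_pow, C_neg, C_1, C_pow]
    ring
  · simp only [Matrix.of_apply, diagonal_apply_ne _ h, one_apply_ne h, if_neg h, map_add,
      map_X, map_C, map_mul, map_zero, C_0]
    ring

end Blocks

section Eqs

variable {Ω : Type u} [Field Ω] {β μ : Type} [Fintype β] [Fintype μ]

variable {a0 a1 a2 : Matrix β β Ω} {b0 b1 b2 : Matrix β μ Ω}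
  {c0 c1 c2 : Matrix β (Option β) Ω} {d0 d1 d2 : Matrix μ μ Ω} {f : Matrix μ (Option β) Ω}
  {F : Matrix (Option β) (Option β) Ω} {w : β ⊕ (μ ⊕ Option β) → MvPolynomial (Fin 2) Ω}

lemma row1 (h : Ann (blk a0 b0 c0 d0 0 0) (blk a1 b1 c1 d1 0 0) (blk a2 b2 c2 d2 f F) w) (a : β) :
    ∑ i, (C (a0 a i) + X 0 * C (a1 a i) + X 1 * C (a2 a i)) * w (.inl i) +
    ∑ j, (C (b0 a j) + X 0 * C (b1 a j) + X 1 * C (b2 a j)) * w (.inr (.inl j)) +
    ∑ y, (C (c0 a y) + X 0 * C (c1 a y) + X 1 * C (c2 a y)) * w (.inr (.inr y)) = 0 := by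
  have := h (.inl a)
  rw [Fintype.sum_sum_type, Fintype.sum_sum_type] at this
  rw [add_assoc]
  exact this

lemma row2 (h : Ann (blk a0 b0 c0 d0 0 0) (blk a1 b1 c1 d1 0 0) (blk a2 b2 c2 d2 f F) w) (j : μ) :
    ∑ a, (C (b0 a j) + X 0 * C (b1 a j) + X 1 * C (b2 a j)) * w (.inl a) +
    ∑ i, (C (d0 j i) + X 0 * C (d1 j i) + X 1 * C (d2 j i)) * w (.inr (.inl i)) +
    ∑ y, (X 1 * C (f j y)) * w (.inr (.inr y)) = 0 := by
  have := h (.inr (.inl j))
  rw [Fintype.sum_sum_type, Fintype.sum_sum_type] at this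
  rw [add_assoc]
  have e : ∀ y, (C ((0 : Matrix μ (Option β) Ω) j y) + X 0 * C ((0 : Matrix μ (Option β) Ω) j y) +
      X 1 * C (f j y)) * w (.inr (.inr y)) = (X 1 * C (f j y)) * w (.inr (.inr y)) := by
    intro y
    simp
  rw [← Finset.sum_congr rfl fun y _ => e y]
  exact this

lemma row3 (h : Ann (blk a0 b0 c0 d0 0 0) (blk a1 b1 c1 d1 0 0) (blk a2 b2 c2 d2 f F) w)
    (y : Option β) :
    ∑ a, (C (c0 a y) + X 0 * C (c1 a y) + X 1 * C (c2 a y)) * w (.inl a) +
    ∑ j, (X 1 * C (f j y)) * w (.inr (.inl j)) +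
    ∑ z, (X 1 * C (F y z)) * w (.inr (.inr z)) = 0 := by
  have := h (.inr (.inr y))
  rw [Fintype.sum_sum_type, Fintype.sum_sum_type] at this
  rw [add_assoc]
  have e : ∀ z, (C ((0 : Matrix (Option β) (Option β) Ω) y z) +
      X 0 * C ((0 : Matrix (Option β) (Option β) Ω) y z) +
      X 1 * C (F y z)) * w (.inr (.inr z)) = (X 1 * C (F y z)) * w (.inr (.inr z)) := by
    intro y
    simp
  have e' : ∀ j, (C ((0 : Matrix μ (Option β) Ω) j y) +
      X 0 * C ((0 : Matrix μ (Option β) Ω) j y) +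
      X 1 * C (f j y)) * w (.inr (.inl j)) = (X 1 * C (f j y)) * w (.inr (.inl j)) := by
    intro y
    simp
  rw [← Finset.sum_congr rfl fun y _ => e y, ← Finset.sum_congr rfl fun y _ => e' y]
  exact this

end Eqs

/-- a bound which is attained or zero -/
lemma exists_bound {Ω : Type u} [Field Ω] {Γ : Type u} [LinearOrderedCommGroupWithZero Γ]
    (v : Valuation Ω Γ) {I : Type} [Finite I] [Nonempty I] (x : I → Ω) :
    ∃ g : Γ, (∀ i, v (x i) ≤ g) ∧ ∃ i, v (x i) = g := by
  obtain ⟨i, hi⟩ := Finite.exists_max fun i => v (x i)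
  exact ⟨v (x i), hi, i, rfl⟩

end Rgd

open Rgd in
theorem rgd (hT : StmTRF.{u}) : StmRGD.{u} := by
  classical
  intro K Ω _ _ _ _ Γ _ v hv β μ _ _ _ _ lam th a b c d a0 a1 a2 b0 b1 b2 c0 c1 c2 d0 d1 d2 f F
    hG hR ha0 ha1 ha2 hd0 hd1 hd2 hF hN0 hN1 hN2 w hw hwn
  -- a general element of `K`
  obtain ⟨t, ht⟩ : ∃ t : K, t ∉ (Finset.univ.image fun a => lam (some a)) ∪
      (Finset.univ.image fun j => th j ^ 2) := Infinite.exists_notMem_finset _
  rw [Finset.mem_union, not_or] at ht
  have ht1 : ∀ a, t - lam (some a) ≠ 0 := fun a h => ht.1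
    (Finset.mem_image.2 ⟨a, Finset.mem_univ _, (sub_eq_zero.1 h).symm⟩)
  have ht2 : ∀ j, t - th j ^ 2 ≠ 0 := fun j h => ht.2
    (Finset.mem_image.2 ⟨j, Finset.mem_univ _, (sub_eq_zero.1 h).symm⟩)
  -- the first block of the kernel vector
  have hψ1 : ∀ a, psi Ω (w (.inl a)) = 0 := by
    set M : Matrix β β (MvPolynomial (Fin 2) Ω) := Matrix.of fun a a' =>
      C (c0 a' (some a)) + X 0 * C (c1 a' (some a)) with hM
    have hdet : M.det ≠ 0 := by
      intro h0
      have h1 : (M.map (eval ![algebraMap K Ω t, 0])).det = 0 := by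
        have h := RingHom.map_det (eval ![algebraMap K Ω t, 0]) M
        rw [h0, map_zero] at h
        exact h.symm
      have h2 : Near v (M.map (eval ![algebraMap K Ω t, 0])).det
          (diagonal fun a => t - lam (some a)).det := by
        refine near_det hv fun i j => ?_
        have e1 : M.map (eval ![algebraMap K Ω t, 0]) i j =
            c0 j (some i) + algebraMap K Ω t * c1 j (some i) := by
          simp [hM]
        have e2 : (diagonal fun a => t - lam (some a)) i j =
            (if j = i then -lam (some i) else 0) + t * (if j = i then 1 else 0) := by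
          by_cases h : i = j
          · subst h
            rw [diagonal_apply_eq, if_pos rfl, if_pos rfl]
            ring
          · rw [diagonal_apply_ne _ h, if_neg (Ne.symm h), if_neg (Ne.symm h)]
            ring
        rw [e1, e2]
        exact near_add (hN0 (.inl j) (.inr (.inr (some i))))
          (near_mul hv (near_alg t) (hN1 (.inl j) (.inr (.inr (some i)))))
      refine near_ne_zero hv h2 ?_ h1
      rw [det_diagonal]
      exact Finset.prod_ne_zero_iff.2 fun a _ => ht1 a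
    have hmul : M *ᵥ (fun a => psi Ω (w (.inl a))) = 0 := by
      funext y
      have h := congrArg (psi Ω) (row3 hw (some y))
      simp only [map_add, map_sum, map_mul, psi_C, psi_X0, psi_X1, zero_mul,
        Finset.sum_const_zero, add_zero, map_zero] at h
      exact h
    intro a
    exact congrFun (Matrix.eq_zero_of_mulVec_eq_zero hdet hmul) a
  have hψ2 : ∀ j, psi Ω (w (.inr (.inl j))) = 0 := by
    set M : Matrix μ μ (MvPolynomial (Fin 2) Ω) := Matrix.of fun j i =>
      C (d0 j i) + X 0 * C (d1 j i) with hM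
    have hdet : M.det ≠ 0 := by
      intro h0
      have h1 : (M.map (eval ![algebraMap K Ω t, 0])).det = 0 := by
        have h := RingHom.map_det (eval ![algebraMap K Ω t, 0]) M
        rw [h0, map_zero] at h
        exact h.symm
      have h2 : Near v (M.map (eval ![algebraMap K Ω t, 0])).det
          (diagonal fun j => t - th j ^ 2).det := by
        refine near_det hv fun i j => ?_
        have e1 : M.map (eval ![algebraMap K Ω t, 0]) i j =
            d0 i j + algebraMap K Ω t * d1 i j := by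
          simp [hM]
        have e2 : (diagonal fun j => t - th j ^ 2) i j =
            (diagonal fun j => -th j ^ 2 : Matrix μ μ K) i j + t * (1 : Matrix μ μ K) i j := by
          by_cases h : i = j
          · subst h
            rw [diagonal_apply_eq, diagonal_apply_eq, one_apply_eq]
            ring
          · rw [diagonal_apply_ne _ h, diagonal_apply_ne _ h, one_apply_ne h]
            ring
        rw [e1, e2]
        exact near_add (hN0 (.inr (.inl i)) (.inr (.inl j)))
          (near_mul hv (near_alg t) (hN1 (.inr (.inl i)) (.inr (.inl j))))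
      refine near_ne_zero hv h2 ?_ h1
      rw [det_diagonal]
      exact Finset.prod_ne_zero_iff.2 fun a _ => ht2 a
    have hmul : M *ᵥ (fun j => psi Ω (w (.inr (.inl j)))) = 0 := by
      funext y
      have h := congrArg (psi Ω) (row2 hw y)
      simp only [map_add, map_sum, map_mul, psi_C, psi_X0, psi_X1, zero_mul, hψ1, mul_zero,
        Finset.sum_const_zero, add_zero, zero_add, map_zero] at h
      exact h
    intro a
    exact congrFun (Matrix.eq_zero_of_mulVec_eq_zero hdet hmul) a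
  -- division by `X 1`
  have h1 : ∀ a, ∃ p, w (.inl a) = X 1 * p := fun a => dvd_of_psi (hψ1 a)
  choose w1 hw1 using h1
  have h2 : ∀ j, ∃ p, w (.inr (.inl j)) = X 1 * p := fun j => dvd_of_psi (hψ2 j)
  choose w2 hw2 using h2
  obtain ⟨u3, hu3⟩ : ∃ u3 : Option β → MvPolynomial (Fin 2) Ω, ∀ y, w (.inr (.inr y)) = u3 y :=
    ⟨fun y => w (.inr (.inr y)), fun _ => rfl⟩
  have hX : (X 1 : MvPolynomial (Fin 2) Ω) ≠ 0 := X_ne_zero 1
  have e1 : ∀ a, ∑ i, (C (a0 a i) + X 0 * C (a1 a i) + X 1 * C (a2 a i)) * (X 1 * w1 i) +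
      ∑ j, (C (b0 a j) + X 0 * C (b1 a j) + X 1 * C (b2 a j)) * (X 1 * w2 j) +
      ∑ y, (C (c0 a y) + X 0 * C (c1 a y) + X 1 * C (c2 a y)) * u3 y = 0 := by
    intro a
    have h := row1 hw a
    simp only [hw1, hw2, hu3] at h
    exact h
  have e2 : ∀ j, ∑ a, (C (b0 a j) + X 0 * C (b1 a j) + X 1 * C (b2 a j)) * w1 a +
      ∑ i, (C (d0 j i) + X 0 * C (d1 j i) + X 1 * C (d2 j i)) * w2 i +
      ∑ y, C (f j y) * u3 y = 0 := by
    intro j
    have h := row2 hw j
    simp only [hw1, hw2, hu3] at h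
    have h' : X 1 * (∑ a, (C (b0 a j) + X 0 * C (b1 a j) + X 1 * C (b2 a j)) * w1 a +
      ∑ i, (C (d0 j i) + X 0 * C (d1 j i) + X 1 * C (d2 j i)) * w2 i +
      ∑ y, C (f j y) * u3 y) = 0 := by
      rw [← h, mul_add, mul_add, Finset.mul_sum, Finset.mul_sum, Finset.mul_sum]
      congr 1
      · congr 1 <;> exact Finset.sum_congr rfl fun _ _ => by ring
      · exact Finset.sum_congr rfl fun _ _ => by ring
    exact (mul_eq_zero.1 h').resolve_left hX
  have e3 : ∀ y, ∑ a, (C (c0 a y) + X 0 * C (c1 a y) + X 1 * C (c2 a y)) * w1 a +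
      ∑ j, (X 1 * C (f j y)) * w2 j + ∑ z, C (F y z) * u3 z = 0 := by
    intro y
    have h := row3 hw y
    simp only [hw1, hw2, hu3] at h
    have h' : X 1 * (∑ a, (C (c0 a y) + X 0 * C (c1 a y) + X 1 * C (c2 a y)) * w1 a +
      ∑ j, (X 1 * C (f j y)) * w2 j + ∑ z, C (F y z) * u3 z) = 0 := by
      rw [← h, mul_add, mul_add, Finset.mul_sum, Finset.mul_sum, Finset.mul_sum]
      congr 1
      · congr 1 <;> exact Finset.sum_congr rfl fun _ _ => by ring
      · exact Finset.sum_congr rfl fun _ _ => by ring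
    exact (mul_eq_zero.1 h').resolve_left hX
  -- the bound
  set S : Finset (Fin 2 →₀ ℕ) := (Finset.univ.biUnion fun a => (w1 a).support) ∪
    (Finset.univ.biUnion fun j => (w2 j).support) with hS
  obtain ⟨g, hg, i0, hi0⟩ := exists_bound v
    (I := (Option β × Option β) ⊕ ((μ × Option β) ⊕ ((β × S) ⊕ (μ × S))))
    (Sum.elim (fun p => F p.1 p.2) (Sum.elim (fun p => f p.1 p.2)
      (Sum.elim (fun p => coeff p.2.1 (w1 p.1)) (fun p => coeff p.2.1 (w2 p.1)))))
  have hFg : ∀ y z, v (F y z) ≤ g := fun y z => hg (.inl (y, z))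
  have hfg : ∀ j z, v (f j z) ≤ g := fun j z => hg (.inr (.inl (j, z)))
  have hw1g : ∀ a, Le v g (w1 a) := by
    intro a m
    by_cases hm : coeff m (w1 a) = 0
    · rw [hm, map_zero]; exact zero_le
    · exact hg (.inr (.inr (.inl (a, ⟨m, Finset.mem_union_left _ (Finset.mem_biUnion.2
        ⟨a, Finset.mem_univ _, mem_support_iff.2 hm⟩)⟩))))
  have hw2g : ∀ j, Le v g (w2 j) := by
    intro j m
    by_cases hm : coeff m (w2 j) = 0
    · rw [hm, map_zero]; exact zero_le
    · exact hg (.inr (.inr (.inr (j, ⟨m, Finset.mem_union_right _ (Finset.mem_biUnion.2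
        ⟨j, Finset.mem_univ _, mem_support_iff.2 hm⟩)⟩))))
  by_cases hg0 : g = 0
  · subst hg0
    refine ⟨?_, ?_⟩
    · ext j z
      exact (map_eq_zero v).1 (le_antisymm (hfg j z) zero_le)
    · ext y z
      exact (map_eq_zero v).1 (le_antisymm (hFg y z) zero_le)
  exfalso
  have hu : ∀ z, Lt v 1 (map (algebraMap K Ω) (kv (cP lam c) z) - u3 z) := by
    intro z m
    have h := hwn (.inr (.inr z)) m
    rw [hu3] at h
    unfold Near at h
    rw [coeff_sub, coeff_map, Valuation.map_sub_swap]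
    exact h
  have hE3 : ∀ y m, v (coeff m (E3 Ω lam c F w1 y)) < g := by
    intro y
    have h : E3 Ω lam c F w1 y =
        ∑ a, (map (algebraMap K Ω) (cP lam c a y) -
          (C (c0 a y) + X 0 * C (c1 a y) + X 1 * C (c2 a y))) * w1 a +
        ∑ z, C (F y z) * (map (algebraMap K Ω) (kv (cP lam c) z) - u3 z) -
        ∑ j, (X 1 * C (f j y)) * w2 j := by
      unfold E3
      simp only [sub_mul, mul_sub, Finset.sum_sub_distrib]
      linear_combination e3 y
    rw [h, sub_eq_add_neg]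
    refine Lt.add (Lt.add (Lt.sum hg0 fun a _ => ?_) (Lt.sum hg0 fun z _ => ?_))
      (Lt.neg (Lt.sum hg0 fun j _ => ?_))
    · refine Lt.mul hg0 ?_ (hw1g a)
      have h' : map (algebraMap K Ω) (cP lam c a y) -
          (C (c0 a y) + X 0 * C (c1 a y) + X 1 * C (c2 a y)) =
          C (algebraMap K Ω (starC (fun y => -lam y) a y) - c0 a y) +
          X 0 * C (algebraMap K Ω (starC (fun _ => (1 : K)) a y) - c1 a y) +
          X 1 * C (algebraMap K Ω (c a y) - c2 a y) := by
        rw [map_cP, C_sub, C_sub, C_sub]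
        ring
      rw [h']
      refine Lt.pol one_ne_zero ?_ ?_ ?_
      · rw [Valuation.map_sub_swap]; exact hN0 (.inl a) (.inr (.inr y))
      · rw [Valuation.map_sub_swap]; exact hN1 (.inl a) (.inr (.inr y))
      · rw [Valuation.map_sub_swap]; exact hN2 (.inl a) (.inr (.inr y))
    · rw [mul_comm]
      exact Lt.mul hg0 (hu z) (Le.C (hFg y z))
    · refine Lt.mul hg0 (Lt.X_mul one_ne_zero 1 (Lt.C one_ne_zero ?_)) (hw2g j)
      have h := hN2 (.inr (.inl j)) (.inr (.inr y))
      have h' : v (f j y - algebraMap K Ω 0) < 1 := h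
      rwa [map_zero, sub_zero] at h'
  have hE2 : ∀ j m, v (coeff m (E2 Ω lam th b c d f w1 w2 j)) < g := by
    intro j
    have h : E2 Ω lam th b c d f w1 w2 j =
        ∑ a, (X 1 * C (algebraMap K Ω (b a j)) -
          (C (b0 a j) + X 0 * C (b1 a j) + X 1 * C (b2 a j))) * w1 a +
        ∑ i, (map (algebraMap K Ω) (dP th d j i) -
          (C (d0 j i) + X 0 * C (d1 j i) + X 1 * C (d2 j i))) * w2 i +
        ∑ z, C (f j z) * (map (algebraMap K Ω) (kv (cP lam c) z) - u3 z) := by
      unfold E2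
      simp only [sub_mul, mul_sub, Finset.sum_sub_distrib]
      linear_combination e2 j
    rw [h]
    refine Lt.add (Lt.add (Lt.sum hg0 fun a _ => ?_) (Lt.sum hg0 fun i _ => ?_))
      (Lt.sum hg0 fun z _ => ?_)
    · refine Lt.mul hg0 ?_ (hw1g a)
      have h' : (X 1 : MvPolynomial (Fin 2) Ω) * C (algebraMap K Ω (b a j)) -
          (C (b0 a j) + X 0 * C (b1 a j) + X 1 * C (b2 a j)) =
          C (-b0 a j) + X 0 * C (-b1 a j) + X 1 * C (algebraMap K Ω (b a j) - b2 a j) := by
        rw [C_sub, C_neg, C_neg]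
        ring
      rw [h']
      refine Lt.pol one_ne_zero ?_ ?_ ?_
      · have h : v (b0 a j - algebraMap K Ω 0) < 1 := hN0 (.inl a) (.inr (.inl j))
        rw [map_zero, sub_zero] at h
        rwa [Valuation.map_neg]
      · have h : v (b1 a j - algebraMap K Ω 0) < 1 := hN1 (.inl a) (.inr (.inl j))
        rw [map_zero, sub_zero] at h
        rwa [Valuation.map_neg]
      · rw [Valuation.map_sub_swap]; exact hN2 (.inl a) (.inr (.inl j))
    · refine Lt.mul hg0 ?_ (hw2g i)
      have h' : map (algebraMap K Ω) (dP th d j i) -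
          (C (d0 j i) + X 0 * C (d1 j i) + X 1 * C (d2 j i)) =
          C (algebraMap K Ω ((diagonal fun j => -th j ^ 2) j i) - d0 j i) +
          X 0 * C (algebraMap K Ω ((1 : Matrix μ μ K) j i) - d1 j i) +
          X 1 * C (algebraMap K Ω (d j i) - d2 j i) := by
        rw [map_dP, C_sub, C_sub, C_sub]
        ring
      rw [h']
      refine Lt.pol one_ne_zero ?_ ?_ ?_
      · rw [Valuation.map_sub_swap]; exact hN0 (.inr (.inl j)) (.inr (.inl i))
      · rw [Valuation.map_sub_swap]; exact hN1 (.inr (.inl j)) (.inr (.inl i))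
      · rw [Valuation.map_sub_swap]; exact hN2 (.inr (.inl j)) (.inr (.inl i))
    · rw [mul_comm]
      exact Lt.mul hg0 (hu z) (Le.C (hfg j z))
  have hE4 : (2 : K) = 0 → ∀ m, v (coeff m (E4 Ω lam th w1 w2)) < g := by
    intro h2 m
    have h2Ω : (2 : Ω) = 0 := by
      have h := congrArg (algebraMap K Ω) h2
      rwa [map_zero, map_ofNat] at h
    have h2P := two_zero h2Ω
    -- the quadratic identity
    have hP : ∑ y, C (F y y) * u3 y ^ 2 =
        X 1 * (∑ i, (C (a0 i i) + X 0 * C (a1 i i) + X 1 * C (a2 i i)) * w1 i ^ 2 +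
          ∑ j, (C (d0 j j) + X 0 * C (d1 j j) + X 1 * C (d2 j j)) * w2 j ^ 2) := by
      have q3 : ∑ y, ∑ a, u3 y * ((C (c0 a y) + X 0 * C (c1 a y) + X 1 * C (c2 a y)) * w1 a) +
          ∑ y, ∑ j, u3 y * ((X 1 * C (f j y)) * w2 j) +
          ∑ y, ∑ z, u3 y * (C (F y z) * u3 z) = 0 := by
        rw [← Finset.sum_add_distrib, ← Finset.sum_add_distrib]
        refine Finset.sum_eq_zero fun y _ => ?_
        rw [← Finset.mul_sum, ← Finset.mul_sum, ← Finset.mul_sum, ← mul_add, ← mul_add, e3 y,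
          mul_zero]
      have q1 : ∑ a, ∑ i, w1 a * ((C (a0 a i) + X 0 * C (a1 a i) + X 1 * C (a2 a i)) *
          (X 1 * w1 i)) +
          ∑ a, ∑ j, w1 a * ((C (b0 a j) + X 0 * C (b1 a j) + X 1 * C (b2 a j)) * (X 1 * w2 j)) +
          ∑ a, ∑ y, w1 a * ((C (c0 a y) + X 0 * C (c1 a y) + X 1 * C (c2 a y)) * u3 y) = 0 := by
        rw [← Finset.sum_add_distrib, ← Finset.sum_add_distrib]
        refine Finset.sum_eq_zero fun y _ => ?_
        rw [← Finset.mul_sum, ← Finset.mul_sum, ← Finset.mul_sum, ← mul_add, ← mul_add, e1 y,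
          mul_zero]
      have q2 : ∑ j, ∑ a, X 1 * w2 j * ((C (b0 a j) + X 0 * C (b1 a j) + X 1 * C (b2 a j)) *
          w1 a) +
          ∑ j, ∑ i, X 1 * w2 j * ((C (d0 j i) + X 0 * C (d1 j i) + X 1 * C (d2 j i)) * w2 i) +
          ∑ j, ∑ y, X 1 * w2 j * (C (f j y) * u3 y) = 0 := by
        rw [← Finset.sum_add_distrib, ← Finset.sum_add_distrib]
        refine Finset.sum_eq_zero fun y _ => ?_
        rw [← Finset.mul_sum, ← Finset.mul_sum, ← Finset.mul_sum, ← mul_add, ← mul_add, e2 y,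
          mul_zero]
      have r1 : ∑ y, ∑ a, u3 y * ((C (c0 a y) + X 0 * C (c1 a y) + X 1 * C (c2 a y)) * w1 a) =
          ∑ a, ∑ y, w1 a * ((C (c0 a y) + X 0 * C (c1 a y) + X 1 * C (c2 a y)) * u3 y) := by
        rw [Finset.sum_comm]
        exact Finset.sum_congr rfl fun _ _ => Finset.sum_congr rfl fun _ _ => by ring
      have r2 : ∑ y, ∑ j, u3 y * ((X 1 * C (f j y)) * w2 j) =
          ∑ j, ∑ y, X 1 * w2 j * (C (f j y) * u3 y) := by
        rw [Finset.sum_comm]
        exact Finset.sum_congr rfl fun _ _ => Finset.sum_congr rfl fun _ _ => by ring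
      have r3 : ∑ j, ∑ a, X 1 * w2 j * ((C (b0 a j) + X 0 * C (b1 a j) + X 1 * C (b2 a j)) *
          w1 a) =
          ∑ a, ∑ j, w1 a * ((C (b0 a j) + X 0 * C (b1 a j) + X 1 * C (b2 a j)) *
            (X 1 * w2 j)) := by
        rw [Finset.sum_comm]
        exact Finset.sum_congr rfl fun _ _ => Finset.sum_congr rfl fun _ _ => by ring
      have s3 : ∑ y, ∑ z, u3 y * (C (F y z) * u3 z) = ∑ y, u3 y * (C (F y y) * u3 y) := by
        refine sum_sym h2P _ _ fun y z => ?_
        have h : F y z = F z y := hF.apply z y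
        rw [h]
        ring
      have s1 : ∑ a, ∑ i, w1 a * ((C (a0 a i) + X 0 * C (a1 a i) + X 1 * C (a2 a i)) *
          (X 1 * w1 i)) =
          ∑ a, w1 a * ((C (a0 a a) + X 0 * C (a1 a a) + X 1 * C (a2 a a)) * (X 1 * w1 a)) := by
        refine sum_sym h2P _ (fun a i => w1 a * ((C (a0 a i) + X 0 * C (a1 a i) +
          X 1 * C (a2 a i)) * (X 1 * w1 i))) fun y z => ?_
        have h := ha0.apply z y
        have h' := ha1.apply z y
        have h'' := ha2.apply z y
        simp only [h, h', h'']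
        ring
      have s2 : ∑ j, ∑ i, X 1 * w2 j * ((C (d0 j i) + X 0 * C (d1 j i) + X 1 * C (d2 j i)) *
          w2 i) =
          ∑ j, X 1 * w2 j * ((C (d0 j j) + X 0 * C (d1 j j) + X 1 * C (d2 j j)) * w2 j) := by
        refine sum_sym h2P _ (fun j i => X 1 * w2 j * ((C (d0 j i) + X 0 * C (d1 j i) +
          X 1 * C (d2 j i)) * w2 i)) fun y z => ?_
        have h := hd0.apply z y
        have h' := hd1.apply z y
        have h'' := hd2.apply z y
        simp only [h, h', h'']
        ring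
      have t3 : ∑ y, C (F y y) * u3 y ^ 2 = ∑ y, u3 y * (C (F y y) * u3 y) :=
        Finset.sum_congr rfl fun _ _ => by ring
      have t1 : X 1 * ∑ i, (C (a0 i i) + X 0 * C (a1 i i) + X 1 * C (a2 i i)) * w1 i ^ 2 =
          ∑ a, w1 a * ((C (a0 a a) + X 0 * C (a1 a a) + X 1 * C (a2 a a)) * (X 1 * w1 a)) := by
        rw [Finset.mul_sum]
        exact Finset.sum_congr rfl fun _ _ => by ring
      have t2 : X 1 * ∑ j, (C (d0 j j) + X 0 * C (d1 j j) + X 1 * C (d2 j j)) * w2 j ^ 2 =
          ∑ j, X 1 * w2 j * ((C (d0 j j) + X 0 * C (d1 j j) + X 1 * C (d2 j j)) * w2 j) := by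
        rw [Finset.mul_sum]
        exact Finset.sum_congr rfl fun _ _ => by ring
      rw [mul_add, t1, t2, t3, ← s1, ← s2, ← s3]
      rw [r1, r2] at q3
      rw [r3] at q2
      linear_combination q3 - q1 - q2 + (∑ a, ∑ j, w1 a * ((C (b0 a j) + X 0 * C (b1 a j) +
        X 1 * C (b2 a j)) * (X 1 * w2 j))) * h2P
    -- the coefficients
    have hcf : ∑ i, a0 i i * (coeff m (w1 i)) ^ 2 + ∑ j, d0 j j * (coeff m (w2 j)) ^ 2 = 0 := by
      have h := congrArg (coeff (Finsupp.single 1 1 + 2 • m)) hP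
      rw [coeff_X_mul, coeff_add, coeff_sum, coeff_sum, coeff_sum] at h
      simp only [coeff_pol h2Ω] at h
      rw [← h]
      refine Finset.sum_eq_zero fun y _ => ?_
      rw [coeff_C_mul, (sq_coeff h2Ω (u3 y)).2, mul_zero]
      refine ⟨1, ?_⟩
      simp only [Finsupp.add_apply, Finsupp.single_eq_same, Finsupp.smul_apply, smul_eq_mul]
      rw [Nat.odd_iff]
      omega
    have hsq : (coeff m (E4 Ω lam th w1 w2)) ^ 2 =
        ∑ i, (algebraMap K Ω (lam (some i) ^ 2) - a0 i i) * (coeff m (w1 i)) ^ 2 +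
        ∑ j, (algebraMap K Ω (-th j ^ 2) - d0 j j) * (coeff m (w2 j)) ^ 2 := by
      have h : coeff m (E4 Ω lam th w1 w2) =
          ∑ i, algebraMap K Ω (lam (some i)) * coeff m (w1 i) +
          ∑ j, algebraMap K Ω (th j) * coeff m (w2 j) := by
        unfold E4
        rw [coeff_add, coeff_sum, coeff_sum]
        simp only [coeff_C_mul]
      have hs1 := sum_sq h2Ω Finset.univ fun i => algebraMap K Ω (lam (some i)) * coeff m (w1 i)
      have hs2 := sum_sq h2Ω Finset.univ fun j => algebraMap K Ω (th j) * coeff m (w2 j)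
      have hs3 : ∑ i, (algebraMap K Ω (lam (some i) ^ 2) - a0 i i) * (coeff m (w1 i)) ^ 2 =
          ∑ i, (algebraMap K Ω (lam (some i)) * coeff m (w1 i)) ^ 2 -
          ∑ i, a0 i i * (coeff m (w1 i)) ^ 2 := by
        rw [← Finset.sum_sub_distrib]
        exact Finset.sum_congr rfl fun _ _ => by rw [map_pow]; ring
      have hs4 : ∑ j, (algebraMap K Ω (-th j ^ 2) - d0 j j) * (coeff m (w2 j)) ^ 2 =
          -∑ j, (algebraMap K Ω (th j) * coeff m (w2 j)) ^ 2 -
          ∑ j, d0 j j * (coeff m (w2 j)) ^ 2 := by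
        rw [← Finset.sum_neg_distrib, ← Finset.sum_sub_distrib]
        exact Finset.sum_congr rfl fun _ _ => by rw [map_neg, map_pow]; ring
      rw [h, hs3, hs4, ← hs1, ← hs2]
      linear_combination hcf + ((∑ i, algebraMap K Ω (lam (some i)) * coeff m (w1 i)) *
        (∑ j, algebraMap K Ω (th j) * coeff m (w2 j)) +
        (∑ j, algebraMap K Ω (th j) * coeff m (w2 j)) ^ 2) * h2Ω
    have hg2 : g ^ 2 ≠ 0 := pow_ne_zero 2 hg0
    have hterm : ∀ x z : Ω, v x < 1 → v z ≤ g → v (x * z ^ 2) < g ^ 2 := by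
      intro x z hx hz
      rw [map_mul, map_pow]
      calc v x * v z ^ 2 ≤ v x * g ^ 2 := mul_le_mul_right (pow_le_pow_left₀ zero_le hz 2) _
        _ < 1 * g ^ 2 := mul_lt_mul_of_pos_right hx (zero_lt_iff.2 hg2)
        _ = g ^ 2 := one_mul _
    have hlt : v (coeff m (E4 Ω lam th w1 w2)) ^ 2 < g ^ 2 := by
      rw [← map_pow, hsq]
      refine v.map_add_lt (v.map_sum_lt hg2 fun i _ => ?_) (v.map_sum_lt hg2 fun j _ => ?_)
      · refine hterm _ _ ?_ (hw1g i m)
        rw [Valuation.map_sub_swap]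
        have h := hN0 (.inl i) (.inl i)
        have h' : Near v (a0 i i) ((diagonal fun a => lam (some a) ^ 2 : Matrix β β K) i i) := h
        rw [diagonal_apply_eq] at h'
        exact h'
      · refine hterm _ _ ?_ (hw2g j m)
        rw [Valuation.map_sub_swap]
        have h := hN0 (.inr (.inl j)) (.inr (.inl j))
        have h' : Near v (d0 j j) ((diagonal fun j => -th j ^ 2 : Matrix μ μ K) j j) := h
        rw [diagonal_apply_eq] at h'
        exact h'
    exact lt_of_pow_lt_pow_left₀ 2 zero_le hlt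
  obtain ⟨r1, r2, r3, r4⟩ := hT K Ω Γ v hv β μ lam th b c d hG hR F f w1 w2 g hF hE3 hE2 hE4
  rcases i0 with p | p | p | p
  · exact absurd hi0 (r1 p.1 p.2).ne
  · exact absurd hi0 (r2 p.1 p.2).ne
  · exact absurd hi0 (r3 p.1 p.2.1).ne
  · exact absurd hi0 (r4 p.1 p.2.1).ne

end Pool.Agent.T6.H97.CS
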