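import Pool.Agent.T6.H97.CS.Defs2

/-! Module RKG (helper24): the rank of the generic point. -/

set_option autoImplicit false

universe u

namespace Pool.Agent.T6.H97.CS

open Finset Matrix Module MvPolynomial

namespace ModRkg

theorem exists_rows {K : Type*} [Field K] {ι : Type*} [Fintype ι] {n r : ℕ}
    (M : Matrix ι (Fin n) K) (h : r ≤ M.rank) :
    ∃ g : Fin r → ι, LinearIndependent K (M.submatrix g id).row := by
  rw [Matrix.rank_eq_finrank_span_row] at h
  obtain ⟨f, hf, -, hli⟩ := Submodule.exists_fun_fin_finrank_span_eq K (Set.range M.row)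
  have hf' : ∀ s : Fin r, ∃ j, M.row j = f (Fin.castLE h s) := fun s => hf _
  choose g hg using hf'
  refine ⟨g, ?_⟩
  have h2 := hli.comp (Fin.castLE h) (Fin.castLE_injective h)
  have h3 : (M.submatrix g id).row = f ∘ (Fin.castLE h) := by
    funext s
    exact hg s
  rw [h3]
  exact h2

theorem exists_minor {K : Type*} [Field K] {ι : Type*} [Fintype ι] {n r : ℕ}
    (M : Matrix ι (Fin n) K) (h : r ≤ M.rank) :
    ∃ (g : Fin r → ι) (c : Fin r → Fin n), (M.submatrix g c).det ≠ 0 := by
  obtain ⟨g, hg⟩ := exists_rows M h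
  have h1 : r ≤ (M.submatrix g id)ᵀ.rank := by
    rw [Matrix.rank_transpose, hg.rank_matrix, Fintype.card_fin]
  obtain ⟨c, hc⟩ := exists_rows _ h1
  refine ⟨g, c, ?_⟩
  have h2 : (M.submatrix g id)ᵀ.submatrix c id = (M.submatrix g c)ᵀ := rfl
  rw [h2, Matrix.linearIndependent_rows_iff_isUnit, Matrix.isUnit_iff_isUnit_det,
    Matrix.det_transpose] at hc
  exact hc.ne_zero

theorem minor_zero {K : Type*} [Field K] {n r : ℕ} (M : Matrix (Fin n) (Fin n) K)
    (h : M.rank < r) (g c : Fin r → Fin n) : (M.submatrix g c).det = 0 := by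
  by_contra hne
  have h1 : (M.submatrix g c).rank = r := by
    have hu : IsUnit (M.submatrix g c) := by
      rw [Matrix.isUnit_iff_isUnit_det]
      exact isUnit_iff_ne_zero.2 hne
    rw [Matrix.rank_of_isUnit _ hu, Fintype.card_fin]
  have h2 := Matrix.rank_submatrix_le M g c
  omega

/-- the minor as a polynomial -/
noncomputable def DP (K : Type u) [Field K] {n k r : ℕ} (g c : Fin r → Fin n) :
    MvPolynomial (Fin (k + 1)) (MvPolynomial (Fin (k + 1) × Fin n × Fin n) K) :=
  det (Matrix.of fun a b => ∑ l, X l * C (X (l, g a, c b)))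

theorem eval_DP {K R : Type u} [Field K] [CommRing R] {n k r : ℕ} (g c : Fin r → Fin n)
    (φ : MvPolynomial (Fin (k + 1) × Fin n × Fin n) K →+* R) (x : Fin (k + 1) → R) :
    eval x (map φ (DP K (k := k) g c)) =
      ((∑ l, x l • Matrix.of (fun i j => φ (X (l, i, j))) :
        Matrix (Fin n) (Fin n) R).submatrix g c).det := by
  unfold DP
  have h : ∀ q : MvPolynomial (Fin (k + 1)) (MvPolynomial (Fin (k + 1) × Fin n × Fin n) K),
      eval x (map φ q) = ((eval x).comp (map φ)) q := fun q => rfl
  rw [h, RingHom.map_det]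
  congr 1
  ext a b
  rw [RingHom.mapMatrix_apply, Matrix.map_apply, Matrix.of_apply, map_sum, Matrix.submatrix_apply,
    Matrix.sum_apply]
  refine Finset.sum_congr rfl fun l _ => ?_
  rw [map_mul, RingHom.comp_apply, RingHom.comp_apply, map_X, map_C, eval_X, eval_C,
    Matrix.smul_apply, Matrix.of_apply, smul_eq_mul]

end ModRkg

open ModRkg in
theorem rkg : StmRKG := by
  intro K Ω _ _ _ _ n r k Y η hr hη hY x
  by_contra hcon
  rw [not_lt] at hcon
  obtain ⟨g, c, hne⟩ := exists_minor _ hcon
  apply hne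
  have hzero : map ((aeval η : MvPolynomial (Fin (k + 1) × Fin n × Fin n) K →ₐ[K] Ω) :
      MvPolynomial (Fin (k + 1) × Fin n × Fin n) K →+* Ω) (DP K (k := k) g c) = 0 := by
    ext m
    rw [coeff_map, coeff_zero]
    refine (hη (coeff m (DP K (k := k) g c))).2 fun y hy => ?_
    have h1 : map (eval y) (DP K (k := k) g c) = 0 := by
      apply MvPolynomial.funext
      intro z
      rw [eval_DP g c (eval y) z, map_zero]
      refine minor_zero _ ?_ g c
      have h2 := hY y hy z
      simp only [eval_X]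
      exact h2
    rw [← coeff_map, h1, coeff_zero]
  have h3 := eval_DP (K := K) g c
    ((aeval η : MvPolynomial (Fin (k + 1) × Fin n × Fin n) K →ₐ[K] Ω) :
      MvPolynomial (Fin (k + 1) × Fin n × Fin n) K →+* Ω) x
  rw [hzero, map_zero] at h3
  simp only [RingHom.coe_coe, aeval_X] at h3
  exact h3.symm

end Pool.Agent.T6.H97.CS
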