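import Pool.Agent.T6.H97.CS.Defs2

/-!
Module RKL (helper60): the elements of the standard space have rank `< r`.
-/

set_option autoImplicit false

universe u

namespace Pool.Agent.T6.H97.CS

open Finset Matrix Module

namespace ModRKL

theorem rank_add {K : Type u} [Field K] {n : ℕ} (A B : Matrix (Fin n) (Fin n) K) :
    (A + B).rank ≤ A.rank + B.rank := by
  unfold Matrix.rank
  have h1 : LinearMap.range (A + B).mulVecLin ≤
      LinearMap.range A.mulVecLin ⊔ LinearMap.range B.mulVecLin := by
    rintro _ ⟨x, rfl⟩
    rw [Matrix.mulVecLin_add, LinearMap.add_apply]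
    exact Submodule.add_mem_sup ⟨x, rfl⟩ ⟨x, rfl⟩
  exact (Submodule.finrank_mono h1).trans (Submodule.finrank_add_le_finrank_add_finrank _ _)

/-- the projection to the first `a` coordinates -/
noncomputable def pr (K : Type u) [Field K] (n a : ℕ) : Matrix (Fin n) (Fin n) K :=
  diagonal fun i => if i.val < a then 1 else 0

theorem rank_pr (K : Type u) [Field K] (n a : ℕ) : (pr K n a).rank ≤ a := by
  classical
  unfold pr
  rw [Matrix.rank_diagonal]
  have h : Fintype.card {i : Fin n // (if i.val < a then (1 : K) else 0) ≠ 0} ≤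
      Fintype.card (Fin a) := by
    refine Fintype.card_le_of_injective (fun i => ⟨i.1.val, ?_⟩) ?_
    · by_contra hlt
      exact i.2 (if_neg hlt)
    · intro i j hij
      have := congrArg Fin.val hij
      exact Subtype.ext (Fin.ext this)
  rwa [Fintype.card_fin] at h

end ModRKL

open ModRKL in
/-- Module RKL. -/
theorem rkl : StmRKL.{u} := by
  classical
  intro K _ n r s M hr hrn hs hM
  have h1 : M = pr K n (r - s - 1) * M + ((1 - pr K n (r - s - 1)) * M) * pr K n s := by
    ext i j
    have h2 : (pr K n (r - s - 1) * M) i j = (if i.val < r - s - 1 then 1 else 0) * M i j := by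
      unfold pr
      rw [Matrix.diagonal_mul]
    have h3 : (((1 - pr K n (r - s - 1)) * M) * pr K n s) i j =
        (M i j - (if i.val < r - s - 1 then 1 else 0) * M i j) *
          (if j.val < s then 1 else 0) := by
      have h4 : ((1 - pr K n (r - s - 1)) * M) = M - pr K n (r - s - 1) * M := by
        rw [Matrix.sub_mul, Matrix.one_mul]
      rw [h4]
      conv_lhs => unfold pr
      rw [Matrix.mul_diagonal, Matrix.sub_apply, Matrix.diagonal_mul]
    rw [Matrix.add_apply, h2, h3]
    by_cases hi : i.val < r - s - 1
    · rw [if_pos hi]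
      ring
    · rw [if_neg hi]
      by_cases hj : j.val < s
      · rw [if_pos hj]
        ring
      · rw [if_neg hj, hM i j (Or.inl ⟨by omega, by omega⟩)]
        ring
  have h2 : (pr K n (r - s - 1) * M).rank ≤ r - s - 1 :=
    (Matrix.rank_mul_le_left _ _).trans (rank_pr K n _)
  have h3 : (((1 - pr K n (r - s - 1)) * M) * pr K n s).rank ≤ s :=
    (Matrix.rank_mul_le_right _ _).trans (rank_pr K n _)
  have h4 := rank_add (pr K n (r - s - 1) * M) (((1 - pr K n (r - s - 1)) * M) * pr K n s)
  rw [← h1] at h4
  omega

end Pool.Agent.T6.H97.CS
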