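import Pool.Agent.T6.H97.CS.Defs2

/-!
Module SPE: specialisation of compression spaces.
-/

set_option autoImplicit false

universe u

namespace Pool.Agent.T6.H97.CS

open Finset Matrix Module

namespace ModSPE

theorem inL_conj {Ω : Type u} [Field Ω] {n r s : ℕ} (N T : Matrix (Fin n) (Fin n) Ω)
    (hT : ∀ i j, i < j → T i j = 0) (hN : InL r s N) : InL r s (Tᵀ * N * T) := by
  intro i j hij
  rw [Matrix.mul_apply]
  refine Finset.sum_eq_zero fun l _ => ?_
  by_cases hl : l < j
  · rw [hT l j hl, mul_zero]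
  rw [Matrix.mul_apply, Finset.sum_eq_zero, zero_mul]
  intro k _
  rw [Matrix.transpose_apply]
  by_cases hk : k < i
  · rw [hT k i hk, zero_mul]
  rw [hN k l, mul_zero]
  rw [not_lt, Fin.le_def] at hl hk
  rcases hij with ⟨h1, h2⟩ | ⟨h1, h2⟩
  · exact Or.inl ⟨by omega, by omega⟩
  · exact Or.inr ⟨by omega, by omega⟩

end ModSPE

open ModSPE in
theorem spe (hI : StmIWA.{u}) (hN : StmNSS.{u}) : StmSPE.{u} := by
  intro K Ω _ _ _ _ Γ _ v hv n r k s M M0 hM hB
  obtain ⟨B, hB, hL⟩ := hB
  obtain ⟨T, hT, -, hBT, hdet⟩ := hI Ω Γ v n B hB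
  have hL' : ∀ l, InL r s ((B * T)ᵀ * M l * (B * T)) := by
    intro l
    have h1 := inL_conj (Bᵀ * M l * B) T hT (hL l)
    rw [Matrix.transpose_mul]
    have h2 : Tᵀ * Bᵀ * M l * (B * T) = Tᵀ * (Bᵀ * M l * B) * T := by
      simp only [Matrix.mul_assoc]
    rw [h2]
    exact h1
  set O := v.valuationSubring with hO
  have hmem : ∀ x : Ω, x ∈ O ↔ v x ≤ 1 := fun x => Iff.rfl
  -- the map from K to O
  have hK : ∀ a : K, v (algebraMap K Ω a) ≤ 1 := by
    intro a
    by_cases ha : a = 0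
    · rw [ha, map_zero, map_zero]
      exact zero_le_one
    · exact (hv a ha).le
  let φ : K →+* O := (algebraMap K Ω).codRestrict O.toSubring hK
  let res : O →+* IsLocalRing.ResidueField O := IsLocalRing.residue O
  letI : Algebra K (IsLocalRing.ResidueField O) := (res.comp φ).toAlgebra
  have halg : ∀ a : K, algebraMap K (IsLocalRing.ResidueField O) a = res (φ a) := fun a => rfl
  have hres : ∀ x : O, v (x : Ω) < 1 → res x = 0 := by
    intro x hx
    rw [IsLocalRing.residue_eq_zero_iff, IsLocalRing.mem_maximalIdeal, mem_nonunits_iff]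
    intro hu
    obtain ⟨y, hy⟩ := hu.exists_right_inv
    have h1 : (x : Ω) * (y : Ω) = 1 := by
      have := congrArg (fun z : O => (z : Ω)) hy
      simpa using this
    have h2 : v (x : Ω) * v (y : Ω) = 1 := by rw [← map_mul, h1, map_one]
    have h3 : v (y : Ω) ≤ 1 := y.2
    have h4 : v (x : Ω) * v (y : Ω) < 1 := by
      calc v (x : Ω) * v (y : Ω) ≤ v (x : Ω) * 1 := by gcongr
        _ < 1 := by rwa [mul_one]
    exact h4.ne h2
  -- the matrices over O
  have hMle : ∀ l i j, v (M l i j) ≤ 1 := by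
    intro l i j
    have h1 : M l i j = (M l i j - algebraMap K Ω (M0 l i j)) + algebraMap K Ω (M0 l i j) := by ring
    rw [h1]
    exact (v.map_add _ _).trans (max_le (hM l i j).le (hK _))
  let BO : Matrix (Fin n) (Fin n) O := Matrix.of fun i j => ⟨(B * T) i j, hBT i j⟩
  let MO : Fin (k + 1) → Matrix (Fin n) (Fin n) O := fun l =>
    Matrix.of fun i j => ⟨M l i j, hMle l i j⟩
  have eB : BO.map (O.subtype : O →+* Ω) = B * T := by
    ext i j
    rfl
  have eM : ∀ l, (MO l).map (O.subtype : O →+* Ω) = M l := by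
    intro l
    ext i j
    rfl
  have hzero : ∀ l i j, ((r - s ≤ i.val + 1 ∧ s + 1 ≤ j.val + 1) ∨
      (s + 1 ≤ i.val + 1 ∧ r - s ≤ j.val + 1)) → (BOᵀ * MO l * BO) i j = 0 := by
    intro l i j hij
    have h1 := hL' l i j hij
    have h2 : ((BOᵀ * MO l * BO).map (O.subtype : O →+* Ω)) = (B * T)ᵀ * M l * (B * T) := by
      rw [Matrix.map_mul, Matrix.map_mul, eM, eB, Matrix.transpose_map, eB]
    rw [← h2] at h1
    apply Subtype.ext
    exact h1
  have eMr : ∀ l, (MO l).map res = (M0 l).map (algebraMap K (IsLocalRing.ResidueField O)) := by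
    intro l
    ext i j
    show res (MO l i j) = res (φ (M0 l i j))
    rw [← sub_eq_zero, ← map_sub]
    exact hres _ (hM l i j)
  have hdetO : IsUnit BO.det := by
    have h1 : ((BO.det : O) : Ω) = (B * T).det := by
      rw [← eB]
      exact RingHom.map_det (O.subtype : O →+* Ω) BO
    have h2 : v ((BO.det : O) : Ω) = 1 := by rw [h1, hdet]
    have h3 : ((BO.det : O) : Ω) ≠ 0 := by
      intro h0
      rw [h0, map_zero] at h2
      exact zero_ne_one h2
    refine IsUnit.of_mul_eq_one ⟨((BO.det : O) : Ω)⁻¹, ?_⟩ ?_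
    · rw [hmem, map_inv₀, h2, inv_one]
    · apply Subtype.ext
      exact mul_inv_cancel₀ h3
  obtain ⟨B0, hB0, hB1⟩ := hN K (IsLocalRing.ResidueField O) n k M0
    (fun i j => (r - s ≤ i.val + 1 ∧ s + 1 ≤ j.val + 1) ∨
      (s + 1 ≤ i.val + 1 ∧ r - s ≤ j.val + 1)) (BO.map res) (by
      have h1 : (BO.map res).det = res BO.det := (RingHom.map_det res BO).symm
      rw [h1]
      exact hdetO.map res) (by
      intro l i j hij
      rw [← eMr, ← Matrix.transpose_map, ← Matrix.map_mul, ← Matrix.map_mul]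
      show res ((BOᵀ * MO l * BO) i j) = 0
      rw [hzero l i j hij, map_zero])
  exact ⟨B0, hB0, fun l i j hij => hB1 l i j hij⟩

end Pool.Agent.T6.H97.CS
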