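import Pool.Agent.T6.H97.CS.Defs2

/-!
MP_f9dfcb_ag, module SQF (helper54): the kernel vector of the net is primitive, the determinant of
the block `d` has no square factor.
-/

set_option autoImplicit false

universe u

namespace Pool.Agent.T6.H97.CS

open Finset Matrix Module MvPolynomial

namespace ModSQF

variable {K : Type u} [Field K] {β μ : Type} [Fintype β] [Fintype μ] [DecidableEq β]
  [DecidableEq μ]

/-- setting `X 1 = 0` -/
noncomputable def ph : MvPolynomial (Fin 2) K →ₐ[K] Polynomial K :=
  aeval ![Polynomial.X, 0]

theorem ph_deg (p : MvPolynomial (Fin 2) K) : (ph p).natDegree ≤ p.totalDegree := by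
  have := MvPolynomial.aeval_natDegree_le p le_rfl (![Polynomial.X, 0] : Fin 2 → Polynomial K)
    (n := 1) (by
      intro i
      fin_cases i
      · simp
      · simp)
  simpa [ph] using this

theorem ph_X0 : ph (X 0 : MvPolynomial (Fin 2) K) = Polynomial.X := by simp [ph]

theorem ph_X1 : ph (X 1 : MvPolynomial (Fin 2) K) = 0 := by simp [ph]

theorem ph_C (a : K) : ph (C a : MvPolynomial (Fin 2) K) = Polynomial.C a := by
  simp [ph, MvPolynomial.algHom_C]

/-- total degree of a determinant -/
theorem det_deg {ι : Type} [Fintype ι] [DecidableEq ι] (M : Matrix ι ι (MvPolynomial (Fin 2) K))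
    (r : ι → ℕ) (h : ∀ i j, (M i j).totalDegree ≤ r i) : M.det.totalDegree ≤ ∑ i, r i := by
  rw [Matrix.det_apply]
  refine (MvPolynomial.totalDegree_finsetSum _ _).trans (Finset.sup_le fun σ _ => ?_)
  have h1 : (Equiv.Perm.sign σ • ∏ i, M (σ i) i).totalDegree ≤ (∏ i, M (σ i) i).totalDegree := by
    rcases Int.units_eq_one_or (Equiv.Perm.sign σ) with h | h
    · rw [h, one_smul]
    · rw [h, Units.neg_smul, one_smul, MvPolynomial.totalDegree_neg]
  refine h1.trans ((MvPolynomial.totalDegree_finsetProd _ _).trans ?_)
  calc ∑ i, (M (σ i) i).totalDegree ≤ ∑ i, r (σ i) := Finset.sum_le_sum fun i _ => h _ _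
    _ = ∑ i, r i := Equiv.sum_comp σ r

theorem cP_deg (lam : Option β → K) (c : Matrix β (Option β) K) (a : β) (y : Option β) :
    (cP lam c a y).totalDegree ≤ 1 := by
  have hC : ∀ x : K, (C x : MvPolynomial (Fin 2) K).totalDegree ≤ 1 := fun x => by
    rw [MvPolynomial.totalDegree_C]; exact zero_le_one
  have hX : ∀ (i : Fin 2) (x : K), (X i * C x : MvPolynomial (Fin 2) K).totalDegree ≤ 1 := by
    intro i x
    refine (MvPolynomial.totalDegree_mul _ _).trans ?_
    rw [MvPolynomial.totalDegree_C, add_zero, MvPolynomial.totalDegree_X]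
  have hL : ∀ x : K, (X 0 - C x : MvPolynomial (Fin 2) K).totalDegree ≤ 1 := by
    intro x
    refine (MvPolynomial.totalDegree_sub _ _).trans (max_le ?_ (hC x))
    rw [MvPolynomial.totalDegree_X]
  unfold cP
  rw [Matrix.of_apply]
  refine (MvPolynomial.totalDegree_add _ _).trans (max_le ?_ (hX 1 _))
  unfold starC
  rw [Matrix.of_apply]
  rcases y with _ | b
  · simp only
    rw [MvPolynomial.totalDegree_neg]
    exact hL _
  · simp only
    split_ifs
    · exact hL _
    · rw [MvPolynomial.totalDegree_zero]; exact zero_le_one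

theorem kv_deg (lam : Option β → K) (c : Matrix β (Option β) K) (y : Option β) :
    (kv (cP lam c) y).totalDegree ≤ Fintype.card β := by
  unfold kv
  refine (det_deg _ (fun z => match z with | none => 0 | some _ => 1) ?_).trans ?_
  · intro z y'
    rcases z with _ | a
    · simp only [Matrix.of_apply]
      rw [Pi.single_apply]
      split_ifs
      · rw [MvPolynomial.totalDegree_one]
      · rw [MvPolynomial.totalDegree_zero]
    · simp only [Matrix.of_apply]
      exact cP_deg lam c a y'
  · rw [Fintype.sum_option]
    simp

theorem dP_deg (th : μ → K) (d : Matrix μ μ K) : (dP th d).det.totalDegree ≤ Fintype.card μ := by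
  refine (det_deg _ (fun _ => 1) ?_).trans (by simp)
  intro i j
  unfold dP
  rw [Matrix.of_apply]
  refine (MvPolynomial.totalDegree_add _ _).trans (max_le ?_ ?_)
  · split_ifs
    · refine (MvPolynomial.totalDegree_sub _ _).trans (max_le ?_ ?_)
      · rw [MvPolynomial.totalDegree_X]
      · rw [MvPolynomial.totalDegree_C]; exact zero_le_one
    · rw [MvPolynomial.totalDegree_zero]; exact zero_le_one
  · refine (MvPolynomial.totalDegree_mul _ _).trans ?_
    rw [MvPolynomial.totalDegree_C, add_zero, MvPolynomial.totalDegree_X]

theorem ph_dP (th : μ → K) (d : Matrix μ μ K) :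
    ph (dP th d).det = ∏ j, (Polynomial.X - Polynomial.C (th j ^ 2)) := by
  rw [← Matrix.det_diagonal, AlgHom.map_det]
  congr 1
  ext1 i j
  simp only [AlgHom.mapMatrix_apply, Matrix.map_apply, dP, Matrix.of_apply, map_add, map_mul,
    ph_X1, zero_mul, add_zero, Matrix.diagonal_apply]
  split_ifs with h
  · subst h
    rw [map_sub, ph_X0, ph_C]
  · rw [map_zero]

theorem ph_kv (lam : Option β → K) (c : Matrix β (Option β) K) (y : Option β) :
    ph (kv (cP lam c) y) = kv (starC fun y => (Polynomial.X - Polynomial.C (lam y))) y := by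
  unfold kv
  rw [AlgHom.map_det]
  congr 1
  ext1 z y'
  rcases z with _ | a
  · simp only [AlgHom.mapMatrix_apply, Matrix.map_apply, Matrix.of_apply]
    rw [Pi.single_apply, Pi.single_apply]
    split_ifs
    · exact map_one _
    · exact map_zero _
  · simp only [AlgHom.mapMatrix_apply, Matrix.map_apply, Matrix.of_apply, cP, map_add, map_mul,
      ph_X1, zero_mul, add_zero, starC]
    rcases y' with _ | b
    · simp only [map_neg, map_sub, ph_X0, ph_C]
    · simp only
      split_ifs
      · rw [map_sub, ph_X0, ph_C]
      · exact map_zero _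

theorem kv_none {R : Type*} [CommRing R] (g : Option β → R) :
    kv (starC g) none = ∏ a, g (some a) := by
  unfold kv
  rw [← Matrix.det_submatrix_equiv_self (Equiv.optionEquivSumPUnit.{0} β).symm]
  have : ((Matrix.of fun z : Option β => match z with
      | none => (Pi.single none 1 : Option β → R)
      | some a => starC g a).submatrix (Equiv.optionEquivSumPUnit.{0} β).symm
        (Equiv.optionEquivSumPUnit.{0} β).symm : Matrix (β ⊕ PUnit.{1}) (β ⊕ PUnit.{1}) R) =
      Matrix.fromBlocks (Matrix.diagonal fun a => g (some a)) (Matrix.of fun _ _ => -g none) 0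
        1 := by
    ext i j
    rcases i with i | i <;> rcases j with j | j
    · simp only [Matrix.submatrix_apply, Equiv.optionEquivSumPUnit_symm_inl, Matrix.of_apply,
        starC, Matrix.fromBlocks_apply₁₁, Matrix.diagonal_apply]
      split_ifs with h
      · rw [h]
      · rfl
    · simp [starC]
    · simp
    · simp
  refine (congrArg Matrix.det this).trans ?_
  rw [Matrix.det_fromBlocks_zero₂₁, Matrix.det_diagonal, Matrix.det_one, mul_one]

theorem kv_some (g : Option β → K) (b : β) (h0 : g (some b) = 0)
    (h : ∀ z, z ≠ some b → g z ≠ 0) : kv (starC g) (some b) ≠ 0 := by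
  unfold kv
  intro hc
  obtain ⟨x, hx, hx'⟩ := Matrix.exists_mulVec_eq_zero_iff.2 hc
  apply hx
  have e1 := congrFun hx' none
  have e2 := congrFun hx' (some b)
  have e3 := fun a => congrFun hx' (some a)
  simp only [Matrix.mulVec, dotProduct, Matrix.of_apply, Pi.zero_apply, Fintype.sum_option,
    starC] at e1 e2 e3
  have f1 : x (some b) = 0 := by
    simpa [Pi.single_apply] using e1
  have f2 : x none = 0 := by
    have : -g none * x none = 0 := by
      simpa [h0] using e2
    rcases mul_eq_zero.1 this with h' | h'
    · exact absurd (neg_eq_zero.1 h') (h none (by simp))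
    · exact h'
  funext z
  rcases z with _ | a
  · exact f2
  · by_cases hab : a = b
    · rw [hab]; exact f1
    · have := e3 a
      have h4 : g (some a) * x (some a) = 0 := by
        simpa [f2] using this
      rcases mul_eq_zero.1 h4 with h' | h'
      · exact absurd h' (h (some a) (by simpa using hab))
      · exact h'

theorem unit_of_deg {p : MvPolynomial (Fin 2) K} (h0 : p ≠ 0) (h : p.totalDegree = 0) :
    IsUnit p := by
  rw [MvPolynomial.totalDegree_eq_zero_iff_eq_C.1 h] at h0 ⊢
  refine (isUnit_iff_ne_zero.2 fun hc => h0 ?_).map C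
  rw [hc, C_0]

end ModSQF

open ModSQF in
theorem sqf : StmSQF.{u} := by
  intro K _ β μ _ _ _ _ lam th c d hG
  obtain ⟨hl, -, ht, -, -⟩ := hG
  have k1 : ph (kv (cP lam c) none) = ∏ a, (Polynomial.X - Polynomial.C (lam (some a))) := by
    rw [ph_kv, kv_none]
  have k2 : (∏ a, (Polynomial.X - Polynomial.C (lam (some a)))).natDegree = Fintype.card β := by
    rw [Polynomial.natDegree_prod_of_monic _ _ fun a _ => Polynomial.monic_X_sub_C _]
    simp
  have k3 : (∏ a, (Polynomial.X - Polynomial.C (lam (some a)))) ≠ 0 :=
    (Polynomial.monic_prod_of_monic _ _ fun a _ => Polynomial.monic_X_sub_C _).ne_zero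
  have k4 : kv (cP lam c) none ≠ 0 := by
    intro h0
    rw [h0, map_zero] at k1
    exact k3 k1.symm
  have d1 := ph_dP th d
  have d2 : (∏ j, (Polynomial.X - Polynomial.C (th j ^ 2))).natDegree = Fintype.card μ := by
    rw [Polynomial.natDegree_prod_of_monic _ _ fun a _ => Polynomial.monic_X_sub_C _,
      Finset.sum_congr rfl fun j _ => Polynomial.natDegree_X_sub_C _]
    simp
  have d3 : (∏ j, (Polynomial.X - Polynomial.C (th j ^ 2))) ≠ 0 :=
    (Polynomial.monic_prod_of_monic _ _ fun a _ => Polynomial.monic_X_sub_C _).ne_zero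
  have d4 : (dP th d).det ≠ 0 := by
    intro h0
    rw [h0, map_zero] at d1
    exact d3 d1.symm
  refine ⟨k4, d4, ?_, ?_⟩
  · intro p hp
    by_contra hc
    push Not at hc
    obtain ⟨h, hh⟩ := hc none
    have hh0 : h ≠ 0 := by
      rintro rfl
      rw [mul_zero] at hh
      exact k4 hh
    have e1 : ph p * ph h = ∏ a, (Polynomial.X - Polynomial.C (lam (some a))) := by
      rw [← map_mul, ← hh, k1]
    have e2 : ph p ≠ 0 := by
      intro h0
      rw [h0, zero_mul] at e1
      exact k3 e1.symm
    have e3 : ph h ≠ 0 := by
      intro h0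
      rw [h0, mul_zero] at e1
      exact k3 e1.symm
    have e4 : IsUnit (ph p) := by
      by_contra hu
      obtain ⟨q, hq, hqp⟩ := WfDvdMonoid.exists_irreducible_factor hu e2
      have hq' : Prime q := hq.prime
      have h5 : q ∣ ∏ a, (Polynomial.X - Polynomial.C (lam (some a))) :=
        hqp.trans (Dvd.intro _ e1)
      obtain ⟨b, -, hb⟩ := (hq'.dvd_finsetProd_iff _).1 h5
      have h6 : (Polynomial.X - Polynomial.C (lam (some b))) ∣ ph p :=
        ((hq.dvd_irreducible_iff_associated (Polynomial.irreducible_X_sub_C _)).1 hb).symm.dvd.trans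
          hqp
      have h7 : (Polynomial.X - Polynomial.C (lam (some b))) ∣
          ph (kv (cP lam c) (some b)) := h6.trans (map_dvd _ (hc (some b)))
      rw [Polynomial.dvd_iff_isRoot, Polynomial.IsRoot.def, ph_kv] at h7
      have h8 : Polynomial.eval (lam (some b))
          (kv (starC fun y => (Polynomial.X - Polynomial.C (lam y))) (some b)) =
          kv (starC fun y => lam (some b) - lam y) (some b) := by
        unfold kv
        rw [← Polynomial.coe_evalRingHom, RingHom.map_det]
        congr 1
        ext1 z y'
        rcases z with _ | a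
        · simp only [RingHom.mapMatrix_apply, Matrix.map_apply, Matrix.of_apply]
          rw [Pi.single_apply, Pi.single_apply]
          split_ifs
          · exact map_one _
          · exact map_zero _
        · simp only [RingHom.mapMatrix_apply, Matrix.map_apply, Matrix.of_apply, starC]
          rcases y' with _ | b'
          · simp
          · simp only
            split_ifs
            · simp
            · exact map_zero _
      rw [h8] at h7
      refine kv_some (fun y => lam (some b) - lam y) b (by simp) ?_ h7
      intro z hz h0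
      exact hz (hl (sub_eq_zero.1 h0)).symm
    have e5 : (ph p).natDegree = 0 := Polynomial.natDegree_eq_zero_of_isUnit e4
    have e6 : (ph h).natDegree = Fintype.card β := by
      have := congrArg Polynomial.natDegree e1
      rw [Polynomial.natDegree_mul e2 e3, e5, zero_add, k2] at this
      exact this
    have e7 := ph_deg h
    have e8 := kv_deg lam c none
    rw [hh, MvPolynomial.totalDegree_mul_of_isDomain hp.ne_zero hh0] at e8
    exact hp.not_isUnit (unit_of_deg hp.ne_zero (by omega))
  · rintro w ⟨h, hh⟩
    have hw0 : w ≠ 0 := by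
      rintro rfl
      rw [mul_zero, zero_mul] at hh
      exact d4 hh
    have hh0 : h ≠ 0 := by
      rintro rfl
      rw [mul_zero] at hh
      exact d4 hh
    have e1 : ph w * ph w * ph h = ∏ j, (Polynomial.X - Polynomial.C (th j ^ 2)) := by
      rw [← map_mul, ← map_mul, ← hh, d1]
    have e2 : ph w ≠ 0 := by
      intro h0
      rw [h0, zero_mul, zero_mul] at e1
      exact d3 e1.symm
    have e3 : ph h ≠ 0 := by
      intro h0
      rw [h0, mul_zero] at e1
      exact d3 e1.symm
    have e4 : IsUnit (ph w) := by
      have hs : (∏ j, (Polynomial.X - Polynomial.C (th j ^ 2))).Separable :=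
        Polynomial.separable_prod_X_sub_C_iff.2 ht
      exact hs.squarefree _ (Dvd.intro _ e1)
    have e5 : (ph w).natDegree = 0 := Polynomial.natDegree_eq_zero_of_isUnit e4
    have e6 : (ph h).natDegree = Fintype.card μ := by
      have := congrArg Polynomial.natDegree e1
      rw [Polynomial.natDegree_mul (mul_ne_zero e2 e2) e3, Polynomial.natDegree_mul e2 e2, e5,
        zero_add, zero_add, d2] at this
      exact this
    have e7 := ph_deg h
    have e8 := dP_deg th d
    rw [hh, MvPolynomial.totalDegree_mul_of_isDomain (mul_ne_zero hw0 hw0) hh0,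
      MvPolynomial.totalDegree_mul_of_isDomain hw0 hw0] at e8
    exact unit_of_deg hw0 (by omega)

end Pool.Agent.T6.H97.CS
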