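import Pool.Agent.T6.H97.CS.Defs2

/-!
MP_f9dfcb_ag (project CS of helper97), module STAR: the standard net is rigid. (helper46)
-/

set_option autoImplicit false

universe u

namespace Pool.Agent.T6.H97.CS

open Finset Matrix Module MvPolynomial

namespace ModSTAR

section KV

variable {R : Type*} [CommRing R] {β : Type} [Fintype β] [DecidableEq β]

/-- the vector of the maximal minors is in the kernel -/
theorem kv_row (c : Matrix β (Option β) R) (a : β) : ∑ y, c a y * kv c y = 0 := by
  set A : Matrix (Option β) (Option β) R := Matrix.of fun z : Option β => match z with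
    | none => c a
    | some a => c a with hA
  have h1 : A.det = 0 := by
    apply det_zero_of_row_eq (i := none) (j := some a) (by simp)
    funext y
    simp [hA]
  have h2 := det_eq_sum_mul_adjugate_row A none
  rw [h1] at h2
  rw [h2]
  refine sum_congr rfl fun y _ => ?_
  rw [adjugate_apply]
  congr 1
  unfold kv
  congr 1
  ext z w
  rcases z with _ | z
  · simp [Matrix.updateRow]
  · simp [Matrix.updateRow, hA]

theorem det_none (g : Option β → R) (A : Matrix (Option β) (Option β) R)
    (h0 : ∀ y, A none y = (Pi.single none 1 : Option β → R) y)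
    (h1 : ∀ a y, A (some a) y = starC g a y) : A.det = ∏ a, g (some a) := by
  have h : A.submatrix (Equiv.optionEquivSumPUnit.{0} β).symm
        (Equiv.optionEquivSumPUnit.{0} β).symm =
      Matrix.fromBlocks (diagonal fun a => g (some a)) (Matrix.of fun _ _ => -g none) 0
        (1 : Matrix PUnit PUnit R) := by
    ext i j
    rcases i with i | i <;> rcases j with j | j
    · simp only [submatrix_apply, Equiv.optionEquivSumPUnit_symm_inl, of_apply, starC,
        fromBlocks_apply₁₁, diagonal_apply, h1]
      split_ifs with h
      · rw [h]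
      · rfl
    · simp [starC, h1]
    · simp [h0]
    · simp [h0]
  rw [← det_submatrix_equiv_self (Equiv.optionEquivSumPUnit.{0} β).symm, h,
    det_fromBlocks_zero₂₁, det_diagonal, det_one, mul_one]

theorem kv_none (g : Option β → R) : kv (starC g) none = ∏ a, g (some a) :=
  det_none g _ (fun _ => rfl) (fun _ _ => rfl)

theorem kv_star [IsDomain R] (g : Option β → R) (hg : ∀ y, g y ≠ 0) (y : Option β) :
    kv (starC g) y = ∏ z ∈ univ.erase y, g z := by
  have h0 : ∀ y, g y * kv (starC g) y = ∏ z, g z := by
    have hn : g none * kv (starC g) none = ∏ z, g z := by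
      rw [kv_none, Fintype.prod_option]
    intro y
    rcases y with _ | a
    · exact hn
    · have h1 := kv_row (starC g) a
      rw [Fintype.sum_option] at h1
      have h2 : ∑ i, starC g a (some i) * kv (starC g) (some i) =
          g (some a) * kv (starC g) (some a) := by
        rw [sum_eq_single a]
        · simp [starC]
        · intro b _ hb
          simp [starC, hb.symm]
        · simp
      rw [h2] at h1
      have h3 : starC g a none = -g none := by simp [starC]
      rw [h3] at h1
      rw [← hn]
      linear_combination h1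
  apply mul_left_cancel₀ (hg y)
  rw [h0 y, mul_prod_erase univ g (mem_univ y)]

end KV

section Std

variable {K : Type u} [Field K] {β μ : Type} [Fintype β] [Fintype μ] [DecidableEq β]
  [DecidableEq μ]

/-- the linear forms -/
noncomputable def l (s : K) : MvPolynomial (Fin 2) K := X 0 - C s + X 1 * C s⁻¹

/-- the intersection of two of the lines -/
def pt (s t : K) : Fin 2 → K := ![s + t, -(s * t)]

theorem eval_l {r : K} (hr : r ≠ 0) (s t : K) :
    eval (pt s t) (l r) = -((r - s) * (r - t)) / r := by
  unfold l pt
  simp
  field_simp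
  ring

theorem l_ne_zero {r : K} (hr : r ≠ 0) : l r ≠ 0 := by
  intro h
  have := eval_l hr 0 0
  rw [h, map_zero] at this
  field_simp at this
  simp at this
  exact hr this

theorem cP_eq (lam : Option β → K) :
    cP lam (starC fun y => (lam y)⁻¹) = starC fun y => l (lam y) := by
  ext1 a y
  rcases y with _ | b
  · simp [cP, starC, l]
    ring
  · simp only [cP, starC, l, of_apply]
    split_ifs with h
    · rfl
    · simp

theorem kv_cP {lam : Option β → K} (hl : ∀ y, lam y ≠ 0) (y : Option β) :
    kv (cP lam (starC fun y => (lam y)⁻¹)) y = ∏ z ∈ univ.erase y, l (lam z) := by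
  rw [cP_eq, kv_star _ (fun y => l_ne_zero (hl y))]

theorem mapid (p : MvPolynomial (Fin 2) K) :
    MvPolynomial.map (algebraMap K K) p = p := by
  rw [Algebra.algebraMap_self, MvPolynomial.map_id]

end Std

end ModSTAR

open ModSTAR in
theorem star : StmSTAR := by
  intro K _ _ β μ _ _ _ _ lam th hG F f w1 w2 hF h3 h2 h4
  obtain ⟨hinj, hl0, hthinj, hth0, hthl⟩ := hG
  have hsub : ∀ {y z : Option β}, y ≠ z → lam y - lam z ≠ 0 :=
    fun h => sub_ne_zero.2 fun e => h (hinj e)
  -- the equations
  have e3 : ∀ a, l (lam (some a)) * w1 a +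
      ∑ z, C (F (some a) z) * ∏ w ∈ univ.erase z, l (lam w) = 0 := by
    intro a
    have h := h3 (some a)
    unfold E3 at h
    simp only [mapid, kv_cP hl0] at h
    rw [← h]
    congr 1
    rw [sum_eq_single a]
    · rw [cP_eq]; simp [starC]
    · intro b _ hb
      rw [cP_eq]; simp [starC, hb]
    · simp
  have e3n : -l (lam none) * ∑ a, w1 a +
      ∑ z, C (F none z) * ∏ w ∈ univ.erase z, l (lam w) = 0 := by
    have h := h3 none
    unfold E3 at h
    simp only [mapid, kv_cP hl0] at h
    rw [← h]
    congr 1
    rw [mul_sum]
    refine sum_congr rfl fun a _ => ?_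
    rw [cP_eq]; simp [starC]
  have e2 : ∀ j, l (th j ^ 2) * w2 j +
      ∑ z, C (f j z) * ∏ w ∈ univ.erase z, l (lam w) = 0 := by
    intro j
    have h := h2 j
    unfold E2 at h
    simp only [mapid, kv_cP hl0] at h
    rw [← h]
    congr 1
    have h5 : ∑ a, (X 1 * C (algebraMap K K ((0 : Matrix β μ K) a j)) * w1 a :
        MvPolynomial (Fin 2) K) = 0 := by
      apply sum_eq_zero
      intro a _
      simp
    rw [h5, zero_add, sum_eq_single j]
    · simp [dP, l]
    · intro i _ hi
      simp [dP, hi.symm, diagonal_apply]
    · simp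
  -- products at points
  have hprod : ∀ (s t : K) (S : Finset (Option β)),
      (eval (pt s t) (∏ w ∈ S, l (lam w)) = 0 ↔ ∃ w ∈ S, lam w = s ∨ lam w = t) := by
    intro s t S
    rw [map_prod, prod_eq_zero_iff]
    refine exists_congr fun w => and_congr_right fun _ => ?_
    rw [eval_l (hl0 w), div_eq_zero_iff]
    simp only [neg_eq_zero, mul_eq_zero, sub_eq_zero, hl0 w, or_false]
  -- `f = 0`
  have hf : f = 0 := by
    ext j z
    have h := congrArg (eval (pt (th j ^ 2) (lam z))) (e2 j)
    rw [map_add, map_mul, eval_l (pow_ne_zero 2 (hth0 j)), map_sum, sum_eq_single z] at h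
    · rw [map_mul, eval_C, sub_self, zero_mul, neg_zero, zero_div, zero_mul, zero_add, map_zero,
        mul_eq_zero] at h
      rcases h with h | h
      · exact h
      · exfalso
        rw [hprod] at h
        obtain ⟨w, hw, h | h⟩ := h
        · exact hthl j w h.symm
        · exact (mem_erase.1 hw).1 (hinj h)
    · intro z' _ hz'
      rw [map_mul]
      apply mul_eq_zero_of_right
      rw [hprod]
      exact ⟨z, mem_erase.2 ⟨hz'.symm, mem_univ _⟩, Or.inr rfl⟩
    · simp
  have hw2 : ∀ j, w2 j = 0 := by
    intro j
    have h := e2 j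
    rw [hf] at h
    simp only [Matrix.zero_apply, C_0, zero_mul, sum_const_zero, add_zero, mul_eq_zero] at h
    exact h.resolve_left (l_ne_zero (pow_ne_zero 2 (hth0 j)))
  -- the diagonal of `F`
  have hdiag : ∀ y, F y y = 0 := by
    intro y
    have key : eval (pt (lam y) 0) (∑ z, C (F y z) * ∏ w ∈ univ.erase z, l (lam w)) = 0 := by
      rcases y with _ | a
      · have h := congrArg (eval (pt (lam none) 0)) e3n
        rw [map_add, map_mul, map_neg, eval_l (hl0 _), sub_self, zero_mul, neg_zero, zero_div,
          neg_zero, zero_mul, zero_add, map_zero] at h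
        exact h
      · have h := congrArg (eval (pt (lam (some a)) 0)) (e3 a)
        rw [map_add, map_mul, eval_l (hl0 _), sub_self, zero_mul, neg_zero, zero_div,
          zero_mul, zero_add, map_zero] at h
        exact h
    rw [map_sum, sum_eq_single y] at key
    · rw [map_mul, eval_C, mul_eq_zero] at key
      rcases key with h | h
      · exact h
      · exfalso
        rw [hprod] at h
        obtain ⟨w, hw, h | h⟩ := h
        · exact (mem_erase.1 hw).1 (hinj h)
        · exact hl0 w h
    · intro z' _ hz'
      rw [map_mul]
      apply mul_eq_zero_of_right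
      rw [hprod]
      exact ⟨y, mem_erase.2 ⟨hz'.symm, mem_univ _⟩, Or.inl rfl⟩
    · simp
  -- cancellation
  have hcan : ∀ y, ∑ z, C (F y z) * ∏ w ∈ univ.erase z, l (lam w) =
      l (lam y) * ∑ z ∈ univ.erase y, C (F y z) * ∏ w ∈ (univ.erase z).erase y, l (lam w) := by
    intro y
    rw [← add_sum_erase univ _ (mem_univ y), hdiag y, C_0, zero_mul, zero_add, mul_sum]
    refine sum_congr rfl fun z hz => ?_
    have hyz : y ∈ (univ : Finset (Option β)).erase z :=
      mem_erase.2 ⟨(mem_erase.1 hz).1.symm, mem_univ _⟩
    rw [← mul_prod_erase _ _ hyz]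
    ring
  have hw1 : ∀ a, w1 a = -∑ z ∈ univ.erase (some a), C (F (some a) z) *
      ∏ w ∈ (univ.erase z).erase (some a), l (lam w) := by
    intro a
    apply mul_left_cancel₀ (l_ne_zero (hl0 (some a)))
    have h := e3 a
    rw [hcan] at h
    linear_combination h
  have hsw : ∑ a, w1 a = ∑ z ∈ univ.erase none, C (F none z) *
      ∏ w ∈ (univ.erase z).erase none, l (lam w) := by
    apply mul_left_cancel₀ (l_ne_zero (hl0 none))
    have h := e3n
    rw [hcan] at h
    linear_combination -h
  -- the values
  have hval : ∀ (y y' : Option β), y ≠ y' →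
      eval (pt (lam y) (lam y')) (∑ z ∈ univ.erase y, C (F y z) *
        ∏ w ∈ (univ.erase z).erase y, l (lam w)) =
      F y y' * eval (pt (lam y) (lam y')) (∏ w ∈ (univ.erase y').erase y, l (lam w)) := by
    intro y y' hne
    rw [map_sum, sum_eq_single y']
    · rw [map_mul, eval_C]
    · intro z hz hz'
      rw [map_mul]
      apply mul_eq_zero_of_right
      rw [hprod]
      exact ⟨y', mem_erase.2 ⟨hne.symm, mem_erase.2 ⟨hz'.symm, mem_univ _⟩⟩, Or.inr rfl⟩
    · intro h
      exact absurd (mem_erase.2 ⟨hne.symm, mem_univ _⟩) h
  have hval0 : ∀ (y u u' : Option β), u ≠ y → u' ≠ y → u ≠ u' →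
      eval (pt (lam u) (lam u')) (∑ z ∈ univ.erase y, C (F y z) *
        ∏ w ∈ (univ.erase z).erase y, l (lam w)) = 0 := by
    intro y u u' h1 h1' h12
    rw [map_sum]
    apply sum_eq_zero
    intro z _
    rw [map_mul]
    apply mul_eq_zero_of_right
    rw [hprod]
    by_cases hz : u = z
    · refine ⟨u', mem_erase.2 ⟨h1', mem_erase.2 ⟨fun e => h12 (hz.trans e.symm), mem_univ _⟩⟩, Or.inr rfl⟩
    · exact ⟨u, mem_erase.2 ⟨h1, mem_erase.2 ⟨hz, mem_univ _⟩⟩, Or.inl rfl⟩
  have hne0 : ∀ (y y' : Option β), eval (pt (lam y) (lam y'))
      (∏ w ∈ (univ.erase y').erase y, l (lam w)) ≠ 0 := by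
    intro y y' h
    rw [hprod] at h
    obtain ⟨w, hw, h | h⟩ := h
    · exact (mem_erase.1 hw).1 (hinj h)
    · exact (mem_erase.1 (mem_erase.1 hw).2).1 (hinj h)
  have hswap : ∀ s t : K, pt s t = pt t s := by
    intro s t
    unfold pt
    rw [add_comm, mul_comm]
  have hFs : ∀ y z, F y z = F z y := fun y z => (hF.apply y z).symm
  have w1v : ∀ a b : β, a ≠ b → eval (pt (lam (some a)) (lam (some b))) (w1 a) =
      -(F (some a) (some b) * eval (pt (lam (some a)) (lam (some b)))
        (∏ w ∈ (univ.erase (some b)).erase (some a), l (lam w))) := by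
    intro a b hab
    rw [hw1, map_neg, hval _ _ (fun e => hab (Option.some_injective _ e))]
  have w1v' : ∀ a b : β, a ≠ b → eval (pt (lam (some a)) (lam (some b))) (w1 b) =
      -(F (some a) (some b) * eval (pt (lam (some a)) (lam (some b)))
        (∏ w ∈ (univ.erase (some b)).erase (some a), l (lam w))) := by
    intro a b hab
    rw [hswap, w1v b a hab.symm, hFs, erase_right_comm]
  have w1n : ∀ b : β, eval (pt (lam (some b)) (lam none)) (w1 b) =
      -(F (some b) none * eval (pt (lam (some b)) (lam none))
        (∏ w ∈ (univ.erase none).erase (some b), l (lam w))) := by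
    intro b
    rw [hw1, map_neg, hval _ _ (by simp)]
  have hoff : ∀ a b : β, a ≠ b → F (some a) (some b) = 0 := by
    intro a b hab
    have hsab : (some a : Option β) ≠ some b := fun e => hab (Option.some_injective _ e)
    have hother : ∀ d : β, d ≠ a → d ≠ b →
        eval (pt (lam (some a)) (lam (some b))) (w1 d) = 0 := by
      intro d hda hdb
      rw [hw1, map_neg, hval0 _ _ _ (fun e => hda (Option.some_injective _ e).symm)
        (fun e => hdb (Option.some_injective _ e).symm) hsab, neg_zero]
    have hpick : ∀ G : β → K, (∑ d, G d * eval (pt (lam (some a)) (lam (some b))) (w1 d)) =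
        (G a + G b) * -(F (some a) (some b) * eval (pt (lam (some a)) (lam (some b)))
        (∏ w ∈ (univ.erase (some b)).erase (some a), l (lam w))) := by
      intro G
      rw [← add_sum_erase univ _ (mem_univ a),
        ← add_sum_erase (univ.erase a) _ (mem_erase.2 ⟨hab.symm, mem_univ b⟩), w1v a b hab,
        w1v' a b hab, sum_eq_zero]
      · ring
      · intro d hd
        rw [hother d (mem_erase.1 (mem_erase.1 hd).2).1 (mem_erase.1 hd).1, mul_zero]
    by_cases h2 : (2 : K) = 0
    · have h := congrArg (eval (pt (lam (some a)) (lam (some b)))) (h4 h2)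
      unfold E4 at h
      simp only [hw2, mul_zero, sum_const_zero, add_zero, map_sum, map_mul, eval_C,
        Algebra.algebraMap_self, RingHom.id_apply, map_zero] at h
      rw [hpick] at h
      rcases mul_eq_zero.1 h with h | h
      · exfalso
        apply hsub hsab
        have : lam (some a) + lam (some b) = lam (some a) - lam (some b) + 2 * lam (some b) := by
          ring
        rw [this, h2, zero_mul, add_zero] at h
        exact h
      · rw [neg_eq_zero, mul_eq_zero] at h
        exact h.resolve_right (hne0 _ _)
    · have h := congrArg (eval (pt (lam (some a)) (lam (some b)))) hsw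
      rw [hval0 none _ _ (by simp) (by simp) hsab, map_sum] at h
      have h5 := hpick (fun _ => 1)
      simp only [one_mul] at h5
      rw [h5] at h
      rcases mul_eq_zero.1 h with h | h
      · exfalso
        apply h2
        rw [← h]; norm_num
      · rw [neg_eq_zero, mul_eq_zero] at h
        exact h.resolve_right (hne0 _ _)
  have hoffn : ∀ b : β, F (some b) none = 0 := by
    intro b
    have hother : ∀ d : β, d ≠ b →
        eval (pt (lam (some b)) (lam none)) (w1 d) = 0 := by
      intro d hdb
      rw [hw1, map_neg, hval0 _ _ _ (fun e => hdb (Option.some_injective _ e).symm)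
        (by simp) (by simp), neg_zero]
    have hpick : ∀ G : β → K, (∑ d, G d * eval (pt (lam (some b)) (lam none)) (w1 d)) =
        G b * -(F (some b) none * eval (pt (lam (some b)) (lam none))
        (∏ w ∈ (univ.erase none).erase (some b), l (lam w))) := by
      intro G
      rw [sum_eq_single b]
      · rw [w1n]
      · intro d _ hd
        rw [hother d hd, mul_zero]
      · simp
    by_cases h2 : (2 : K) = 0
    · have h := congrArg (eval (pt (lam (some b)) (lam none))) (h4 h2)
      unfold E4 at h
      simp only [hw2, mul_zero, sum_const_zero, add_zero, map_sum, map_mul, eval_C,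
        Algebra.algebraMap_self, RingHom.id_apply, map_zero] at h
      rw [hpick] at h
      have h' := (mul_eq_zero.1 h).resolve_left (hl0 _)
      rw [neg_eq_zero, mul_eq_zero] at h'
      exact h'.resolve_right (hne0 _ _)
    · have h := congrArg (eval (pt (lam (some b)) (lam none))) hsw
      rw [map_sum] at h
      have h5 := hpick (fun _ => 1)
      simp only [one_mul] at h5
      rw [h5, hswap, hval none (some b) (by simp), hFs none, erase_right_comm] at h
      have h6 : 2 * (F (some b) none * eval (pt (lam none) (lam (some b)))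
        (∏ w ∈ (univ.erase (some b)).erase none, l (lam w))) = 0 := by
        linear_combination -h
      have h7 := (mul_eq_zero.1 h6).resolve_left h2
      exact (mul_eq_zero.1 h7).resolve_right (hne0 _ _)
  refine ⟨?_, hf⟩
  ext y z
  rcases y with _ | a <;> rcases z with _ | b
  · exact hdiag none
  · rw [hFs]; exact hoffn b
  · exact hoffn a
  · by_cases hab : a = b
    · rw [hab]; exact hdiag _
    · exact hoff a b hab

end Pool.Agent.T6.H97.CS
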