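import Pool.Agent.T6.H97.CS.Defs2

/-!
MP_f9dfcb_ag. Module TRF: the norm estimate which follows from rigidity.
-/

set_option autoImplicit false

universe u

namespace Pool.Agent.T6.H97.CS

open Finset Matrix Module MvPolynomial

namespace ModTRF

/-- The specialisation `X 1 = 0`. -/
noncomputable def sp (K : Type u) [Field K] : MvPolynomial (Fin 2) K →+* MvPolynomial (Fin 2) K :=
  (aeval (R := K) (fun i : Fin 2 => if i = 0 then (X 0 : MvPolynomial (Fin 2) K) else 0)).toRingHom

lemma sp_C {K : Type u} [Field K] (a : K) : sp K (C a) = C a := by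
  simp [sp, MvPolynomial.algebraMap_eq]

lemma sp_X0 {K : Type u} [Field K] : sp K (X 0) = X 0 := by
  simp [sp]

lemma sp_X1 {K : Type u} [Field K] : sp K (X 1) = 0 := by
  simp [sp]

lemma X0_sub_ne {K : Type u} [Field K] (a : K) : (X 0 - C a : MvPolynomial (Fin 2) K) ≠ 0 := by
  intro h
  have h1 := congrArg (fun p => eval (fun _ => a + 1) p) h
  simp at h1

/-- The square block of `cP`. -/
noncomputable def cS {K : Type u} [Field K] {β : Type} [DecidableEq β] (lam : Option β → K)
    (c : Matrix β (Option β) K) : Matrix β β (MvPolynomial (Fin 2) K) :=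
  Matrix.of fun a a' => cP lam c a (some a')

lemma det_cS_ne {K : Type u} [Field K] {β : Type} [Fintype β] [DecidableEq β]
    (lam : Option β → K) (c : Matrix β (Option β) K) : (cS lam c).det ≠ 0 := by
  intro h
  have h1 : sp K (cS lam c).det = 0 := by rw [h, map_zero]
  rw [RingHom.map_det] at h1
  have h2 : (sp K).mapMatrix (cS lam c) = diagonal fun a => (X 0 - C (lam (some a))) := by
    ext1 a a'
    by_cases haa : a = a'
    · subst haa
      simp [cS, cP, starC, sp_C, sp_X0, sp_X1]
    · simp [cS, cP, starC, sp_C, sp_X0, sp_X1, haa]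
  rw [h2, det_diagonal] at h1
  exact (Finset.prod_ne_zero_iff.2 fun a _ => X0_sub_ne _) h1

lemma det_dP_ne {K : Type u} [Field K] {μ : Type} [Fintype μ] [DecidableEq μ]
    (th : μ → K) (d : Matrix μ μ K) : (dP th d).det ≠ 0 := by
  intro h
  have h1 : sp K (dP th d).det = 0 := by rw [h, map_zero]
  rw [RingHom.map_det] at h1
  have h2 : (sp K).mapMatrix (dP th d) = diagonal fun a => (X 0 - C (th a ^ 2)) := by
    ext1 a a'
    by_cases haa : a = a'
    · subst haa
      simp only [RingHom.mapMatrix_apply, Matrix.map_apply, dP, Matrix.of_apply, if_true, map_add,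
        map_sub, map_mul, sp_C, sp_X0, sp_X1, zero_mul, add_zero, diagonal_apply_eq]
    · simp only [RingHom.mapMatrix_apply, Matrix.map_apply, dP, Matrix.of_apply, if_neg haa,
        map_add, map_zero, map_mul, sp_C, sp_X0, sp_X1, zero_mul, add_zero,
        diagonal_apply_ne _ haa]
  rw [h2, det_diagonal] at h1
  exact (Finset.prod_ne_zero_iff.2 fun a _ => X0_sub_ne _) h1

section Inj

variable {K : Type u} [Field K] {β μ : Type} [Fintype β] [Fintype μ] [DecidableEq β]
  [DecidableEq μ]

lemma E3_self (lam : Option β → K) (c : Matrix β (Option β) K)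
    (F : Matrix (Option β) (Option β) K) (w1 : β → MvPolynomial (Fin 2) K) (y : Option β) :
    E3 K lam c F w1 y = ∑ a, cP lam c a y * w1 a + ∑ z, C (F y z) * kv (cP lam c) z := by
  simp only [E3, Algebra.algebraMap_self, MvPolynomial.map_id, RingHom.id_apply]

lemma E2_self (lam : Option β → K) (th : μ → K) (b : Matrix β μ K)
    (c : Matrix β (Option β) K) (d : Matrix μ μ K)
    (f : Matrix μ (Option β) K) (w1 : β → MvPolynomial (Fin 2) K)
    (w2 : μ → MvPolynomial (Fin 2) K) (j : μ) :
    E2 K lam th b c d f w1 w2 j = ∑ a, X 1 * C (b a j) * w1 a + ∑ i, dP th d j i * w2 i +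
      ∑ z, C (f j z) * kv (cP lam c) z := by
  simp only [E2, Algebra.algebraMap_self, MvPolynomial.map_id, RingHom.id_apply]

lemma w1_zero (lam : Option β → K) (c : Matrix β (Option β) K)
    (w1 : β → MvPolynomial (Fin 2) K) (h : ∀ y, E3 K lam c 0 w1 y = 0) : w1 = 0 := by
  apply Matrix.eq_zero_of_vecMul_eq_zero (det_cS_ne lam c)
  funext a'
  have h1 := h (some a')
  rw [E3_self] at h1
  simp only [Matrix.zero_apply, map_zero, zero_mul, Finset.sum_const_zero, add_zero] at h1
  simp only [Matrix.vecMul, dotProduct, Pi.zero_apply]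
  rw [← h1]
  exact Finset.sum_congr rfl fun a _ => by rw [mul_comm]; rfl

lemma w2_zero (lam : Option β → K) (th : μ → K) (b : Matrix β μ K) (c : Matrix β (Option β) K)
    (d : Matrix μ μ K) (w2 : μ → MvPolynomial (Fin 2) K)
    (h : ∀ j, E2 K lam th b c d 0 0 w2 j = 0) : w2 = 0 := by
  apply Matrix.eq_zero_of_mulVec_eq_zero (det_dP_ne th d)
  funext j
  have h1 := h j
  rw [E2_self] at h1
  simp only [Matrix.zero_apply, map_zero, zero_mul, Finset.sum_const_zero, add_zero,
    Pi.zero_apply, mul_zero, zero_add] at h1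
  simp only [Matrix.mulVec, dotProduct, Pi.zero_apply]
  exact h1

/-- A rigid net: the solutions are zero. -/
lemma rig_all {lam : Option β → K} {th : μ → K} {b : Matrix β μ K}
    {c : Matrix β (Option β) K} {d : Matrix μ μ K} (hR : Rig lam th b c d)
    {F : Matrix (Option β) (Option β) K} {f : Matrix μ (Option β) K}
    {w1 : β → MvPolynomial (Fin 2) K} {w2 : μ → MvPolynomial (Fin 2) K} (hF : F.IsSymm)
    (h3 : ∀ y, E3 K lam c F w1 y = 0) (h2 : ∀ j, E2 K lam th b c d f w1 w2 j = 0)
    (h4 : (2 : K) = 0 → E4 K lam th w1 w2 = 0) : F = 0 ∧ f = 0 ∧ w1 = 0 ∧ w2 = 0 := by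
  obtain ⟨hF0, hf0⟩ := hR F f w1 w2 hF h3 h2 h4
  subst hF0 hf0
  have hw1 : w1 = 0 := w1_zero lam c w1 h3
  subst hw1
  exact ⟨rfl, rfl, rfl, w2_zero lam th b c d w2 h2⟩

end Inj

/-! ### Functionals on the coefficients -/

section Fun

variable {K Ω : Type u} [Field K] [Field Ω] [Algebra K Ω] (L : Ω →ₗ[K] K)

/-- The functional applied to the coefficients. -/
noncomputable def LL (w : MvPolynomial (Fin 2) Ω) : MvPolynomial (Fin 2) K :=
  ∑ m ∈ w.support, monomial m (L (coeff m w))

lemma coeff_LL (w : MvPolynomial (Fin 2) Ω) (m : Fin 2 →₀ ℕ) : coeff m (LL L w) = L (coeff m w) := by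
  classical
  rw [LL, coeff_sum]
  simp only [coeff_monomial]
  rw [Finset.sum_ite_eq']
  split_ifs with h
  · rfl
  · rw [notMem_support_iff.1 h, map_zero]

lemma LL_add (w w' : MvPolynomial (Fin 2) Ω) : LL L (w + w') = LL L w + LL L w' := by
  ext m
  rw [coeff_add, coeff_LL, coeff_LL, coeff_LL, coeff_add, map_add]

lemma LL_sum {ι : Type} (s : Finset ι) (w : ι → MvPolynomial (Fin 2) Ω) :
    LL L (∑ i ∈ s, w i) = ∑ i ∈ s, LL L (w i) := by
  ext m
  rw [coeff_LL, coeff_sum, coeff_sum, map_sum]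
  exact Finset.sum_congr rfl fun i _ => (coeff_LL L _ _).symm

lemma LL_mul (p : MvPolynomial (Fin 2) K) (w : MvPolynomial (Fin 2) Ω) :
    LL L (map (algebraMap K Ω) p * w) = p * LL L w := by
  classical
  ext m
  rw [coeff_LL, coeff_mul, coeff_mul, map_sum]
  refine Finset.sum_congr rfl fun i _ => ?_
  rw [coeff_map, coeff_LL, ← Algebra.smul_def, map_smul, smul_eq_mul]

lemma LL_C (a : Ω) (p : MvPolynomial (Fin 2) K) :
    LL L (C a * map (algebraMap K Ω) p) = C (L a) * p := by
  classical
  ext m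
  rw [coeff_LL, coeff_C_mul, coeff_C_mul, coeff_map, mul_comm, ← Algebra.smul_def, map_smul,
    smul_eq_mul, mul_comm]

variable {β μ : Type} [Fintype β] [Fintype μ] [DecidableEq β] [DecidableEq μ]

lemma LL_E3 (lam : Option β → K) (c : Matrix β (Option β) K)
    (F : Matrix (Option β) (Option β) Ω) (w1 : β → MvPolynomial (Fin 2) Ω) (y : Option β) :
    LL L (E3 Ω lam c F w1 y) = E3 K lam c (F.map L) (fun a => LL L (w1 a)) y := by
  rw [E3_self, E3, LL_add, LL_sum, LL_sum]
  congr 1
  · exact Finset.sum_congr rfl fun a _ => LL_mul L _ _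
  · exact Finset.sum_congr rfl fun a _ => LL_C L _ _

lemma LL_E2 (lam : Option β → K) (th : μ → K) (b : Matrix β μ K)
    (c : Matrix β (Option β) K) (d : Matrix μ μ K)
    (f : Matrix μ (Option β) Ω) (w1 : β → MvPolynomial (Fin 2) Ω)
    (w2 : μ → MvPolynomial (Fin 2) Ω) (j : μ) :
    LL L (E2 Ω lam th b c d f w1 w2 j) =
      E2 K lam th b c d (f.map L) (fun a => LL L (w1 a)) (fun i => LL L (w2 i)) j := by
  rw [E2_self, E2, LL_add, LL_add, LL_sum, LL_sum, LL_sum]
  congr 1
  · congr 1
    · refine Finset.sum_congr rfl fun a _ => ?_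
      rw [← LL_mul, map_mul, map_X, map_C]
    · exact Finset.sum_congr rfl fun a _ => LL_mul L _ _
  · exact Finset.sum_congr rfl fun a _ => LL_C L _ _

lemma LL_E4 (lam : Option β → K) (th : μ → K) (w1 : β → MvPolynomial (Fin 2) Ω)
    (w2 : μ → MvPolynomial (Fin 2) Ω) :
    LL L (E4 Ω lam th w1 w2) = E4 K lam th (fun a => LL L (w1 a)) (fun i => LL L (w2 i)) := by
  rw [E4, E4, LL_add, LL_sum, LL_sum]
  simp only [Algebra.algebraMap_self, RingHom.id_apply]
  congr 1
  · refine Finset.sum_congr rfl fun a _ => ?_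
    rw [← LL_mul, map_C]
  · refine Finset.sum_congr rfl fun a _ => ?_
    rw [← LL_mul, map_C]

end Fun

/-- The elements of small valuation. -/
def Mg {K Ω : Type u} [Field K] [Field Ω] [Algebra K Ω] {Γ : Type u}
    [LinearOrderedCommGroupWithZero Γ] (v : Valuation Ω Γ) (hv : Triv K v) (g : Γ) (hg : 0 < g) :
    Submodule K Ω where
  carrier := {x | v x < g}
  add_mem' := fun {x y} hx hy => lt_of_le_of_lt (v.map_add x y) (max_lt hx hy)
  zero_mem' := by
    show v 0 < g
    rw [map_zero]
    exact hg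
  smul_mem' := fun c {x} hx => by
    show v (c • x) < g
    by_cases hc : c = 0
    · rw [hc, zero_smul, map_zero]
      exact hg
    · rw [Algebra.smul_def, map_mul, hv c hc, one_mul]
      exact hx

lemma mem_Mg {K Ω : Type u} [Field K] [Field Ω] [Algebra K Ω] {Γ : Type u}
    [LinearOrderedCommGroupWithZero Γ] (v : Valuation Ω Γ) (hv : Triv K v) (g : Γ) (hg : 0 < g)
    (x : Ω) (h : ∀ L : Ω →ₗ[K] K, (∀ z, v z < g → L z = 0) → L x = 0) : v x < g := by
  by_contra hx
  have hx' : x ∉ Mg v hv g hg := hx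
  obtain ⟨L, hL, hL'⟩ := Submodule.exists_le_ker_of_notMem hx'
  exact hL (h L fun z hz => LinearMap.mem_ker.1 (hL' hz))

end ModTRF

open ModTRF in
theorem trf : StmTRF := by
  intro K Ω _ _ _ Γ _ v hv β μ _ _ _ _ lam th b c d hG hR F f w1 w2 g hF h3 h2 h4
  have hg : 0 < g := lt_of_le_of_lt zero_le (h3 none 0)
  have key : ∀ L : Ω →ₗ[K] K, (∀ z, v z < g → L z = 0) →
      F.map L = 0 ∧ f.map L = 0 ∧ (fun a => LL L (w1 a)) = 0 ∧ (fun i => LL L (w2 i)) = 0 := by
    intro L hL
    refine rig_all hR ?_ ?_ ?_ ?_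
    · exact Matrix.IsSymm.map hF L
    · intro y
      rw [← LL_E3]
      ext m
      rw [coeff_LL, coeff_zero]
      exact hL _ (h3 y m)
    · intro j
      rw [← LL_E2]
      ext m
      rw [coeff_LL, coeff_zero]
      exact hL _ (h2 j m)
    · intro h20
      rw [← LL_E4]
      ext m
      rw [coeff_LL, coeff_zero]
      exact hL _ (h4 h20 m)
  refine ⟨fun y z => ?_, fun j z => ?_, fun a m => ?_, fun j m => ?_⟩
  · refine mem_Mg v hv g hg _ fun L hL => ?_
    exact congrFun (congrFun (key L hL).1 y) z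
  · refine mem_Mg v hv g hg _ fun L hL => ?_
    exact congrFun (congrFun (key L hL).2.1 j) z
  · refine mem_Mg v hv g hg _ fun L hL => ?_
    have := congrArg (coeff m) (congrFun (key L hL).2.2.1 a)
    rw [coeff_LL] at this
    simpa using this
  · refine mem_Mg v hv g hg _ fun L hL => ?_
    have := congrArg (coeff m) (congrFun (key L hL).2.2.2 j)
    rw [coeff_LL] at this
    simpa using this

end Pool.Agent.T6.H97.CS
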