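import Pool.Agent.T6.H97.CS.Defs2

/-!
Module UFD (helper60): symmetric matrices of rank one over a factorial ring.
-/

set_option autoImplicit false

universe u

namespace Pool.Agent.T6.H97.CS

open Finset Matrix Module

namespace ModUFD

theorem prim_dvd {R : Type u} [CommRing R] [IsDomain R] [NormalizedGCDMonoid R] {ι : Type}
    [Fintype ι] (w : ι → R) (hw : (Finset.univ : Finset ι).gcd w = 1) (d x : R)
    (h : ∀ j, d ∣ x * w j) : d ∣ x := by
  have h1 : d ∣ (Finset.univ : Finset ι).gcd (fun j => x * w j) :=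
    Finset.dvd_gcd fun j _ => h j
  have h2 := Finset.gcd_mul_left' (Finset.univ : Finset ι) w x
  rw [hw, mul_one] at h2
  exact h1.trans h2.dvd

end ModUFD

open ModUFD in
/-- Module UFD. -/
theorem ufd : StmUFD.{u} := by
  classical
  intro R _ _ _ ι _ A hA hmin ⟨i0, hi0⟩
  obtain ⟨inst⟩ : Nonempty (NormalizedGCDMonoid R) := inferInstance
  obtain ⟨w, hw, hw1⟩ := Finset.extract_gcd (s := (Finset.univ : Finset ι)) (fun j => A i0 j)
    ⟨i0, Finset.mem_univ _⟩
  set g := (Finset.univ : Finset ι).gcd (fun j => A i0 j) with hg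
  have hw' : ∀ j, A i0 j = g * w j := fun j => hw j (Finset.mem_univ j)
  have hg0 : g ≠ 0 := by
    intro h
    apply hi0
    rw [hw', h, zero_mul]
  have hwi0 : w i0 ≠ 0 := by
    intro h
    apply hi0
    rw [hw', h, mul_zero]
  have hrel : ∀ j k, w i0 * A j k = g * w j * w k := by
    intro j k
    have h1 := hmin i0 i0 j k
    have h2 : A j i0 = A i0 j := hA.apply i0 j
    rw [h2, hw' i0, hw' k, hw' j] at h1
    have h3 : g * (w i0 * A j k) = g * (g * w j * w k) := by
      rw [← mul_assoc, h1]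
      ring
    exact mul_left_cancel₀ hg0 h3
  have hdvd : w i0 ∣ g := by
    refine prim_dvd w hw1 _ _ fun k => ?_
    refine prim_dvd w hw1 _ _ fun j => ?_
    refine ⟨A j k, ?_⟩
    rw [hrel j k]
    ring
  obtain ⟨q, hq⟩ := hdvd
  refine ⟨q, w, ?_, fun j k => ?_, fun p hp => ?_⟩
  · intro h
    apply hg0
    rw [hq, h, mul_zero]
  · apply mul_left_cancel₀ hwi0
    rw [hrel j k, hq]
    ring
  · by_contra hcon
    push Not at hcon
    have h1 : p ∣ (Finset.univ : Finset ι).gcd w := Finset.dvd_gcd fun j _ => hcon j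
    rw [hw1] at h1
    exact hp.not_isUnit (isUnit_of_dvd_one h1)

end Pool.Agent.T6.H97.CS
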