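import Pool.Agent.T6.H97.CS.Defs2

/-!
Module VAL: the generic point of an irreducible set and valuation rings centered at its points.
-/

set_option autoImplicit false

universe u

namespace Pool.Agent.T6.H97.CS

open Finset Matrix Module MvPolynomial

namespace ModVAL

/-- the vanishing ideal -/
def P {K : Type u} [Field K] {X : Type} (Y : Set (X → K)) : Ideal (MvPolynomial X K) where
  carrier := {p | ∀ y ∈ Y, eval y p = 0}
  add_mem' := by
    intro p q hp hq y hy
    rw [map_add, hp y hy, hq y hy, add_zero]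
  zero_mem' := by
    intro y _
    rw [map_zero]
  smul_mem' := by
    intro c p hp y hy
    rw [smul_eq_mul, map_mul, hp y hy, mul_zero]

theorem mem_P {K : Type u} [Field K] {X : Type} {Y : Set (X → K)} {p : MvPolynomial X K} :
    p ∈ P Y ↔ ∀ y ∈ Y, eval y p = 0 := Iff.rfl

theorem prime_P {K : Type u} [Field K] {X : Type} {Y : Set (X → K)} (hY : Y.Nonempty)
    (h : ∀ p q : MvPolynomial X K, (∃ y ∈ Y, eval y p ≠ 0) → (∃ y ∈ Y, eval y q ≠ 0) →
      ∃ y ∈ Y, eval y p ≠ 0 ∧ eval y q ≠ 0) : (P Y).IsPrime := by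
  constructor
  · intro h1
    obtain ⟨y, hy⟩ := hY
    have h2 : (1 : MvPolynomial X K) ∈ P Y := by rw [h1]; trivial
    have h3 := h2 y hy
    rw [map_one] at h3
    exact one_ne_zero h3
  · intro p q hpq
    by_contra hcon
    push Not at hcon
    obtain ⟨hp, hq⟩ := hcon
    rw [mem_P] at hp hq
    push Not at hp hq
    obtain ⟨y, hy, h1, h2⟩ := h p q hp hq
    have h3 := hpq y hy
    rw [map_mul] at h3
    exact mul_ne_zero h1 h2 h3

end ModVAL

open ModVAL in
theorem val : StmVAL.{u} := by
  intro K _ _ ι _ Y hY hprime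
  have hP : (P Y).IsPrime := prime_P hY hprime
  let A : Type u := MvPolynomial ι K ⧸ P Y
  let Fr : Type u := FractionRing A
  let Ω : Type u := AlgebraicClosure Fr
  let f : A →+* Ω := (algebraMap Fr Ω).comp (algebraMap A Fr)
  have hf : Function.Injective f :=
    (algebraMap Fr Ω).injective.comp (IsFractionRing.injective A Fr)
  have hfK : ∀ a : K, f (Ideal.Quotient.mk (P Y) (C a)) = algebraMap K Ω a := by
    intro a
    have h1 : Ideal.Quotient.mk (P Y) (C a) = algebraMap K A a := rfl
    have h2 : algebraMap A Fr (algebraMap K A a) = algebraMap K Fr a :=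
      (IsScalarTower.algebraMap_apply K A Fr a).symm
    have h3 : algebraMap Fr Ω (algebraMap K Fr a) = algebraMap K Ω a :=
      (IsScalarTower.algebraMap_apply K Fr Ω a).symm
    change algebraMap Fr Ω (algebraMap A Fr (Ideal.Quotient.mk (P Y) (C a))) = _
    rw [h1, h2, h3]
  let η : ι → Ω := fun i => f (Ideal.Quotient.mk (P Y) (X i))
  have hη : ∀ p : MvPolynomial ι K, aeval η p = f (Ideal.Quotient.mk (P Y) p) := by
    intro p
    have h1 : (aeval η : MvPolynomial ι K →ₐ[K] Ω).toRingHom =
        f.comp (Ideal.Quotient.mk (P Y)) := by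
      apply MvPolynomial.ringHom_ext
      · intro a
        change aeval η (C a) = f (Ideal.Quotient.mk (P Y) (C a))
        rw [hfK, ← MvPolynomial.algebraMap_eq, AlgHom.commutes]
      · intro i
        change aeval η (X i) = f (Ideal.Quotient.mk (P Y) (X i))
        rw [aeval_X]
    exact congrArg (fun g : MvPolynomial ι K →+* Ω => g p) h1
  refine ⟨Ω, inferInstance, inferInstance, inferInstance, η, ?_, ?_⟩
  · intro p
    rw [hη, map_eq_zero_iff f hf, Ideal.Quotient.eq_zero_iff_mem, mem_P]
  · intro y hy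
    let g : A →+* K := Ideal.Quotient.lift (P Y) (eval y) fun p hp => hp y hy
    have hg : ∀ p, g (Ideal.Quotient.mk (P Y) p) = eval y p := fun p =>
      Ideal.Quotient.lift_mk _ _ _
    let R : Subring Ω := f.range
    let e : A ≃+* R := RingEquiv.ofBijective f.rangeRestrict
      ⟨fun a b hab => hf (congrArg Subtype.val hab), f.rangeRestrict_surjective⟩
    let I : Ideal R := Ideal.comap (g.comp (e.symm : R →+* A)) ⊥
    have hI : I ≠ ⊤ := Ideal.comap_ne_top _ bot_ne_top
    obtain ⟨B, hB1, hB2⟩ := Ideal.image_subset_nonunits_valuationSubring I hI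
    refine ⟨B.ValueGroup, inferInstance, B.valuation, ?_, ?_⟩
    · have hle : ∀ a : K, B.valuation (algebraMap K Ω a) ≤ 1 := by
        intro a
        rw [ValuationSubring.valuation_le_one_iff]
        apply hB1
        rw [← hfK]
        exact ⟨_, rfl⟩
      intro a ha
      have h1 := hle a
      have h2 := hle a⁻¹
      rw [map_inv₀, map_inv₀] at h2
      have h3 : B.valuation (algebraMap K Ω a) ≠ 0 := by
        rw [Valuation.ne_zero_iff]
        exact (map_ne_zero _).2 ha
      refine le_antisymm h1 ?_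
      by_contra hcon
      push Not at hcon
      have h4 : 1 < (B.valuation (algebraMap K Ω a))⁻¹ := (one_lt_inv₀ (zero_lt_iff.2 h3)).2 hcon
      exact absurd h2 (not_le.2 h4)
    · intro i
      unfold Near
      have h1 : η i - algebraMap K Ω (y i) = f (Ideal.Quotient.mk (P Y) (X i - C (y i))) := by
        rw [map_sub, map_sub, hfK]
      rw [h1, ← ValuationSubring.mem_nonunits_iff]
      apply hB2
      refine ⟨⟨f (Ideal.Quotient.mk (P Y) (X i - C (y i))), ⟨_, rfl⟩⟩, ?_, rfl⟩
      change g (e.symm ⟨f (Ideal.Quotient.mk (P Y) (X i - C (y i))), ⟨_, rfl⟩⟩) = 0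
      have h2 : e.symm ⟨f (Ideal.Quotient.mk (P Y) (X i - C (y i))), ⟨_, rfl⟩⟩ =
          Ideal.Quotient.mk (P Y) (X i - C (y i)) := by
        rw [RingEquiv.symm_apply_eq]
        rfl
      rw [h2, hg, map_sub, eval_X, eval_C, sub_self]

end Pool.Agent.T6.H97.CS
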