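import Pool.Agent.T6.H97.CS.Main
import Pool.Agent.T6.H97.CS.Loc
import Pool.Agent.T6.H97.CS.Val
import Pool.Agent.T6.H97.CS.Iwa
import Pool.Agent.T6.H97.CS.Nss
import Pool.Agent.T6.H97.CS.Spe
import Pool.Agent.T6.H97.CS.Rkl
import Pool.Agent.T6.H97.CS.Irr
import Pool.Agent.T6.H97.CS.Cha
import Pool.Agent.T6.H97.CS.Rkg
import Pool.Agent.T6.H97.CS.Star
import Pool.Agent.T6.H97.CS.Lam
import Pool.Agent.T6.H97.CS.Trf
import Pool.Agent.T6.H97.CS.Ufd
import Pool.Agent.T6.H97.CS.Adj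
import Pool.Agent.T6.H97.CS.Sqf
import Pool.Agent.T6.H97.CS.Quu
import Pool.Agent.T6.H97.CS.Rgd
import Pool.Agent.T6.H97.CS.Pen
import Pool.Agent.T6.H97.CS.Lift
import Pool.Agent.T6.H97.CS.Dets
import Pool.Agent.T6.H97.CS.Low
import Pool.Agent.T6.H97.CS.Nrm
import Pool.Agent.T6.H97.CS.Eone
import Pool.Agent.T6.H97.CS.Plu
import Pool.Agent.T6.H97.CS.Dim
import Pool.Agent.T6.H97.CS.Fam
import Pool.Agent.T6.H97.CS.Def
import Pool.Agent.T6.H97.CS.Bas
import Pool.Agent.T6.H97.CS.Par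

/-!
MP_f9dfcb_ag. The theorem from its modules.
-/

set_option autoImplicit false

universe u

namespace Pool.Agent.T6.H97.CS

theorem final : StmMAIN.{u} := by
  have hPen : StmPEN.{u} := pen
  have hLift : StmLIFT.{u} := lift
  have hDets : StmDETS.{u} := dets
  have hLow : StmLOW.{u} := low
  have hNrm : StmNRM.{u} := nrm hLow
  have hQuu : StmQUU.{u} := quu ufd adj sqf
  have hRgd : StmRGD.{u} := rgd trf
  have hEone : StmEONE.{u} := eone hDets hLift hPen hLow hNrm hQuu hRgd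
  have hDef : StmDEF.{u} := deform hDets hLift hPen hLow plu hEone
  have hFam : StmFAM.{u} := fam star lam dim
  have hLoc : StmLOC.{u} := loc hDef hFam bas par
  exact main val (spe iwa nss) hLoc rkl (irr rkl) cha rkg

end Pool.Agent.T6.H97.CS
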