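import Mathlib
import Pool.Agent.T6.H97.CS.Defs

/-!
MP_f9dfcb_ag. The theorem from the local theorem.
-/

set_option autoImplicit false

universe u

namespace Pool.Agent.T6.H97.CS

open Finset Matrix Module MvPolynomial

namespace ModMAIN

theorem inL_sum {K : Type u} [Field K] {n r s : ℕ} {ι : Type} [Fintype ι] (x : ι → K)
    (M : ι → Matrix (Fin n) (Fin n) K) (h : ∀ l, InL r s (M l)) : InL r s (∑ l, x l • M l) := by
  intro i j hij
  rw [Matrix.sum_apply]
  apply Finset.sum_eq_zero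
  intro l _
  rw [Matrix.smul_apply, h l i j hij, smul_zero]

theorem conj_sum {K : Type u} [Field K] {n : ℕ} {ι : Type} [Fintype ι] (x : ι → K)
    (M : ι → Matrix (Fin n) (Fin n) K) (A B : Matrix (Fin n) (Fin n) K) :
    A * (∑ l, x l • M l) * B = ∑ l, x l • (A * M l * B) := by
  rw [Finset.mul_sum, Finset.sum_mul]
  refine Finset.sum_congr rfl fun l _ => ?_
  rw [mul_smul_comm, smul_mul_assoc]

end ModMAIN

open ModMAIN in
theorem main (hV : StmVAL.{u}) (hS : StmSPE.{u}) (hL : StmLOC.{u}) (hK : StmRKL.{u})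
    (hI : StmIRR.{u}) (hC : StmCHA.{u}) (hR : StmRKG.{u}) : StmMAIN.{u} := by
  intro K _ _ n r k s h1 h2 h3 h4 h5
  obtain ⟨M0, hli, hM0, hloc⟩ := hL K n r k s h1 h2 h3 h4 h5
  have hirr := hI K n r k s h1 h2 h3 ⟨M0, hli, hM0⟩
  refine ⟨hirr, fun Z hZ hCZ Q1 hQ1 => ?_⟩
  -- the special point
  have hsymm : ∀ x : Fin (k + 1) → K, (∑ i, x i • M0 i).IsSymm := by
    intro x
    unfold Matrix.IsSymm
    rw [Matrix.transpose_sum]
    refine Finset.sum_congr rfl fun l _ => ?_
    rw [Matrix.transpose_smul, (hM0 l).1]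
  let F0 : Frame K n r k := ⟨M0, hli, fun x => ⟨hsymm x,
    hK K n r s _ h1 h2 h3 (inL_sum x M0 fun l => (hM0 l).2)⟩⟩
  have hQ0 : F0.toFano ∈ Comp K n r k s := by
    refine ⟨1, by simp, ?_⟩
    intro M hM
    obtain ⟨x, rfl⟩ := (Submodule.mem_span_range_iff_exists_fun K).1 hM
    rw [one_mul, Matrix.transpose_one, mul_one]
    exact inL_sum x M0 fun l => (hM0 l).2
  obtain ⟨Y, hYZ, ⟨y0, hy0, e0⟩, ⟨y1, hy1, e1⟩, hYirr⟩ := hC K n r k Z hZ F0.toFano (hCZ hQ0) Q1 hQ1
  let co : Frame K n r k → Fin (k + 1) × Fin n × Fin n → K := fun y t => y.1 t.1 t.2.1 t.2.2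
  obtain ⟨Ω, iF, iA, iAlg, η, hη, hval⟩ := hV K (Fin (k + 1) × Fin n × Fin n) (co '' Y)
    ⟨_, y0, hy0, rfl⟩ (by
      rintro p q ⟨_, ⟨y, hy, rfl⟩, hyp⟩ ⟨_, ⟨y', hy', rfl⟩, hyq⟩
      obtain ⟨y'', hy'', a1, a2⟩ := hYirr p q ⟨y, hy, hyp⟩ ⟨y', hy', hyq⟩
      exact ⟨_, ⟨y'', hy'', rfl⟩, a1, a2⟩)
  let E : Fin (k + 1) → Matrix (Fin n) (Fin n) Ω := fun l => Matrix.of fun i j => η (l, i, j)
  have hEs : ∀ l, (E l).IsSymm := by
    intro l
    ext i j
    show η (l, j, i) = η (l, i, j)
    have h6 : aeval η (X (l, j, i) - X (l, i, j) : MvPolynomial (Fin (k + 1) × Fin n × Fin n) K) =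
        0 := by
      rw [hη]
      rintro _ ⟨y, hy, rfl⟩
      rw [map_sub, eval_X, eval_X, sub_eq_zero]
      show y.1 l j i = y.1 l i j
      have h7 := (y.2.2 (Pi.single l 1)).1
      have h8 : (∑ i, (Pi.single l 1 : Fin (k + 1) → K) i • y.1 i) = y.1 l := by
        rw [Finset.sum_eq_single l]
        · rw [Pi.single_eq_same, one_smul]
        · intro b _ hb
          rw [Pi.single_eq_of_ne hb, zero_smul]
        · intro hl
          exact absurd (Finset.mem_univ l) hl
      rw [h8] at h7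
      exact h7.apply i j
    rw [map_sub, aeval_X, aeval_X, sub_eq_zero] at h6
    exact h6
  have hErk : ∀ x : Fin (k + 1) → Ω, (∑ l, x l • E l).rank < r := by
    apply hR K Ω n r k (co '' Y) η h1 hη
    rintro _ ⟨y, hy, rfl⟩ x
    exact (y.2.2 x).2
  -- the change of bases
  have hsp : Submodule.span K (Set.range y0.1) = Submodule.span K (Set.range M0) :=
    congrArg Subtype.val e0
  have hT : ∀ l, ∃ c : Fin (k + 1) → K, ∑ l', c l' • y0.1 l' = M0 l := by
    intro l
    have : M0 l ∈ Submodule.span K (Set.range y0.1) := by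
      rw [hsp]
      exact Submodule.subset_span ⟨l, rfl⟩
    exact (Submodule.mem_span_range_iff_exists_fun K).1 this
  have hT' : ∀ l, ∃ c : Fin (k + 1) → K, ∑ l', c l' • M0 l' = y0.1 l := by
    intro l
    have : y0.1 l ∈ Submodule.span K (Set.range M0) := by
      rw [← hsp]
      exact Submodule.subset_span ⟨l, rfl⟩
    exact (Submodule.mem_span_range_iff_exists_fun K).1 this
  choose T hT using hT
  choose T' hT' using hT'
  have hTT : ∀ l m, ∑ l', T' l l' * T l' m = if m = l then 1 else 0 := by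
    intro l m
    have h6 : ∑ m, (∑ l', T' l l' * T l' m) • y0.1 m = y0.1 l := by
      rw [← hT' l]
      simp only [Finset.sum_smul]
      rw [Finset.sum_comm]
      refine Finset.sum_congr rfl fun l' _ => ?_
      rw [← hT l', Finset.smul_sum]
      refine Finset.sum_congr rfl fun m _ => ?_
      rw [smul_smul]
    have h7 : ∑ m, (if m = l then (1 : K) else 0) • y0.1 m = y0.1 l := by
      simp
    have h8 := Fintype.linearIndependent_iff.1 y0.2.1
      (fun m => (∑ l', T' l l' * T l' m) - if m = l then 1 else 0) (by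
        simp only [sub_smul, Finset.sum_sub_distrib]
        rw [h6, h7, sub_self]) m
    exact sub_eq_zero.1 h8
  let M : Fin (k + 1) → Matrix (Fin n) (Fin n) Ω := fun l => ∑ l', algebraMap K Ω (T l l') • E l'
  have hME : ∀ l, E l = ∑ l', algebraMap K Ω (T' l l') • M l' := by
    intro l
    have h6 : ∑ l', algebraMap K Ω (T' l l') • M l' =
        ∑ m, algebraMap K Ω (∑ l', T' l l' * T l' m) • E m := by
      simp only [M, Finset.smul_sum, map_sum, Finset.sum_smul, map_mul, smul_smul]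
      rw [Finset.sum_comm]
    rw [h6]
    simp only [hTT]
    rw [Finset.sum_eq_single l]
    · rw [if_pos rfl, map_one, one_smul]
    · intro b _ hb
      rw [if_neg hb, map_zero, zero_smul]
    · intro hl
      exact absurd (Finset.mem_univ l) hl
  obtain ⟨Γ0, iΓ0, v0, hv0, hn0⟩ := hval (co y0) ⟨y0, hy0, rfl⟩
  obtain ⟨Γ1, iΓ1, v1, hv1, hn1⟩ := hval (co y1) ⟨y1, hy1, rfl⟩
  have hle : ∀ a : K, v0 (algebraMap K Ω a) ≤ 1 := by
    intro a
    by_cases ha : a = 0
    · rw [ha, map_zero, map_zero]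
      exact zero_le_one
    · exact (hv0 a ha).le
  obtain ⟨B, hB, hBM⟩ := hloc Ω Γ0 v0 hv0 M (by
      intro l
      unfold Matrix.IsSymm
      simp only [M]
      rw [Matrix.transpose_sum]
      refine Finset.sum_congr rfl fun l' _ => ?_
      rw [Matrix.transpose_smul, hEs l']) (by
      intro l i j
      show v0 (M l i j - algebraMap K Ω (M0 l i j)) < 1
      have h6 : M l i j - algebraMap K Ω (M0 l i j) =
          ∑ l', algebraMap K Ω (T l l') * (η (l', i, j) - algebraMap K Ω (y0.1 l' i j)) := by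
        rw [← hT l]
        simp only [M, Matrix.sum_apply, Matrix.smul_apply, smul_eq_mul, map_sum, map_mul, mul_sub,
          Finset.sum_sub_distrib]
        rfl
      rw [h6]
      apply Valuation.map_sum_lt _ one_ne_zero
      intro l' _
      rw [map_mul]
      have h7 : v0 (η (l', i, j) - algebraMap K Ω (y0.1 l' i j)) < 1 := hn0 (l', i, j)
      calc v0 (algebraMap K Ω (T l l')) * v0 (η (l', i, j) - algebraMap K Ω (y0.1 l' i j))
          ≤ 1 * v0 (η (l', i, j) - algebraMap K Ω (y0.1 l' i j)) := by gcongr; exact hle _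
        _ < 1 := by rw [one_mul]; exact h7) (by
      intro x
      have h6 : ∑ l, x l • M l = ∑ l', (∑ l, x l * algebraMap K Ω (T l l')) • E l' := by
        simp only [M, Finset.smul_sum, Finset.sum_smul, smul_smul]
        rw [Finset.sum_comm]
      rw [h6]
      exact hErk _)
  have hBE : ∀ l, InL r s (Bᵀ * E l * B) := by
    intro l
    rw [hME l, conj_sum]
    exact inL_sum _ _ fun l' => hBM l'
  obtain ⟨B0, hB0, hB1⟩ := hS K Ω Γ1 v1 hv1 n r k s E y1.1 (fun l i j => hn1 (l, i, j))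
    ⟨B, hB, hBE⟩
  refine ⟨B0ᵀ, by rwa [Matrix.det_transpose], ?_⟩
  intro N hN
  rw [← e1] at hN
  obtain ⟨x, rfl⟩ := (Submodule.mem_span_range_iff_exists_fun K).1 hN
  rw [Matrix.transpose_transpose, conj_sum]
  exact inL_sum _ _ fun l => hB1 l

end Pool.Agent.T6.H97.CS
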