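import Pool.Agent.T6.H97.CS.Defs2

/-!
# Module PAR of project CS (MP_f9dfcb_ag): good parameters exist
-/

set_option autoImplicit false

universe u

namespace Pool.Agent.T6.H97.CS

/-- Module PAR: good parameters exist. -/
theorem par : StmPAR := by
  intro K _ _ β μ _ _ _ _
  have : Infinite K := inferInstance
  have : Infinite ({x : K | x ≠ 0} : Set K) := by
    have h : ({x : K | x ≠ 0} : Set K) = ({0} : Set K)ᶜ := by
      ext x; simp
    rw [h]
    exact (Set.Finite.infinite_compl (Set.finite_singleton (0 : K))).to_subtype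
  obtain ⟨s⟩ : Nonempty ((Option β ⊕ μ) ↪ ({x : K | x ≠ 0} : Set K)) := by
    have e := (Fintype.equivFin (Option β ⊕ μ)).toEmbedding
    exact ⟨e.trans (Fin.valEmbedding.trans (Infinite.natEmbedding _))⟩
  have hsq : ∀ j : μ, ∃ z : K, (s (Sum.inr j) : K) = z ^ 2 := by
    intro j
    obtain ⟨z, hz⟩ := IsAlgClosed.exists_pow_nat_eq (s (Sum.inr j) : K) (n := 2) (by norm_num)
    exact ⟨z, hz.symm⟩
  choose th hth using hsq
  refine ⟨fun y => (s (Sum.inl y) : K), th, ?_, ?_, ?_, ?_, ?_⟩
  · intro y y' h
    have h1 : s (Sum.inl y) = s (Sum.inl y') := Subtype.ext h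
    exact Sum.inl_injective (s.injective h1)
  · intro y
    exact (s (Sum.inl y)).2
  · intro j j' h
    have h0 : th j ^ 2 = th j' ^ 2 := h
    have h1 : s (Sum.inr j) = s (Sum.inr j') := Subtype.ext (by rw [hth j, hth j', h0])
    exact Sum.inr_injective (s.injective h1)
  · intro j h
    have h1 := (s (Sum.inr j)).2
    apply h1
    rw [hth j, h]
    ring
  · intro j y h
    rw [← hth j] at h
    have h1 : s (Sum.inr j) = s (Sum.inl y) := Subtype.ext h
    have h2 := s.injective h1
    cases h2

end Pool.Agent.T6.H97.CS
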